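import Pool.Agent.P.MP_8acafb_co.Defs

namespace Pool.Agent.P.MP_8acafb_co

/-- output before the final flush -/
def out : List ℕ → List ℕ → List ℕ
  | _, [] => []
  | st, x :: xs => st.takeWhile (· < x) ++ out (x :: st.dropWhile (· < x)) xs

/-- final stack -/
def stk : List ℕ → List ℕ → List ℕ
  | st, [] => st
  | st, x :: xs => stk (x :: st.dropWhile (· < x)) xs

theorem pass_eq (l : List ℕ) : ∀ st, pass st l = out st l ++ stk st l := by
  induction l with
  | nil => intro st; simp [pass, out, stk]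
  | cons x l ih => intro st; simp [pass, out, stk, ih]

theorem out_append (a b : List ℕ) : ∀ st, out st (a ++ b) = out st a ++ out (stk st a) b := by
  induction a with
  | nil => intro st; simp [out, stk]
  | cons x a ih => intro st; simp [out, stk, ih]

theorem pass_perm (l : List ℕ) : ∀ st, (pass st l).Perm (st ++ l) := by
  induction l with
  | nil => intro st; simp [pass]
  | cons x l ih =>
    intro st
    simp only [pass]
    refine ((ih _).append_left _).trans ?_
    conv_rhs => rw [← List.takeWhile_append_dropWhile (p := (· < x)) (l := st)]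
    rw [List.append_assoc]
    refine List.Perm.append_left _ ?_
    simpa using (List.perm_middle (a := x) (l₁ := st.dropWhile (· < x)) (l₂ := l)).symm

theorem mem_takeWhile_sorted (x : ℕ) (st : List ℕ) (h : st.Pairwise (· ≤ ·)) (e : ℕ) :
    (e ∈ st.takeWhile (· < x) ↔ e ∈ st ∧ e < x) ∧
      (e ∈ st.dropWhile (· < x) ↔ e ∈ st ∧ ¬ e < x) := by
  induction st with
  | nil => simp
  | cons y st ih =>
    rw [List.pairwise_cons] at h
    have ih := ih h.2
    by_cases hy : y < x
    · simp only [List.takeWhile_cons, List.dropWhile_cons, hy, decide_true, if_true,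
        List.mem_cons, ih.1, ih.2]
      constructor
      · constructor
        · rintro (rfl | h1)
          · exact ⟨Or.inl rfl, hy⟩
          · exact ⟨Or.inr h1.1, h1.2⟩
        · rintro ⟨rfl | h1, h2⟩
          · exact Or.inl rfl
          · exact Or.inr ⟨h1, h2⟩
      · constructor
        · rintro ⟨h1, h2⟩; exact ⟨Or.inr h1, h2⟩
        · rintro ⟨rfl | h1, h2⟩
          · exact absurd hy h2
          · exact ⟨h1, h2⟩
    · simp only [List.takeWhile_cons, List.dropWhile_cons, hy, decide_false, List.mem_cons]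
      constructor
      · simp only [Bool.false_eq_true, if_false, List.not_mem_nil, false_iff]
        rintro ⟨rfl | h1, h2⟩
        · exact hy h2
        · exact hy ((h.1 e h1).trans_lt h2)
      · simp only [Bool.false_eq_true, if_false, List.mem_cons]
        constructor
        · rintro (rfl | h1)
          · exact ⟨Or.inl rfl, hy⟩
          · exact ⟨Or.inr h1, fun h2 => hy ((h.1 e h1).trans_lt h2)⟩
        · exact fun h1 => h1.1

theorem push_sorted (x : ℕ) (st : List ℕ) (h : st.Pairwise (· ≤ ·)) :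
    (x :: st.dropWhile (· < x)).Pairwise (· ≤ ·) := by
  rw [List.pairwise_cons]
  refine ⟨fun e he => not_lt.1 ((mem_takeWhile_sorted x st h e).2.1 he).2, ?_⟩
  exact h.sublist (List.dropWhile_sublist _)

theorem stk_sorted (l : List ℕ) : ∀ st : List ℕ, st.Pairwise (· ≤ ·) →
    (stk st l).Pairwise (· ≤ ·) := by
  induction l with
  | nil => intro st h; exact h
  | cons x l ih => intro st h; exact ih _ (push_sorted x st h)

theorem pass_sorted (l : List ℕ) : ∀ st : List ℕ, st.Pairwise (· ≤ ·) → l.Pairwise (· ≤ ·) →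
    (pass st l).Pairwise (· ≤ ·) := by
  induction l with
  | nil => intro st h _; exact h
  | cons x l ih =>
    intro st h hl
    rw [List.pairwise_cons] at hl
    simp only [pass]
    rw [List.pairwise_append]
    refine ⟨h.sublist (List.takeWhile_sublist _), ih _ (push_sorted x st h) hl.2, ?_⟩
    intro a ha b hb
    have h1 := ((mem_takeWhile_sorted x st h a).1.1 ha).2
    have h2 := (pass_perm l _).subset hb
    simp only [List.cons_append, List.mem_cons, List.mem_append] at h2
    rcases h2 with rfl | h2 | h2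
    · exact h1.le
    · exact h1.le.trans (not_lt.1 ((mem_takeWhile_sorted x st h b).2.1 h2).2)
    · exact h1.le.trans (hl.1 b h2)

theorem out_sorted (l st : List ℕ) (h : st.Pairwise (· ≤ ·)) (hl : l.Pairwise (· ≤ ·)) :
    (out st l).Pairwise (· ≤ ·) := by
  have := pass_sorted l st h hl
  rw [pass_eq, List.pairwise_append] at this
  exact this.1

theorem mem_out (l : List ℕ) (e : ℕ) : ∀ st : List ℕ, st.Pairwise (· ≤ ·) →
    l.Pairwise (· ≤ ·) → (e ∈ out st l ↔ (e ∈ st ∨ e ∈ l) ∧ ∃ m ∈ l, e < m) := by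
  induction l with
  | nil => intro st _ _; simp [out]
  | cons x l ih =>
    intro st h hl
    rw [List.pairwise_cons] at hl
    have h1 := mem_takeWhile_sorted x st h e
    simp only [out, List.mem_append, ih _ (push_sorted x st h) hl.2, List.mem_cons, h1.1, h1.2]
    constructor
    · rintro (⟨h2, h3⟩ | ⟨h2, m, hm, h3⟩)
      · exact ⟨Or.inl h2, x, Or.inl rfl, h3⟩
      · refine ⟨?_, m, Or.inr hm, h3⟩
        tauto
    · rintro ⟨h2, m, hm, h3⟩
      by_cases hx : e < x
      · rcases h2 with h2 | rfl | h2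
        · exact Or.inl ⟨h2, hx⟩
        · exact absurd hx (lt_irrefl _)
        · exact absurd hx (not_lt.2 (hl.1 e h2))
      · rcases hm with rfl | hm
        · exact absurd h3 hx
        · refine Or.inr ⟨?_, m, hm, h3⟩
          tauto

/-- output of one pass before the flush -/
def D (l : List ℕ) : List ℕ := out [] l
/-- stack content at the end of one pass -/
def S (l : List ℕ) : List ℕ := stk [] l

theorem s_eq (l : List ℕ) : s l = D l ++ S l := pass_eq l []

theorem s_perm (l : List ℕ) : (s l).Perm l := by simpa [s] using pass_perm l []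

theorem iter_s_perm (k : ℕ) (l : List ℕ) : (s^[k] l).Perm l := by
  induction k with
  | zero => exact List.Perm.refl _
  | succ k ih => rw [Function.iterate_succ_apply']; exact (s_perm _).trans ih

theorem DS_perm (l : List ℕ) : (D l ++ S l).Perm l := s_eq l ▸ s_perm l

theorem D_append (a b : List ℕ) : D (a ++ b) = D a ++ out (S a) b := out_append a b []

theorem S_sorted (l : List ℕ) : (S l).Pairwise (· ≤ ·) := stk_sorted l [] (by simp)

theorem D_subset (l : List ℕ) : D l ⊆ l := fun _ he =>
  (DS_perm l).subset (List.mem_append_left _ he)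

theorem D_nodup (l : List ℕ) (h : l.Nodup) : (D l).Nodup :=
  (List.nodup_append.1 ((DS_perm l).nodup_iff.2 h)).1

theorem mem_S (l : List ℕ) (h : l.Nodup) (e : ℕ) : e ∈ S l ↔ e ∈ l ∧ e ∉ D l := by
  have h1 := List.nodup_append.1 ((DS_perm l).nodup_iff.2 h)
  constructor
  · intro he
    exact ⟨(DS_perm l).subset (List.mem_append_right _ he), fun h2 => h1.2.2 e h2 e he rfl⟩
  · rintro ⟨h2, h3⟩
    rcases List.mem_append.1 ((DS_perm l).symm.subset h2) with h4 | h4
    · exact absurd h4 h3
    · exact h4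

theorem stk_ne_nil (l : List ℕ) : ∀ st : List ℕ, st ≠ [] → stk st l ≠ [] := by
  induction l with
  | nil => intro st h; exact h
  | cons x l ih => intro st _; exact ih _ (by simp)

theorem length_D (l : List ℕ) : (D l).length ≤ l.length - 1 := by
  cases l with
  | nil => simp [D, out]
  | cons x l =>
    have h1 := (DS_perm (x :: l)).length_eq
    have h2 : S (x :: l) ≠ [] := stk_ne_nil l _ (by simp)
    have h3 := List.length_pos_iff.2 h2
    rw [List.length_append] at h1
    omega

theorem length_iter_D (k : ℕ) (l : List ℕ) : (D^[k] l).length ≤ l.length - k := by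
  induction k with
  | zero => simp
  | succ k ih =>
    rw [Function.iterate_succ_apply']
    have := length_D (D^[k] l)
    omega

theorem iter_D_nodup (k : ℕ) (l : List ℕ) (h : l.Nodup) : (D^[k] l).Nodup := by
  induction k with
  | zero => exact h
  | succ k ih => rw [Function.iterate_succ_apply']; exact D_nodup _ ih

theorem iter_D_anti (l : List ℕ) {j k : ℕ} (h : j ≤ k) : D^[k] l ⊆ D^[j] l := by
  induction k, h using Nat.le_induction with
  | base => exact fun _ h => h
  | succ k _ ih => rw [Function.iterate_succ_apply']; exact fun e he => ih (D_subset _ he)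

theorem iter_D_init (k : ℕ) (p q : List ℕ) : ∃ r, s^[k] (p ++ q) = D^[k] p ++ r := by
  induction k with
  | zero => exact ⟨q, rfl⟩
  | succ k ih =>
    obtain ⟨r, hr⟩ := ih
    rw [Function.iterate_succ_apply', Function.iterate_succ_apply', hr, s_eq, D_append,
      List.append_assoc]
    exact ⟨_, rfl⟩

theorem ex_rank (p : List ℕ) (e : ℕ) : ∃ k, e ∉ D^[k] p := by
  refine ⟨p.length, fun h => ?_⟩
  have h1 := length_iter_D p.length p
  have h2 := List.length_pos_of_mem h
  omega

/-- the index of the stack that holds `e` after reading `p` (0 if `e` is not in `p`) -/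
def rk (p : List ℕ) (e : ℕ) : ℕ := Nat.find (ex_rank p e)

theorem lt_rk (p : List ℕ) (e k : ℕ) : k < rk p e ↔ e ∈ D^[k] p := by
  rw [rk, Nat.lt_find_iff]
  constructor
  · intro h; simpa using h k le_rfl
  · intro h m hm; simpa using iter_D_anti p hm h

theorem rk_pos (p : List ℕ) (e : ℕ) : 0 < rk p e ↔ e ∈ p := lt_rk p e 0

theorem rk_eq_zero (p : List ℕ) (e : ℕ) (h : e ∉ p) : rk p e = 0 := by
  by_contra h1
  exact h ((rk_pos p e).1 (Nat.pos_of_ne_zero h1))

/-- entries that leave the `k`-th stack when `x` arrives after `p` -/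
def Mv (p : List ℕ) (x : ℕ) : ℕ → List ℕ
  | 0 => [x]
  | k + 1 => out (S (D^[k] p)) (Mv p x k)

theorem iter_D_snoc (p : List ℕ) (x k : ℕ) : D^[k] (p ++ [x]) = D^[k] p ++ Mv p x k := by
  induction k with
  | zero => rfl
  | succ k ih =>
    rw [Function.iterate_succ_apply', Function.iterate_succ_apply', ih, D_append, Mv]

theorem Mv_sorted (p : List ℕ) (x k : ℕ) : (Mv p x k).Pairwise (· ≤ ·) := by
  induction k with
  | zero => simp [Mv]
  | succ k ih => exact out_sorted _ _ (S_sorted _) ih

section arrival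
variable {p : List ℕ} {x : ℕ} (hn : (p ++ [x]).Nodup)
include hn

theorem mem_Mv (k e : ℕ) : e ∈ Mv p x k ↔ rk p e ≤ k ∧ k < rk (p ++ [x]) e := by
  have h1 := iter_D_nodup k _ hn
  rw [iter_D_snoc] at h1
  rw [lt_rk, ← not_lt, lt_rk, iter_D_snoc, List.mem_append]
  constructor
  · intro h
    exact ⟨fun h2 => (List.nodup_append.1 h1).2.2 e h2 e h rfl, Or.inr h⟩
  · rintro ⟨h2, h3 | h3⟩
    · exact absurd h3 h2
    · exact h3

theorem mem_Mv_succ (k e : ℕ) : e ∈ Mv p x (k + 1) ↔
    (rk p e = k + 1 ∨ e ∈ Mv p x k) ∧ ∃ m ∈ Mv p x k, e < m := by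
  have hp : p.Nodup := (List.nodup_append.1 hn).1
  rw [Mv, mem_out _ _ _ (S_sorted _) (Mv_sorted p x k), mem_S _ (iter_D_nodup k p hp),
    ← Function.iterate_succ_apply' D k p, ← lt_rk, ← lt_rk]
  have : (k < rk p e ∧ ¬ k.succ < rk p e) ↔ rk p e = k + 1 := by omega
  rw [this]

omit hn in
theorem rk_mono_one (e : ℕ) : rk p e ≤ rk (p ++ [x]) e := by
  by_contra h
  have h1 := (lt_rk p e _).1 (not_le.1 h)
  have h2 : e ∈ D^[rk (p ++ [x]) e] (p ++ [x]) := by
    rw [iter_D_snoc]; exact List.mem_append_left _ h1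
  exact lt_irrefl _ ((lt_rk _ _ _).2 h2)

theorem rk_new : rk (p ++ [x]) x = 1 := by
  have hx : x ∉ p := fun h => (List.nodup_append.1 hn).2.2 x h x (by simp) rfl
  have h0 := rk_eq_zero p x hx
  have h1 : 0 < rk (p ++ [x]) x := (rk_pos _ _).2 (by simp)
  by_contra h
  have h2 : x ∈ Mv p x (0 + 1) := (mem_Mv hn _ _).2 ⟨by omega, by omega⟩
  obtain ⟨_, m, hm, h3⟩ := (mem_Mv_succ hn _ _).1 h2
  simp only [Mv, List.mem_singleton] at hm
  omega

theorem Mv_down (y : ℕ) (k : ℕ) (hy : y ∈ Mv p x k) (j : ℕ) (hj : j ≤ k) :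
    ∃ m ∈ Mv p x j, y ≤ m := by
  induction k generalizing y with
  | zero => obtain rfl : j = 0 := by omega
            exact ⟨y, hy, le_rfl⟩
  | succ k ih =>
    rcases Nat.lt_or_ge j (k + 1) with h | h
    · obtain ⟨_, m, hm, h3⟩ := (mem_Mv_succ hn _ _).1 hy
      obtain ⟨m', hm', h4⟩ := ih m hm (by omega)
      exact ⟨m', hm', by omega⟩
    · obtain rfl : j = k + 1 := by omega
      exact ⟨y, hy, le_rfl⟩

/-- F5 -/
theorem smaller_moves (y k e : ℕ) (hy : y ∈ Mv p x k) (he : e ∈ p ++ [x]) (hlt : e < y) :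
    k + 1 < rk (p ++ [x]) e := by
  have key : ∀ j, j ≤ k + 1 → j < rk (p ++ [x]) e := by
    intro j
    induction j with
    | zero => intro _; exact (rk_pos _ _).2 he
    | succ j ih =>
      intro hj
      have h1 := ih (by omega)
      obtain ⟨m, hm, h2⟩ := Mv_down hn y k hy j (by omega)
      have hmono := rk_mono_one (p := p) (x := x) e
      by_cases h3 : j + 1 < rk p e
      · omega
      · have : e ∈ Mv p x (j + 1) := by
          refine (mem_Mv_succ hn _ _).2 ⟨?_, m, hm, by omega⟩
          by_cases h4 : rk p e = j + 1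
          · exact Or.inl h4
          · exact Or.inr ((mem_Mv hn _ _).2 ⟨by omega, h1⟩)
        exact ((mem_Mv hn _ _).1 this).2
  exact key _ le_rfl

/-- F4, one step -/
theorem rk_lt_one (e f : ℕ) (hef : e < f) (h : rk p f < rk p e) :
    rk (p ++ [x]) f < rk (p ++ [x]) e := by
  have h1 := rk_mono_one (p := p) (x := x) e
  have h2 := rk_mono_one (p := p) (x := x) f
  by_cases h3 : rk (p ++ [x]) f = rk p f
  · omega
  · obtain ⟨k, hk⟩ : ∃ k, rk (p ++ [x]) f = k + 1 := ⟨rk (p ++ [x]) f - 1, by omega⟩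
    have h4 : f ∈ Mv p x k := (mem_Mv hn _ _).2 ⟨by omega, by omega⟩
    have := smaller_moves hn f k e h4 ((rk_pos _ _).1 (by omega)) hef
    omega

/-- F3 -/
theorem exists_larger (y k : ℕ) (h1 : rk p y < k + 2) (h2 : rk (p ++ [x]) y = k + 2) :
    ∃ z, y < z ∧ rk p z < k + 1 ∧ rk (p ++ [x]) z = k + 1 := by
  have h3 : y ∈ Mv p x (k + 1) := (mem_Mv hn _ _).2 ⟨by omega, by omega⟩
  obtain ⟨_, m, hm, h4⟩ := (mem_Mv_succ hn _ _).1 h3
  obtain ⟨z, hz, hmax⟩ := Finset.exists_max_image (Mv p x k).toFinset id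
    ⟨m, List.mem_toFinset.2 hm⟩
  rw [List.mem_toFinset] at hz
  have h5 := (mem_Mv hn _ _).1 hz
  have h6 : m ≤ z := hmax m (List.mem_toFinset.2 hm)
  refine ⟨z, by omega, by omega, ?_⟩
  by_contra h7
  have h8 : z ∈ Mv p x (k + 1) := (mem_Mv hn _ _).2 ⟨by omega, by omega⟩
  obtain ⟨_, m', hm', h9⟩ := (mem_Mv_succ hn _ _).1 h8
  have : m' ≤ z := hmax m' (List.mem_toFinset.2 hm')
  omega

end arrival

theorem rk_mono (p u : List ℕ) (e : ℕ) : rk p e ≤ rk (p ++ u) e := by
  induction u generalizing p with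
  | nil => simp
  | cons x u ih =>
    have := ih (p ++ [x])
    rw [List.append_assoc, List.singleton_append] at this
    exact (rk_mono_one e).trans this

theorem rk_lt (p u : List ℕ) (hn : (p ++ u).Nodup) (e f : ℕ) (hef : e < f)
    (h : rk p f < rk p e) : rk (p ++ u) f < rk (p ++ u) e := by
  induction u generalizing p with
  | nil => simpa using h
  | cons x u ih =>
    have h1 : p ++ x :: u = (p ++ [x]) ++ u := by simp
    rw [h1] at hn ⊢
    exact ih _ hn (rk_lt_one (List.nodup_append.1 hn).1 e f hef h)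

/-- the re-ranking lemma -/
theorem rk_stable (p u : List ℕ) (hn : (p ++ u).Nodup) (y v : ℕ) (hy : y ∈ p) (hyv : y < v)
    (h : rk (p ++ u) y = rk (p ++ u) v) : rk p v = rk (p ++ u) v := by
  induction u generalizing p with
  | nil => simp
  | cons x u ih =>
    have h1 : p ++ x :: u = (p ++ [x]) ++ u := by simp
    rw [h1] at hn h ⊢
    have hn' := (List.nodup_append.1 hn).1
    have h2 := ih _ hn (List.mem_append_left _ hy) h
    by_contra h3
    have h4 := rk_mono_one (p := p) (x := x) v
    obtain ⟨k, hk⟩ : ∃ k, rk (p ++ [x]) v = k + 1 := ⟨rk (p ++ [x]) v - 1, by omega⟩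
    have h5 : v ∈ Mv p x k := (mem_Mv hn' _ _).2 ⟨by omega, by omega⟩
    have h6 := smaller_moves hn' v k y h5 (List.mem_append_left _ hy) hyv
    have h7 := rk_mono (p ++ [x]) u y
    omega

/-- entries of equal rank appear in decreasing order -/
theorem rk_pairwise (w : List ℕ) (hn : w.Nodup) :
    w.Pairwise (fun a b => rk w a = rk w b → b < a) := by
  rw [List.pairwise_iff_forall_sublist]
  intro a b hab h
  obtain ⟨r1, r2, hw, ha, hb⟩ := List.cons_sublist_iff.1 hab
  rw [List.singleton_sublist] at hb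
  obtain ⟨r3, r4, rfl⟩ := List.append_of_mem hb
  have hw' : w = (r1 ++ r3) ++ b :: r4 := by simp [hw]
  have hb' : b ∉ r1 ++ r3 := fun h2 => by
    rw [hw'] at hn
    exact (List.nodup_append.1 hn).2.2 b h2 b (by simp) rfl
  have ha' : a ∈ r1 ++ r3 := List.mem_append_left _ ha
  by_contra h3
  have h4 : a < b := lt_of_le_of_ne (not_lt.1 h3) (fun h5 => hb' (h5 ▸ ha'))
  have h5 := rk_lt (r1 ++ r3) (b :: r4) (hw' ▸ hn) a b h4
    (by rw [rk_eq_zero _ _ hb']; exact (rk_pos _ _).2 ha')
  rw [← hw'] at h5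
  omega

/-- in a sortable word an entry with a smaller entry still to come has rank at most `t` -/
theorem rk_le_of_sorted (t : ℕ) (p q : List ℕ) (hn : (p ++ q).Nodup)
    (hs : (s^[t] (p ++ q)).Pairwise (· ≤ ·)) (v y : ℕ) (hy : y ∈ q) (hyv : y < v) :
    rk p v ≤ t := by
  by_contra h
  have h1 := (lt_rk p v t).1 (not_le.1 h)
  obtain ⟨r, hr⟩ := iter_D_init t p q
  have h2 : y ∈ s^[t] (p ++ q) := (iter_s_perm t _).symm.subset (List.mem_append_right _ hy)
  rw [hr] at hs h2
  rcases List.mem_append.1 h2 with h3 | h3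
  · exact (List.nodup_append.1 hn).2.2 y (iter_D_anti p (Nat.zero_le t) h3) y hy rfl
  · have := (List.pairwise_append.1 hs).2.2 v h1 y h3
    omega

end Pool.Agent.P.MP_8acafb_co
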