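import Mathlib

namespace Pool.Agent.P.MP_8acafb_co

/-- One pass through the stack. The first argument is the stack (top first), the second the
remaining input. Before the next input letter `x` is pushed, the entries smaller than `x` on top
of the stack are popped to the output; at the end the stack is emptied. -/
def pass : List ℕ → List ℕ → List ℕ
  | st, [] => st
  | st, x :: xs => st.takeWhile (· < x) ++ pass (x :: st.dropWhile (· < x)) xs

/-- West's stack sorting map `s`. -/
def s (l : List ℕ) : List ℕ := pass [] l

/-- `W t n` is the number of permutations of `0, 1, ..., n-1` (in one-line form) that `t`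
applications of `s` turn into the increasing word. -/
def W (t n : ℕ) : ℕ :=
  ((List.range n).permutations.toFinset.filter (fun l => s^[t] l = List.range n)).card

/-! Sanity check: `s` satisfies the recursion `s(LMR) = s(L) s(R) M` of the problem. -/

theorem takeWhile_append_big (x : ℕ) (a b : List ℕ) (hb : ∀ y ∈ b, ¬ y < x) :
    (a ++ b).takeWhile (· < x) = a.takeWhile (· < x) ∧
      (a ++ b).dropWhile (· < x) = a.dropWhile (· < x) ++ b := by
  induction a with
  | nil =>
    cases b with
    | nil => simp
    | cons y b => simp [hb y (by simp)]
  | cons y a ih => by_cases h : y < x <;> simp [h, ih.1, ih.2]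

theorem pass_append_big (R : List ℕ) : ∀ (a b : List ℕ), (∀ x ∈ R, ∀ y ∈ b, ¬ y < x) →
    pass (a ++ b) R = pass a R ++ b := by
  induction R with
  | nil => intro a b _; rfl
  | cons x R ih =>
    intro a b h
    have h1 := takeWhile_append_big x a b (h x (by simp))
    have h2 := ih (x :: a.dropWhile (· < x)) b (fun z hz => h z (by simp [hz]))
    simp only [pass, h1.1, h1.2, List.append_assoc]
    rw [← List.cons_append, h2]

theorem pass_split (M : ℕ) (R b : List ℕ) (hb : ∀ y ∈ b, ¬ y < M) (L : List ℕ) :
    ∀ a : List ℕ, (∀ x ∈ a, x < M) → (∀ x ∈ L, x < M) →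
      pass (a ++ b) (L ++ M :: R) = pass a L ++ pass (M :: b) R := by
  induction L with
  | nil =>
    intro a ha _
    have h1 := takeWhile_append_big M a b hb
    have h2 : a.takeWhile (· < M) = a := List.takeWhile_eq_self_iff.2 (by simpa using ha)
    have h3 : a.dropWhile (· < M) = [] := List.dropWhile_eq_nil_iff.2 (by simpa using ha)
    simp only [pass, List.nil_append, h1.1, h1.2, h2, h3]
  | cons x L ih =>
    intro a ha hL
    have hx : x < M := hL x (by simp)
    have h1 := takeWhile_append_big x a b (fun y hy h => hb y hy (h.trans hx))
    have h2 := ih (x :: a.dropWhile (· < x))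
      (by
        intro z hz
        rcases List.mem_cons.1 hz with rfl | hz
        · exact hx
        · exact ha z ((List.dropWhile_sublist _).subset hz))
      (fun z hz => hL z (by simp [hz]))
    simp only [pass, List.cons_append, h1.1, h1.2, List.append_assoc]
    rw [← List.cons_append, h2]

theorem s_nil : s [] = [] := rfl

theorem s_rec (L : List ℕ) (M : ℕ) (R : List ℕ) (hL : ∀ x ∈ L, x < M) (hR : ∀ x ∈ R, x < M) :
    s (L ++ M :: R) = s L ++ s R ++ [M] := by
  have h1 := pass_split M R [] (by simp) L [] (by simp) hL
  have h2 := pass_append_big R [] [M] (fun x hx y hy => by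
    rw [List.mem_singleton.1 hy]; exact (hR x hx).not_gt)
  simp only [List.append_nil, List.nil_append] at h1 h2
  simp only [s, h1, h2, List.append_assoc]

end Pool.Agent.P.MP_8acafb_co
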