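import Mathlib

namespace Pool.Agent.P.MP_8acafb_co

open Finset

theorem sum_biUnion_le' {ι α : Type*} [DecidableEq α] (s : Finset ι) (t : ι → Finset α)
    (f : α → ℝ) (hf : ∀ a, 0 ≤ f a) : ∑ a ∈ s.biUnion t, f a ≤ ∑ i ∈ s, ∑ a ∈ t i, f a := by
  classical
  induction s using Finset.induction_on with
  | empty => simp
  | insert i s hi ih =>
    rw [biUnion_insert, sum_insert hi]
    have h1 := sum_union_inter (s₁ := t i) (s₂ := s.biUnion t) (f := f)
    have h2 : 0 ≤ ∑ a ∈ t i ∩ s.biUnion t, f a := sum_nonneg (fun a _ => hf a)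
    linarith

theorem sum_union_le' {α : Type*} [DecidableEq α] (s t : Finset α)
    (f : α → ℝ) (hf : ∀ a, 0 ≤ f a) : ∑ a ∈ s ∪ t, f a ≤ ∑ a ∈ s, f a + ∑ a ∈ t, f a := by
  have h1 := sum_union_inter (s₁ := s) (s₂ := t) (f := f)
  have h2 : 0 ≤ ∑ a ∈ s ∩ t, f a := sum_nonneg (fun a _ => hf a)
  linarith

/-- label words accepted from the state `A` (the set of pending ranks) -/
def Words (g t : ℕ) : ℕ → Finset ℕ → Finset (List (ℕ ⊕ ℕ))
  | 0, _ => {[]}
  | r + 1, A =>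
    ((range g).biUnion (fun v => (Words g t r A).image (List.cons (Sum.inl v)))) ∪
    ((Icc 2 t \ A).biUnion (fun k => (Words g t r (insert k A)).image (List.cons (Sum.inr k)))) ∪
    (((Icc 1 t).filter (fun j => Icc 2 j ⊆ A)).biUnion
      (fun j => (Words g t r (A \ Icc 2 j)).image (List.cons (Sum.inr 1))))

/-- transfer operator -/
noncomputable def Pf (t : ℕ) (f : Finset ℕ → ℝ) (A : Finset ℕ) : ℝ :=
  ∑ k ∈ Icc 2 t \ A, f (insert k A) +
    ∑ j ∈ (Icc 1 t).filter (fun j => Icc 2 j ⊆ A), f (A \ Icc 2 j)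

/-- weighted number of words -/
noncomputable def F (t : ℕ) (a b : ℝ) : ℕ → Finset ℕ → ℝ
  | 0, _ => 1
  | r + 1, A => b * F t a b r A + a * Pf t (F t a b r) A

theorem Pf_nonneg (t : ℕ) (f : Finset ℕ → ℝ) (hf : ∀ A, 0 ≤ f A) (A : Finset ℕ) :
    0 ≤ Pf t f A :=
  add_nonneg (sum_nonneg fun _ _ => hf _) (sum_nonneg fun _ _ => hf _)

theorem F_nonneg (t : ℕ) (a b : ℝ) (ha : 0 ≤ a) (hb : 0 ≤ b) (r : ℕ) :
    ∀ A, 0 ≤ F t a b r A := by
  induction r with
  | zero => intro A; simp [F]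
  | succ r ih =>
    intro A
    exact add_nonneg (mul_nonneg hb (ih A)) (mul_nonneg ha (Pf_nonneg t _ ih A))

/-- number of short letters -/
def nl (w : List (ℕ ⊕ ℕ)) : ℕ := w.countP Sum.isLeft

theorem sum_Words_le (g t : ℕ) (c : ℝ) (hc : 0 ≤ c) (r : ℕ) :
    ∀ A, ∑ w ∈ Words g t r A, c ^ nl w ≤ F t 1 (g * c) r A := by
  induction r with
  | zero => intro A; simp [Words, F, nl]
  | succ r ih =>
    intro A
    have hf : ∀ w : List (ℕ ⊕ ℕ), 0 ≤ c ^ nl w := fun w => pow_nonneg hc _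
    have himg : ∀ (z : ℕ ⊕ ℕ) (X : Finset (List (ℕ ⊕ ℕ))),
        ∑ w ∈ X.image (List.cons z), c ^ nl w = ∑ w ∈ X, c ^ nl (z :: w) := fun z X =>
      sum_image (fun a _ b _ h => List.cons_injective h)
    have hl : ∀ v w, nl (Sum.inl v :: w) = nl w + 1 := fun v w => by simp [nl]
    have hr : ∀ v w, nl (Sum.inr v :: w) = nl w := fun v w => by simp [nl]
    rw [Words, F, Pf]
    refine (sum_union_le' _ _ _ hf).trans ?_
    refine (add_le_add_left (sum_union_le' _ _ _ hf) _).trans ?_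
    rw [one_mul, ← add_assoc]
    refine add_le_add (add_le_add ?_ ?_) ?_
    · refine (sum_biUnion_le' _ _ _ hf).trans ?_
      simp only [himg, hl, pow_succ, ← sum_mul, sum_const, card_range, nsmul_eq_mul]
      have := ih A
      have hg : (0 : ℝ) ≤ g := Nat.cast_nonneg g
      calc (g : ℝ) * (∑ w ∈ Words g t r A, c ^ nl w) * c
          = (g * c) * ∑ w ∈ Words g t r A, c ^ nl w := by ring
        _ ≤ _ := mul_le_mul_of_nonneg_left this (mul_nonneg hg hc)
    · refine (sum_biUnion_le' _ _ _ hf).trans (sum_le_sum fun k _ => ?_)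
      simp only [himg, hr]
      exact ih _
    · refine (sum_biUnion_le' _ _ _ hf).trans (sum_le_sum fun k _ => ?_)
      simp only [himg, hr]
      exact ih _

theorem Pf_sum (t : ℕ) (s : Finset ℕ) (c : ℕ → ℝ) (f : ℕ → Finset ℕ → ℝ) (A : Finset ℕ) :
    Pf t (fun B => ∑ i ∈ s, c i * f i B) A = ∑ i ∈ s, c i * Pf t (f i) A := by
  simp only [Pf, mul_add, sum_add_distrib, mul_sum]
  rw [sum_comm, sum_comm (s := filter _ _)]

theorem F_binom (t : ℕ) (a b : ℝ) (r : ℕ) : ∀ A, F t a b r A =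
    ∑ i ∈ range (r + 1), (r.choose i : ℝ) * (a ^ i * b ^ (r - i) * F t 1 0 i A) := by
  induction r with
  | zero => intro A; simp [F]
  | succ r ih =>
    intro A
    have h1 := sum_choose_succ_mul (R := ℝ) (fun i j => a ^ i * b ^ j * F t 1 0 i A) r
    have h2 : F t a b r = fun B => ∑ i ∈ range (r + 1),
        ((r.choose i : ℝ) * (a ^ i * b ^ (r - i))) * F t 1 0 i B := by
      funext B; rw [ih B]; simp only [mul_assoc]
    rw [h1, F]
    congr 1
    · rw [ih A, mul_sum]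
      refine sum_congr rfl fun i hi => ?_
      have : r + 1 - i = (r - i) + 1 := by have := mem_range.1 hi; omega
      rw [this]; ring
    · rw [h2, Pf_sum, mul_sum]
      refine sum_congr rfl fun i _ => ?_
      simp only [F]; ring

theorem prod_add_ge (A : Finset ℕ) (ω : ℕ → ℝ) (hω : ∀ k, 0 ≤ ω k) (x : ℝ) (hx : 0 ≤ x) :
    ∏ k ∈ A, ω k + x * ∑ k ∈ A, ∏ j ∈ A.erase k, ω j ≤ ∏ k ∈ A, (ω k + x) := by
  induction A using Finset.induction_on with
  | empty => simp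
  | insert a A ha ih =>
    rw [prod_insert ha, prod_insert ha, sum_insert ha, erase_insert ha]
    have h1 : ∑ k ∈ A, ∏ j ∈ (insert a A).erase k, ω j = ω a * ∑ k ∈ A, ∏ j ∈ A.erase k, ω j := by
      rw [mul_sum]
      refine sum_congr rfl fun k hk => ?_
      have hak : a ≠ k := fun h => ha (by rw [h]; exact hk)
      rw [erase_insert_of_ne hak, prod_insert (fun h => ha (mem_of_mem_erase h))]
    rw [h1]
    have h2 : 0 ≤ ∑ k ∈ A, ∏ j ∈ A.erase k, ω j :=
      sum_nonneg fun _ _ => prod_nonneg fun _ _ => hω _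
    have h3 := mul_le_mul_of_nonneg_left ih (add_nonneg (hω a) hx)
    nlinarith [mul_nonneg hx (mul_nonneg hx h2)]

/-- multilinear generating polynomial -/
noncomputable def Mx (t : ℕ) (G : Finset ℕ → ℝ) (ω : ℕ → ℝ) : ℝ :=
  ∑ A ∈ (Icc 2 t).powerset, (∏ k ∈ A, ω k) * G A

theorem Mx_insert (t : ℕ) (G : Finset ℕ → ℝ) (hG : ∀ A, 0 ≤ G A) (ω : ℕ → ℝ)
    (hω : ∀ k, 0 ≤ ω k) (x : ℝ) (hx : 0 ≤ x) :
    Mx t G ω + x * ∑ A ∈ (Icc 2 t).powerset, (∏ k ∈ A, ω k) * ∑ k ∈ Icc 2 t \ A, G (insert k A)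
      ≤ Mx t G (fun k => ω k + x) := by
  have h1 : ∑ A ∈ (Icc 2 t).powerset, (∏ k ∈ A, ω k) * ∑ k ∈ Icc 2 t \ A, G (insert k A)
      = ∑ A ∈ (Icc 2 t).powerset, (∑ k ∈ A, ∏ j ∈ A.erase k, ω j) * G A := by
    simp only [mul_sum, sum_mul]
    rw [sum_sigma', sum_sigma']
    refine sum_nbij' (fun z => ⟨insert z.2 z.1, z.2⟩) (fun z => ⟨z.1.erase z.2, z.2⟩) ?_ ?_ ?_ ?_ ?_
    · rintro ⟨A, k⟩ h
      simp only [mem_sigma, mem_powerset, mem_sdiff] at h ⊢
      exact ⟨insert_subset h.2.1 h.1, mem_insert_self _ _⟩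
    · rintro ⟨A, k⟩ h
      simp only [mem_sigma, mem_powerset, mem_sdiff] at h ⊢
      exact ⟨(erase_subset _ _).trans h.1, h.1 h.2, notMem_erase _ _⟩
    · rintro ⟨A, k⟩ h
      simp only [mem_sigma, mem_powerset, mem_sdiff] at h
      simp only [erase_insert h.2.2]
    · rintro ⟨A, k⟩ h
      simp only [mem_sigma, mem_powerset] at h
      simp only [insert_erase h.2]
    · rintro ⟨A, k⟩ h
      simp only [mem_sigma, mem_powerset, mem_sdiff] at h
      simp only [erase_insert h.2.2]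
  rw [h1, Mx, Mx, mul_sum, ← sum_add_distrib]
  refine sum_le_sum fun A _ => ?_
  rw [← mul_assoc, ← add_mul]
  exact mul_le_mul_of_nonneg_right (prod_add_ge A ω hω x hx) (hG A)

theorem Mx_clear (t : ℕ) (G : Finset ℕ → ℝ) (hG : ∀ A, 0 ≤ G A) (ω : ℕ → ℝ)
    (hω : ∀ k, 0 ≤ ω k) (J : Finset ℕ) :
    ∑ A ∈ (Icc 2 t).powerset.filter (fun A => J ⊆ A), (∏ k ∈ A, ω k) * G (A \ J)
      ≤ (∏ k ∈ J, ω k) * Mx t G (fun k => if k ∈ J then 0 else ω k) := by
  have h1 : ∑ A ∈ (Icc 2 t).powerset.filter (fun A => J ⊆ A), (∏ k ∈ A, ω k) * G (A \ J)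
      = (∏ k ∈ J, ω k) * ∑ A ∈ ((Icc 2 t).powerset.filter (fun A => J ⊆ A)).image (· \ J),
        (∏ k ∈ A, if k ∈ J then 0 else ω k) * G A := by
    rw [sum_image, mul_sum]
    · refine sum_congr rfl fun A hA => ?_
      have hJ := (mem_filter.1 hA).2
      rw [← prod_sdiff hJ, ← mul_assoc, mul_comm (∏ k ∈ J, ω k)]
      congr 2
      refine prod_congr rfl fun k hk => ?_
      rw [if_neg (mem_sdiff.1 hk).2]
    · intro A hA B hB h
      have h1 := sdiff_union_of_subset (mem_filter.1 hA).2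
      have h2 := sdiff_union_of_subset (mem_filter.1 hB).2
      simp only at h
      rw [← h1, ← h2, h]
  rw [h1]
  refine mul_le_mul_of_nonneg_left ?_ (prod_nonneg fun _ _ => hω _)
  refine sum_le_sum_of_subset_of_nonneg ?_ fun A _ _ => ?_
  · intro A hA
    obtain ⟨B, hB, rfl⟩ := mem_image.1 hA
    exact mem_powerset.2 (sdiff_subset.trans (mem_powerset.1 (mem_filter.1 hB).1))
  · refine mul_nonneg (prod_nonneg fun k _ => ?_) (hG A)
    split_ifs
    · exact le_rfl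
    · exact hω k

theorem le_exp_div (u : ℝ) : u ≤ Real.exp (u / Real.exp 1) := by
  have h1 := Real.add_one_le_exp (u / Real.exp 1 - 1)
  have h2 : Real.exp (u / Real.exp 1 - 1) = Real.exp (u / Real.exp 1) / Real.exp 1 :=
    Real.exp_sub _ _
  rw [h2, sub_add_cancel] at h1
  exact (div_le_div_iff_of_pos_right (Real.exp_pos 1)).1 h1

theorem Mx_bound (t : ℕ) (ε : ℕ → ℝ) (hε : ∀ k, 0 < ε k) (hε1 : ∀ k, ε k ≤ 1) (x : ℝ)
    (hx : 0 ≤ x) (B : ℝ)
    (hB : ∑ k ∈ Icc 2 t, 1 / (Real.exp 1 * ε k) + ∑ j ∈ Icc 1 t, ∏ k ∈ Icc 2 j, ε k ≤ B)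
    (T : ℕ) : ∀ ω : ℕ → ℝ, (∀ k, 0 ≤ ω k) → Mx t (F t x 1 T) ω ≤
      2 ^ t * Real.exp (∑ k ∈ Icc 2 t, ω k / (Real.exp 1 * ε k)) * Real.exp (x * B) ^ T := by
  have hkey : ∀ k (u : ℝ), u ≤ ε k * Real.exp (u / (Real.exp 1 * ε k)) := by
    intro k u
    have h1 := le_exp_div (u / ε k)
    rw [div_le_iff₀ (hε k), div_div, mul_comm (ε k) (Real.exp 1)] at h1
    linarith
  induction T with
  | zero =>
    intro ω hω
    simp only [Mx, F, mul_one, pow_zero]
    rw [← prod_one_add, Real.exp_sum]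
    calc ∏ i ∈ Icc 2 t, (1 + ω i) ≤ ∏ i ∈ Icc 2 t, 2 * Real.exp (ω i / (Real.exp 1 * ε i)) := by
          refine prod_le_prod (fun i _ => add_nonneg zero_le_one (hω i)) fun i _ => ?_
          have h1 := hkey i (ω i)
          have h2 : 1 ≤ Real.exp (ω i / (Real.exp 1 * ε i)) :=
            Real.one_le_exp (div_nonneg (hω i) (mul_pos (Real.exp_pos 1) (hε i)).le)
          have h3 := mul_le_mul_of_nonneg_right (hε1 i) (zero_le_one.trans h2)
          linarith
      _ = 2 ^ (Icc 2 t).card * ∏ i ∈ Icc 2 t, Real.exp (ω i / (Real.exp 1 * ε i)) := by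
          rw [prod_mul_distrib, prod_const]
      _ ≤ _ := by
          refine mul_le_mul_of_nonneg_right (pow_le_pow_right₀ one_le_two ?_)
            (prod_nonneg fun _ _ => (Real.exp_pos _).le)
          simp only [Nat.card_Icc]; omega
  | succ T ih =>
    intro ω hω
    set G := F t x 1 T with hGdef
    have hG : ∀ A, 0 ≤ G A := F_nonneg t x 1 hx zero_le_one T
    set E := ∑ k ∈ Icc 2 t, ω k / (Real.exp 1 * ε k) with hE
    set C := ∑ k ∈ Icc 2 t, 1 / (Real.exp 1 * ε k) with hC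
    set Q := ∑ j ∈ Icc 1 t, ∏ k ∈ Icc 2 j, ε k with hQ
    set L := Real.exp (x * B) ^ T with hL
    have hL0 : 0 ≤ L := pow_nonneg (Real.exp_pos _).le _
    have h1 : Mx t (F t x 1 (T + 1)) ω = (Mx t G ω + x * ∑ A ∈ (Icc 2 t).powerset,
        (∏ k ∈ A, ω k) * ∑ k ∈ Icc 2 t \ A, G (insert k A)) +
        x * ∑ j ∈ Icc 1 t, ∑ A ∈ (Icc 2 t).powerset.filter (fun A => Icc 2 j ⊆ A),
          (∏ k ∈ A, ω k) * G (A \ Icc 2 j) := by
      have h2 : ∑ j ∈ Icc 1 t, ∑ A ∈ (Icc 2 t).powerset.filter (fun A => Icc 2 j ⊆ A),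
          (∏ k ∈ A, ω k) * G (A \ Icc 2 j) = ∑ A ∈ (Icc 2 t).powerset, (∏ k ∈ A, ω k) *
            ∑ j ∈ (Icc 1 t).filter (fun j => Icc 2 j ⊆ A), G (A \ Icc 2 j) := by
        simp only [mul_sum]
        refine sum_comm' ?_
        intro j A
        simp only [mem_filter]
        tauto
      rw [h2, Mx, Mx, mul_sum, mul_sum, ← sum_add_distrib, ← sum_add_distrib]
      refine sum_congr rfl fun A _ => ?_
      simp only [F, Pf, ← hGdef]
      ring
    have h3 : Mx t G (fun k => ω k + x) ≤ 2 ^ t * Real.exp E * L * Real.exp (x * C) := by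
      refine (ih _ (fun k => add_nonneg (hω k) hx)).trans (le_of_eq ?_)
      have : ∑ k ∈ Icc 2 t, (ω k + x) / (Real.exp 1 * ε k) = E + x * C := by
        rw [hE, hC, mul_sum, ← sum_add_distrib]
        refine sum_congr rfl fun k _ => ?_
        ring
      rw [this, Real.exp_add]; ring
    have h4 : ∀ j ∈ Icc 1 t, ∑ A ∈ (Icc 2 t).powerset.filter (fun A => Icc 2 j ⊆ A),
          (∏ k ∈ A, ω k) * G (A \ Icc 2 j) ≤ 2 ^ t * Real.exp E * L * ∏ k ∈ Icc 2 j, ε k := by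
      intro j hj
      refine (Mx_clear t G hG ω hω _).trans ?_
      have h5 := ih (fun k => if k ∈ Icc 2 j then 0 else ω k) (fun k => by
        split_ifs
        · exact le_rfl
        · exact hω k)
      refine (mul_le_mul_of_nonneg_left h5 (prod_nonneg fun _ _ => hω _)).trans ?_
      have hsub : Icc 2 j ⊆ Icc 2 t := Icc_subset_Icc_right (mem_Icc.1 hj).2
      have h6 : E = ∑ k ∈ Icc 2 t, (if k ∈ Icc 2 j then 0 else ω k) / (Real.exp 1 * ε k)
          + ∑ k ∈ Icc 2 j, ω k / (Real.exp 1 * ε k) := by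
        rw [hE, ← sum_sdiff hsub, ← sum_sdiff hsub]
        have h7 : ∑ k ∈ Icc 2 j, (if k ∈ Icc 2 j then 0 else ω k) / (Real.exp 1 * ε k) = 0 :=
          sum_eq_zero fun k hk => by rw [if_pos hk, zero_div]
        rw [h7, add_zero]
        congr 1
        exact sum_congr rfl fun k hk => by rw [if_neg (mem_sdiff.1 hk).2]
      have h8 : ∏ k ∈ Icc 2 j, ω k ≤ (∏ k ∈ Icc 2 j, ε k) *
          Real.exp (∑ k ∈ Icc 2 j, ω k / (Real.exp 1 * ε k)) := by
        rw [Real.exp_sum, ← prod_mul_distrib]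
        exact prod_le_prod (fun k _ => hω k) fun k _ => hkey k _
      rw [h6, Real.exp_add]
      refine (mul_le_mul_of_nonneg_right h8 (by positivity)).trans (le_of_eq ?_)
      ring
    have h9 := sum_le_sum h4
    rw [← mul_sum, ← hQ] at h9
    have h10 := Mx_insert t G hG ω hω x hx
    have hC0 : 0 ≤ C := sum_nonneg fun k _ => (one_div_pos.2 (mul_pos (Real.exp_pos 1) (hε k))).le
    have hQ0 : 0 ≤ Q := sum_nonneg fun j _ => prod_nonneg fun k _ => (hε k).le
    have h11 : Real.exp (x * C) + x * Q ≤ Real.exp (x * B) := by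
      have h12 : 1 ≤ Real.exp (x * C) := Real.one_le_exp (mul_nonneg hx hC0)
      have h13 := Real.add_one_le_exp (x * Q)
      have h14 : Real.exp (x * C) * Real.exp (x * Q) ≤ Real.exp (x * B) := by
        rw [← Real.exp_add, ← mul_add]
        exact Real.exp_le_exp.2 (mul_le_mul_of_nonneg_left hB hx)
      nlinarith [mul_nonneg hx hQ0]
    have h15 : 0 ≤ 2 ^ t * Real.exp E * L := by positivity
    rw [h1, pow_succ, ← hL]
    have h16 := mul_le_mul_of_nonneg_left h9 hx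
    have h17 := mul_le_mul_of_nonneg_left h11 h15
    nlinarith

theorem factorial_upper (s : ℕ) : (s.factorial : ℝ) * Real.exp s ≤ Real.exp 1 * (s + 1) * s ^ s := by
  rcases Nat.eq_zero_or_pos s with rfl | hs
  · simp
  · obtain ⟨m, rfl⟩ : ∃ m, s = m + 1 := ⟨s - 1, by omega⟩
    have h1 : Stirling.stirlingSeq (m + 1) ≤ Stirling.stirlingSeq 1 :=
      Stirling.stirlingSeq'_antitone (Nat.zero_le m)
    rw [Stirling.stirlingSeq_one, Stirling.stirlingSeq] at h1
    set s : ℝ := ((m + 1 : ℕ) : ℝ) with hs'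
    have hs0 : 1 ≤ s := by rw [hs']; exact_mod_cast Nat.succ_le_succ (Nat.zero_le m)
    have h2 : √(2 * s) = √2 * √s := Real.sqrt_mul (by norm_num) _
    have h3 : √s ≤ s + 1 := by
      rw [Real.sqrt_le_left (by linarith)]; nlinarith
    have h4 : 0 < √2 := Real.sqrt_pos.2 (by norm_num)
    have h5 : 0 < √s := Real.sqrt_pos.2 (by linarith)
    have h6 : Real.exp s = Real.exp 1 ^ (m + 1) := by
      rw [hs', ← Real.exp_nat_mul, mul_one]
    rw [div_le_div_iff₀ (by positivity) h4, h2, div_pow, ← h6] at h1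
    have h7 : 0 < Real.exp s := Real.exp_pos s
    have h8 : ((m + 1).factorial : ℝ) * Real.exp s ≤ Real.exp 1 * √s * s ^ (m + 1) := by
      have h9 : ((m + 1).factorial : ℝ) ≤ Real.exp 1 * √s * s ^ (m + 1) / Real.exp s := by
        refine le_of_mul_le_mul_right (h1.trans (le_of_eq ?_)) h4
        ring
      exact (le_div_iff₀ h7).1 h9
    refine h8.trans ?_
    gcongr

/-- total number of blank-free words of length `s` -/
theorem N_bound (t : ℕ) (ε : ℕ → ℝ) (hε : ∀ k, 0 < ε k) (hε1 : ∀ k, ε k ≤ 1) (B : ℝ)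
    (hB0 : 0 < B)
    (hB : ∑ k ∈ Icc 2 t, 1 / (Real.exp 1 * ε k) + ∑ j ∈ Icc 1 t, ∏ k ∈ Icc 2 j, ε k ≤ B)
    (s : ℕ) : ∑ A ∈ (Icc 2 t).powerset, F t 1 0 s A ≤
      2 ^ t * Real.exp (B + 2) * (s + 1) * B ^ s := by
  have hQ0 : 0 ≤ ∑ j ∈ Icc 1 t, ∏ k ∈ Icc 2 j, ε k :=
    sum_nonneg fun j _ => prod_nonneg fun k _ => (hε k).le
  rcases Nat.eq_zero_or_pos s with rfl | hs
  · simp only [F, sum_const, card_powerset, Nat.card_Icc, nsmul_eq_mul, mul_one, pow_zero,
      Nat.cast_zero, zero_add, Nat.cast_pow, Nat.cast_ofNat]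
    have h1 : (2 : ℝ) ^ (t + 1 - 2) ≤ 2 ^ t := pow_le_pow_right₀ one_le_two (by omega)
    have h2 : 1 ≤ Real.exp (B + 2) := Real.one_le_exp (by linarith)
    have h3 : (0 : ℝ) < 2 ^ t := by positivity
    nlinarith
  · have hs0 : (0 : ℝ) < s := by exact_mod_cast hs
    set x : ℝ := 1 / (B * s) with hx
    have hx0 : 0 < x := by positivity
    set T := s + s ^ 2 with hT
    have h1 := Mx_bound t ε hε hε1 x hx0.le B hB T (fun _ => 1) (fun _ => zero_le_one)
    have h2 : (T.choose s : ℝ) * x ^ s * ∑ A ∈ (Icc 2 t).powerset, F t 1 0 s A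
        ≤ Mx t (F t x 1 T) (fun _ => 1) := by
      rw [Mx, mul_sum]
      refine sum_le_sum fun A _ => ?_
      rw [prod_const_one, one_mul, F_binom t x 1 T A]
      have := single_le_sum (f := fun i => (T.choose i : ℝ) * (x ^ i * 1 ^ (T - i) * F t 1 0 i A))
        (s := range (T + 1)) (a := s) (fun i _ => mul_nonneg (Nat.cast_nonneg _)
          (mul_nonneg (by positivity) (F_nonneg t 1 0 zero_le_one le_rfl i A)))
        (mem_range.2 (by omega))
      simpa [mul_assoc] using this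
    have h3 : ((s : ℝ) ^ 2) ^ s / s.factorial ≤ T.choose s := by
      refine le_trans ?_ (Nat.pow_le_choose s T)
      have : T + 1 - s = s ^ 2 + 1 := by omega
      rw [this]
      push_cast
      gcongr
      linarith
    have h4 : Real.exp (x * B) ^ T = Real.exp s * Real.exp 1 := by
      rw [← Real.exp_nat_mul, ← Real.exp_add]
      congr 1
      rw [hx, hT]; push_cast; field_simp; ring
    have h5 : Real.exp (∑ k ∈ Icc 2 t, 1 / (Real.exp 1 * ε k)) ≤ Real.exp B :=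
      Real.exp_le_exp.2 (by linarith)
    set Z := ∑ A ∈ (Icc 2 t).powerset, F t 1 0 s A with hZ
    have hZ0 : 0 ≤ Z := sum_nonneg fun A _ => F_nonneg t 1 0 zero_le_one le_rfl s A
    have h6 : ((s : ℝ) ^ 2) ^ s / s.factorial * x ^ s * Z ≤
        2 ^ t * Real.exp B * (Real.exp s * Real.exp 1) := by
      calc _ ≤ (T.choose s : ℝ) * x ^ s * Z := by gcongr
        _ ≤ _ := h2.trans (h1.trans (by rw [h4]; gcongr))
    have h7 : ((s : ℝ) ^ 2) ^ s / s.factorial * x ^ s = (s : ℝ) ^ s / (s.factorial * B ^ s) := by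
      rw [hx, one_div, inv_pow, mul_pow, ← pow_mul, two_mul, pow_add]
      field_simp
    rw [h7, div_mul_eq_mul_div, div_le_iff₀ (by positivity)] at h6
    have h8 := factorial_upper s
    have h9 : (0 : ℝ) < (s : ℝ) ^ s := by positivity
    refine le_of_mul_le_mul_left (h6.trans ?_) h9
    have h10 : Real.exp (B + 2) = Real.exp B * Real.exp 1 * Real.exp 1 := by
      rw [← Real.exp_add, ← Real.exp_add]; congr 1; ring
    rw [h10]
    calc 2 ^ t * Real.exp B * (Real.exp s * Real.exp 1) * (s.factorial * B ^ s)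
        = (2 ^ t * Real.exp B * Real.exp 1 * B ^ s) * (s.factorial * Real.exp s) := by ring
      _ ≤ (2 ^ t * Real.exp B * Real.exp 1 * B ^ s) * (Real.exp 1 * (s + 1) * s ^ s) := by gcongr
      _ = _ := by ring

theorem F_total (t : ℕ) (ε : ℕ → ℝ) (hε : ∀ k, 0 < ε k) (hε1 : ∀ k, ε k ≤ 1) (B : ℝ)
    (hB0 : 0 < B)
    (hB : ∑ k ∈ Icc 2 t, 1 / (Real.exp 1 * ε k) + ∑ j ∈ Icc 1 t, ∏ k ∈ Icc 2 j, ε k ≤ B)
    (b : ℝ) (hb : 0 ≤ b) (R : ℕ) : ∑ A ∈ (Icc 2 t).powerset, F t 1 b R A ≤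
      2 ^ t * Real.exp (B + 2) * (R + 1) * (B + b) ^ R := by
  simp only [F_binom t 1 b R]
  rw [sum_comm, add_pow, mul_sum]
  refine sum_le_sum fun i hi => ?_
  simp only [one_pow, one_mul, ← mul_sum]
  have h1 := N_bound t ε hε hε1 B hB0 hB i
  have h2 : (i : ℝ) + 1 ≤ R + 1 := by
    have := mem_range.1 hi
    exact_mod_cast this
  calc (R.choose i : ℝ) * (b ^ (R - i) * ∑ A ∈ (Icc 2 t).powerset, F t 1 0 i A)
      ≤ (R.choose i : ℝ) * (b ^ (R - i) * (2 ^ t * Real.exp (B + 2) * (R + 1) * B ^ i)) := by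
        gcongr
        exact h1.trans (by gcongr)
    _ = _ := by ring

/-- all accepted words, from any initial state -/
def AllWords (g t R : ℕ) : Finset (List (ℕ ⊕ ℕ)) := (Icc 2 t).powerset.biUnion (Words g t R)

theorem B_ok (t : ℕ) (e : ℝ) (he : 0 < e) :
    ∑ k ∈ Icc 2 t, 1 / (Real.exp 1 * (if k = 2 then e else 1)) +
      ∑ j ∈ Icc 1 t, ∏ k ∈ Icc 2 j, (if k = 2 then e else 1) ≤
        t / Real.exp 1 + 1 / e + 1 + t * e := by
  have h0 : 1 ≤ Real.exp 1 := Real.one_le_exp zero_le_one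
  have h1 : ∑ k ∈ Icc 2 t, 1 / (Real.exp 1 * (if k = 2 then e else 1)) ≤
      ∑ k ∈ Icc 2 t, (1 / Real.exp 1 + if k = 2 then 1 / e else 0) := by
    refine sum_le_sum fun k _ => ?_
    split_ifs
    · have : 1 / (Real.exp 1 * e) ≤ 1 / e := by
        apply one_div_le_one_div_of_le he; nlinarith
      have : 0 < 1 / Real.exp 1 := by positivity
      linarith
    · simp
  have h2 : ∑ j ∈ Icc 1 t, ∏ k ∈ Icc 2 j, (if k = 2 then e else 1) ≤
      ∑ j ∈ Icc 1 t, (e + if j = 1 then 1 else 0) := by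
    refine sum_le_sum fun j hj => ?_
    rw [prod_ite_eq']
    have := mem_Icc.1 hj
    by_cases h : j = 1
    · subst h; simp; exact he.le
    · rw [if_pos (mem_Icc.2 ⟨le_rfl, by omega⟩), if_neg h, add_zero]
  rw [sum_add_distrib, sum_const, sum_ite_eq', Nat.card_Icc, nsmul_eq_mul] at h1 h2
  have h3 : ((t + 1 - 2 : ℕ) : ℝ) ≤ t := by exact_mod_cast (by omega : t + 1 - 2 ≤ t)
  have h4 : ((t + 1 - 2 : ℕ) : ℝ) * (1 / Real.exp 1) ≤ t / Real.exp 1 := by
    rw [mul_one_div]; gcongr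
  have h5 : (if 2 ∈ Icc 2 t then 1 / e else 0) ≤ 1 / e := by
    split_ifs
    · exact le_rfl
    · positivity
  have h6 : (if 1 ∈ Icc 1 t then (1 : ℝ) else 0) ≤ 1 := by
    split_ifs
    · exact le_rfl
    · exact zero_le_one
  rw [Nat.add_sub_cancel] at h2
  linarith

theorem sum_AllWords_le (g t R : ℕ) (c : ℝ) (hc : 0 ≤ c) (e : ℝ) (he : 0 < e) (he1 : e ≤ 1)
    (B : ℝ) (hB : t / Real.exp 1 + 1 / e + 1 + t * e ≤ B) :
    ∑ w ∈ AllWords g t R, c ^ nl w ≤ 2 ^ t * Real.exp (B + 2) * (R + 1) * (B + g * c) ^ R := by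
  have hB0 : 0 < B := lt_of_lt_of_le (by positivity) hB
  refine (sum_biUnion_le' _ _ _ (fun w => pow_nonneg hc _)).trans ?_
  refine (sum_le_sum fun A _ => sum_Words_le g t c hc R A).trans ?_
  refine F_total t (fun k => if k = 2 then e else 1) (fun k => ?_) (fun k => ?_) B hB0
    ((B_ok t e he).trans hB) _ (by positivity) R
  · split_ifs
    · exact he
    · exact zero_lt_one
  · split_ifs
    · exact he1
    · exact le_rfl

end Pool.Agent.P.MP_8acafb_co
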