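import Pool.Agent.P.MP_8acafb_co.Upper

namespace Pool.Agent.P.MP_8acafb_co

open Finset Filter Topology

theorem s_append (a b : List ℕ) (h : ∀ x ∈ a, ∀ y ∈ b, x < y) : s (a ++ b) = s a ++ s b := by
  cases b with
  | nil => simp [s_nil]
  | cons y b =>
    have := pass_split y b [] (by simp) a [] (by simp) (fun x hx => h x hx y (by simp))
    simpa [s, pass] using this

theorem iter_s_append (k : ℕ) (a b : List ℕ) (h : ∀ x ∈ a, ∀ y ∈ b, x < y) :
    s^[k] (a ++ b) = s^[k] a ++ s^[k] b := by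
  induction k with
  | zero => rfl
  | succ k ih =>
    simp only [Function.iterate_succ_apply', ih]
    exact s_append _ _ fun x hx y hy =>
      h x ((iter_s_perm k a).subset hx) y ((iter_s_perm k b).subset hy)

theorem pass_map (m : ℕ) (l : List ℕ) : ∀ st : List ℕ,
    pass (st.map (m + ·)) (l.map (m + ·)) = (pass st l).map (m + ·) := by
  induction l with
  | nil => intro st; rfl
  | cons x l ih =>
    intro st
    have h1 : ((fun y => decide (y < m + x)) ∘ fun y => m + y) = fun y => decide (y < x) := by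
      funext y; simp
    simp only [List.map_cons, pass, List.takeWhile_map, List.dropWhile_map, h1, List.map_append]
    rw [← ih, List.map_cons]

theorem iter_s_map (m k : ℕ) (l : List ℕ) :
    s^[k] (l.map (m + ·)) = (s^[k] l).map (m + ·) := by
  induction k with
  | zero => rfl
  | succ k ih =>
    simp only [Function.iterate_succ_apply', ih]
    exact pass_map m _ []

theorem W_supermul (t m n : ℕ) : W t m * W t n ≤ W t (m + n) := by
  rw [W_eq, W_eq, W_eq, ← card_product]
  refine card_le_card_of_injOn (fun z => z.1 ++ z.2.map (m + ·)) ?_ ?_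
  · rintro ⟨a, b⟩ h
    simp only [coe_product, Set.mem_prod, mem_coe, mem_X] at h ⊢
    obtain ⟨ha, hb⟩ := h
    refine ⟨?_, ?_⟩
    · rw [List.range_add]; exact ha.1.append (hb.1.map _)
    · rw [iter_s_append, iter_s_map, ha.2, hb.2, List.range_add]
      intro x hx y hy
      have := List.mem_range.1 (ha.1.subset hx)
      obtain ⟨z, _, rfl⟩ := List.mem_map.1 hy
      omega
  · rintro ⟨a, b⟩ h ⟨a', b'⟩ h' he
    simp only [coe_product, Set.mem_prod, mem_coe, mem_X] at h h'
    obtain ⟨h1, h2⟩ := List.append_inj he (h.1.1.length_eq.trans h'.1.1.length_eq.symm)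
    exact Prod.ext h1 (List.map_injective_iff.2 (add_right_injective m) h2)

theorem Srt_of_sorted {t n : ℕ} {π : List ℕ} (h : π.Perm (List.range n))
    (hs : (s^[t] π).Pairwise (· ≤ ·)) : Srt t n π :=
  ⟨h, List.Perm.eq_of_pairwise (fun _ _ _ _ h1 h2 => le_antisymm h1 h2) hs
    List.pairwise_le_range ((iter_s_perm t π).trans h)⟩

theorem iter_s_sorted (k : ℕ) (l : List ℕ) (h : l.Pairwise (· ≤ ·)) :
    (s^[k] l).Pairwise (· ≤ ·) := by
  induction k with
  | zero => exact h
  | succ k ih => rw [Function.iterate_succ_apply']; exact pass_sorted _ [] (by simp) ih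

theorem W_pos (t n : ℕ) : 0 < W t n :=
  card_pos.2 ⟨List.range n, mem_X.2 (Srt_of_sorted (List.Perm.refl _)
    (iter_s_sorted t _ List.pairwise_le_range))⟩

theorem W_le_pow (t : ℕ) : ∃ K : ℝ, 0 < K ∧ ∀ n, (W t n : ℝ) ≤ K ^ n := by
  refine ⟨_, ?_, fun n => by
    have := W_upper t 1 n one_pos 1 one_pos le_rfl _ le_rfl _ rfl
    rwa [mul_one n] at this⟩
  positivity

theorem exists_mu (t : ℕ) : ∃ μ : ℝ, 0 < μ ∧
    Tendsto (fun n : ℕ => (W t n : ℝ) ^ (1 / n : ℝ)) atTop (𝓝 μ) ∧ ∀ n, (W t n : ℝ) ≤ μ ^ n := by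
  have hpos : ∀ n, (0 : ℝ) < W t n := fun n => by exact_mod_cast W_pos t n
  have hsub : Subadditive (fun n => -Real.log (W t n)) := by
    intro m n
    have h1 : (W t m : ℝ) * W t n ≤ W t (m + n) := by exact_mod_cast W_supermul t m n
    have h2 := Real.log_le_log (mul_pos (hpos m) (hpos n)) h1
    rw [Real.log_mul (hpos m).ne' (hpos n).ne'] at h2
    simp only
    linarith
  obtain ⟨K, hK, hW⟩ := W_le_pow t
  have hbdd : BddBelow (Set.range fun n : ℕ => -Real.log (W t n) / n) := by
    refine ⟨-|Real.log K|, ?_⟩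
    rintro _ ⟨n, rfl⟩
    rcases Nat.eq_zero_or_pos n with rfl | hn
    · simp
    · have h1 := Real.log_le_log (hpos n) (hW n)
      rw [Real.log_pow] at h1
      have hn' : (0 : ℝ) < n := by exact_mod_cast hn
      simp only
      rw [le_div_iff₀ hn']
      have := le_abs_self (Real.log K)
      nlinarith
  refine ⟨Real.exp (-hsub.lim), Real.exp_pos _, ?_, fun n => ?_⟩
  · have h1 := (Real.continuous_exp.tendsto _).comp (hsub.tendsto_lim hbdd).neg
    refine h1.congr fun n => ?_
    simp only [Function.comp]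
    rw [Real.rpow_def_of_pos (hpos n)]
    congr 1; ring
  · rcases Nat.eq_zero_or_pos n with rfl | hn
    · have := hW 0
      simpa using this
    · have h1 := hsub.lim_le_div hbdd hn.ne'
      have hn' : (0 : ℝ) < n := by exact_mod_cast hn
      rw [le_div_iff₀ hn'] at h1
      rw [← Real.exp_nat_mul, ← Real.log_le_iff_le_exp (hpos n)]
      linarith

theorem mu_le (t : ℕ) (μ : ℝ)
    (h : Tendsto (fun n : ℕ => (W t n : ℝ) ^ (1 / n : ℝ)) atTop (𝓝 μ)) (R : ℕ) (hR : 0 < R)
    (K : ℝ) (hK : 0 ≤ K) (hW : ∀ m, (W t (m * R) : ℝ) ≤ (K ^ R) ^ m) : μ ≤ K := by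
  have h1 := h.comp (tendsto_id.atTop_mul_const' hR)
  refine le_of_tendsto h1 ?_
  filter_upwards [eventually_gt_atTop 0] with m hm
  simp only [Function.comp, id]
  have h2 := hW m
  rw [← pow_mul, mul_comm R m] at h2
  have h3 : m * R ≠ 0 := (Nat.mul_pos hm hR).ne'
  calc (W t (m * R) : ℝ) ^ (1 / ((m * R : ℕ) : ℝ)) ≤ (K ^ (m * R)) ^ (1 / ((m * R : ℕ) : ℝ)) :=
        Real.rpow_le_rpow (Nat.cast_nonneg _) h2 (by positivity)
    _ = K := by rw [one_div, Real.pow_rpow_inv_natCast hK h3]

end Pool.Agent.P.MP_8acafb_co
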