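import Pool.Agent.P.MP_8acafb_co.HW0

namespace Pool.Agent.P.MP_8acafb_co.HW

/-- The ballot property with offsets. -/
def Bal (t : ℕ) (σ : ℕ → List ℕ) (d : Fin t → ℤ) : Prop :=
  ∀ a b : Fin t, b < a → ∀ (i j x y : ℕ), (i : ℤ) + d a ≤ j + d b →
    (σ a)[i]? = some x → (σ b)[j]? = some y → x < y

def jn (τ υ : ℕ → List (ℕ × ℕ)) (a : ℕ) : List (ℕ × ℕ) := τ a ++ υ a

def p1 (ρ : ℕ → List (ℕ × ℕ)) (a : ℕ) : List ℕ := (ρ a).map Prod.fst

def p2 (ρ : ℕ → List (ℕ × ℕ)) (a : ℕ) : List ℕ := (ρ a).map Prod.snd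

/-- Two runs in parallel: `τ` are the touched pairs of tokens, `υ` the untouched ones. -/
structure Sim (r1 r2 : ℕ) (τ υ : ℕ → List (ℕ × ℕ)) : Prop where
  inc : Inc (p1 (jn τ υ))
  lo1 : Lo (r1, p1 (jn τ υ))
  lo2 : Lo (r2, p2 (jn τ υ))
  J : ∀ a b, b ≤ a → ∀ x ∈ τ a, ∀ y ∈ τ b, x.1 < y.1 → x.2 < y.2
  K1 : ∀ a b, b ≤ a → ∀ x ∈ τ a, ∀ y ∈ υ b, x.2 < y.2
  K2 : ∀ a, ∀ x ∈ τ a, ∀ y ∈ υ (a + 1), x.1 < y.1
  B : ∀ a b, b < a → ∀ (i j : ℕ) x y, i ≤ j → (υ a)[i]? = some x → (υ b)[j]? = some y → x.2 < y.2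

variable {t r1 r2 : ℕ} {τ υ : ℕ → List (ℕ × ℕ)}

theorem mem_p1 {ρ : ℕ → List (ℕ × ℕ)} {a : ℕ} {x : ℕ × ℕ} (h : x ∈ ρ a) : x.1 ∈ p1 ρ a :=
  List.mem_map_of_mem h

theorem mem_p2 {ρ : ℕ → List (ℕ × ℕ)} {a : ℕ} {x : ℕ × ℕ} (h : x ∈ ρ a) : x.2 ∈ p2 ρ a :=
  List.mem_map_of_mem h

theorem Sim.stepR (h : Sim r1 r2 τ υ) {k : ℕ} (hk : k < t) (h1 : 0 < r1) (h2 : 0 < r2) :
    ∃ τ', Sim (r1 - 1) (r2 - 1) τ' υ ∧ p1 (jn τ' υ) = apR k (r1 - 1) (p1 (jn τ υ)) ∧
      p2 (jn τ' υ) = apR k (r2 - 1) (p2 (jn τ υ)) := by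
  have e1 : p1 (jn (apR k (r1 - 1, r2 - 1) τ) υ) = apR k (r1 - 1) (p1 (jn τ υ)) := by
    funext a; simp only [p1, jn, apR]; split_ifs <;> rfl
  have e2 : p2 (jn (apR k (r1 - 1, r2 - 1) τ) υ) = apR k (r2 - 1) (p2 (jn τ υ)) := by
    funext a; simp only [p2, jn, apR]; split_ifs <;> rfl
  have hm : ∀ a x, x ∈ apR k (r1 - 1, r2 - 1) τ a → x = (r1 - 1, r2 - 1) ∨ x ∈ τ a := by
    intro a x hx
    unfold apR at hx
    split_ifs at hx
    · exact List.mem_cons.1 hx
    · exact Or.inr hx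
  have t1 : ∀ a, ∀ x ∈ τ a, r1 ≤ x.1 := fun a x hx =>
    h.lo1 a _ (mem_p1 (ρ := jn τ υ) (List.mem_append_left _ hx))
  have t2 : ∀ a, ∀ x ∈ τ a, r2 ≤ x.2 := fun a x hx =>
    h.lo2 a _ (mem_p2 (ρ := jn τ υ) (List.mem_append_left _ hx))
  have u1 : ∀ a, ∀ x ∈ υ a, r1 ≤ x.1 := fun a x hx =>
    h.lo1 a _ (mem_p1 (ρ := jn τ υ) (List.mem_append_right _ hx))
  have u2 : ∀ a, ∀ x ∈ υ a, r2 ≤ x.2 := fun a x hx =>
    h.lo2 a _ (mem_p2 (ρ := jn τ υ) (List.mem_append_right _ hx))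
  refine ⟨apR k (r1 - 1, r2 - 1) τ, ⟨?_, ?_, ?_, ?_, ?_, ?_, h.B⟩, e1, e2⟩
  · rw [e1]; exact Inc.ap (t := t) (o := .inl k) (S := (r1, _)) h.inc h.lo1 ⟨hk, h1⟩
  · rw [e1]; exact Lo.ap (t := t) (o := .inl k) h.lo1 ⟨hk, h1⟩
  · rw [e2]; exact Lo.ap (t := t) (o := .inl k) h.lo2 ⟨hk, h2⟩
  · intro a b hab x hx y hy hxy
    rcases hm a x hx with rfl | hx <;> rcases hm b y hy with rfl | hy
    · exact absurd hxy (lt_irrefl _)
    · have := t2 b y hy
      simp only
      omega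
    · have := t1 a x hx
      simp only at hxy
      omega
    · exact h.J a b hab x hx y hy hxy
  · intro a b hab x hx y hy
    rcases hm a x hx with rfl | hx
    · have := u2 b y hy
      simp only
      omega
    · exact h.K1 a b hab x hx y hy
  · intro a x hx y hy
    rcases hm a x hx with rfl | hx
    · have := u1 _ y hy
      simp only
      omega
    · exact h.K2 a x hx y hy

theorem Sim.stepA (h : Sim r1 r2 τ υ) {os : List ℕ} (ho : OkA t os (p1 (jn τ υ))) :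
    OkA t os (p2 (jn τ υ)) ∧ ∃ τ' υ', Sim r1 r2 τ' υ' ∧
      p1 (jn τ' υ') = apA os (p1 (jn τ υ)) ∧ p2 (jn τ' υ') = apA os (p2 (jn τ υ)) := by
  set ρ := jn τ υ with hρ
  have ne : ∀ j, j ≤ os.length → ρ j ≠ [] := fun j hj h0 => ho.ne j hj (by simp [p1, h0])
  have hd1 : ∀ j, j ≤ os.length → hd (p1 ρ) j = (hd ρ j).1 := fun j hj => hd_map _ (ne j hj)
  have hd2 : ∀ j, j ≤ os.length → hd (p2 ρ) j = (hd ρ j).2 := fun j hj => hd_map _ (ne j hj)
  have a1 : ∀ i j, i < j → j ≤ os.length → (hd ρ j).1 < (hd ρ i).1 := fun i j hij hj => by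
    rw [← hd1 j hj, ← hd1 i (by omega)]; exact ho.anti hij hj
  have hT : ∀ j, τ j ≠ [] → hd ρ j ∈ τ j := fun j hj => by
    rw [hρ]
    change hd (fun b => τ b ++ υ b) j ∈ _
    rw [hd_append υ hj]
    exact hd_mem hj
  have hU : ∀ j, j ≤ os.length → τ j = [] → (υ j)[0]? = some (hd ρ j) := fun j hj h0 => by
    have h1 : ρ j = υ j := by simp [hρ, jn, h0]
    rw [← h1, hd_cons (ne j hj)]
    rfl
  have hU' : ∀ j, j ≤ os.length → τ j = [] → hd ρ j ∈ υ j := fun j hj h0 =>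
    List.mem_of_getElem? (hU j hj h0)
  have seg : ∀ j, j ≤ os.length → τ j = [] → ∀ i, i ≤ j → τ i = [] := by
    intro j
    induction j with
    | zero => intro _ h0 i hi; rwa [Nat.le_zero.1 hi]
    | succ j ih =>
      intro hj h0 i hi
      rcases hi.lt_or_eq with hi | rfl
      · refine ih (by omega) ?_ i (by omega)
        by_contra hne
        exact lt_asymm (h.K2 j _ (hT j hne) _ (hU' _ hj h0)) (a1 j (j + 1) (by omega) hj)
      · exact h0
  have ho2 : OkA t os (p2 ρ) := by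
    refine ⟨ho.len, ho.le, fun j hj h0 => ne j hj (by simpa [p2] using h0), fun j hj => ?_⟩
    rw [hd2 _ hj, hd2 _ hj.le]
    by_cases h1 : τ (j + 1) = []
    · exact h.B (j + 1) j (by omega) 0 0 _ _ le_rfl (hU _ hj h1)
        (hU _ hj.le (seg _ hj h1 j (by omega)))
    · by_cases h2 : τ j = []
      · exact h.K1 (j + 1) j (by omega) _ (hT _ h1) _ (hU' _ hj.le h2)
      · exact h.J (j + 1) j (by omega) _ (hT _ h1) _ (hT _ h2) (a1 j (j + 1) (by omega) hj)
  have a2 : ∀ i j, i < j → j ≤ os.length → (hd ρ j).2 < (hd ρ i).2 := fun i j hij hj => by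
    rw [← hd2 j hj, ← hd2 i (by omega)]; exact ho2.anti hij hj
  let τ' : ℕ → List (ℕ × ℕ) := fun a => mv os ρ a ++ cut os.length τ a
  let υ' : ℕ → List (ℕ × ℕ) := fun a => if a ≤ os.length ∧ τ a = [] then (υ a).tail else υ a
  have e : jn τ' υ' = apA os ρ := by
    funext a
    simp only [jn, τ', υ', apA, cut, List.append_assoc, hρ]
    congr 1
    by_cases h1 : a ≤ os.length
    · cases hτ : τ a <;> simp [h1]
    · simp [h1]
  have e1 : p1 (jn τ' υ') = apA os (p1 ρ) := by rw [e]; exact (apA_map Prod.fst ne).symm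
  have e2 : p2 (jn τ' υ') = apA os (p2 ρ) := by rw [e]; exact (apA_map Prod.snd ne).symm
  have hm : ∀ a x, x ∈ τ' a → (∃ i, i < os.length ∧ a ≤ i ∧ x = hd ρ (i + 1)) ∨ x ∈ τ a := by
    intro a x hx
    rcases List.mem_append.1 hx with hx | hx
    · obtain ⟨i, hi, h1, h2⟩ := mem_mv.1 hx
      exact Or.inl ⟨i, hi, h1 ▸ ho.le i hi, h2.symm⟩
    · exact Or.inr ((cut_sublist _ _ _).subset hx)
  have hs : ∀ a x, x ∈ υ' a → x ∈ υ a := by
    intro a x hx
    simp only [υ'] at hx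
    split_ifs at hx
    · exact List.mem_of_mem_tail hx
    · exact hx
  refine ⟨ho2, τ', υ', ⟨?_, ?_, ?_, ?_, ?_, ?_, ?_⟩, e1, e2⟩
  · rw [e1]; exact h.inc.apA ho
  · rw [e1]; exact Lo.ap (t := t) (o := .inr os) h.lo1 ho
  · rw [e2]; exact Lo.ap (t := t) (o := .inr os) h.lo2 ho2
  · intro a b hab x hx y hy hxy
    rcases hm a x hx with ⟨i, hi, hai, rfl⟩ | hx <;> rcases hm b y hy with ⟨j, hj, hbj, rfl⟩ | hy
    · rcases lt_trichotomy i j with h1 | rfl | h1
      · exact absurd hxy (lt_asymm (a1 (i + 1) (j + 1) (by omega) hj))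
      · exact absurd hxy (lt_irrefl _)
      · exact a2 (j + 1) (i + 1) (by omega) hi
    · by_cases h1 : τ (i + 1) = []
      · rw [seg _ hi h1 b (by omega)] at hy
        exact absurd hy List.not_mem_nil
      · exact h.J (i + 1) b (by omega) _ (hT _ h1) y hy hxy
    · by_cases h0 : a ≤ j
      · have h2 := h.inc.hd_le (mem_p1 (ρ := ρ) (List.mem_append_left _ hx))
        rw [hd1 a (by omega)] at h2
        have := a1 a (j + 1) (by omega) hj
        omega
      · by_cases h1 : τ (j + 1) = []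
        · exact h.K1 a (j + 1) (by omega) x hx _ (hU' _ hj h1)
        · exact h.J a (j + 1) (by omega) x hx _ (hT _ h1) hxy
    · exact h.J a b hab x hx y hy hxy
  · intro a b hab x hx y hy
    have hy := hs b y hy
    rcases hm a x hx with ⟨i, hi, hai, rfl⟩ | hx
    · by_cases h1 : τ (i + 1) = []
      · obtain ⟨j, hj⟩ := List.getElem?_of_mem hy
        exact h.B (i + 1) b (by omega) 0 j _ _ (Nat.zero_le _) (hU _ hi h1) hj
      · exact h.K1 (i + 1) b (by omega) _ (hT _ h1) y hy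
    · exact h.K1 a b hab x hx y hy
  · intro a x hx y hy
    rcases hm a x hx with ⟨i, hi, hai, rfl⟩ | hx
    · have h1 : y ∈ (ρ (a + 1)).tail := by
        simp only [υ', hρ, jn] at hy ⊢
        have h2 : a + 1 ≤ os.length := by omega
        cases hτ : τ (a + 1) with
        | nil => simpa [h2, hτ] using hy
        | cons z l =>
          simp only [hτ, reduceCtorEq, and_false, if_false] at hy
          simp [hy]
      have h2 : y.1 ∈ (p1 ρ (a + 1)).tail := by
        rw [p1, ← List.map_tail]; exact List.mem_map_of_mem h1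
      have h3 := h.inc.hd_lt h2
      rw [hd1 _ (by omega)] at h3
      rcases hai.lt_or_eq with h4 | rfl
      · exact (a1 (a + 1) (i + 1) (by omega) hi).trans h3
      · exact h3
    · exact h.K2 a x hx y (hs _ y hy)
  · intro a b hab i j x y hij hx hy
    simp only [υ'] at hx hy
    by_cases h1 : a ≤ os.length ∧ τ a = []
    · rw [if_pos h1, List.getElem?_tail] at hx
      rw [if_pos ⟨by omega, seg a h1.1 h1.2 b hab.le⟩, List.getElem?_tail] at hy
      exact h.B a b hab _ _ x y (by omega) hx hy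
    · rw [if_neg h1] at hx
      split_ifs at hy
      · rw [List.getElem?_tail] at hy
        exact h.B a b hab _ _ x y (by omega) hx hy
      · exact h.B a b hab _ _ x y hij hx hy

theorem Sim.ok (Y : List Op) : ∀ {r1 r2 : ℕ} {τ υ : ℕ → List (ℕ × ℕ)}, Sim r1 r2 τ υ →
    nR Y ≤ r2 → Ok t Y (r1, p1 (jn τ υ)) → Ok t Y (r2, p2 (jn τ υ)) := by
  induction Y with
  | nil => intro _ _ _ _ _ _ _; trivial
  | cons o Y ih =>
    intro r1 r2 τ υ h hr ho
    cases o with
    | inl k =>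
      simp only [nR] at hr
      obtain ⟨τ', h1, e1, e2⟩ := h.stepR ho.1.1 ho.1.2 (by omega)
      refine ⟨⟨ho.1.1, by simp only; omega⟩, ?_⟩
      have h2 := ho.2
      simp only [ap] at h2 ⊢
      rw [← e1] at h2
      rw [← e2]
      exact ih h1 (by omega) h2
    | inr os =>
      obtain ⟨h0, τ', υ', h1, e1, e2⟩ := h.stepA ho.1
      refine ⟨h0, ?_⟩
      have h2 := ho.2
      simp only [ap] at h2 ⊢
      rw [← e1] at h2
      rw [← e2]
      exact ih h1 hr h2

def emp : ℕ → List ℕ := fun _ => []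

theorem ok_emp {Y : List Op} {r r' : ℕ} (h : Ok t Y (r, emp)) (hr : nR Y ≤ r') :
    Ok t Y (r', emp) := by
  refine Sim.ok (τ := fun _ => []) (υ := fun _ => []) (r1 := r) Y ?_ hr h
  constructor <;> simp [Inc, Lo, p1, p2, jn]

/-- The transfer lemma. -/
theorem transfer {G : List Op} {S : St} (hl : Lo S) (hi : Inc S.2) (h : Ok t G S) {r : ℕ}
    {σ : ℕ → List ℕ} (hb : Bal t σ 0) (hlen : ∀ a, a < t → G.length ≤ (σ a).length)
    (hlo : Lo (r, σ)) (hr : nR G ≤ r) : Ok t G (r, σ) := by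
  obtain ⟨r1, σ1⟩ := S
  let n : ℕ → ℕ := fun a => if a < t then min G.length (σ1 a).length else 0
  have n1 : ∀ a, ((σ1 a).take (n a)).length = n a := fun a => by
    simp only [n, List.length_take]; split_ifs <;> omega
  have n2 : ∀ a, ((σ a).take (n a)).length = n a := fun a => by
    simp only [n, List.length_take]
    split_ifs with ha
    · have := hlen a ha
      omega
    · omega
  let υ : ℕ → List (ℕ × ℕ) := fun a => ((σ1 a).take (n a)).zip ((σ a).take (n a))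
  have e1 : p1 (jn (fun _ => []) υ) = fun a => (σ1 a).take (n a) := funext fun a =>
    List.map_fst_zip (by rw [n1, n2])
  have e2 : p2 (jn (fun _ => []) υ) = fun a => (σ a).take (n a) := funext fun a =>
    List.map_snd_zip (by rw [n1, n2])
  have hS : Sim r1 r (fun _ => []) υ := by
    refine ⟨?_, ?_, ?_, by simp, by simp, by simp, ?_⟩
    · rw [e1]; exact fun a => (hi a).sublist (List.take_sublist _ _)
    · rw [e1]; exact fun a x hx => hl a x (List.mem_of_mem_take hx)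
    · rw [e2]; exact fun a x hx => hlo a x (List.mem_of_mem_take hx)
    · intro a b hab i j x y hij hx hy
      have hx2 := (List.getElem?_zip_eq_some.1 hx).2
      have hy2 := (List.getElem?_zip_eq_some.1 hy).2
      rw [List.getElem?_take] at hx2 hy2
      split_ifs at hx2 hy2 with c1 c2
      have ha : a < t := by
        by_contra ha
        simp [n, ha] at c1
      exact hb ⟨a, ha⟩ ⟨b, by omega⟩ hab i j _ _ (by simpa using hij) hx2 hy2
  have h1 : Ok t G (r1, fun a => (σ1 a).take (n a)) := by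
    refine ok_local (fun a => (σ1 a).drop (n a)) G (fun a ha => ?_) (by simpa using h)
    rw [n1, List.drop_eq_nil_iff]
    simp only [n, if_pos ha]
    omega
  have h2 := Sim.ok G hS hr (by rwa [e1])
  rw [e2] at h2
  simpa using (run_base (fun a => (σ a).drop (n a)) G h2).1

end Pool.Agent.P.MP_8acafb_co.HW
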