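import Pool.Agent.P.MP_8acafb_co.HW1
import Pool.Agent.P.MP_8acafb_co.Fekete

namespace Pool.Agent.P.MP_8acafb_co.HW

/-- The output of the first `j` stacks. -/
def Run (σ : ℕ → List ℕ) (w : List ℕ) : ℕ → List ℕ
  | 0 => w
  | j + 1 => pass (σ j) (Run σ w j)

def apw : Op → St → List ℕ → List ℕ
  | .inl _, _, w => w
  | .inr _, S, w => hd S.2 0 :: w

/-- The input word rebuilt by a code. -/
def wd : List Op → St → List ℕ → List ℕ
  | [], _, w => w
  | o :: Y, S, w => wd Y (ap o S) (apw o S w)

theorem wd_append (Y Z : List Op) : ∀ S w, wd (Y ++ Z) S w = wd Z (run Y S) (wd Y S w) := by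
  induction Y with
  | nil => intro S w; rfl
  | cons o Y ih => intro S w; exact ih _ _

theorem length_wd (Y : List Op) : ∀ S w, (wd Y S w).length + nR Y = w.length + Y.length := by
  induction Y with
  | nil => intro S w; rfl
  | cons o Y ih =>
    intro S w
    have := ih (ap o S) (apw o S w)
    cases o <;> simp only [wd, nR, apw, List.length_cons] at this ⊢ <;> omega

theorem Run_emp (w : List ℕ) (j : ℕ) : Run emp w j = s^[j] w := by
  induction j with
  | zero => rfl
  | succ j ih => rw [Function.iterate_succ_apply', ← ih]; rfl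

theorem mem_Run {σ : ℕ → List ℕ} {w : List ℕ} {y : ℕ} (j : ℕ) :
    y ∈ Run σ w j ↔ y ∈ w ∨ ∃ a, a < j ∧ y ∈ σ a := by
  induction j with
  | zero => simp [Run]
  | succ j ih =>
    rw [Run, (pass_perm _ _).mem_iff, List.mem_append, ih]
    constructor
    · rintro (h | h | ⟨a, ha, h⟩)
      · exact Or.inr ⟨j, by omega, h⟩
      · exact Or.inl h
      · exact Or.inr ⟨a, by omega, h⟩
    · rintro (h | ⟨a, ha, h⟩)
      · exact Or.inr (Or.inl h)
      · rcases Nat.lt_succ_iff_lt_or_eq.1 ha with ha | rfl
        · exact Or.inr (Or.inr ⟨a, ha, h⟩)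
        · exact Or.inl h

theorem pass_pop {x : ℕ} (st : List ℕ) {l : List ℕ} (h : ∀ y ∈ l.head?, x < y) :
    pass (x :: st) l = x :: pass st l := by
  cases l with
  | nil => rfl
  | cons y l => simp [pass, h y rfl]

theorem pass_push {x : ℕ} {st : List ℕ} (l : List ℕ) (h : ∀ y ∈ st, x < y) :
    pass st (x :: l) = pass (x :: st) l := by
  cases st with
  | nil => rfl
  | cons y st => simp [pass, (h y List.mem_cons_self).not_gt]

theorem pass_merge {ι : Type} (f : ι → ℕ) (p : ι → Bool) (z : ℕ) (hi X : List ℕ)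
    (hz : ∀ y ∈ hi, z < y) (I : List ι) (h : (I.map f).Pairwise (· < ·)) (hI : ∀ i ∈ I, f i < z) :
    pass ((I.filter p).map f ++ hi) ((I.filter fun i => !p i).map f ++ z :: X) =
      I.map f ++ pass (z :: hi) X := by
  induction I with
  | nil => exact pass_push X hz
  | cons i I ih =>
    rw [List.map_cons, List.pairwise_cons] at h
    have ih := ih h.2 fun j hj => hI j (List.mem_cons_of_mem _ hj)
    have h1 : ∀ q : ι → Bool, ∀ y ∈ (I.filter q).map f, f i < y := fun q y hy =>
      h.1 y ((List.filter_sublist.map f).subset hy)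
    have h0 := hI i List.mem_cons_self
    have h2 : ∀ y ∈ ((I.filter fun i => !p i).map f ++ z :: X).head?, f i < y := by
      intro y hy
      cases hc : (I.filter fun i => !p i).map f with
      | nil => rw [hc] at hy; cases hy; exact h0
      | cons u l => rw [hc] at hy; cases hy; exact h1 _ _ (hc ▸ List.mem_cons_self)
    cases hp : p i with
    | true =>
      simp only [List.filter_cons, hp, Bool.not_true, if_true, List.map_cons, List.cons_append,
        Bool.false_eq_true, if_false]
      rw [pass_pop _ h2, ih]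
    | false =>
      simp only [List.filter_cons, hp, Bool.not_false, if_true, List.map_cons, List.cons_append,
        Bool.false_eq_true, if_false]
      rw [pass_push, pass_pop _ h2, ih]
      intro y hy
      rcases List.mem_append.1 hy with hy | hy
      · exact h1 _ y hy
      · exact h0.trans (hz y hy)

/-- The tokens in flight after page `j`. -/
def fl (os : List ℕ) (σ : ℕ → List ℕ) (j : ℕ) : List ℕ :=
  ((List.range os.length).reverse.filter fun i => j ≤ i ∧ os.getD i 0 ≤ j).map fun i => hd σ (i + 1)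

def fl' (os : List ℕ) (σ : ℕ → List ℕ) (j : ℕ) : List ℕ :=
  ((List.range os.length).reverse.filter fun i => j ≤ i ∧ os.getD i 0 < j).map fun i => hd σ (i + 1)

variable {t : ℕ} {os : List ℕ} {σ : ℕ → List ℕ}

theorem fl_succ (ho : OkA t os σ) {j : ℕ} (hj : j < os.length) :
    fl os σ j = fl' os σ (j + 1) ++ [hd σ (j + 1)] := by
  refine List.Pairwise.eq_of_mem_iff (r := (· < ·)) (ho.mv_inc _)
    (List.pairwise_append.2 ⟨ho.mv_inc _, List.pairwise_singleton _ _, ?_⟩) fun x => ?_
  · intro x hx y hy
    rw [List.mem_singleton.1 hy]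
    simp only [fl', List.mem_map, List.mem_filter, List.mem_reverse, List.mem_range,
      decide_eq_true_eq] at hx
    obtain ⟨i, ⟨h1, h2, -⟩, rfl⟩ := hx
    exact ho.anti (by omega) h1
  · simp only [fl, fl', List.mem_append, List.mem_map, List.mem_filter, List.mem_reverse,
      List.mem_range, decide_eq_true_eq, List.mem_singleton]
    constructor
    · rintro ⟨i, ⟨h1, h2, h3⟩, rfl⟩
      rcases h2.lt_or_eq with h2 | rfl
      · exact Or.inl ⟨i, ⟨h1, h2, by omega⟩, rfl⟩
      · exact Or.inr rfl
    · rintro (⟨i, ⟨h1, h2, h3⟩, rfl⟩ | rfl)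
      · exact ⟨i, ⟨h1, by omega, by omega⟩, rfl⟩
      · exact ⟨j, ⟨hj, le_rfl, ho.le j hj⟩, rfl⟩

theorem casc_step (ho : OkA t os σ) (hi : Inc σ) {j : ℕ} (hj : j ≤ os.length) (X : List ℕ) :
    pass (apA os σ j) (fl' os σ j ++ hd σ j :: X) = fl os σ j ++ pass (σ j) X := by
  have h := pass_merge (fun i => hd σ (i + 1)) (fun i => decide (os.getD i 0 = j)) (hd σ j)
    (σ j).tail X (fun y hy => hi.hd_lt hy) _ (ho.mv_inc fun i => j ≤ i ∧ os.getD i 0 ≤ j) (by
      intro i hi
      simp only [List.mem_filter, List.mem_reverse, List.mem_range, decide_eq_true_eq] at hi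
      exact ho.anti (by omega) hi.1)
  rw [← hd_cons (ho.ne j hj), List.filter_filter, List.filter_filter] at h
  rw [fl, ← h, apA, cut, if_pos hj, mv, fl']
  congr 3
  · refine List.filter_congr fun i hi => ?_
    have := ho.le i (by simpa using hi)
    rw [← Bool.decide_and]
    exact decide_eq_decide.2 (by omega)
  · refine List.filter_congr fun i _ => ?_
    rw [← decide_not, ← Bool.decide_and]
    exact decide_eq_decide.2 (by omega)

theorem fl_high {j : ℕ} (hj : os.length ≤ j) : fl os σ j = [] := by
  rw [fl, List.map_eq_nil_iff, List.filter_eq_nil_iff]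
  intro i hi
  simp only [List.mem_reverse, List.mem_range] at hi
  simp only [decide_eq_true_eq]
  omega

theorem casc (ho : OkA t os σ) (hi : Inc σ) (w : List ℕ) (j : ℕ) :
    Run (apA os σ) (hd σ 0 :: w) (j + 1) = fl os σ j ++ Run σ w (j + 1) := by
  induction j with
  | zero =>
    have := casc_step ho hi (Nat.zero_le _) w
    rwa [show fl' os σ 0 = [] by simp [fl']] at this
  | succ j ih =>
    rw [Run, ih]
    by_cases hj : j < os.length
    · rw [fl_succ ho hj, List.append_assoc]
      exact casc_step ho hi hj _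
    · have h2 : mv os σ (j + 1) = [] :=
        List.eq_nil_iff_forall_not_mem.2 fun x hx => by have := (ho.mv_lt hx).1; omega
      rw [fl_high (by omega), fl_high (by omega), apA, h2, cut, if_neg (by omega)]
      rfl

theorem Run_apR {k x : ℕ} {w : List ℕ} (h1 : ∀ a, ∀ y ∈ σ a, x < y) (h2 : ∀ y ∈ w, x < y)
    (j : ℕ) : Run (apR k x σ) w j = if k < j then x :: Run σ w j else Run σ w j := by
  have h3 : ∀ j, ∀ y ∈ Run σ w j, x < y := fun j y hy => by
    rcases (mem_Run j).1 hy with h | ⟨a, -, h⟩
    · exact h2 y h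
    · exact h1 a y h
  induction j with
  | zero => rfl
  | succ j ih =>
    rw [Run, ih, apR, Run]
    rcases lt_trichotomy k j with h | rfl | h
    · rw [if_neg h.ne', if_pos h, if_pos (by omega), pass_push _ (h1 j),
        pass_pop _ fun y hy => h3 j y (List.mem_of_mem_head? hy)]
    · rw [if_pos rfl, if_neg (lt_irrefl _), if_pos (by omega),
        pass_pop _ fun y hy => h3 k y (List.mem_of_mem_head? hy)]
    · rw [if_neg h.ne, if_neg h.not_gt, if_neg (by omega)]

theorem Run_run (Y : List Op) : ∀ {S : St} {w : List ℕ} {n : ℕ}, Ok t Y S → Lo S → Inc S.2 →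
    Run S.2 w t = List.range' S.1 n →
    Run (run Y S).2 (wd Y S w) t = List.range' (S.1 - nR Y) (n + nR Y) := by
  induction Y with
  | nil => intro S w n _ _ _ h; exact h
  | cons o Y ih =>
    intro S w n ho hl hi h
    cases o with
    | inl k =>
      obtain ⟨⟨h1, h2⟩, h3⟩ := ho
      have h4 : Run (ap (.inl k) S).2 w t = List.range' (ap (.inl k) S).1 (n + 1) := by
        simp only [ap]
        rw [Run_apR, if_pos h1, h, List.range'_succ, Nat.sub_add_cancel h2]
        · intro a y hy
          have := hl a y hy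
          omega
        · intro y hy
          have := List.mem_range'_1.1 (h ▸ (mem_Run t).2 (Or.inl hy))
          omega
      have := ih h3 (hl.ap (o := .inl k) ⟨h1, h2⟩) (hi.ap (o := .inl k) hl ⟨h1, h2⟩) h4
      simp only [ap, nR, run, wd, apw] at this ⊢
      rw [this]
      congr 1 <;> omega
    | inr os =>
      obtain ⟨t', rfl⟩ : ∃ t', t = t' + 1 := ⟨t - 1, by have := ho.1.len; omega⟩
      refine ih ho.2 (hl.ap ho.1) (hi.ap hl ho.1) ?_
      simp only [ap, apw]
      rw [casc ho.1 hi, fl_high (Nat.le_of_lt_succ ho.1.len), h]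
      rfl

theorem mem_mv_iff (ho : OkA t os σ) (hi : Inc σ) {a x : ℕ} :
    x ∈ mv os σ a ↔ x ∈ apA os σ a ∧ a ≤ os.length ∧ x < hd σ a := by
  refine ⟨fun h => ⟨List.mem_append_left _ h, (ho.mv_lt h).1.le, (ho.mv_lt h).2⟩, ?_⟩
  rintro ⟨h1, h2, h3⟩
  refine (List.mem_append.1 h1).resolve_right fun h => ?_
  rw [cut, if_pos h2] at h
  exact lt_asymm h3 (hi.hd_lt h)

theorem det_step {os' : List ℕ} {σ' : ℕ → List ℕ} (ho : OkA t os σ) (ho' : OkA t os' σ')
    (hi' : Inc σ') (he : apA os σ = apA os' σ') {j : ℕ} (hj : j < os.length)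
    (h : ∀ a, a ≤ j → a ≤ os'.length ∧ hd σ a = hd σ' a) :
    j < os'.length ∧ hd σ (j + 1) ≤ hd σ' (j + 1) ∧
      (hd σ (j + 1) = hd σ' (j + 1) → os.getD j 0 = os'.getD j 0) := by
  have h1 : hd σ (j + 1) ∈ mv os σ (os.getD j 0) := mem_mv.2 ⟨j, hj, rfl, rfl⟩
  have h2 := h _ (ho.le j hj)
  obtain ⟨i, hi, h3, h4⟩ := mem_mv.1 ((mem_mv_iff ho' hi').2
    ⟨he ▸ List.mem_append_left _ h1, h2.1, h2.2 ▸ (ho.mv_lt h1).2⟩)
  have h5 : j ≤ i := by
    by_contra hc
    have := ho'.anti' (show i + 1 ≤ j by omega) (h j le_rfl).1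
    have := ho.dec j hj
    have := (h j le_rfl).2
    omega
  refine ⟨by omega, h4 ▸ ho'.anti' (by omega) hi, fun h6 => ?_⟩
  rcases h5.lt_or_eq with h5 | rfl
  · have := ho'.anti (show j + 1 < i + 1 by omega) hi
    omega
  · exact h3.symm

theorem detA {os' : List ℕ} {σ' : ℕ → List ℕ} (ho : OkA t os σ) (ho' : OkA t os' σ')
    (hi : Inc σ) (hi' : Inc σ') (he : apA os σ = apA os' σ') (h0 : hd σ 0 = hd σ' 0) :
    os = os' ∧ σ = σ' := by
  have P : ∀ j, j ≤ os.length ∨ j ≤ os'.length →
      ∀ a, a ≤ j → a ≤ os.length ∧ a ≤ os'.length ∧ hd σ a = hd σ' a := by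
    intro j
    induction j with
    | zero => intro _ a ha; rw [Nat.le_zero.1 ha]; exact ⟨Nat.zero_le _, Nat.zero_le _, h0⟩
    | succ j ih =>
      intro hj a ha
      have ih := ih (by omega)
      rcases ha.lt_or_eq with ha | rfl
      · exact ih a (by omega)
      · have s1 := fun hj => det_step ho ho' hi' he (j := j) hj fun a ha => (ih a ha).2
        have s2 := fun hj => det_step ho' ho hi he.symm (j := j) hj
          fun a ha => ⟨(ih a ha).1, (ih a ha).2.2.symm⟩
        rcases hj with hj | hj
        · exact ⟨hj, (s1 hj).1, le_antisymm (s1 hj).2.1 (s2 (s1 hj).1).2.1⟩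
        · exact ⟨(s2 hj).1, hj, le_antisymm (s1 (s2 hj).1).2.1 (s2 hj).2.1⟩
  have hk : os.length = os'.length :=
    le_antisymm (P _ (Or.inl le_rfl) _ le_rfl).2.1 (P _ (Or.inr le_rfl) _ le_rfl).1
  have P' := P _ (Or.inl le_rfl)
  have h1 : os = os' := by
    refine List.ext_getElem hk fun i h1 h2 => ?_
    have := (det_step ho ho' hi' he h1 fun a ha => (P' a (by omega)).2).2.2 (P' _ h1).2.2
    rwa [List.getD_eq_getElem _ _ h1, List.getD_eq_getElem _ _ h2] at this
  subst h1
  refine ⟨rfl, funext fun a => ?_⟩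
  have h2 := congrFun he a
  rw [apA, apA, mv_congr (σ := σ) (τ := σ') id fun j hj => (P' j hj).2.2.symm, List.map_id,
    List.append_cancel_left_eq, cut, cut] at h2
  split_ifs at h2 with h3
  · rw [hd_cons (ho.ne a h3), hd_cons (ho'.ne a h3), h2, (P' a h3).2.2]
  · exact h2

/-- Canonical codes: a letter is taken back directly after a new minimum only from page `0`. -/
def cok : Op → Op → Prop
  | .inl k, .inr _ => k = 0
  | _, _ => True

def Canon (Y : List Op) : Prop := Y.IsChain cok

theorem lo_emp (r : ℕ) : Lo (r, emp) := fun _ _ h => absurd h List.not_mem_nil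

theorem inc_emp : Inc emp := fun _ => List.Pairwise.nil

theorem min_not_mem (N : ℕ) (Y : List Op) : ∀ os : List ℕ, Canon (Y ++ [.inr os]) →
    Ok t (Y ++ [.inr os]) (N, emp) →
    ∀ a, (run Y (N, emp)).1 ∉ apA os (run Y (N, emp)).2 a := by
  induction Y using List.reverseRecOn with
  | nil => intro os _ h; exact absurd rfl (h.1.ne 0 (Nat.zero_le _))
  | append_singleton Y o ih =>
    intro os hc h a hx
    obtain ⟨h1, h2, -⟩ := (ok_append _ _ _).1 h
    obtain ⟨h3, h4, -⟩ := (ok_append _ _ _).1 h1
    rw [run_append] at hx h2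
    cases o with
    | inl k =>
      obtain rfl : k = 0 := (List.isChain_append.1 hc).2.2 (.inl k) (by simp) (.inr os) rfl
      have hl := (lo_emp N).run Y h3
      have h5 := h4.2
      simp only [run, ap] at hx
      have h6 : ∀ b, (run Y (N, emp)).1 - 1 ∉ (run Y (N, emp)).2 b := fun b hb => by
        have := hl b _ hb
        omega
      rcases List.mem_append.1 hx with hx | hx
      · obtain ⟨i, hi, -, h7⟩ := mem_mv.1 hx
        have := hd_mem (h2.ne (i + 1) hi)
        simp only [run, ap] at this
        rw [h7] at this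
        exact h6 _ this
      · cases a with
        | zero => exact h6 0 hx
        | succ a => exact h6 _ ((cut_sublist _ _ _).subset hx)
    | inr os' =>
      obtain ⟨b, hb⟩ := mem_apA h2.ne hx
      exact ih os' hc.left_of_append h1 b hb

theorem code_inj (N : ℕ) (Y : List Op) : ∀ Y' : List Op, Canon Y → Canon Y' →
    Ok t Y (N, emp) → Ok t Y' (N, emp) → Y.length = Y'.length → run Y (N, emp) = run Y' (N, emp) →
    wd Y (N, emp) [] = wd Y' (N, emp) [] → Y = Y' := by
  induction Y using List.reverseRecOn with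
  | nil => intro Y' _ _ _ _ h _ _; exact (List.eq_nil_of_length_eq_zero h.symm).symm
  | append_singleton Y o ih =>
    intro Y' hc hc' h h' hlen hr hw
    rcases List.eq_nil_or_concat' Y' with rfl | ⟨Y', o', rfl⟩
    · simp at hlen
    obtain ⟨h1, h2, -⟩ := (ok_append _ _ _).1 h
    obtain ⟨h1', h2', -⟩ := (ok_append _ _ _).1 h'
    rw [run_append, run_append] at hr
    rw [wd_append, wd_append] at hw
    have hl := (lo_emp N).run Y h1
    have hl' := (lo_emp N).run Y' h1'
    have ih := ih Y' hc.left_of_append hc'.left_of_append h1 h1' (by simpa using hlen)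
    obtain ⟨e1, e2⟩ := Prod.ext_iff.1 hr
    cases o with
    | inl k =>
      cases o' with
      | inl k' =>
        simp only [run, ap] at e1 e2
        have h3 := h2.2
        have h3' := h2'.2
        have e3 : (run Y (N, emp)).1 = (run Y' (N, emp)).1 := by omega
        obtain rfl : k = k' := by
          by_contra hne
          have := congrFun e2 k
          rw [apR, apR, if_pos rfl, if_neg hne] at this
          have := hl' k _ (this ▸ List.mem_cons_self)
          omega
        rw [ih (Prod.ext e3 (funext fun a => ?_)) hw]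
        have := congrFun e2 a
        rw [apR, apR] at this
        split_ifs at this
        · exact (List.cons.inj this).2
        · exact this
      | inr os' =>
        simp only [run, ap] at e1 e2
        refine absurd ?_ (min_not_mem N Y' os' hc' h' k)
        rw [← e1, ← e2, apR, if_pos rfl]
        exact List.mem_cons_self
    | inr os =>
      cases o' with
      | inl k' =>
        simp only [run, ap] at e1 e2
        refine absurd ?_ (min_not_mem N Y os hc h k')
        rw [e1, e2, apR, if_pos rfl]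
        exact List.mem_cons_self
      | inr os' =>
        obtain ⟨e3, e4⟩ := List.cons.inj hw
        obtain ⟨rfl, e5⟩ := detA h2 h2' (Inc.run Y (S := (N, emp)) inc_emp (lo_emp N) h1)
          (Inc.run Y' (S := (N, emp)) inc_emp (lo_emp N) h1') e2 e3
        rw [ih (Prod.ext e1 e5) e4]

end Pool.Agent.P.MP_8acafb_co.HW
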