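import Pool.Agent.P.MP_8acafb_co.HW2

namespace Pool.Agent.P.MP_8acafb_co.HW

theorem exists_chain (σ : ℕ → List ℕ) (z : ℕ) : ∃ (k : ℕ) (h o : ℕ → ℕ), h 0 = z ∧
    (∀ j, j < k → h (j + 1) < h j ∧ o j ≤ j ∧ h (j + 1) ∈ σ (o j)) ∧
    ∀ j, j ≤ k → ∀ a, a ≤ j → ∀ x ∈ σ a, x < h j → j < k ∧ x ≤ h (j + 1) := by
  classical
  let F : ℕ → ℕ → Finset ℕ := fun j y =>
    ((Finset.range (j + 1)).biUnion fun a => (σ a).toFinset).filter (· < y)
  have hF : ∀ j y x, x ∈ F j y ↔ (∃ a, a ≤ j ∧ x ∈ σ a) ∧ x < y := fun j y x => by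
    simp [F]
  let h : ℕ → ℕ := fun j => Nat.rec z (fun j y => (F j y).sup id) j
  have hs : ∀ j, h (j + 1) = (F j (h j)).sup id := fun _ => rfl
  have hm : ∀ j, (F j (h j)).Nonempty → h (j + 1) ∈ F j (h j) := fun j hne => by
    obtain ⟨x, hx, he⟩ := Finset.exists_mem_eq_sup _ hne id
    rw [hs, he]; exact hx
  have hex : ∃ j, ¬ (F j (h j)).Nonempty := by
    by_contra hc
    push Not at hc
    have : ∀ j, h j + j ≤ z := fun j => by
      induction j with
      | zero => exact le_rfl
      | succ j ih => have := ((hF _ _ _).1 (hm j (hc j))).2; omega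
    have := this (z + 1)
    omega
  have ho : ∀ j, ∃ a, j < Nat.find hex → a ≤ j ∧ h (j + 1) ∈ σ a := fun j => by
    by_cases hj : j < Nat.find hex
    · obtain ⟨a, ha⟩ := ((hF _ _ _).1 (hm j (not_not.1 (Nat.find_min hex hj)))).1
      exact ⟨a, fun _ => ha⟩
    · exact ⟨0, fun h => absurd h hj⟩
  choose o ho using ho
  refine ⟨Nat.find hex, h, o, rfl, fun j hj =>
    ⟨((hF _ _ _).1 (hm j (not_not.1 (Nat.find_min hex hj)))).2, ho j hj⟩, fun j hj a ha x hx hlt => ?_⟩
  have hx' : x ∈ F j (h j) := (hF _ _ _).2 ⟨⟨a, ha, hx⟩, hlt⟩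
  refine ⟨lt_of_le_of_ne hj fun he => Nat.find_spec hex (he ▸ ⟨x, hx'⟩), ?_⟩
  rw [hs]
  exact Finset.le_sup (f := id) hx'

theorem exists_pred {σ : ℕ → List ℕ} (hi : Inc σ) (hdis : ∀ a b y, y ∈ σ a → y ∈ σ b → a = b)
    {z : ℕ} (hz : ∀ a, z ∉ σ a) : ∃ os σ0, OkA (os.length + 1) os σ0 ∧ apA os σ0 = σ ∧
      hd σ0 0 = z ∧ Inc σ0 ∧ ∀ a, os.length < a → σ0 a = σ a := by
  obtain ⟨k, h, o, h0, h1, h2⟩ := exists_chain σ z
  let os := (List.range k).map o
  have hk : os.length = k := by simp [os]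
  have hos : ∀ i, i < k → os.getD i 0 = o i := fun i hi => by simp [os, hi]
  let σ0 : ℕ → List ℕ := fun a => if a ≤ k then h a :: (σ a).filter (h a < ·) else σ a
  have hh : ∀ a, a ≤ k → hd σ0 a = h a := fun a ha => by simp [hd, σ0, ha]
  have ho : OkA (os.length + 1) os σ0 := by
    refine ⟨Nat.lt_succ_self _, fun i hi => ?_, fun j hj => ?_, fun j hj => ?_⟩
    · rw [hos i (hk ▸ hi)]; exact (h1 i (hk ▸ hi)).2.1
    · simp [σ0, hk ▸ hj]
    · rw [hk] at hj
      rw [hh _ hj, hh _ hj.le]
      exact (h1 j hj).1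
  have hi0 : Inc σ0 := fun a => by
    simp only [σ0]
    split_ifs
    · exact List.pairwise_cons.2 ⟨fun x hx => by simpa using (List.mem_filter.1 hx).2,
        (hi a).filter _⟩
    · exact hi a
  refine ⟨os, σ0, ho, funext fun a => ?_, (hh 0 (Nat.zero_le _)).trans h0, hi0,
    fun a ha => if_neg (by omega)⟩
  refine List.Pairwise.eq_of_mem_iff (r := (· < ·)) (hi0.apA ho a) (hi a) fun x => ?_
  rw [apA, List.mem_append, mem_mv, cut, hk]
  constructor
  · rintro (⟨i, hik, e1, e2⟩ | hx)
    · rw [← e2, hh _ hik, ← e1, hos i hik]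
      exact (h1 i hik).2.2
    · simp only [σ0] at hx
      split_ifs at hx
      · exact (List.mem_filter.1 hx).1
      · exact hx
  · intro hx
    by_cases ha : a ≤ k
    · rcases lt_trichotomy x (h a) with hlt | he | hlt
      · left
        have key : ∀ d j, j + d = k → a ≤ j → x < h j → ∃ i, i < k ∧ h (i + 1) = x := by
          intro d
          induction d with
          | zero => intro j hj haj hlt; have := (h2 j (by omega) a haj x hx hlt).1; omega
          | succ d ih =>
            intro j hj haj hlt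
            rcases (h2 j (by omega) a haj x hx hlt).2.lt_or_eq with h3 | h3
            · exact ih (j + 1) (by omega) (by omega) h3
            · exact ⟨j, by omega, h3.symm⟩
        obtain ⟨i, hik, e⟩ := key (k - a) a (by omega) le_rfl hlt
        exact ⟨i, hik, (hos i hik).trans (hdis _ _ x (e ▸ (h1 i hik).2.2) hx), (hh _ hik).trans e⟩
      · exfalso
        cases a with
        | zero => exact hz 0 (h0 ▸ he ▸ hx)
        | succ a =>
          have h3 := h1 a ha
          have := hdis _ _ x (he ▸ h3.2.2) hx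
          omega
      · right
        simp [σ0, ha, hx, hlt]
    · right
      simp [σ0, ha, hx]

theorem nodup_Run {σ : ℕ → List ℕ} {w : List ℕ} (j : ℕ) : (Run σ w j).Nodup →
    ∀ b, b < j → ∀ y ∈ σ b, y ∉ w ∧ ∀ a, a < b → y ∉ σ a := by
  induction j with
  | zero => intro _ b hb; omega
  | succ j ih =>
    intro h b hb y hy
    rw [Run, (pass_perm _ _).nodup_iff, List.nodup_append] at h
    rcases Nat.lt_succ_iff_lt_or_eq.1 hb with hb | rfl
    · exact ih h.2.1 b hb y hy
    · exact ⟨fun hw => h.2.2 y hy y ((mem_Run b).2 (Or.inl hw)) rfl,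
        fun a ha hya => h.2.2 y hy y ((mem_Run b).2 (Or.inr ⟨a, ha, hya⟩)) rfl⟩

theorem mem_apA_of_mem {os : List ℕ} {σ : ℕ → List ℕ} {k x : ℕ} (hk : k ≠ 0) (hx : x ∈ σ k) :
    ∃ b, x ∈ apA os σ b := by
  by_cases h : k ≤ os.length
  · rw [hd_cons (List.ne_nil_of_mem hx)] at hx
    rcases List.mem_cons.1 hx with rfl | hx
    · obtain ⟨i, rfl⟩ := Nat.exists_eq_succ_of_ne_zero hk
      exact ⟨_, List.mem_append_left _ (mem_mv.2 ⟨i, h, rfl, rfl⟩)⟩
    · exact ⟨k, List.mem_append_right _ (by rwa [cut, if_pos h])⟩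
  · exact ⟨k, List.mem_append_right _ (by rwa [cut, if_neg h])⟩

theorem exists_code {t : ℕ} (ht : 1 ≤ t) (N : ℕ) : ∀ (n r : ℕ) (σ : ℕ → List ℕ) (w : List ℕ),
    N - r + w.length = n → r ≤ N → Inc σ → (∀ a, t ≤ a → σ a = []) →
    Run σ w t = List.range' r (N - r) → ∃ Y, Canon Y ∧ Ok t Y (N, emp) ∧
      run Y (N, emp) = (r, σ) ∧ wd Y (N, emp) [] = w ∧
      ∀ k, Y.getLast? = some (.inl k) → r ∈ σ k := by
  intro n
  induction n using Nat.strong_induction_on with
  | _ n ih =>
  intro r σ w hn hr hi hh hR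
  have hlt : ∀ a y, y ∈ σ a → a < t := fun a y hy => by
    by_contra hc
    rw [hh a (by omega)] at hy
    exact List.not_mem_nil hy
  have hnd := nodup_Run t (hR ▸ List.nodup_range')
  have hdis : ∀ a b y, y ∈ σ a → y ∈ σ b → a = b := fun a b y ha hb => by
    rcases lt_trichotomy a b with h | h | h
    · exact absurd ha ((hnd b (hlt b y hb) y hb).2 a h)
    · exact h
    · exact absurd hb ((hnd a (hlt a y ha) y ha).2 b h)
  have hlo : ∀ a, ∀ y ∈ σ a, r ≤ y ∧ y < r + (N - r) := fun a y hy =>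
    List.mem_range'_1.1 (hR ▸ (mem_Run t).2 (Or.inr ⟨a, hlt a y hy, hy⟩))
  by_cases hA : ∃ k, r ∈ σ k
  · obtain ⟨k, hk⟩ := hA
    have hne := List.ne_nil_of_mem hk
    have e0 : hd σ k = r := le_antisymm (hi.hd_le hk) (hlo k _ (hd_mem hne)).1
    let σ0 : ℕ → List ℕ := fun a => if a = k then (σ a).tail else σ a
    have e1 : apR k r σ0 = σ := funext fun a => by
      simp only [apR, σ0]
      split_ifs with h
      · rw [h, ← e0, ← hd_cons hne]
      · rfl
    have hrN := (hlo k r hk).2
    have e2 : Run σ w t = r :: Run σ0 w t := by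
      rw [← e1, Run_apR, if_pos (hlt k r hk)]
      · intro a y hy
        simp only [σ0] at hy
        split_ifs at hy with h
        · exact e0 ▸ hi.hd_lt (h ▸ hy)
        · exact lt_of_le_of_ne (hlo a y hy).1 fun he => h (hdis _ _ r (he ▸ hy) hk)
      · intro y hy
        refine lt_of_le_of_ne (List.mem_range'_1.1 (hR ▸ (mem_Run t).2 (Or.inl hy))).1 fun he => ?_
        exact (hnd k (hlt k r hk) r hk).1 (he ▸ hy)
    obtain ⟨Y, c1, c2, c3, c4, -⟩ := ih _ (by omega) (r + 1) σ0 w rfl (by omega)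
      (fun a => by
        simp only [σ0]
        split_ifs
        · exact (hi a).sublist (List.tail_sublist _)
        · exact hi a)
      (fun a ha => by simp [σ0, hh a ha]) (by
        rw [e2, show N - r = N - (r + 1) + 1 by omega, List.range'_succ] at hR
        exact (List.cons.inj hR).2)
    refine ⟨Y ++ [.inl k], c1.append (List.isChain_singleton _) ?_, (ok_append _ _ _).2 ⟨c2, ?_⟩,
      ?_, ?_, ?_⟩
    · intro x _ y hy
      cases hy
      cases x <;> trivial
    · rw [c3]; exact ⟨⟨hlt k r hk, Nat.succ_pos _⟩, trivial⟩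
    · rw [run_append, c3]; exact Prod.ext rfl e1
    · rw [wd_append, c4]; rfl
    · intro k' hk'
      simp only [List.getLast?_concat, Option.some.injEq, Sum.inl.injEq] at hk'
      exact hk' ▸ hk
  · cases w with
    | nil =>
      have e1 : r = N := by
        by_contra hc
        have : r ∈ Run σ [] t := hR ▸ List.mem_range'_1.2 ⟨le_rfl, by omega⟩
        rcases (mem_Run t).1 this with h | ⟨a, -, h⟩
        · exact List.not_mem_nil h
        · exact hA ⟨a, h⟩
      refine ⟨[], List.isChain_nil, trivial, Prod.ext e1.symm (funext fun a => ?_), rfl, by simp⟩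
      refine (List.eq_nil_iff_forall_not_mem.2 fun y hy => ?_).symm
      have := hlo a y hy
      omega
    | cons z w =>
      obtain ⟨os, σ0, ho, e1, e2, hi0, hh0⟩ := exists_pred hi hdis (z := z)
        fun a ha => (hnd a (hlt a z ha) z ha).1 List.mem_cons_self
      obtain ⟨t', rfl⟩ : ∃ t', t = t' + 1 := ⟨t - 1, by omega⟩
      have e3 := casc ho hi0 w t'
      rw [e1, e2, hR] at e3
      have hk : os.length ≤ t' := by
        by_contra hc
        cases hf : fl os σ0 t' with
        | nil => rw [fl_succ ho (by omega)] at hf; simp at hf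
        | cons y l =>
          have h1 : y ∈ fl os σ0 t' := hf ▸ List.mem_cons_self
          simp only [fl, List.mem_map, List.mem_filter, List.mem_reverse, List.mem_range] at h1
          obtain ⟨i, ⟨h1, -⟩, h2⟩ := h1
          rw [hf] at e3
          have h3 : r = y := by
            cases hN : N - r with
            | zero => rw [hN] at e3; cases e3
            | succ m => rw [hN, List.range'_succ] at e3; exact (List.cons.inj e3).1
          have h4 : r ∈ apA os σ0 (os.getD i 0) :=
            List.mem_append_left _ (mem_mv.2 ⟨i, h1, rfl, h2.trans h3.symm⟩)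
          exact hA ⟨_, e1 ▸ h4⟩
      rw [fl_high hk, List.nil_append] at e3
      obtain ⟨Y, c1, c2, c3, c4, c5⟩ := ih _ (by simp only [List.length_cons] at hn; omega) r σ0 w
        rfl hr hi0 (fun a ha => (hh0 a (by omega)).trans (hh a ha)) e3.symm
      refine ⟨Y ++ [.inr os], c1.append (List.isChain_singleton _) ?_,
        (ok_append _ _ _).2 ⟨c2, ?_⟩, ?_, ?_, by simp⟩
      · intro x hx y hy
        cases hy
        cases x with
        | inl k =>
          by_contra hc
          obtain ⟨b, hb⟩ := mem_apA_of_mem (os := os) hc (c5 k hx)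
          exact hA ⟨b, e1 ▸ hb⟩
        | inr _ => trivial
      · rw [c3]; exact ⟨⟨Nat.lt_succ_of_le hk, ho.le, ho.ne, ho.dec⟩, trivial⟩
      · rw [run_append, c3]; exact Prod.ext rfl e1
      · rw [wd_append, c4, c3]; exact congrArg (· :: w) e2

end Pool.Agent.P.MP_8acafb_co.HW
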