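import Pool.Agent.P.MP_8acafb_co.HW3

namespace Pool.Agent.P.MP_8acafb_co.HW

open Finset

def words {α : Type} [DecidableEq α] (S : Finset α) : ℕ → Finset (List α)
  | 0 => {[]}
  | n + 1 => image₂ List.cons S (words S n)

theorem mem_words {α : Type} [DecidableEq α] {S : Finset α} {n : ℕ} {l : List α} :
    l ∈ words S n ↔ l.length = n ∧ ∀ x ∈ l, x ∈ S := by
  induction n generalizing l with
  | zero => cases l <;> simp [words]
  | succ n ih =>
    cases l with
    | nil => simp [words]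
    | cons x l =>
      simp only [words, mem_image₂, ih, List.cons.injEq, List.length_cons, Nat.add_right_cancel_iff,
        List.mem_cons, forall_eq_or_imp]
      exact ⟨fun ⟨a, ha, b, hb, e1, e2⟩ => e1 ▸ e2 ▸ ⟨hb.1, ha, hb.2⟩,
        fun h => ⟨x, h.2.1, l, ⟨h.1, h.2.2⟩, rfl, rfl⟩⟩

theorem card_words {α : Type} [DecidableEq α] (S : Finset α) (n : ℕ) :
    (words S n).card ≤ S.card ^ n := by
  induction n with
  | zero => simp [words]
  | succ n ih =>
    rw [pow_succ']
    exact (card_image₂_le _ _ _).trans (Nat.mul_le_mul_left _ ih)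

/-- The alphabet. -/
def Al (t : ℕ) : Finset Op := (range t).disjSum ((range t).biUnion (words (range t)))

variable {t : ℕ}

theorem card_Al (ht : 1 ≤ t) : (Al t).card ≤ 2 * t ^ (t + 1) := by
  have h1 : ((range t).biUnion (words (range t))).card ≤ t * t ^ t := by
    refine (card_biUnion_le_card_mul _ _ (t ^ t) fun k hk => (card_words _ _).trans ?_).trans ?_
    · rw [card_range]; exact Nat.pow_le_pow_right ht (mem_range.1 hk).le
    · rw [card_range]
  have h2 : t * 1 ≤ t * t ^ t := Nat.mul_le_mul_left _ (Nat.one_le_pow _ _ ht)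
  rw [Al, card_disjSum, card_range, pow_succ']
  omega

theorem ok_mem_Al {o : Op} {S : St} (h : ok t o S) : o ∈ Al t := by
  cases o with
  | inl k => exact inl_mem_disjSum.2 (mem_range.2 h.1)
  | inr os =>
    refine inr_mem_disjSum.2 (mem_biUnion.2 ⟨_, mem_range.2 h.len, mem_words.2 ⟨rfl, ?_⟩⟩)
    intro x hx
    obtain ⟨i, hi, rfl⟩ := List.getElem_of_mem hx
    have h1 := h.le i hi
    have h2 := h.len
    rw [List.getD_eq_getElem _ _ hi] at h1
    exact mem_range.2 (by omega)

theorem Ok_mem_Al {Y : List Op} : ∀ {S : St}, Ok t Y S → ∀ o ∈ Y, o ∈ Al t := by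
  induction Y with
  | nil => intro S _ o ho; exact absurd ho List.not_mem_nil
  | cons o Y ih => intro S h; exact List.forall_mem_cons.2 ⟨ok_mem_Al h.1, ih h.2⟩

open Classical in
noncomputable def fm (t l : ℕ) (p : List Op → Prop) : Finset (List Op) := (words (Al t) l).filter p

/-- The number of words of length `l` with property `p`. -/
noncomputable def cn (t l : ℕ) (p : List Op → Prop) : ℕ := (fm t l p).card

theorem mem_fm {l : ℕ} {p : List Op → Prop} {Y : List Op} :
    Y ∈ fm t l p ↔ Y.length = l ∧ (∀ o ∈ Y, o ∈ Al t) ∧ p Y := by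
  simp [fm, mem_words, and_assoc]

theorem cn_le (l : ℕ) (p : List Op → Prop) : cn t l p ≤ (Al t).card ^ l := by
  classical
  exact (card_filter_le _ _).trans (card_words _ _)

theorem cn_mul {l l' : ℕ} {p q r : List Op → Prop}
    (h : ∀ Y Z, Y.length = l → Z.length = l' → p Y → q Z → r (Y ++ Z)) :
    cn t l p * cn t l' q ≤ cn t (l + l') r := by
  rw [cn, cn, cn, ← card_product]
  refine card_le_card_of_injOn (fun z => z.1 ++ z.2) ?_ ?_
  · rintro ⟨Y, Z⟩ hz
    simp only [coe_product, Set.mem_prod, mem_coe, mem_fm] at hz ⊢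
    obtain ⟨⟨h1, h2, h3⟩, h4, h5, h6⟩ := hz
    exact ⟨by simp [h1, h4], List.forall_mem_append.2 ⟨h2, h5⟩, h Y Z h1 h4 h3 h6⟩
  · rintro ⟨Y, Z⟩ hz ⟨Y', Z'⟩ hz' he
    simp only [coe_product, Set.mem_prod, mem_coe, mem_fm] at hz hz'
    exact Prod.ext_iff.2 (List.append_inj he (hz.1.1.trans hz'.1.1.symm))

theorem cn_pos {p : List Op → Prop} {Y : List Op} (h1 : ∀ o ∈ Y, o ∈ Al t) (h2 : p Y) :
    1 ≤ cn t Y.length p := card_pos.2 ⟨Y, mem_fm.2 ⟨rfl, h1, h2⟩⟩

theorem cn_ext {l : ℕ} {p q : List Op → Prop} (Z : List Op) (hZ : ∀ o ∈ Z, o ∈ Al t)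
    (h : ∀ Y, p Y → q (Y ++ Z)) : cn t l p ≤ cn t (l + Z.length) q :=
  (Nat.le_mul_of_pos_right _ (cn_pos (p := (· = Z)) hZ rfl)).trans
    (cn_mul fun Y _ _ _ hp hq => hq ▸ h Y hp)

theorem cn_mono {l : ℕ} {p q : List Op → Prop} (h : ∀ Y, p Y → q Y) : cn t l p ≤ cn t l q :=
  card_le_card fun _ hY => mem_fm.2 ⟨(mem_fm.1 hY).1, (mem_fm.1 hY).2.1, h _ (mem_fm.1 hY).2.2⟩

theorem cn_cut {ι : Type} (T : Finset ι) {l l' : ℕ} {p q : ι → List Op → Prop} {r : List Op → Prop}
    (h : ∀ Y Z, Z.length = l' → r (Y ++ Z) → ∃ θ ∈ T, p θ Y ∧ q θ Z) :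
    cn t (l + l') r ≤ ∑ θ ∈ T, cn t l (p θ) * cn t l' (q θ) := by
  refine (card_le_card (t := T.biUnion fun θ => image₂ (· ++ ·) (fm t l (p θ)) (fm t l' (q θ)))
    fun Y hY => ?_).trans (card_biUnion_le.trans (sum_le_sum fun θ _ => card_image₂_le _ _ _))
  obtain ⟨h1, h2, h3⟩ := mem_fm.1 hY
  have h4 : (Y.drop l).length = l' := by simp [h1]
  obtain ⟨θ, hθ, h5, h6⟩ := h (Y.take l) (Y.drop l) h4 (by rwa [List.take_append_drop])
  exact mem_biUnion.2 ⟨θ, hθ, mem_image₂.2 ⟨Y.take l,
    mem_fm.2 ⟨by simp [h1], fun o ho => h2 o (List.mem_of_mem_take ho), h5⟩, Y.drop l,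
    mem_fm.2 ⟨h4, fun o ho => h2 o (List.mem_of_mem_drop ho), h6⟩, List.take_append_drop _ _⟩⟩

def Good (t : ℕ) (Y : List Op) : Prop := Canon Y ∧ ∃ r, Ok t Y (r, emp)

def PG (t : ℕ) (h : Fin t → ℤ) (Y : List Op) : Prop := Good t Y ∧ th t Y = h

def PB (t : ℕ) (h d : Fin t → ℤ) (Y : List Op) : Prop :=
  PG t h Y ∧ ∀ r, nR Y ≤ r → Bal t (run Y (r, emp)).2 d

def Win (t : ℕ) (θ : Fin t → ℤ) (G : List Op) : Prop :=
  Canon G ∧ th t G = θ ∧ ∃ S : St, Lo S ∧ Inc S.2 ∧ Ok t G S

theorem Good.ok {Y : List Op} (h : Good t Y) {r : ℕ} (hr : nR Y ≤ r) : Ok t Y (r, emp) :=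
  let ⟨_, h1⟩ := h.2; ok_emp h1 hr

theorem Good.mem_Al {Y : List Op} (h : Good t Y) : ∀ o ∈ Y, o ∈ Al t :=
  let ⟨_, h1⟩ := h.2; Ok_mem_Al h1

theorem Good.length {Y : List Op} (h : Good t Y) {r : ℕ} (hr : nR Y ≤ r) (a : Fin t) :
    (((run Y (r, emp)).2 a).length : ℤ) = th t Y a := by
  simpa [emp] using length_run Y a (h.ok hr)

theorem closed_run {Y : List Op} (h : PG t 0 Y) {r : ℕ} (hr : nR Y ≤ r) :
    (run Y (r, emp)).2 = emp := by
  funext a
  by_cases ha : a < t
  · have := h.1.length hr ⟨a, ha⟩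
    rw [h.2] at this
    exact List.eq_nil_of_length_eq_zero (by simpa using this)
  · exact run_high Y (by omega) (h.1.ok hr)

theorem closed_srt {Y : List Op} (h : PG t 0 Y) :
    Y.length = 2 * nR Y ∧ Srt t (nR Y) (wd Y (nR Y, emp) []) := by
  have h1 := Run_run Y (w := []) (n := 0) (h.1.ok le_rfl) (lo_emp _) inc_emp
    ((Run_emp _ _).trans (iter_s_perm t []).eq_nil)
  rw [closed_run h le_rfl, Run_emp, Nat.sub_self, Nat.zero_add, ← List.range_eq_range'] at h1
  have h2 := h1 ▸ (iter_s_perm t (wd Y (nR Y, emp) [])).symm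
  have h3 := length_wd Y (nR Y, emp) []
  rw [h2.length_eq, List.length_range, List.length_nil] at h3
  exact ⟨by omega, h2, h1⟩

theorem cn_le_W (N : ℕ) : cn t (2 * N) (PG t 0) ≤ W t N := by
  have key : ∀ Y ∈ fm t (2 * N) (PG t 0), nR Y = N := fun Y hY => by
    have h1 := (mem_fm.1 hY).1
    have h2 := (closed_srt (mem_fm.1 hY).2.2).1
    omega
  refine card_le_card_of_injOn (fun Y => wd Y (N, emp) []) (fun Y hY => ?_) fun Y hY Y' hY' he => ?_
  · have := (closed_srt (mem_fm.1 hY).2.2).2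
    rw [key Y hY] at this
    exact mem_X.2 this
  · obtain ⟨h1, -, h2⟩ := mem_fm.1 hY
    obtain ⟨h1', -, h2'⟩ := mem_fm.1 hY'
    refine code_inj N Y Y' h2.1.1 h2'.1.1 (h2.1.ok (key Y hY).le) (h2'.1.ok (key Y' hY').le)
      (h1.trans h1'.symm) (Prod.ext ?_ ?_) he
    · rw [run_fst, run_fst, key Y hY, key Y' hY']
    · rw [closed_run h2 (key Y hY).le, closed_run h2' (key Y' hY').le]

theorem W_le_cn (ht : 1 ≤ t) (N : ℕ) : W t N ≤ cn t (2 * N) (PG t 0) := by
  refine card_le_card_of_surjOn (fun Y => wd Y (N, emp) []) fun π hπ => ?_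
  have h := mem_X.1 hπ
  obtain ⟨Y, h1, h2, h3, h4, -⟩ := exists_code ht N _ 0 emp π rfl (Nat.zero_le _) inc_emp
    (fun _ _ => rfl) (by rw [Run_emp, h.2, List.range_eq_range', Nat.sub_zero])
  refine ⟨Y, mem_fm.2 ⟨?_, Ok_mem_Al h2, ⟨h1, N, h2⟩, funext fun a => ?_⟩, h4⟩
  · have h5 := length_wd Y (N, emp) []
    have h6 := run_fst Y (N, emp)
    have h7 := nR_le Y _ h2
    rw [h4, h.1.length_eq, List.length_range, List.length_nil] at h5
    rw [h3] at h6
    simp only at h6 h7
    omega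
  · have := length_run Y a h2
    rw [h3] at this
    simpa [emp] using this.symm

theorem Good.run_append {Y Z : List Op} (hY : Good t Y) (hZ : Good t Z) {r : ℕ}
    (hr : nR Y + nR Z ≤ r) : Ok t (Y ++ Z) (r, emp) ∧ (run (Y ++ Z) (r, emp)).2 =
      fun a => (run Z (r - nR Y, emp)).2 a ++ (run Y (r, emp)).2 a := by
  have h1 := run_base (run Y (r, emp)).2 Z (hZ.ok (r := r - nR Y) (by omega))
  have h2 : run Y (r, emp) = (r - nR Y, fun a => emp a ++ (run Y (r, emp)).2 a) :=
    Prod.ext (run_fst _ _) rfl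
  rw [ok_append, HW.run_append, h2]
  exact ⟨⟨hY.ok (by omega), h1.1⟩, congrArg Prod.snd h1.2⟩

theorem Good.append {Y Z : List Op} (hY : Good t Y) (hZ : Good t Z) : Good t (Y ++ Z) := by
  refine ⟨hY.1.append hZ.1 fun x _ y hy => ?_, _, (hY.run_append hZ le_rfl).1⟩
  obtain ⟨r, h⟩ := hZ.2
  cases Z with
  | nil => cases hy
  | cons o Z =>
    cases hy
    cases y with
    | inl k => cases x <;> trivial
    | inr os => exact absurd rfl (h.1.ne 0 (Nat.zero_le _))

theorem PG.append {h h' : Fin t → ℤ} {Y Z : List Op} (hY : PG t h Y) (hZ : PG t h' Z) :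
    PG t (h + h') (Y ++ Z) := ⟨hY.1.append hZ.1, by rw [th_append, hY.2, hZ.2]⟩

theorem PB.layer {h d x : Fin t → ℤ} {Y Z : List Op} (hY : PB t h (d + x) Y) (hZ : PG t x Z)
    (hc : ∀ b l, b < l → x b ≠ 0 → x b + d b ≤ d l) : PB t (h + x) d (Y ++ Z) := by
  refine ⟨hY.1.append hZ, fun r hr => ?_⟩
  rw [nR_append] at hr
  rw [(hY.1.1.run_append hZ.1 hr).2]
  intro a b hab i j u v hij hu hv
  have hr' : nR Z ≤ r - nR Y := by omega
  have la := hZ.1.length hr' a
  have lb := hZ.1.length hr' b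
  rw [hZ.2] at la lb
  simp only [List.getElem?_append] at hu hv
  split_ifs at hu hv with c1 c2 c2
  · have := hc b a hab (by omega)
    omega
  · have h1 := run_lt Z (hZ.1.ok hr') le_rfl (fun _ _ h => absurd h List.not_mem_nil) a u
      (List.mem_of_getElem? hu)
    have h2 := (lo_emp r).run Y (hY.1.1.ok (by omega)) b v (List.mem_of_getElem? hv)
    rw [run_fst] at h2
    exact h1.trans_le h2
  · have := hc b a hab (by omega)
    omega
  · refine hY.2 r (by omega) a b hab _ _ u v ?_ hu hv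
    simp only [Pi.add_apply]
    omega

theorem PG_single (b : Fin t) (n : ℕ) :
    PG t (Pi.single b (n : ℤ)) (List.replicate n (.inl b)) := by
  refine ⟨⟨List.isChain_replicate_of_rel n trivial, n, ?_⟩, funext fun a => ?_⟩
  · generalize emp = σ
    induction n generalizing σ with
    | zero => trivial
    | succ n ih => exact ⟨⟨b.2, Nat.succ_pos _⟩, ih _⟩
  · simp [th, dh, Pi.single_apply, Fin.ext_iff]

theorem PB_nil (d : Fin t → ℤ) : PB t 0 d [] :=
  ⟨⟨⟨List.isChain_nil, 0, trivial⟩, rfl⟩, fun _ _ _ _ _ _ _ _ _ _ h => by simp [run, emp] at h⟩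

theorem cn_layers (l : ℕ) (h d : Fin t → ℤ) (n : Fin t → ℕ)
    (hc : ∀ b l, b < l → n b + d b ≤ n l + d l) :
    cn t l (PB t h (d + fun a => (n a : ℤ))) ≤
      cn t (l + ∑ a, n a) (PB t (h + fun a => (n a : ℤ)) d) := by
  have key : ∀ j, j ≤ t → cn t l (PB t h (d + fun a => (n a : ℤ))) ≤
      cn t (l + ∑ a : Fin t, if a.1 < j then n a else 0)
        (PB t (h + fun a => if a.1 < j then (n a : ℤ) else 0)
          (d + fun a => if a.1 < j then 0 else (n a : ℤ))) := by
    intro j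
    induction j with
    | zero => intro _; simp [← Pi.zero_def]
    | succ j ih =>
      intro hj
      let b : Fin t := ⟨j, hj⟩
      refine (ih (by omega)).trans ((cn_ext _ (PG_single b (n b)).1.mem_Al
        (q := PB t (h + fun a => if a.1 < j + 1 then (n a : ℤ) else 0)
          (d + fun a => if a.1 < j + 1 then 0 else (n a : ℤ))) fun Y hY => ?_).trans (le_of_eq ?_))
      · have e1 : (h + fun a : Fin t => if a.1 < j + 1 then (n a : ℤ) else 0) =
            (h + fun a : Fin t => if a.1 < j then (n a : ℤ) else 0) + Pi.single b (n b : ℤ) := by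
          funext a
          by_cases ha : a = b
          · subst ha; simp [b]
          · have : a.1 ≠ j := fun h => ha (Fin.ext h)
            simp only [Pi.add_apply, Pi.single_eq_of_ne ha]
            split_ifs <;> omega
        have e2 : (d + fun a : Fin t => if a.1 < j then 0 else (n a : ℤ)) =
            (d + fun a : Fin t => if a.1 < j + 1 then 0 else (n a : ℤ)) + Pi.single b (n b : ℤ) := by
          funext a
          by_cases ha : a = b
          · subst ha; simp [b]
          · have : a.1 ≠ j := fun h => ha (Fin.ext h)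
            simp only [Pi.add_apply, Pi.single_eq_of_ne ha]
            split_ifs <;> omega
        rw [e1]
        refine PB.layer (e2 ▸ hY) (PG_single b (n b)) fun b' l hl hne => ?_
        obtain rfl : b' = b := by
          by_contra hb
          exact hne (Pi.single_eq_of_ne hb _)
        have h1 := hc b l hl
        have h2 : ¬ l.1 < j + 1 := by have : j < l.1 := hl; omega
        simp only [Pi.single_eq_same, Pi.add_apply, if_neg h2, b, Nat.lt_succ_self, if_true] at h1 ⊢
        omega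
      · congr 1
        rw [List.length_replicate, add_assoc, ← sum_pi_single' b (n b) univ |>.trans
          (if_pos (mem_univ b)), ← sum_add_distrib]
        congr 1
        refine sum_congr rfl fun a _ => ?_
        by_cases ha : a = b
        · subst ha; simp [b]
        · have : a.1 ≠ j := fun h => ha (Fin.ext h)
          rw [Pi.single_eq_of_ne ha]
          split_ifs <;> omega
  simpa [← Pi.zero_def] using key t le_rfl

end Pool.Agent.P.MP_8acafb_co.HW
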