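import Pool.Agent.P.MP_8acafb_co.HW4

namespace Pool.Agent.P.MP_8acafb_co.HW

open Finset

variable {t : ℕ}

theorem drop_run (ht : 1 ≤ t) (r n : ℕ) : ∀ σ : ℕ → List ℕ, n ≤ (σ 0).length →
    Ok t (List.replicate n (.inr [])) (r, σ) ∧ run (List.replicate n (.inr [])) (r, σ) =
      (r, fun a => if a = 0 then (σ a).drop n else σ a) := by
  induction n with
  | zero => intro σ _; exact ⟨trivial, by simp [run]⟩
  | succ n ih =>
    intro σ h
    have e : ∀ a, apA [] σ a = if a = 0 then (σ a).tail else σ a := fun a => by simp [apA, mv, cut]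
    obtain ⟨h1, h2⟩ := ih (apA [] σ) (by rw [e, if_pos rfl, List.length_tail]; omega)
    refine ⟨⟨⟨ht, by simp, fun j hj h0 => ?_, by simp⟩, h1⟩, h2.trans ?_⟩
    · obtain rfl : j = 0 := Nat.le_zero.1 hj
      simp only at h0
      simp [h0] at h
    · refine Prod.ext rfl (funext fun a => ?_)
      simp only [e]
      split_ifs <;> simp

def tick : List Op := [.inl 0, .inr []]

theorem tick_run (ht : 1 ≤ t) {r : ℕ} (hr : 0 < r) (σ : ℕ → List ℕ) :
    Ok t tick (r, σ) ∧ run tick (r, σ) = (r - 1, σ) := by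
  obtain ⟨h1, h2⟩ := drop_run ht (r - 1) 1 (apR 0 (r - 1) σ) (by simp [apR])
  refine ⟨⟨⟨ht, hr⟩, h1⟩, h2.trans (Prod.ext rfl (funext fun a => ?_))⟩
  simp only [apR]
  split_ifs <;> simp

theorem th_tick (t : ℕ) : th t tick = 0 := by
  funext a
  simp [th, tick, dh]

theorem Good.tick (ht : 1 ≤ t) {Y Z : List Op} (hY : Good t Y) (hZ : Canon Z)
    (h : Ok t Z (nR Z, (run Y (nR Y + 1 + nR Z, emp)).2)) : Good t (Y ++ tick ++ Z) := by
  refine ⟨(hY.1.append (by simp [HW.tick, cok]) ?_).append hZ ?_, nR Y + 1 + nR Z, ?_⟩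
  · intro x _ y hy
    cases hy
    cases x <;> trivial
  · intro x hx y _
    simp only [HW.tick, List.getLast?_append, List.getLast?_cons_cons, List.getLast?_singleton,
      Option.some_or, Option.mem_def, Option.some.injEq] at hx
    subst hx
    trivial
  · have e : run Y (nR Y + 1 + nR Z, emp) = (nR Z + 1, (run Y (nR Y + 1 + nR Z, emp)).2) :=
      Prod.ext (by rw [run_fst]; simp only; omega) rfl
    rw [ok_append, ok_append, HW.run_append, e, (tick_run ht (Nat.succ_pos _) _).2]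
    exact ⟨⟨hY.ok (by omega), (tick_run ht (Nat.succ_pos _) _).1⟩, h⟩

theorem tick_mem (ht : 1 ≤ t) : ∀ o ∈ tick, o ∈ Al t := Ok_mem_Al (tick_run ht one_pos emp).1

theorem cn_block (ht : 1 ≤ t) (l m : ℕ) (h θ : Fin t → ℤ) (hm : ∀ a, (m : ℤ) ≤ h a) :
    cn t l (PB t h 0) * cn t m (Win t θ) ≤ cn t (l + 2 + m) (PG t (h + θ)) := by
  refine (Nat.mul_le_mul_right _ (cn_ext tick (tick_mem ht)
    (q := fun Y' => ∃ Y, Y' = Y ++ tick ∧ PB t h 0 Y) fun Y hY => ⟨Y, rfl, hY⟩)).trans (cn_mul ?_)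
  rintro _ G - hG ⟨Y, rfl, hY⟩ ⟨h1, h2, S, h3, h4, h5⟩
  refine ⟨hY.1.1.tick ht h1 (transfer h3 h4 h5 (hY.2 _ (by omega)) (fun a ha => ?_)
    (fun a x hx => ?_) le_rfl), by rw [th_append, th_append, th_tick, add_zero, hY.1.2, h2]⟩
  · have h6 := hY.1.1.length (r := nR Y + 1 + nR G) (by omega) ⟨a, ha⟩
    have h7 := hm ⟨a, ha⟩
    rw [hY.1.2] at h6
    simp only at h6
    omega
  · have := (lo_emp _).run Y (hY.1.1.ok (r := nR Y + 1 + nR G) (by omega)) a x hx
    rw [run_fst] at this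
    simp only at this ⊢
    omega

def rd (k : ℕ) : List Op := .inr (List.replicate k 0) :: List.replicate k (.inr [])

theorem rd_run {k r : ℕ} {σ : ℕ → List ℕ} (h1 : ∀ j, j ≤ k → σ j ≠ [])
    (h2 : ∀ j, j < k → hd σ (j + 1) < hd σ j) :
    Ok (k + 1) (rd k) (r, σ) ∧ run (rd k) (r, σ) = (r, cut k σ) := by
  have e0 : ∀ i, (List.replicate k 0).getD i 0 = 0 := fun i => by
    simp only [List.getD_eq_getElem?_getD, List.getElem?_replicate]
    split_ifs <;> rfl
  have e1 : (mv (List.replicate k 0) σ 0).length = k := by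
    simp only [mv, e0]
    simp
  obtain ⟨h3, h4⟩ := drop_run (t := k + 1) (by omega) r k (apA (List.replicate k 0) σ)
    (by rw [apA, List.length_append, e1]; omega)
  refine ⟨⟨⟨by simp, fun i _ => by rw [e0]; omega, by simpa using h1, by simpa using h2⟩, h3⟩,
    h4.trans (Prod.ext rfl (funext fun a => ?_))⟩
  simp only [apA, List.length_replicate]
  split_ifs with h
  · subst h
    exact List.drop_left' e1
  · have : mv (List.replicate k 0) σ a = [] := List.eq_nil_iff_forall_not_mem.2 fun x hx => by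
      obtain ⟨i, -, h5, -⟩ := mem_mv.1 hx
      exact h ((e0 i) ▸ h5).symm
    rw [this, List.nil_append]

def clean (k : ℕ) : ℕ → List Op
  | 0 => []
  | n + 1 => rd k ++ clean k n

theorem clean_inr (k n : ℕ) : ∀ o ∈ clean k n, ∃ os, o = .inr os := by
  induction n with
  | zero => intro o ho; cases ho
  | succ n ih =>
    intro o ho
    rcases List.mem_append.1 ho with h | h
    · rcases List.mem_cons.1 h with rfl | h
      · exact ⟨_, rfl⟩
      · exact ⟨_, List.eq_of_mem_replicate h⟩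
    · exact ih o h

theorem inr_facts (Z : List Op) (h : ∀ o ∈ Z, ∃ os, o = .inr os) : Canon Z ∧ nR Z = 0 := by
  induction Z with
  | nil => exact ⟨List.isChain_nil, rfl⟩
  | cons o Z ih =>
    obtain ⟨os, rfl⟩ := h o List.mem_cons_self
    have := ih fun o ho => h o (List.mem_cons_of_mem _ ho)
    exact ⟨List.isChain_cons.2 ⟨fun _ _ => trivial, this.1⟩, this.2⟩

theorem length_clean (k n : ℕ) : (clean k n).length = (k + 1) * n := by
  induction n with
  | zero => rfl
  | succ n ih => simp [clean, rd, ih]; ring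

theorem clean_run {k r : ℕ} (n : ℕ) : ∀ σ : ℕ → List ℕ, Bal (k + 1) σ 0 →
    (∀ a, a ≤ k → (σ a).length = n) → Ok (k + 1) (clean k n) (r, σ) ∧
      ∀ a, a ≤ k → (run (clean k n) (r, σ)).2 a = [] := by
  induction n with
  | zero => intro σ _ h; exact ⟨trivial, fun a ha => List.eq_nil_of_length_eq_zero (h a ha)⟩
  | succ n ih =>
    intro σ hb h
    have hne : ∀ j, j ≤ k → σ j ≠ [] := fun j hj h0 => by simpa [h0] using h j hj
    have h0 : ∀ j, j ≤ k → (σ j)[0]? = some (hd σ j) := fun j hj => by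
      rw [hd_cons (hne j hj)]; rfl
    obtain ⟨h1, h2⟩ := rd_run (r := r) hne fun j hj =>
      hb ⟨j + 1, by omega⟩ ⟨j, by omega⟩ (Nat.lt_succ_self j) 0 0 _ _ le_rfl (h0 _ hj) (h0 _ hj.le)
    obtain ⟨h3, h4⟩ := ih (cut k σ) (fun a b hab i j x y hij hx hy => by
      rw [cut, if_pos (Nat.le_of_lt_succ (Fin.is_lt _)), List.getElem?_tail] at hx hy
      refine hb a b hab _ _ x y ?_ hx hy
      simp only [Pi.zero_apply] at hij ⊢
      omega) fun a ha => by rw [cut, if_pos ha, List.length_tail, h a ha]; rfl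
    rw [clean, ok_append, run_append, h2]
    exact ⟨⟨h1, h3⟩, h4⟩

theorem cn_clean (ht : 1 ≤ t) (l n : ℕ) :
    cn t l (PB t (fun _ => (n : ℤ)) 0) ≤ cn t (l + (2 + t * n)) (PG t 0) := by
  obtain ⟨k, rfl⟩ : ∃ k, t = k + 1 := ⟨t - 1, by omega⟩
  rcases Nat.eq_zero_or_pos (cn (k + 1) l (PB (k + 1) (fun _ => (n : ℤ)) 0)) with h0 | h0
  · omega
  have key : ∀ Y, PB (k + 1) (fun _ => (n : ℤ)) 0 Y → PG (k + 1) 0 (Y ++ (tick ++ clean k n)) := by
    intro Y hY
    obtain ⟨h1, h2⟩ := inr_facts _ (clean_inr k n)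
    have h3 : ∀ a, a ≤ k → ((run Y (nR Y + 1 + nR (clean k n), emp)).2 a).length = n := by
      intro a ha
      have := hY.1.1.length (r := nR Y + 1 + nR (clean k n)) (by omega) ⟨a, by omega⟩
      rw [hY.1.2] at this
      simp only at this
      exact_mod_cast this
    obtain ⟨h4, h5⟩ := clean_run (r := nR (clean k n)) n _ (hY.2 _ (by omega)) h3
    rw [← List.append_assoc]
    refine ⟨hY.1.1.tick ht h1 h4, funext fun a => ?_⟩
    have h6 := length_run _ a h4
    rw [h5 a (Nat.le_of_lt_succ a.2), h3 a (Nat.le_of_lt_succ a.2)] at h6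
    rw [th_append, th_append, th_tick, hY.1.2]
    simp only [Pi.add_apply, Pi.zero_apply, List.length_nil] at h6 ⊢
    omega
  obtain ⟨Y, hY⟩ := card_pos.1 h0
  have := cn_ext (l := l) (tick ++ clean k n)
    (fun o ho => (key Y (mem_fm.1 hY).2.2).1.mem_Al o (List.mem_append_right _ ho)) key
  rwa [List.length_append, length_clean] at this

/-- The staircase of offsets. -/
def stair (t c : ℕ) (j : ℕ) (a : Fin t) : ℤ := ((a.1 + j) * c : ℕ)

theorem cn_layer {l l' c : ℕ} (h : Fin t → ℤ) (j : ℕ) :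
    cn t l (PB t h (stair t c (j + 1))) * cn t l' (PG t fun _ => (c : ℤ)) ≤
      cn t (l + l') (PB t (h + fun _ => (c : ℤ)) (stair t c j)) := by
  refine cn_mul fun Y Z _ _ hY hZ => PB.layer (d := stair t c j) ?_ hZ fun b a hab _ => ?_
  · have : (stair t c j + fun _ => (c : ℤ)) = stair t c (j + 1) := by
      funext a; simp only [stair, Pi.add_apply]; push_cast; ring
    rwa [this]
  · have h1 : (b.1 + j + 1) * c ≤ (a.1 + j) * c :=
      Nat.mul_le_mul_right _ (by have : b.1 < a.1 := hab; omega)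
    simp only [stair]
    rw [Nat.succ_mul] at h1
    omega

theorem cn_lag (l c : ℕ) (h : Fin t → ℤ) : cn t l (PB t h (stair t c 0)) ≤
    cn t (l + ∑ a : Fin t, a.1 * c) (PB t (h + stair t c 0) 0) := by
  have := cn_layers l h 0 (fun a => a.1 * c) fun b a hab => by
    have h1 : b.1 * c ≤ a.1 * c := Nat.mul_le_mul_right _ (le_of_lt hab)
    simp only [Pi.zero_apply]
    omega
  rwa [zero_add] at this

theorem cn_pow (l c K : ℕ) : ∀ j, cn t l (PG t fun _ => (c : ℤ)) ^ K ≤
    cn t (K * l) (PB t (fun _ => ((K * c : ℕ) : ℤ)) (stair t c j)) := by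
  induction K with
  | zero =>
    intro j
    simpa [← Pi.zero_def] using cn_pos (t := t) (Y := []) (by simp) (PB_nil (stair t c j))
  | succ K ih =>
    intro j
    have := (Nat.mul_le_mul_right _ (ih (j + 1))).trans (cn_layer (l' := l) _ j)
    rw [pow_succ, Nat.succ_mul, Nat.succ_mul]
    refine this.trans (le_of_eq ?_)
    congr 2

theorem cn_cat (ht : 1 ≤ t) (l c K : ℕ) (θ : Fin t → ℤ) :
    cn t l (PG t fun _ => (c : ℤ)) ^ K * cn t (K * c) (Win t θ) ≤
      cn t (K * l + ∑ a : Fin t, a.1 * c + 2 + K * c)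
        (PG t ((fun _ => ((K * c : ℕ) : ℤ)) + stair t c 0 + θ)) :=
  (Nat.mul_le_mul_right _ ((cn_pow l c K 0).trans (cn_lag _ _ _))).trans
    (cn_block ht _ _ _ _ fun a => by
      simp only [Pi.add_apply, stair]
      omega)

theorem cn_close (ht : 1 ≤ t) (l c : ℕ) : ∃ e, e ≤ 3 * (t * t * c) + 2 ∧
    cn t l (PG t fun _ => (c : ℤ)) ≤ cn t (l + e) (PG t 0) := by
  let n : Fin t → ℕ := fun a => (t - 1 - a.1) * c
  have hn : ∀ a : Fin t, n a + (a.1 + 1) * c = t * c := fun a => by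
    rw [← Nat.add_mul]
    congr 1
    have := a.2
    omega
  have h1 := (cn_pos (t := t) (Y := []) (by simp) (PB_nil _)).trans
    (cn_layers _ 0 (stair t c 1) n fun b a _ => by
      have := hn a
      have := hn b
      simp only [stair]
      omega)
  have h2 := (Nat.le_mul_of_pos_left _ h1).trans (cn_layer (l' := l) _ 0)
  have h3 := h2.trans (cn_lag _ _ _)
  have e : ((0 + fun a => (n a : ℤ)) + fun _ => (c : ℤ)) + stair t c 0 =
      fun _ => ((t * c : ℕ) : ℤ) := by
    funext a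
    have := hn a
    simp only [Pi.add_apply, Pi.zero_apply, stair, Nat.add_zero]
    rw [Nat.succ_mul] at this
    omega
  rw [e] at h3
  have h4 := h3.trans (cn_clean ht _ _)
  refine ⟨∑ a, n a + ∑ a : Fin t, a.1 * c + (2 + t * (t * c)), ?_, h4.trans (le_of_eq ?_)⟩
  · have h5 : ∑ a, n a + ∑ a : Fin t, a.1 * c ≤ ∑ _a : Fin t, t * c := by
      rw [← sum_add_distrib]
      refine sum_le_sum fun a _ => ?_
      have := hn a
      rw [Nat.succ_mul] at this
      omega
    rw [sum_const, card_univ, Fintype.card_fin, smul_eq_mul] at h5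
    rw [mul_assoc]
    omega
  · congr 1
    simp only [List.length_nil]
    omega

end Pool.Agent.P.MP_8acafb_co.HW
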