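import Pool.Agent.P.MP_8acafb_co.HW5

namespace Pool.Agent.P.MP_8acafb_co.HW

open Finset

variable {t : ℕ}

/-- The possible height changes of a window of length `m`. -/
noncomputable def Ty (t m : ℕ) : Finset (Fin t → ℤ) :=
  Fintype.piFinset fun _ => Icc (-((t * m : ℕ) : ℤ)) ((t * m : ℕ) : ℤ)

theorem card_Ty (t m : ℕ) : (Ty t m).card = (2 * (t * m) + 1) ^ t := by
  rw [Ty, Fintype.card_piFinset, prod_const, card_univ, Fintype.card_fin, Int.card_Icc]
  congr 1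
  omega

theorem mem_Ty {m : ℕ} {θ : Fin t → ℤ} : θ ∈ Ty t m ↔ ∀ a, |θ a| ≤ t * m := by
  simp [Ty, abs_le]

theorem pigeon (m r : ℕ) : ∀ h : Fin t → ℤ, 0 < cn t (r * m) (PG t h) →
    ∃ f : Fin r → Fin t → ℤ, (∀ i, f i ∈ Ty t m ∧ 0 < cn t m (Win t (f i))) ∧ ∑ i, f i = h ∧
      cn t (r * m) (PG t h) ≤ (Ty t m).card ^ r * ∏ i, cn t m (Win t (f i)) := by
  induction r with
  | zero =>
    intro h h0
    obtain ⟨Y, hY⟩ := card_pos.1 h0
    obtain ⟨h1, -, h2⟩ := mem_fm.1 hY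
    rw [Nat.zero_mul] at h1
    obtain rfl := List.eq_nil_of_length_eq_zero h1
    exact ⟨Fin.elim0, fun i => i.elim0, h2.2, by simpa using cn_le (t := t) 0 (PG t h)⟩
  | succ r ih =>
    intro h h0
    have h1 := cn_cut (t := t) (Ty t m) (l := r * m) (l' := m) (p := fun θ => PG t (h - θ))
      (q := Win t) (r := PG t h) fun Y Z hZ hr => by
        obtain ⟨⟨hc, r0, ho⟩, he⟩ := hr
        obtain ⟨h1, h2⟩ := (ok_append _ _ _).1 ho
        refine ⟨th t Z, mem_Ty.2 fun a => hZ ▸ abs_th Z a h2, ⟨⟨hc.left_of_append, r0, h1⟩, ?_⟩,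
          hc.right_of_append, rfl, _, (lo_emp r0).run Y h1,
          Inc.run Y (S := (r0, emp)) inc_emp (lo_emp r0) h1, h2⟩
        rw [← he, th_append, add_sub_cancel_right]
    rw [Nat.succ_mul] at h0 ⊢
    obtain ⟨θ, hθ, hmax⟩ := exists_max_image (Ty t m)
      (fun θ => cn t (r * m) (PG t (h - θ)) * cn t m (Win t θ)) ⟨0, mem_Ty.2 fun a => by positivity⟩
    have h2 := h1.trans (sum_le_card_nsmul _ _ _ hmax)
    rw [smul_eq_mul] at h2
    have h3 := Nat.pos_of_mul_pos_left (h0.trans_le h2)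
    obtain ⟨f, hf1, hf2, hf3⟩ := ih (h - θ) (Nat.pos_of_mul_pos_right h3)
    refine ⟨Fin.cons θ f, Fin.forall_fin_succ.2 ⟨⟨hθ, Nat.pos_of_mul_pos_left h3⟩, hf1⟩, ?_,
      h2.trans ?_⟩
    · rw [Fin.sum_univ_succ, Fin.cons_zero]
      simp only [Fin.cons_succ, hf2, add_sub_cancel]
    · rw [Fin.prod_univ_succ, Fin.cons_zero]
      simp only [Fin.cons_succ]
      calc _ ≤ (Ty t m).card * (((Ty t m).card ^ r * ∏ i, cn t m (Win t (f i))) *
            cn t m (Win t θ)) := Nat.mul_le_mul_left _ (Nat.mul_le_mul_right _ hf3)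
        _ = _ := by ring

theorem rounding {ι : Type} [Fintype ι] (w : ι → ℝ) (hw : ∀ i, 0 ≤ w i) (h1 : ∑ i, w i = 1)
    (R : ℕ) : ∃ k : ι → ℕ, ∑ i, k i = R ∧ ∑ i, |(k i : ℝ) - R * w i| ≤ 2 * Fintype.card ι := by
  classical
  obtain ⟨i0, -⟩ : (univ : Finset ι).Nonempty := nonempty_of_sum_ne_zero (by rw [h1]; norm_num)
  have h0 : ∀ i, 0 ≤ (R : ℝ) * w i := fun i => mul_nonneg (Nat.cast_nonneg _) (hw i)
  have h2 : ∑ i, (R : ℝ) * w i = R := by rw [← mul_sum, h1, mul_one]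
  have h3 : ((∑ i, ⌊(R : ℝ) * w i⌋₊ : ℕ) : ℝ) ≤ R := by
    rw [Nat.cast_sum]
    exact (sum_le_sum fun i _ => Nat.floor_le (h0 i)).trans h2.le
  have h4 : ∑ i, ⌊(R : ℝ) * w i⌋₊ ≤ R := by exact_mod_cast h3
  have h5 : ∑ i, ((R : ℝ) * w i - ⌊(R : ℝ) * w i⌋₊) ≤ Fintype.card ι := by
    have := sum_le_card_nsmul univ (fun i => (R : ℝ) * w i - ⌊(R : ℝ) * w i⌋₊) 1 fun i _ => by
      have := Nat.lt_floor_add_one ((R : ℝ) * w i)
      linarith
    simpa using this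
  let e : ι → ℕ := Pi.single i0 (R - ∑ i, ⌊(R : ℝ) * w i⌋₊)
  have he : ∑ i, e i = R - ∑ i, ⌊(R : ℝ) * w i⌋₊ := by simp [e]
  refine ⟨fun i => ⌊(R : ℝ) * w i⌋₊ + e i, by rw [sum_add_distrib, he]; omega, ?_⟩
  calc _ ≤ ∑ i, (((R : ℝ) * w i - ⌊(R : ℝ) * w i⌋₊) + e i) := by
        refine sum_le_sum fun i _ => abs_le.2 ?_
        have := Nat.floor_le (h0 i)
        have : (0 : ℝ) ≤ e i := Nat.cast_nonneg _
        push_cast
        constructor <;> linarith
    _ ≤ _ := by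
        rw [sum_add_distrib, ← Nat.cast_sum, he, Nat.cast_sub h4]
        rw [sum_sub_distrib, h2, ← Nat.cast_sum] at h5 ⊢
        linarith

theorem log_cn_le (ht : 1 ≤ t) (l : ℕ) (p : List Op → Prop) :
    Real.log (cn t l p) ≤ (t : ℝ) ^ 2 * l := by
  rcases Nat.eq_zero_or_pos (cn t l p) with h | h
  · rw [h, Nat.cast_zero, Real.log_zero]; positivity
  have ht' : (0 : ℝ) < t := by exact_mod_cast ht
  have h1 : (cn t l p : ℝ) ≤ (2 * (t : ℝ) ^ (t + 1)) ^ l := by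
    exact_mod_cast (cn_le l p).trans (Nat.pow_le_pow_left (card_Al ht) l)
  have h2 := Real.log_le_log (by exact_mod_cast h) h1
  rw [Real.log_pow, Real.log_mul two_ne_zero (by positivity), Real.log_pow] at h2
  have h3 := Real.log_le_sub_one_of_pos ht'
  have h4 := Real.log_two_lt_d9
  have h5 : Real.log 2 + ((t + 1 : ℕ) : ℝ) * Real.log t ≤ (t : ℝ) ^ 2 := by
    push_cast
    nlinarith
  nlinarith [mul_le_mul_of_nonneg_left h5 (Nat.cast_nonneg l : (0 : ℝ) ≤ l)]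

theorem abs_sum_le {ι : Type} [Fintype ι] (u v : ι → ℝ) {B D : ℝ} (hB : 0 ≤ B)
    (hu : ∑ i, |u i| ≤ D) (hv : ∀ i, |v i| ≤ B) : |∑ i, u i * v i| ≤ D * B := by
  refine (abs_sum_le_sum_abs _ _).trans (le_trans ?_ (mul_le_mul_of_nonneg_right hu hB))
  rw [sum_mul]
  exact sum_le_sum fun i _ => by
    rw [abs_mul]; exact mul_le_mul_of_nonneg_left (hv i) (abs_nonneg _)

theorem exists_types (ht : 1 ≤ t) {m r : ℕ} (hr : 0 < r) {y : ℝ} (h0 : 0 < cn t (r * m) (PG t 0))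
    (hy : r * y ≤ Real.log (cn t (r * m) (PG t 0))) (R : ℕ) :
    ∃ (ι : Type) (_ : Fintype ι) (θ : ι → Fin t → ℤ) (k : ι → ℕ),
      (∀ i, 0 < cn t m (Win t (θ i))) ∧ ∑ i, k i = R ∧
      (∀ a, |∑ i, (k i : ℤ) * θ i a| ≤ 2 * (t + 2) * (t * m)) ∧
      R * (y - Real.log (Ty t m).card) - 2 * (t + 2) * ((t : ℝ) ^ 2 * m) ≤
        ∑ i, k i * Real.log (cn t m (Win t (θ i))) := by
  obtain ⟨f, hf1, hf2, hf3⟩ := pigeon m r 0 h0
  let pt : (Fin t → ℤ) → (Fin t → ℝ) × ℝ :=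
    fun θ => (fun a => (θ a : ℝ), Real.log (cn t m (Win t θ)))
  let S : Set ((Fin t → ℝ) × ℝ) := pt '' {θ | θ ∈ Ty t m ∧ 0 < cn t m (Win t θ)}
  have hr' : (0 : ℝ) < r := by exact_mod_cast hr
  have hz : ∑ i, (r : ℝ)⁻¹ • pt (f i) ∈ convexHull ℝ S :=
    (convex_convexHull ℝ S).sum_mem (fun _ _ => by positivity) (by simp [hr.ne'])
      fun i _ => subset_convexHull ℝ S ⟨f i, hf1 i, rfl⟩
  obtain ⟨ι, _, z, w, hz1, hz2, hw, hw1, hw2⟩ := eq_pos_convex_span_of_mem_convexHull hz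
  have hc : (Fintype.card ι : ℝ) ≤ t + 2 := by
    have h1 := hz2.card_le_finrank_succ
    have h2 := (vectorSpan ℝ (Set.range z)).finrank_le
    have h3 : Module.finrank ℝ ((Fin t → ℝ) × ℝ) = t + 1 := by simp
    exact_mod_cast (by omega : Fintype.card ι ≤ t + 2)
  choose θ hθ hθ' using fun i => hz1 ⟨i, rfl⟩
  obtain ⟨k, hk1, hk2⟩ := rounding w (fun i => (hw i).le) hw1 R
  have hk3 : ∑ i, |(k i : ℝ) - R * w i| ≤ 2 * (t + 2) := by linarith
  have e1 : ∀ a, ∑ i, w i * (θ i a : ℝ) = 0 := fun a => by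
    have h1 := congrFun (congrArg Prod.fst hw2) a
    have h2 := congrArg (fun x : ℤ => (x : ℝ)) (congrFun hf2 a)
    simp only [Finset.sum_apply, Int.cast_sum, Pi.zero_apply, Int.cast_zero] at h2
    simpa [Prod.fst_sum, ← hθ', pt, ← mul_sum, h2] using h1
  have e2 : y - Real.log (Ty t m).card ≤ ∑ i, w i * Real.log (cn t m (Win t (θ i))) := by
    have h1 := congrArg Prod.snd hw2
    simp only [Prod.snd_sum, ← hθ', pt, Prod.smul_snd, smul_eq_mul, ← mul_sum] at h1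
    rw [h1, ← div_eq_inv_mul, le_div_iff₀ hr']
    have h2 : (cn t (r * m) (PG t 0) : ℝ) ≤
        ((Ty t m).card : ℝ) ^ r * ∏ i, (cn t m (Win t (f i)) : ℝ) := by exact_mod_cast hf3
    have h3 := Real.log_le_log (by exact_mod_cast h0) h2
    have h4 : ∀ i, (cn t m (Win t (f i)) : ℝ) ≠ 0 := fun i => by exact_mod_cast (hf1 i).2.ne'
    rw [Real.log_mul (by rw [card_Ty]; positivity) (prod_ne_zero_iff.2 fun i _ => h4 i),
      Real.log_pow, Real.log_prod fun i _ => h4 i] at h3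
    linarith
  refine ⟨ι, inferInstance, θ, k, fun i => (hθ i).2, hk1, fun a => ?_, ?_⟩
  · have h1 := abs_sum_le _ (fun i => (θ i a : ℝ)) (B := t * m) (by positivity) hk3
      fun i => by exact_mod_cast mem_Ty.1 (hθ i).1 a
    simp only [sub_mul, sum_sub_distrib, mul_assoc, ← mul_sum, e1, mul_zero, sub_zero] at h1
    rw [← mul_assoc] at h1
    exact_mod_cast h1
  · have h1 := abs_sum_le _ (fun i => Real.log (cn t m (Win t (θ i)))) (B := (t : ℝ) ^ 2 * m)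
      (by positivity) hk3 fun i => by
        rw [abs_of_nonneg (Real.log_natCast_nonneg _)]
        exact log_cn_le ht _ _
    simp only [sub_mul, sum_sub_distrib, mul_assoc, ← mul_sum] at h1
    have := mul_le_mul_of_nonneg_left e2 (Nat.cast_nonneg R : (0 : ℝ) ≤ R)
    linarith [(abs_le.1 h1).1]

/-- Length, final heights and entropy of families of codes. -/
def Hs (t : ℕ) : AddSubmonoid (ℕ × (Fin t → ℤ) × ℝ) where
  carrier := {z | Real.exp z.2.2 ≤ cn t z.1 (PG t z.2.1)}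
  zero_mem' := by
    have := cn_pos (t := t) (Y := []) (by simp) (PB_nil (t := t) 0).1
    change Real.exp 0 ≤ cn t 0 (PG t 0)
    rw [Real.exp_zero]
    exact_mod_cast this
  add_mem' := fun {a b} ha hb => by
    change Real.exp (a.2.2 + b.2.2) ≤ cn t (a.1 + b.1) (PG t (a.2.1 + b.2.1))
    rw [Real.exp_add]
    refine (mul_le_mul ha hb (Real.exp_pos _).le (Nat.cast_nonneg _)).trans ?_
    exact_mod_cast cn_mul fun Y Z _ _ hY hZ => PG.append hY hZ

theorem mem_Hs {l : ℕ} {h : Fin t → ℤ} {x : ℝ} :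
    (l, h, x) ∈ Hs t ↔ Real.exp x ≤ cn t l (PG t h) := Iff.rfl

theorem pad_mem (p : Fin t → ℕ) : (∑ a, p a, fun a => (p a : ℤ), (0 : ℝ)) ∈ Hs t := by
  have : ∑ a, (p a, Pi.single a (p a : ℤ), (0 : ℝ)) ∈ Hs t := sum_mem fun a _ => by
    have := cn_pos (PG_single a (p a)).1.mem_Al (PG_single a (p a))
    rw [List.length_replicate] at this
    rw [mem_Hs, Real.exp_zero]
    exact_mod_cast this
  have e : ∑ a, (p a, Pi.single a (p a : ℤ), (0 : ℝ)) = (∑ a, p a, fun a => (p a : ℤ), (0 : ℝ)) := by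
    refine Prod.ext (by simp [Prod.fst_sum]) (Prod.ext ?_ (by simp [Prod.snd_sum]))
    simp only [Prod.snd_sum, Prod.fst_sum]
    exact univ_sum_single fun a => (p a : ℤ)
  exact e ▸ this

theorem level (ht : 1 ≤ t) {l c : ℕ} {x : ℝ} (h : (l, fun _ => (c : ℤ), x) ∈ Hs t) (K R : ℕ)
    {r : ℕ} (hr : 0 < r) {y : ℝ} (h0 : 0 < cn t (r * (K * c)) (PG t 0))
    (hy : r * y ≤ Real.log (cn t (r * (K * c)) (PG t 0))) :
    ∃ (e : ℕ) (x' : ℝ), e ≤ R * (t * t * c + 2) + t * (R * t * c + 4 * (t + 2) * (t * (K * c))) ∧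
      R * K * x + R * (y - Real.log (Ty t (K * c)).card) -
        2 * (t + 2) * ((t : ℝ) ^ 2 * (K * c : ℕ)) ≤ x' ∧
      (R * K * l + R * K * c + e,
        fun _ => ((R * (K + t) * c + 2 * (t + 2) * (t * (K * c)) : ℕ) : ℤ), x') ∈ Hs t := by
  obtain ⟨ι, _, θ, k, h1, h2, h3, h4⟩ := exists_types ht hr h0 hy R
  have hb : ∑ i, k i • (K * l + ∑ a : Fin t, a.1 * c + 2 + K * c,
      (fun _ => ((K * c : ℕ) : ℤ)) + stair t c 0 + θ i,
      K * x + Real.log (cn t (K * c) (Win t (θ i)))) ∈ Hs t :=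
    sum_mem fun i _ => nsmul_mem (by
      rw [mem_Hs, Real.exp_add, Real.exp_log (by exact_mod_cast h1 i), Real.exp_nat_mul]
      refine (mul_le_mul_of_nonneg_right (pow_le_pow_left₀ (Real.exp_pos _).le h K)
        (Nat.cast_nonneg _)).trans ?_
      exact_mod_cast cn_cat ht l c K (θ i)) _
  have hp : ∀ a : Fin t, ∃ p : ℕ, p ≤ R * t * c + 4 * (t + 2) * (t * (K * c)) ∧
      (R : ℤ) * (K * c + a.1 * c) + ∑ i, (k i : ℤ) * θ i a + p =
        ((R * (K + t) * c + 2 * (t + 2) * (t * (K * c)) : ℕ) : ℤ) := fun a => by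
    obtain ⟨h5, h6⟩ := abs_le.1 (h3 a)
    have h7 : R * (a.1 * c) ≤ R * (t * c) := Nat.mul_le_mul_left _ (Nat.mul_le_mul_right _ a.2.le)
    have h8 : (R : ℤ) * (a.1 * c) ≤ R * (t * c) := by exact_mod_cast h7
    have h9 : (0 : ℤ) ≤ R * (a.1 * c) := by positivity
    push_cast at h5 h6
    obtain ⟨p, hp⟩ := Int.eq_ofNat_of_zero_le (a := ((R * (K + t) * c +
      2 * (t + 2) * (t * (K * c)) : ℕ) : ℤ) - ((R : ℤ) * (K * c + a.1 * c) +
        ∑ i, (k i : ℤ) * θ i a)) (by push_cast; linarith)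
    refine ⟨p, ?_, by omega⟩
    zify
    push_cast at hp
    linarith
  choose p hp1 hp2 using hp
  have h5 := add_mem hb (pad_mem p)
  refine ⟨R * (∑ a : Fin t, a.1 * c + 2) + ∑ a, p a,
    R * K * x + ∑ i, k i * Real.log (cn t (K * c) (Win t (θ i))), ?_, by linarith, ?_⟩
  · refine Nat.add_le_add (Nat.mul_le_mul_left _ (Nat.add_le_add_right ?_ _)) ?_
    · have := sum_le_card_nsmul univ (fun a : Fin t => a.1 * c) (t * c)
        fun a _ => Nat.mul_le_mul_right _ a.2.le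
      simpa [mul_assoc] using this
    · simpa using sum_le_card_nsmul univ p _ fun a _ => hp1 a
  · have hR : ∑ i, (k i : ℝ) = R := by exact_mod_cast h2
    have hZ : ∑ i, (k i : ℤ) = R := by exact_mod_cast h2
    refine (congrArg (· ∈ Hs t) (Prod.ext ?_ (Prod.ext (funext fun a => ?_) ?_))).mp h5
    · simp only [Prod.fst_add, Prod.fst_sum, Prod.smul_fst, smul_eq_mul, ← sum_mul, h2]
      ring
    · simp only [Prod.fst_add, Prod.snd_add, Prod.fst_sum, Prod.snd_sum, Prod.smul_mk,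
        Pi.add_apply, Finset.sum_apply, Pi.smul_apply]
      rw [← hp2 a]
      simp only [nsmul_eq_mul, stair, mul_add, sum_add_distrib, ← sum_mul, hZ]
      push_cast
      ring
    · simp only [Prod.snd_add, Prod.snd_sum, Prod.smul_mk]
      simp only [nsmul_eq_mul, mul_add, sum_add_distrib, ← sum_mul, hR]
      ring

end Pool.Agent.P.MP_8acafb_co.HW
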