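import Pool.Agent.P.MP_8acafb_co.HW6

namespace Pool.Agent.P.MP_8acafb_co.HW

open Finset Filter Topology

variable {t : ℕ}

/-- Closed codes have entropy almost `lam` per letter along the multiples of every `m`. -/
def Ent (t : ℕ) (lam : ℝ) : Prop := ∀ m, 0 < m → ∃ r, 0 < r ∧ 0 < cn t (r * m) (PG t 0) ∧
  r * (lam * m - 1) ≤ Real.log (cn t (r * m) (PG t 0))

structure Lv (t P : ℕ) (lam : ℝ) (s l c : ℕ) (x : ℝ) : Prop where
  mem : (l, fun _ => (c : ℤ), x) ∈ Hs t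
  pos : 1 ≤ c
  cle : c ≤ (2 * P ^ 4) ^ s
  lge : s * c ≤ 2 * l
  lle : l ≤ (t + 2 * s) * c
  loss : P * (lam * l - x) ≤ (t : ℝ) ^ 3 * (P + 10 * s) * c

theorem log_Ty (ht : 1 ≤ t) {P c : ℕ} (hP : 1 ≤ P) (hc : 1 ≤ c) :
    1 + Real.log (Ty t (P ^ 2 * c)).card ≤ 6 * (t : ℝ) ^ 3 * P * c := by
  have ht' : (1 : ℝ) ≤ t := by exact_mod_cast ht
  have hP' : (1 : ℝ) ≤ P := by exact_mod_cast hP
  have hc' : (1 : ℝ) ≤ c := by exact_mod_cast hc
  have h1 : (1 : ℝ) ≤ t * (P ^ 2 * c) := one_le_mul_of_one_le_of_one_le ht'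
    (one_le_mul_of_one_le_of_one_le (one_le_pow₀ hP') hc')
  have h2 : Real.log (2 * (t * (P ^ 2 * c)) + 1) ≤ Real.log (3 * t * c * P ^ 2) :=
    Real.log_le_log (by positivity) (by linarith)
  rw [Real.log_mul (by positivity) (by positivity), Real.log_pow] at h2
  have h3 := Real.log_le_sub_one_of_pos (show (0 : ℝ) < 3 * t * c by positivity)
  have h4 := Real.log_le_sub_one_of_pos (show (0 : ℝ) < P by positivity)
  have h5 : (1 : ℝ) ≤ t * c := one_le_mul_of_one_le_of_one_le ht' hc'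
  have h6 : Real.log (2 * (t * (P ^ 2 * c)) + 1) ≤ 5 * (t * c * P) := by
    push_cast at h2
    nlinarith
  have h7 : (1 : ℝ) ≤ t * (t * c * P) :=
    one_le_mul_of_one_le_of_one_le ht' (one_le_mul_of_one_le_of_one_le h5 hP')
  rw [card_Ty]
  push_cast
  rw [Real.log_pow]
  have h8 := mul_le_mul_of_nonneg_left h6 (show (0 : ℝ) ≤ t by positivity)
  have h9 := mul_le_mul_of_nonneg_right ht' (show (0 : ℝ) ≤ t * (t * c * P) by positivity)
  nlinarith

theorem Lv.step (ht : 1 ≤ t) {P : ℕ} (hP : 7 * t ^ 2 ≤ P) {lam : ℝ}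
    (h1 : lam ≤ (t : ℝ) ^ 2) (hE : Ent t lam) {s l c : ℕ} {x : ℝ} (hs : s + 1 ≤ P)
    (h : Lv t P lam s l c x) : ∃ l' c' x', Lv t P lam (s + 1) l' c' x' := by
  have hc := h.pos
  have hP1 : 1 ≤ P := by omega
  obtain ⟨r, hr, h2, h3⟩ := hE (P ^ 2 * c) (by positivity)
  obtain ⟨e, x', he, hx, hm⟩ := level ht h.mem (P ^ 2) (P ^ 2) hr h2 h3
  have t1 : t ≤ t ^ 2 := Nat.le_self_pow two_ne_zero t
  have t2 : t ^ 2 ≤ t ^ 3 := Nat.pow_le_pow_right ht (by norm_num)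
  have t3 : t ^ 3 ≤ t ^ 4 := Nat.pow_le_pow_right ht (by norm_num)
  have e1 : e ≤ 16 * t ^ 3 * (P ^ 2 * c) := by
    have a1 : P ^ 2 * 2 ≤ P ^ 2 * (2 * c) := Nat.mul_le_mul_left _ (by omega)
    have a2 : (10 * t ^ 2 + 2 + 4 * t ^ 3) * (P ^ 2 * c) ≤ 16 * t ^ 3 * (P ^ 2 * c) :=
      Nat.mul_le_mul_right _ (by omega)
    nlinarith
  have e2 : 16 * t ^ 3 ≤ P ^ 2 := by
    have := Nat.pow_le_pow_left hP 2
    nlinarith
  have e3 : e ≤ P ^ 4 * c := by
    have := Nat.mul_le_mul_right (P ^ 2 * c) e2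
    nlinarith
  obtain ⟨c', hc'⟩ : ∃ c', c' = P ^ 2 * (P ^ 2 + t) * c + 2 * (t + 2) * (t * (P ^ 2 * c)) :=
    ⟨_, rfl⟩
  rw [← hc'] at hm
  have c1 : P ^ 4 * c ≤ c' := by
    rw [hc']
    nlinarith [Nat.zero_le (P ^ 2 * t * c), Nat.zero_le (2 * (t + 2) * (t * (P ^ 2 * c)))]
  have c2 : c' ≤ P ^ 4 * c + P ^ 3 * c := by
    have : (5 * t + 2 * t ^ 2) * (P ^ 2 * c) ≤ P * (P ^ 2 * c) := Nat.mul_le_mul_right _ (by omega)
    rw [hc']
    nlinarith
  have c3 : (s + 1) * (P ^ 3 * c) ≤ P ^ 4 * c := by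
    have := Nat.mul_le_mul_right (P ^ 3 * c) hs
    nlinarith
  refine ⟨_, c', x', hm, le_trans (Nat.mul_pos (by positivity) hc) c1, ?_, ?_, ?_, ?_⟩
  · have a1 := Nat.mul_le_mul_left (2 * P ^ 4) h.cle
    have a2 : 1 * (P ^ 3 * c) ≤ (s + 1) * (P ^ 3 * c) := Nat.mul_le_mul_right _ (by omega)
    rw [pow_succ']
    nlinarith
  · have a1 := Nat.mul_le_mul_left (P ^ 4) h.lge
    have a2 := Nat.mul_le_mul_left (s + 1) c2
    nlinarith
  · have a1 := Nat.mul_le_mul_left (P ^ 4) h.lle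
    have a2 := Nat.mul_le_mul_left (t + 2 * (s + 1)) c1
    nlinarith
  · have hT := log_Ty ht hP1 hc
    have hl := h.loss
    have ht' : (1 : ℝ) ≤ t := by exact_mod_cast ht
    have hP' : 7 * (t : ℝ) ^ 2 ≤ P := by exact_mod_cast hP
    have e1' : (e : ℝ) ≤ 16 * t ^ 3 * (P ^ 2 * c) := by exact_mod_cast e1
    have c1' : (P : ℝ) ^ 4 * c ≤ c' := by exact_mod_cast c1
    push_cast at hx ⊢
    generalize Real.log (Ty t (P ^ 2 * c)).card = L at hx hT
    have hu : (0 : ℝ) ≤ t ^ 3 * (P ^ 2 * c) := by positivity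
    have a1 : lam * e ≤ 3 * P * (t ^ 3 * (P ^ 2 * c)) := by
      have b1 := mul_le_mul h1 e1' (Nat.cast_nonneg _) (by positivity)
      have b2 := mul_le_mul_of_nonneg_right hP' hu
      have b3 : (0 : ℝ) ≤ t ^ 2 * (t ^ 3 * (P ^ 2 * c)) := by positivity
      nlinarith
    have a2 : (P : ℝ) ^ 2 * (1 + L) ≤ 6 * P * (t ^ 3 * (P ^ 2 * c)) := by
      have := mul_le_mul_of_nonneg_left hT (show (0 : ℝ) ≤ P ^ 2 by positivity)
      linarith
    have a3 : 2 * ((t : ℝ) + 2) * (t ^ 2 * (P ^ 2 * c)) ≤ P * (t ^ 3 * (P ^ 2 * c)) := by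
      have b1 : (7 : ℝ) ≤ P := by nlinarith
      have b2 := mul_le_mul_of_nonneg_right b1 hu
      have b3 := mul_le_mul_of_nonneg_right ht' (show (0 : ℝ) ≤ t ^ 2 * (P ^ 2 * c) by positivity)
      nlinarith
    have a4 : lam * (P ^ 2 * P ^ 2 * l + P ^ 2 * P ^ 2 * c + e) - x' ≤
        P ^ 4 * (lam * l - x) + 10 * P * (t ^ 3 * (P ^ 2 * c)) := by linarith
    have a5 := mul_le_mul_of_nonneg_left a4 (Nat.cast_nonneg P : (0 : ℝ) ≤ P)
    have a6 := mul_le_mul_of_nonneg_left hl (show (0 : ℝ) ≤ P ^ 4 by positivity)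
    have a7 := mul_le_mul_of_nonneg_left c1'
      (show (0 : ℝ) ≤ t ^ 3 * (P + 10 * (s + 1)) by positivity)
    linarith

theorem exists_Lv (ht : 1 ≤ t) {P : ℕ} (hP : 7 * t ^ 2 ≤ P) {lam : ℝ}
    (h1 : lam ≤ (t : ℝ) ^ 2) (hE : Ent t lam) (s : ℕ) (hs : s ≤ P) :
    ∃ l c x, Lv t P lam s l c x := by
  induction s with
  | zero =>
    refine ⟨t, 1, 0, by simpa using pad_mem (t := t) fun _ => 1, le_rfl, by simp, by simp, by simp,
      ?_⟩
    have := mul_le_mul_of_nonneg_right h1 (show (0 : ℝ) ≤ P * t by positivity)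
    push_cast
    linarith
  | succ s ih =>
    obtain ⟨l, c, x, h⟩ := ih (by omega)
    exact h.step ht hP h1 hE hs

theorem exists_N (ht : 1 ≤ t) {P : ℕ} (hP : 7 * t ^ 2 ≤ P) {lam : ℝ}
    (h1 : lam ≤ (t : ℝ) ^ 2) (hE : Ent t lam) : ∃ N : ℕ, 1 ≤ N ∧ P * N ≤ P ^ (6 * P) ∧
      P * (2 * lam * N - Real.log (W t N)) ≤ 64 * (t : ℝ) ^ 4 * N := by
  obtain ⟨l, c, x, h⟩ := exists_Lv ht hP h1 hE P le_rfl
  obtain ⟨e, he, h2⟩ := cn_close ht l c
  have h3 : Real.exp x ≤ cn t (l + e) (PG t 0) := (mem_Hs.1 h.mem).trans (by exact_mod_cast h2)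
  have h4 : 0 < cn t (l + e) (PG t 0) := by exact_mod_cast (Real.exp_pos x).trans_le h3
  obtain ⟨Y, hY⟩ := card_pos.1 h4
  obtain ⟨N, hN⟩ : ∃ N, l + e = 2 * N :=
    ⟨nR Y, (mem_fm.1 hY).1.symm.trans (closed_srt (mem_fm.1 hY).2.2).1⟩
  rw [hN] at h3
  have h5 : x ≤ Real.log (W t N) :=
    (Real.le_log_iff_exp_le (by exact_mod_cast W_pos t N)).2
      (h3.trans (by exact_mod_cast cn_le_W N))
  have hc := h.pos
  have t1 : t ≤ t ^ 2 := Nat.le_self_pow two_ne_zero t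
  have hP7 : 7 ≤ P := by omega
  have e1 : e ≤ 5 * (t ^ 2 * c) := by
    have : 1 ≤ t ^ 2 * c := Nat.mul_pos (by positivity) hc
    nlinarith
  have l1 := h.lge
  have l2 := h.lle
  refine ⟨N, ?_, ?_, ?_⟩
  · have : 7 * 1 ≤ P * c := Nat.mul_le_mul hP7 hc
    omega
  · have a1 : (t + 5 * t ^ 2) * c ≤ P * c := Nat.mul_le_mul_right _ (by omega)
    have a2 : N ≤ 2 * P * c := by nlinarith
    calc P * N ≤ P * (2 * P * (2 * P ^ 4) ^ P) :=
          Nat.mul_le_mul_left _ (a2.trans (Nat.mul_le_mul_left _ h.cle))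
      _ ≤ P * (P * P * (P * P ^ 4) ^ P) := by gcongr <;> omega
      _ = P ^ (3 + 5 * P) := by rw [← pow_succ', ← pow_mul]; ring
      _ ≤ _ := Nat.pow_le_pow_right (by omega) (by omega)
  · have hl := h.loss
    have ht' : (1 : ℝ) ≤ t := by exact_mod_cast ht
    have hN' : (l : ℝ) + e = 2 * N := by exact_mod_cast hN
    have e1' : (e : ℝ) ≤ 5 * (t ^ 2 * c) := by exact_mod_cast e1
    have l1' : (P : ℝ) * c ≤ 4 * N := by exact_mod_cast (by omega : P * c ≤ 4 * N)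
    have a1 := mul_le_mul h1 e1' (Nat.cast_nonneg _) (by positivity)
    have a2 : 2 * lam * N - Real.log (W t N) ≤ lam * l - x + 5 * (t ^ 4 * c) := by
      have : 2 * lam * N = lam * l + lam * e := by rw [← mul_add, hN']; ring
      linarith
    have a3 := mul_le_mul_of_nonneg_left a2 (Nat.cast_nonneg P : (0 : ℝ) ≤ P)
    have a4 := mul_le_mul_of_nonneg_right ht' (show (0 : ℝ) ≤ t ^ 3 * (P * c) by positivity)
    have a5 := mul_le_mul_of_nonneg_left l1' (show (0 : ℝ) ≤ t ^ 4 by positivity)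
    linarith

theorem W_pow (t N q ρ : ℕ) : W t N ^ q ≤ W t (q * N + ρ) := by
  induction q with
  | zero => exact W_pos _ _
  | succ q ih =>
    rw [pow_succ, show (q + 1) * N + ρ = q * N + ρ + N by ring]
    exact (Nat.mul_le_mul_right _ ih).trans (W_supermul _ _ _)

theorem all_n (ht : 1 ≤ t) {lam : ℝ} (h0 : 0 ≤ lam) (h1 : lam ≤ (t : ℝ) ^ 2) (hE : Ent t lam)
    {P n : ℕ} (hP : 1 ≤ P) (hn : P ^ (6 * P) ≤ n) :
    P * (2 * lam * n - Real.log (W t n)) ≤ 70 * (t : ℝ) ^ 4 * n := by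
  have ht' : (1 : ℝ) ≤ t := by exact_mod_cast ht
  have t2 : (t : ℝ) ^ 2 ≤ t ^ 4 := pow_le_pow_right₀ ht' (by norm_num)
  have hn0 : (0 : ℝ) ≤ n := Nat.cast_nonneg n
  have hP0 : (0 : ℝ) ≤ P := Nat.cast_nonneg P
  by_cases hPt : 7 * t ^ 2 ≤ P
  · obtain ⟨N, h2, h3, h4⟩ := exists_N ht hPt h1 hE
    have h5 := W_pow t N (n / N) (n % N)
    rw [Nat.div_add_mod'] at h5
    have h6 : (n / N : ℕ) * Real.log (W t N) ≤ Real.log (W t n) := by
      rw [← Real.log_pow]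
      exact Real.log_le_log (by exact_mod_cast pow_pos (W_pos t N) _) (by exact_mod_cast h5)
    have h7 : ((n / N : ℕ) : ℝ) * N ≤ n := by exact_mod_cast Nat.div_mul_le_self n N
    have h8 : (n : ℝ) ≤ (n / N : ℕ) * N + N := by exact_mod_cast (Nat.lt_div_mul_add h2).le
    have h9 : (P : ℝ) * N ≤ n := by exact_mod_cast h3.trans hn
    have a1 := mul_le_mul_of_nonneg_left h4 (Nat.cast_nonneg (n / N) : (0 : ℝ) ≤ (n / N : ℕ))
    have a2 := mul_le_mul_of_nonneg_left h6 hP0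
    have a3 := mul_le_mul_of_nonneg_left h7 (show (0 : ℝ) ≤ t ^ 4 by positivity)
    have a4 := mul_le_mul_of_nonneg_left h8 (mul_nonneg hP0 h0)
    have a5 := mul_le_mul (h1.trans t2) h9 (by positivity) (by positivity)
    have a6 : (0 : ℝ) ≤ t ^ 4 * n := by positivity
    linarith
  · have h2 : (P : ℝ) ≤ 7 * t ^ 2 := by exact_mod_cast (not_le.1 hPt).le
    have h3 := mul_nonneg hP0 (Real.log_natCast_nonneg (W t n))
    have a1 := mul_le_mul_of_nonneg_right (mul_le_mul h2 h1 h0 (by positivity)) hn0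
    have a6 : (0 : ℝ) ≤ t ^ 4 * n := by positivity
    linarith

theorem main (ht : 1 ≤ t) : ∃ μ : ℝ,
    Tendsto (fun n : ℕ => (W t n : ℝ) ^ (1 / (n : ℝ))) atTop (𝓝 μ) ∧
      ∀ P n : ℕ, 1 ≤ P → P ^ (6 * P) ≤ n →
        μ ^ n ≤ W t n * Real.exp (70 * (t : ℝ) ^ 4 * n / P) := by
  obtain ⟨μ, hμ, h1, h2⟩ := exists_mu t
  have hW : ∀ n, (0 : ℝ) < W t n := fun n => by exact_mod_cast W_pos t n
  have hc : ∀ n, Real.log (W t n) ≤ Real.log (cn t (2 * n) (PG t 0)) := fun n =>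
    Real.log_le_log (hW n) (by exact_mod_cast W_le_cn ht n)
  have h3 : 0 ≤ Real.log μ := Real.log_nonneg (by
    have a1 : (1 : ℝ) ≤ W t 1 := by exact_mod_cast W_pos t 1
    simpa using a1.trans (h2 1))
  have h4 : Real.log μ ≤ 2 * (t : ℝ) ^ 2 := by
    rw [Real.log_le_iff_le_exp hμ]
    refine mu_le t μ h1 1 one_pos _ (Real.exp_pos _).le fun m => ?_
    rw [mul_one, pow_one, ← Real.exp_nat_mul, ← Real.log_le_iff_le_exp (hW m)]
    have := (hc m).trans (log_cn_le ht _ _)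
    push_cast at this
    linarith
  have hE : Ent t (Real.log μ / 2) := fun m hm => by
    have hm' : (0 : ℝ) < m := by exact_mod_cast hm
    have a1 : μ * Real.exp (-(2 / m)) < μ :=
      mul_lt_of_lt_one_right hμ (Real.exp_lt_one_iff.2 (by rw [neg_lt_zero]; positivity))
    obtain ⟨r, hr, hr0⟩ := (((h1.comp (tendsto_id.atTop_mul_const' hm)).eventually_const_lt
      a1).and (eventually_gt_atTop 0)).exists
    simp only [Function.comp, id] at hr
    have hr' : (0 : ℝ) < r := by exact_mod_cast hr0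
    have a2 := Real.log_lt_log (by positivity) hr
    rw [Real.log_mul hμ.ne' (Real.exp_pos _).ne', Real.log_exp, Real.log_rpow (hW _), one_div,
      inv_mul_eq_div, lt_div_iff₀ (by positivity)] at a2
    refine ⟨2 * r, by omega, ?_, ?_⟩
    · rw [mul_assoc]; exact (W_pos _ _).trans_le (W_le_cn ht _)
    · rw [mul_assoc 2 r m]
      refine le_trans (le_of_eq ?_) (a2.le.trans (hc _))
      push_cast
      field_simp
      ring
  refine ⟨μ, h1, fun P n hP hn => ?_⟩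
  have h5 := all_n ht (by linarith) (by linarith) hE hP hn
  have hP' : (0 : ℝ) < P := by exact_mod_cast hP
  rw [← Real.log_le_log_iff (by positivity) (mul_pos (hW n) (Real.exp_pos _)), Real.log_pow,
    Real.log_mul (hW n).ne' (Real.exp_pos _).ne', Real.log_exp, ← sub_le_iff_le_add',
    le_div_iff₀ hP']
  linarith

end Pool.Agent.P.MP_8acafb_co.HW
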