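import Pool.Agent.P.MP_8acafb_co.Fekete

namespace Pool.Agent.P.MP_8acafb_co

open Finset Filter Topology

theorem pass_blocks (T : ℕ → List ℕ) (c : ℕ → ℕ) (tail : List ℕ) (ht : tail.Pairwise (· ≤ ·))
    (rows : List ℕ) : ∀ st : List ℕ, st.Pairwise (· ≤ ·) → (∀ i ∈ rows, ∀ x ∈ T i, x < c i) →
      rows.Pairwise (fun i i' => c i' < c i) → (∀ i ∈ rows, ∀ y ∈ st, c i < y) →
      ∃ tail' : List ℕ, tail'.Pairwise (· ≤ ·) ∧
        pass st (rows.flatMap (fun i => T i ++ [c i]) ++ tail) =
          rows.flatMap (fun i => s (T i)) ++ tail' := by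
  induction rows with
  | nil => intro st h _ _ _; exact ⟨pass st tail, pass_sorted _ _ h ht, by simp⟩
  | cons i rows ih =>
    intro st h h1 h2 h3
    rw [List.pairwise_cons] at h2
    obtain ⟨tail', h4, h5⟩ := ih (c i :: st)
      (List.pairwise_cons.2 ⟨fun y hy => (h3 i (by simp) y hy).le, h⟩)
      (fun j hj => h1 j (by simp [hj])) h2.2 (by
        intro j hj y hy
        rcases List.mem_cons.1 hy with rfl | hy
        · exact h2.1 j hj
        · exact h3 j (by simp [hj]) y hy)
    refine ⟨tail', h4, ?_⟩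
    have h6 := pass_split (c i) (rows.flatMap (fun i => T i ++ [c i]) ++ tail) st
      (fun y hy => (h3 i (by simp) y hy).not_gt) (T i) [] (by simp) (h1 i (by simp))
    rw [List.nil_append, h5] at h6
    simp only [List.flatMap_cons, List.append_assoc, List.cons_append, List.nil_append]
    rw [h6]; rfl

theorem s_last (a : ℕ → ℕ) (m : ℕ) (ha : ∀ j < m, a j < a m) (T : List ℕ)
    (hT : T.Perm ((List.range (m + 1)).map a)) :
    s T = (s T).dropLast ++ [a m] ∧ (s T).dropLast.Perm ((List.range m).map a) := by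
  rw [List.range_succ, List.map_append, List.map_singleton] at hT
  obtain ⟨L, R, rfl⟩ := List.append_of_mem (hT.symm.subset (by simp : a m ∈ _))
  have h1 : (L ++ R).Perm ((List.range m).map a) :=
    (List.perm_middle.symm.trans (hT.trans (List.perm_append_singleton _ _))).cons_inv
  have h2 : ∀ x ∈ L ++ R, x < a m := by
    intro x hx
    obtain ⟨j, hj, rfl⟩ := List.mem_map.1 (h1.subset hx)
    exact ha j (List.mem_range.1 hj)
  rw [s_rec L (a m) R (fun x hx => h2 x (List.mem_append_left _ hx))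
    (fun x hx => h2 x (List.mem_append_right _ hx)), List.dropLast_concat]
  exact ⟨rfl, ((s_perm L).append (s_perm R)).trans h1⟩

theorem sort_blocks (rows : List ℕ) (a : ℕ → ℕ → ℕ) (m : ℕ) : ∀ (T : ℕ → List ℕ) (tail : List ℕ),
    (∀ i ∈ rows, ∀ j j', j < j' → j' ≤ m → a i j < a i j') →
    rows.Pairwise (fun i i' => ∀ j ≤ m, a i' j < a i j) →
    (∀ i ∈ rows, (T i).Perm ((List.range m).map (a i))) → tail.Pairwise (· ≤ ·) →
    (s^[m + 1] (rows.flatMap (fun i => T i ++ [a i m]) ++ tail)).Pairwise (· ≤ ·) := by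
  induction m with
  | zero =>
    intro T tail _ h2 h3 ht
    obtain ⟨tail', h4, h5⟩ := pass_blocks T (fun i => a i 0) tail ht rows [] (by simp)
      (fun i hi x hx => by simpa using (h3 i hi).subset hx) (h2.imp fun h => h 0 le_rfl) (by simp)
    have h6 : rows.flatMap (fun i => s (T i)) = [] := by
      rw [List.flatMap_eq_nil_iff]
      intro i hi
      have : T i = [] := by simpa using h3 i hi
      rw [this, s_nil]
    rw [h6] at h5
    simpa [s, h5] using h4
  | succ m ih =>
    intro T tail h1 h2 h3 ht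
    obtain ⟨tail', h4, h5⟩ := pass_blocks T (fun i => a i (m + 1)) tail ht rows [] (by simp)
      (fun i hi x hx => by
        obtain ⟨j, hj, rfl⟩ := List.mem_map.1 ((h3 i hi).subset hx)
        exact h1 i hi j _ (List.mem_range.1 hj) le_rfl)
      (h2.imp fun h => h _ le_rfl) (by simp)
    have h6 := fun i (hi : i ∈ rows) =>
      s_last (a i) m (fun j hj => h1 i hi j m hj (Nat.le_succ m)) (T i) (h3 i hi)
    have h7 : rows.flatMap (fun i => s (T i)) =
        rows.flatMap (fun i => (s (T i)).dropLast ++ [a i m]) :=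
      List.flatMap_congr fun i hi => (h6 i hi).1
    rw [Function.iterate_succ_apply, s, h5, h7]
    exact ih _ tail' (fun i hi j j' h h' => h1 i hi j j' h (by omega))
      (h2.imp fun h j hj => h j (by omega)) (fun i hi => (h6 i hi).2) h4

/-- arrays increasing along rows and columns with distinct entries below `n` -/
structure Good (a : ℕ → ℕ → ℕ) (K m n : ℕ) : Prop where
  row : ∀ k < K, ∀ j j', j < j' → j' ≤ m → a k j < a k j'
  col : ∀ k k', k < k' → k' < K → ∀ j ≤ m, a k j < a k' j
  inj : ∀ k < K, ∀ k' < K, ∀ j ≤ m, ∀ j' ≤ m, a k j = a k' j' → k = k'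
  bd : ∀ k < K, ∀ j ≤ m, a k j < n

/-- the blocks -/
def blocks (a : ℕ → ℕ → ℕ) (τ : ℕ → List ℕ) (K m : ℕ) : List ℕ :=
  (List.range K).reverse.flatMap (fun k => (τ k).map (a k) ++ [a k m])

/-- the permutation built from an array and arrangements of its rows -/
def build (a : ℕ → ℕ → ℕ) (τ : ℕ → List ℕ) (K m n : ℕ) : List ℕ :=
  blocks a τ K m ++ (List.range n).filter (· ∉ blocks a τ K m)

theorem block_perm (f : ℕ → ℕ) (τ : List ℕ) (m : ℕ) (h : τ.Perm (List.range m)) :
    (τ.map f ++ [f m]).Perm ((List.range (m + 1)).map f) := by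
  rw [List.range_succ, List.map_append]
  exact (h.map f).append_right _

theorem row_pairwise (f : ℕ → ℕ) (m : ℕ) (h : ∀ j j', j < j' → j' ≤ m → f j < f j') :
    ((List.range (m + 1)).map f).Pairwise (· < ·) := by
  rw [List.pairwise_map]
  refine List.Pairwise.imp_of_mem ?_ List.pairwise_lt_range
  intro j j' _ h2 h3
  exact h j j' h3 (Nat.lt_succ_iff.1 (List.mem_range.1 h2))

theorem build_mem {a : ℕ → ℕ → ℕ} {τ : ℕ → List ℕ} {K m n : ℕ} (ha : Good a K m n)
    (hτ : ∀ k < K, (τ k).Perm (List.range m)) : Srt (m + 1) n (build a τ K m n) := by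
  have hmem : ∀ k < K, ∀ x ∈ (τ k).map (a k) ++ [a k m], ∃ j ≤ m, a k j = x := by
    intro k hk x hx
    obtain ⟨j, hj, rfl⟩ := List.mem_map.1 ((block_perm (a k) _ m (hτ k hk)).subset hx)
    exact ⟨j, Nat.lt_succ_iff.1 (List.mem_range.1 hj), rfl⟩
  have hnd : (blocks a τ K m).Nodup := by
    rw [blocks, List.nodup_flatMap]
    refine ⟨fun k hk => ?_, ?_⟩
    · have hk' : k < K := by simpa using hk
      exact (block_perm (a k) _ m (hτ k hk')).nodup_iff.2
        ((row_pairwise _ m (ha.row k hk')).imp ne_of_lt)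
    · refine List.Pairwise.imp_of_mem ?_ (List.nodup_reverse.2 (List.nodup_range (n := K)))
      intro k k' hk hk' hne x hx hx'
      have h1 : k < K := by simpa using hk
      have h2 : k' < K := by simpa using hk'
      obtain ⟨j, hj, h3⟩ := hmem k h1 x hx
      obtain ⟨j', hj', h4⟩ := hmem k' h2 x hx'
      exact hne (ha.inj k h1 k' h2 j hj j' hj' (h3.trans h4.symm))
  have hlt : ∀ x ∈ blocks a τ K m, x < n := by
    intro x hx
    obtain ⟨k, hk, hx⟩ := List.mem_flatMap.1 hx
    have h1 : k < K := by simpa using hk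
    obtain ⟨j, hj, rfl⟩ := hmem k h1 x hx
    exact ha.bd k h1 j hj
  refine Srt_of_sorted ?_ ?_
  · refine (List.perm_ext_iff_of_nodup ?_ List.nodup_range).2 fun x => ?_
    · refine List.nodup_append.2 ⟨hnd, List.nodup_range.filter _, ?_⟩
      rintro x hx y hy rfl
      simpa [hx] using (List.mem_filter.1 hy).2
    · simp only [build, List.mem_append, List.mem_filter, List.mem_range, decide_eq_true_eq]
      constructor
      · rintro (h | h)
        · exact hlt x h
        · exact h.1
      · intro h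
        by_cases h1 : x ∈ blocks a τ K m
        · exact Or.inl h1
        · exact Or.inr ⟨h, h1⟩
  · refine sort_blocks _ a m (fun k => (τ k).map (a k)) _ (fun k hk => ha.row k (by simpa using hk))
      ?_ (fun k hk => (hτ k (by simpa using hk)).map _) (List.pairwise_le_range.filter _)
    rw [List.pairwise_reverse]
    refine List.Pairwise.imp_of_mem ?_ List.pairwise_lt_range
    intro k k' _ h2 h3
    exact ha.col k k' h3 (List.mem_range.1 h2)

theorem flatMap_inj (f g : ℕ → List ℕ) (A B : List ℕ) (rows : List ℕ)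
    (hl : ∀ i ∈ rows, (f i).length = (g i).length)
    (h : rows.flatMap f ++ A = rows.flatMap g ++ B) : ∀ i ∈ rows, f i = g i := by
  induction rows with
  | nil => simp
  | cons i rows ih =>
    simp only [List.flatMap_cons, List.append_assoc] at h
    obtain ⟨h1, h2⟩ := List.append_inj h (hl i (by simp))
    intro j hj
    rcases List.mem_cons.1 hj with rfl | hj
    · exact h1
    · exact ih (fun i hi => hl i (by simp [hi])) h2 j hj

theorem map_inj_on (f : ℕ → ℕ) (l : List ℕ) : ∀ l' : List ℕ,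
    (∀ x ∈ l, ∀ y ∈ l', f x = f y → x = y) → l.map f = l'.map f → l = l' := by
  induction l with
  | nil => intro l' _ h; simpa using h.symm
  | cons x l ih =>
    intro l' h1 h
    cases l' with
    | nil => simp at h
    | cons y l' =>
      simp only [List.map_cons, List.cons.injEq] at h
      rw [h1 x (by simp) y (by simp) h.1,
        ih l' (fun a ha b hb => h1 a (by simp [ha]) b (by simp [hb])) h.2]

theorem build_inj {a a' : ℕ → ℕ → ℕ} {τ τ' : ℕ → List ℕ} {K m n : ℕ} (ha : Good a K m n)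
    (ha' : Good a' K m n) (hτ : ∀ k < K, (τ k).Perm (List.range m))
    (hτ' : ∀ k < K, (τ' k).Perm (List.range m)) (h : build a τ K m n = build a' τ' K m n)
    (k : ℕ) (hk : k < K) : (∀ j ≤ m, a k j = a' k j) ∧ τ k = τ' k := by
  have h1 := flatMap_inj _ _ _ _ _ (fun i hi => by
    have hi' : i < K := by simpa using hi
    simp [(hτ i hi').length_eq, (hτ' i hi').length_eq]) h k (by simpa using hk)
  have h2 : (List.range (m + 1)).map (a k) = (List.range (m + 1)).map (a' k) := by
    refine List.Perm.eq_of_pairwise (fun _ _ _ _ h1 h2 => absurd h1 (lt_asymm h2))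
      (row_pairwise _ m (ha.row k hk)) (row_pairwise _ m (ha'.row k hk)) ?_
    exact (block_perm _ _ m (hτ k hk)).symm.trans (h1 ▸ block_perm _ _ m (hτ' k hk))
  have h3 : ∀ j ≤ m, a k j = a' k j := fun j hj =>
    List.map_inj_left.1 h2 j (List.mem_range.2 (Nat.lt_succ_of_le hj))
  refine ⟨h3, map_inj_on (a k) _ _ ?_ ?_⟩
  · intro x hx y hy hxy
    have h4 := List.mem_range.1 ((hτ k hk).subset hx)
    have h5 := List.mem_range.1 ((hτ' k hk).subset hy)
    rcases lt_trichotomy x y with h6 | h6 | h6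
    · have := ha.row k hk x y h6 h5.le; omega
    · exact h6
    · have := ha.row k hk y x h6 h4.le; omega
  · rw [(List.append_inj' h1 rfl).1]
    exact List.map_inj_left.2 fun y hy =>
      (h3 y (List.mem_range.1 ((hτ' k hk).subset hy)).le).symm

/-- shuffles of `t` chains of length `r` -/
def Mono (t r : ℕ) : Finset (Fin t × Fin r → Fin (t * r)) :=
  univ.filter (fun β => Function.Injective β ∧ ∀ j, StrictMono (fun i => β (j, i)))

theorem card_Mono (t r : ℕ) : (t * r).factorial ≤ (Mono t r).card * r.factorial ^ t := by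
  have h1 : (univ : Finset (Fin t × Fin r ≃ Fin (t * r))).card = (t * r).factorial := by
    rw [card_univ, Fintype.card_equiv finProdFinEquiv]; simp
  have h2 : (univ : Finset (Fin t → Equiv.Perm (Fin r))).card = r.factorial ^ t := by
    simp [Fintype.card_perm]
  rw [← h1, ← h2, ← card_product]
  refine card_le_card_of_injOn (fun e => (fun z => e (z.1, Tuple.sort (fun i => e (z.1, i)) z.2),
    fun j => Tuple.sort (fun i => e (j, i)))) ?_ ?_
  · intro e _
    simp only [coe_product, Set.mem_prod, mem_coe, Mono, mem_filter, mem_univ, true_and, and_true]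
    have hinj : Function.Injective
        (fun z : Fin t × Fin r => e (z.1, Tuple.sort (fun i => e (z.1, i)) z.2)) := by
      rintro ⟨j, i⟩ ⟨j', i'⟩ h
      have h3 := e.injective h
      simp only [Prod.mk.injEq] at h3
      obtain ⟨rfl, h4⟩ := h3
      rw [(Tuple.sort _).injective h4]
    refine ⟨hinj, fun j => ?_⟩
    refine (Tuple.monotone_sort (fun i => e (j, i))).strictMono_of_injective ?_
    intro i i' h
    exact (Prod.ext_iff.1 (hinj (a₁ := (j, i)) (a₂ := (j, i')) h)).2
  · intro e _ e' _ h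
    simp only [Prod.mk.injEq] at h
    ext ⟨j, i⟩
    have h3 := congrFun h.1 (j, (Tuple.sort (fun i => e (j, i))).symm i)
    have h4 := congrFun h.2 j
    simp only [← h4, Equiv.apply_symm_apply] at h3
    rw [h3]

/-- the array attached to a sequence of shuffles -/
def arr (m r : ℕ) (β : ℕ → Fin (m + 1) × Fin r → Fin ((m + 1) * r)) (k j : ℕ) : ℕ :=
  (k / r + j) * ((m + 1) * r) +
    if h : j < m + 1 ∧ k % r < r then (β (k / r + j) (⟨j, h.1⟩, ⟨k % r, h.2⟩) : ℕ) else 0

theorem arr_eq (m r : ℕ) (hr : 0 < r) (β : ℕ → Fin (m + 1) × Fin r → Fin ((m + 1) * r)) (k j : ℕ)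
    (hj : j ≤ m) : arr m r β k j = (k / r + j) * ((m + 1) * r) +
      (β (k / r + j) (⟨j, Nat.lt_succ_of_le hj⟩, ⟨k % r, Nat.mod_lt k hr⟩) : ℕ) := by
  rw [arr, dif_pos ⟨Nat.lt_succ_of_le hj, Nat.mod_lt k hr⟩]

theorem layer_lt {L x y u v : ℕ} (hu : u < L) (h : x < y) : x * L + u < y * L + v := by
  have := Nat.mul_le_mul_right L (Nat.succ_le_of_lt h)
  rw [Nat.succ_mul] at this
  omega

theorem arr_good (m r N : ℕ) (hr : 0 < r) (β : ℕ → Fin (m + 1) × Fin r → Fin ((m + 1) * r))
    (hβ : ∀ x, β x ∈ Mono (m + 1) r) : Good (arr m r β) (N * r) m ((N + m) * ((m + 1) * r)) := by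
  have hβ' := fun x => (mem_filter.1 (hβ x)).2
  refine ⟨?_, ?_, ?_, ?_⟩
  · intro k _ j j' h hj'
    rw [arr_eq m r hr β k j (by omega), arr_eq m r hr β k j' hj']
    exact layer_lt (Fin.is_lt _) (by omega)
  · intro k k' h _ j hj
    rw [arr_eq m r hr β k j hj, arr_eq m r hr β k' j hj]
    rcases (Nat.div_le_div_right (c := r) h.le).eq_or_lt with h1 | h1
    · have h2 : k % r < k' % r := by
        have h3 := Nat.div_add_mod k r
        have h4 := Nat.div_add_mod k' r
        rw [h1] at h3
        omega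
      rw [h1]
      have := (hβ' (k' / r + j)).2 ⟨j, Nat.lt_succ_of_le hj⟩
        (show (⟨k % r, Nat.mod_lt k hr⟩ : Fin r) < ⟨k' % r, Nat.mod_lt k' hr⟩ from h2)
      exact Nat.add_lt_add_left this _
    · exact layer_lt (Fin.is_lt _) (by omega)
  · intro k _ k' _ j hj j' hj' h
    rw [arr_eq m r hr β k j hj, arr_eq m r hr β k' j' hj'] at h
    have h1 : k / r + j = k' / r + j' := by
      rcases lt_trichotomy (k / r + j) (k' / r + j') with h2 | h2 | h2
      · exact absurd h (layer_lt (Fin.is_lt _) h2).ne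
      · exact h2
      · exact absurd h.symm (layer_lt (Fin.is_lt _) h2).ne
    rw [h1] at h
    have h2 := (hβ' _).1 (Fin.ext (Nat.add_left_cancel h))
    simp only [Prod.mk.injEq, Fin.mk.injEq] at h2
    have h3 := Nat.div_add_mod k r
    have h4 := Nat.div_add_mod k' r
    have h5 : k / r = k' / r := by omega
    rw [h5] at h3
    omega
  · intro k hk j hj
    rw [arr_eq m r hr β k j hj]
    have h1 : k / r < N := (Nat.div_lt_iff_lt_mul hr).2 hk
    have := layer_lt (v := 0) (Fin.is_lt (β (k / r + j)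
      (⟨j, Nat.lt_succ_of_le hj⟩, ⟨k % r, Nat.mod_lt k hr⟩))) (by omega : k / r + j < N + m)
    simpa using this

theorem W_lower (m r N : ℕ) (hr : 0 < r) :
    (Mono (m + 1) r).card ^ N * m.factorial ^ ((N + m) * r) ≤
      W (m + 1) ((N + m + m) * ((m + 1) * r)) := by
  have hne : (Mono (m + 1) r).Nonempty := by
    rw [← card_pos]
    have := (Nat.factorial_pos _).trans_le (card_Mono (m + 1) r)
    exact Nat.pos_of_mul_pos_right this
  obtain ⟨β0, hβ0⟩ := hne
  set K := (N + m) * r with hK
  set P := (List.range m).permutations.toFinset with hP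
  have hPc : P.card = m.factorial := by
    rw [hP, List.toFinset_card_of_nodup (List.nodup_permutations _ List.nodup_range),
      List.length_permutations, List.length_range]
  have h1 : ((Fintype.piFinset fun _ : Fin N => Mono (m + 1) r) ×ˢ
      (Fintype.piFinset fun _ : Fin K => P)).card =
      (Mono (m + 1) r).card ^ N * m.factorial ^ K := by
    simp [card_product, Fintype.card_piFinset, hPc]
  let ext : (Fin N → Fin (m + 1) × Fin r → Fin ((m + 1) * r)) → ℕ →
      Fin (m + 1) × Fin r → Fin ((m + 1) * r) :=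
    fun γ x => if h : x - m < N then γ ⟨x - m, h⟩ else β0
  let ext2 : (Fin K → List ℕ) → ℕ → List ℕ := fun τ k => if h : k < K then τ ⟨k, h⟩ else []
  have hgood : ∀ γ ∈ (Fintype.piFinset fun _ : Fin N => Mono (m + 1) r),
      Good (arr m r (ext γ)) K m ((N + m + m) * ((m + 1) * r)) := by
    intro γ hγ
    refine arr_good m r (N + m) hr _ fun x => ?_
    simp only [ext]
    split_ifs
    · exact Fintype.mem_piFinset.1 hγ _
    · exact hβ0
  have hperm : ∀ τ ∈ (Fintype.piFinset fun _ : Fin K => P), ∀ k < K,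
      (ext2 τ k).Perm (List.range m) := by
    intro τ hτ k hk
    simp only [ext2, dif_pos hk]
    simpa [hP, List.mem_permutations] using Fintype.mem_piFinset.1 hτ ⟨k, hk⟩
  rw [← h1, W_eq]
  refine card_le_card_of_injOn (fun z => build (arr m r (ext z.1)) (ext2 z.2) K m
    ((N + m + m) * ((m + 1) * r))) ?_ ?_
  · rintro ⟨γ, τ⟩ h
    simp only [coe_product, Set.mem_prod, mem_coe] at h
    exact mem_coe.2 (mem_X.2 (build_mem (hgood γ h.1) (hperm τ h.2)))
  · rintro ⟨γ, τ⟩ h ⟨γ', τ'⟩ h' he
    simp only [coe_product, Set.mem_prod, mem_coe] at h h'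
    have h2 := build_inj (hgood γ h.1) (hgood γ' h'.1) (hperm τ h.2) (hperm τ' h'.2) he
    refine Prod.ext ?_ ?_
    · funext x ⟨j, i⟩
      have hj : (j : ℕ) ≤ m := Nat.lt_succ_iff.1 j.2
      have hx := x.2
      have hi := i.2
      have h3 : (x + m - j) * r + i < K := by
        have := layer_lt (v := 0) hi (by omega : x + m - j < N + m)
        simpa using this
      have h4 := (h2 _ h3).1 j hj
      have h5 : ((x + m - j) * r + i) / r = x + m - j := by
        rw [add_comm, Nat.add_mul_div_right _ _ hr, Nat.div_eq_of_lt hi, zero_add]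
      have h6 : ((x + m - j) * r + i) % r = i := by
        rw [add_comm, Nat.add_mul_mod_self_right, Nat.mod_eq_of_lt hi]
      have h7 : x + m - j + j = x + m := by omega
      rw [arr_eq m r hr _ _ _ hj, arr_eq m r hr _ _ _ hj] at h4
      simp only [h5, h6, h7, ext, Nat.add_sub_cancel, dif_pos hx] at h4
      exact Fin.ext (Nat.add_left_cancel h4)
    · funext k
      simpa [ext2] using (h2 k k.2).2

theorem mu_lower (m : ℕ) (μ : ℝ) (hμ : 0 < μ) (hW : ∀ n, (W (m + 1) n : ℝ) ≤ μ ^ n) :
    ((m + 1 : ℕ) : ℝ) * (m.factorial : ℝ) ^ (1 / ((m + 1 : ℕ) : ℝ)) ≤ μ := by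
  set t : ℕ := m + 1 with ht
  have ht0 : t ≠ 0 := Nat.succ_ne_zero m
  have hf1 : (1 : ℝ) ≤ m.factorial := by exact_mod_cast Nat.factorial_pos m
  have step1 : ∀ r, 0 < r → ((Mono t r).card : ℝ) * (m.factorial : ℝ) ^ r ≤ μ ^ (t * r) := by
    intro r hr
    by_contra h
    have hM : 0 < μ ^ (t * r) := by positivity
    have h1 : 1 < ((Mono t r).card : ℝ) * (m.factorial : ℝ) ^ r / μ ^ (t * r) :=
      (one_lt_div hM).2 (not_le.1 h)
    obtain ⟨N, hN⟩ := pow_unbounded_of_one_lt ((μ ^ (t * r)) ^ (m + m)) h1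
    have h2 : (((Mono t r).card : ℝ)) ^ N * (m.factorial : ℝ) ^ ((N + m) * r) ≤
        μ ^ ((N + m + m) * (t * r)) := by
      refine le_trans ?_ (hW _)
      exact_mod_cast W_lower m r N hr
    have h3 : (m.factorial : ℝ) ^ (r * N) ≤ (m.factorial : ℝ) ^ ((N + m) * r) :=
      pow_le_pow_right₀ hf1 (by nlinarith [Nat.zero_le (m * r)])
    rw [div_pow, lt_div_iff₀ (by positivity), ← pow_add, ← pow_mul, mul_pow, ← pow_mul] at hN
    have h4 : t * r * (m + m + N) = (N + m + m) * (t * r) := by ring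
    rw [h4] at hN
    have h5 := mul_le_mul_of_nonneg_left h3 (pow_nonneg (Nat.cast_nonneg (α := ℝ) (Mono t r).card) N)
    linarith
  set y : ℝ := t * (m.factorial : ℝ) ^ (1 / (t : ℝ)) / μ with hy
  have hy0 : 0 ≤ y := by positivity
  have step2 : ∀ r : ℕ, 0 < r → y ^ r ≤ Real.exp 1 * (r + 1) := by
    intro r hr
    have hr0 : (0 : ℝ) < r := by exact_mod_cast hr
    refine le_of_pow_le_pow_left₀ ht0 (by positivity) ?_
    have h1 : (y ^ r) ^ t = (t : ℝ) ^ (t * r) * (m.factorial : ℝ) ^ r / μ ^ (t * r) := by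
      rw [← pow_mul, hy, div_pow, mul_pow, mul_comm r t, pow_mul ((m.factorial : ℝ) ^ (1 / (t : ℝ))),
        one_div, Real.rpow_inv_natCast_pow (by positivity) ht0]
    have h2 : (((t * r).factorial : ℕ) : ℝ) ≤ (Mono t r).card * (r.factorial : ℝ) ^ t := by
      exact_mod_cast card_Mono t r
    have h3 := Real.pow_div_factorial_le_exp ((t * r : ℕ) : ℝ) (Nat.cast_nonneg _) (t * r)
    rw [div_le_iff₀ (by positivity)] at h3
    have h4 := pow_le_pow_left₀ (by positivity) (factorial_upper r) t
    have h5 : Real.exp ((t * r : ℕ) : ℝ) = Real.exp r ^ t := by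
      rw [← Real.exp_nat_mul]; push_cast; rfl
    rw [h5] at h3
    have h6 : (t : ℝ) ^ (t * r) ≤ (Mono t r).card * (Real.exp 1 * (r + 1)) ^ t := by
      have h7 : (0 : ℝ) < (r : ℝ) ^ (t * r) := by positivity
      refine le_of_mul_le_mul_right ?_ h7
      calc (t : ℝ) ^ (t * r) * (r : ℝ) ^ (t * r) = ((t * r : ℕ) : ℝ) ^ (t * r) := by
            push_cast; rw [mul_pow]
        _ ≤ Real.exp r ^ t * ((Mono t r).card * (r.factorial : ℝ) ^ t) := h3.trans (by gcongr)
        _ = (Mono t r).card * (r.factorial * Real.exp r) ^ t := by rw [mul_pow]; ring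
        _ ≤ (Mono t r).card * (Real.exp 1 * (r + 1) * r ^ r) ^ t := by gcongr
        _ = _ := by rw [mul_pow _ ((r : ℝ) ^ r), ← pow_mul, mul_comm r t]; ring
    rw [h1, div_le_iff₀ (by positivity)]
    have h8 := step1 r hr
    calc (t : ℝ) ^ (t * r) * (m.factorial : ℝ) ^ r
        ≤ (Mono t r).card * (Real.exp 1 * (r + 1)) ^ t * (m.factorial : ℝ) ^ r := by gcongr
      _ = (Real.exp 1 * (r + 1)) ^ t * ((Mono t r).card * (m.factorial : ℝ) ^ r) := by ring
      _ ≤ _ := by gcongr
  by_contra h
  have hy1 : 1 < y := (one_lt_div hμ).2 (not_le.1 h)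
  have h1 := tendsto_pow_const_div_const_pow_of_one_lt 1 hy1
  have h2 := h1.eventually (gt_mem_nhds (show (0 : ℝ) < 1 / (2 * Real.exp 1) by positivity))
  obtain ⟨r, h3, hr⟩ := (h2.and (eventually_gt_atTop 0)).exists
  have h4 := step2 r hr
  have hr1 : (1 : ℝ) ≤ r := by exact_mod_cast hr
  rw [pow_one, div_lt_div_iff₀ (by positivity) (by positivity)] at h3
  nlinarith [Real.exp_pos 1]

end Pool.Agent.P.MP_8acafb_co
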