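import Pool.Agent.P.MP_8acafb_co.T3Defs

namespace Pool.Agent.P.MP_8acafb_co.T3

open Finset

variable {x y : ℝ} {f g f' g' P d : Ar}

theorem sh_mono (hy : 0 ≤ y) (h : ∀ i j, f i j ≤ g i j) (i j : ℕ) : sh y f i j ≤ sh y g i j := by
  cases j with
  | zero => exact le_rfl
  | succ j => exact mul_le_mul_of_nonneg_left (h i j) hy

theorem sh_nonneg (hy : 0 ≤ y) (h : ∀ i j, 0 ≤ f i j) (i j : ℕ) : 0 ≤ sh y f i j := by
  cases j with
  | zero => exact le_rfl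
  | succ j => exact mul_nonneg hy (h i j)

theorem dn_mono (h : ∀ i j, f i j ≤ g i j) (i j : ℕ) : dn f i j ≤ dn g i j := by
  cases i with
  | zero => exact le_rfl
  | succ i => exact h i j

theorem dn_nonneg (h : ∀ i j, 0 ≤ f i j) (i j : ℕ) : 0 ≤ dn f i j := by
  cases i with
  | zero => exact le_rfl
  | succ i => exact h i j

theorem Uo_mono (hx : 0 ≤ x) (h : ∀ i j, f i j ≤ g i j) (i j : ℕ) :
    Uo x f i j ≤ Uo x g i j := by
  cases i with
  | zero => exact le_rfl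
  | succ i =>
    have h1 := h (i + 1) j
    have h2 := h i j
    have h3 := dn_mono h i j
    simp only [Uo]
    gcongr

theorem Uo_nonneg (hx : 0 ≤ x) (h : ∀ i j, 0 ≤ f i j) (i j : ℕ) : 0 ≤ Uo x f i j := by
  cases i with
  | zero => exact le_rfl
  | succ i =>
    have h1 := h (i + 1) j
    have h2 := h i j
    have h3 := dn_nonneg h i j
    simp only [Uo]
    positivity

theorem Vo_mono (hy : 0 ≤ y) (h : ∀ i j, f i j ≤ g i j) (i j : ℕ) :
    Vo y f i j ≤ Vo y g i j := by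
  have h1 := h i (j + 1)
  have h2 := h i 0
  simp only [Vo]
  split_ifs <;> gcongr

theorem Vo_nonneg (hy : 0 ≤ y) (h : ∀ i j, 0 ≤ f i j) (i j : ℕ) : 0 ≤ Vo y f i j := by
  have h1 := h i (j + 1)
  have h2 := h i 0
  simp only [Vo]
  split_ifs <;> positivity

theorem Lin_mono (hx : 0 ≤ x) (h : ∀ i j, f i j ≤ g i j) (i j : ℕ) :
    Lin x f i j ≤ Lin x g i j := by
  have h1 := h (i + 1) j
  have h2 := h i j
  have h3 := dn_mono h i j
  simp only [Lin]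
  gcongr

theorem Lin_nonneg (hx : 0 ≤ x) (h : ∀ i j, 0 ≤ f i j) (i j : ℕ) : 0 ≤ Lin x f i j := by
  have h1 := h (i + 1) j
  have h2 := h i j
  have h3 := dn_nonneg h i j
  simp only [Lin]
  positivity

theorem cv2_mono (hf : ∀ i j, 0 ≤ f i j) (hg : ∀ i j, 0 ≤ g i j) (h : ∀ i j, f i j ≤ f' i j)
    (h' : ∀ i j, g i j ≤ g' i j) (i j : ℕ) : cv2 f g i j ≤ cv2 f' g' i j :=
  sum_le_sum fun _ _ => sum_le_sum fun _ _ =>
    mul_le_mul (h _ _) (h' _ _) (hg _ _) ((hf _ _).trans (h _ _))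

theorem cv2_nonneg (hf : ∀ i j, 0 ≤ f i j) (hg : ∀ i j, 0 ≤ g i j) (i j : ℕ) :
    0 ≤ cv2 f g i j :=
  sum_nonneg fun _ _ => sum_nonneg fun _ _ => mul_nonneg (hf _ _) (hg _ _)

theorem del_nonneg (i j : ℕ) : 0 ≤ del i j := by
  simp only [del]
  split_ifs <;> norm_num

theorem R_mono (hx : 0 ≤ x) (hy : 0 ≤ y) (hf : ∀ i j, 0 ≤ f i j) (h : ∀ i j, f i j ≤ g i j)
    (i j : ℕ) : R x y f i j ≤ R x y g i j :=
  add_le_add (add_le_add le_rfl (Lin_mono hx h i j))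
    (cv2_mono (Uo_nonneg hx hf) (Vo_nonneg hy hf) (Uo_mono hx h) (Vo_mono hy h) i j)

theorem R_nonneg (hx : 0 ≤ x) (hy : 0 ≤ y) (hf : ∀ i j, 0 ≤ f i j) (i j : ℕ) :
    0 ≤ R x y f i j :=
  add_nonneg (add_nonneg (del_nonneg i j) (Lin_nonneg hx hf i j))
    (cv2_nonneg (Uo_nonneg hx hf) (Vo_nonneg hy hf) i j)

theorem Lam_mono (hx : 0 ≤ x) (hy : 0 ≤ y) (hP : ∀ i j, 0 ≤ P i j) (hf : ∀ i j, 0 ≤ f i j)
    (h : ∀ i j, f i j ≤ g i j) (i j : ℕ) : Lam x y P f i j ≤ Lam x y P g i j :=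
  add_le_add (add_le_add (Lin_mono hx h i j)
    (cv2_mono (Uo_nonneg hx hP) (Vo_nonneg hy hf) (fun _ _ => le_rfl) (Vo_mono hy h) i j))
    (cv2_mono (Uo_nonneg hx hf) (Vo_nonneg hy hP) (Uo_mono hx h) (fun _ _ => le_rfl) i j)

theorem Lam_nonneg (hx : 0 ≤ x) (hy : 0 ≤ y) (hP : ∀ i j, 0 ≤ P i j) (hf : ∀ i j, 0 ≤ f i j)
    (i j : ℕ) : 0 ≤ Lam x y P f i j :=
  add_nonneg (add_nonneg (Lin_nonneg hx hf i j)
    (cv2_nonneg (Uo_nonneg hx hP) (Vo_nonneg hy hf) i j))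
    (cv2_nonneg (Uo_nonneg hx hf) (Vo_nonneg hy hP) i j)

/-- linear combinations `f + c g` -/
def lc (f : Ar) (c : ℝ) (g : Ar) : Ar := fun i j => f i j + c * g i j

theorem sh_lc (c : ℝ) (i j : ℕ) : sh y (lc f c g) i j = sh y f i j + c * sh y g i j := by
  cases j <;> simp only [sh, lc] <;> ring

theorem dn_lc (c : ℝ) (i j : ℕ) : dn (lc f c g) i j = dn f i j + c * dn g i j := by
  cases i <;> simp only [dn, lc] <;> ring

theorem Uo_lc (c : ℝ) (i j : ℕ) : Uo x (lc f c g) i j = Uo x f i j + c * Uo x g i j := by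
  cases i with
  | zero => simp [Uo]
  | succ i => simp only [Uo, dn_lc]; simp only [lc]; ring

theorem Vo_lc (c : ℝ) (i j : ℕ) : Vo y (lc f c g) i j = Vo y f i j + c * Vo y g i j := by
  simp only [Vo, lc]
  split_ifs <;> ring

theorem Lin_lc (c : ℝ) (i j : ℕ) : Lin x (lc f c g) i j = Lin x f i j + c * Lin x g i j := by
  simp only [Lin, dn_lc]; simp only [lc]; ring

theorem R_lc (c : ℝ) (i j : ℕ) : R x y (lc P c d) i j =
    R x y P i j + c * Lam x y P d i j + c ^ 2 * cv2 (Uo x d) (Vo y d) i j := by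
  simp only [R, Lam, cv2, Lin_lc, Uo_lc, Vo_lc, mul_add, add_mul, sum_add_distrib, mul_sum]
  have h1 : ∀ a b : ℝ, c * a * (c * b) = c ^ 2 * (a * b) := fun a b => by ring
  have h2 : ∀ a b : ℝ, a * (c * b) = c * (a * b) := fun a b => by ring
  simp only [h1]
  simp only [h2, mul_assoc]
  ring

theorem Lam_smul (c : ℝ) (i j : ℕ) :
    Lam x y P (fun i j => c * d i j) i j = c * Lam x y P d i j := by
  have h0 : (fun i j => c * d i j) = lc (fun _ _ => 0) c d := by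
    funext i j; simp [lc]
  have hU : ∀ i j, Uo x (fun _ _ => (0 : ℝ)) i j = 0 := fun i j => by
    rcases i with _ | _ | i <;> simp [Uo, dn]
  have hV : ∀ i j, Vo y (fun _ _ => (0 : ℝ)) i j = 0 := fun i j => by simp [Vo]
  have hL : ∀ i j, Lin x (fun _ _ => (0 : ℝ)) i j = 0 := fun i j => by
    cases i <;> simp [Lin, dn]
  have h2 : ∀ a b : ℝ, a * (c * b) = c * (a * b) := fun a b => by ring
  simp only [h0, Lam, cv2, Lin_lc, Uo_lc, Vo_lc, hU, hV, hL, zero_add, mul_add, mul_sum, h2,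
    mul_assoc]

theorem sh_smul (c : ℝ) (i j : ℕ) : sh y (fun i j => c * d i j) i j = c * sh y d i j := by
  cases j <;> simp only [sh] <;> ring

end Pool.Agent.P.MP_8acafb_co.T3
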