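import Pool.Agent.P.MP_8acafb_co.T3Kron
import Pool.Agent.P.MP_8acafb_co.T3Mono

namespace Pool.Agent.P.MP_8acafb_co.T3

open Finset

/-- lane `j` of a row -/
def ln (w r j : ℕ) : ℕ :=
  Nat.land (Nat.shiftRight r (Nat.mul w j)) (Nat.sub (Nat.shiftLeft 1 w) 1)

theorem ln_eq (w r j : ℕ) : ln w r j = r / (2 ^ w) ^ j % 2 ^ w := by
  change (r >>> (w * j)) &&& (1 <<< w - 1) = _
  rw [Nat.shiftLeft_eq, one_mul, Nat.and_two_pow_sub_one_eq_mod, Nat.shiftRight_eq_div_pow, pow_mul]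

theorem ln_zero (w j : ℕ) : ln w 0 j = 0 := by simp [ln_eq]

theorem ln_big (w r J j : ℕ) (h : r < (2 ^ w) ^ J) (hj : J ≤ j) : ln w r j = 0 := by
  rw [ln_eq, Nat.div_eq_of_lt (h.trans_le (Nat.pow_le_pow_right (by positivity) hj)), Nat.zero_mod]

theorem ln_and (w r s j : ℕ) : ln w (r &&& s) j = ln w r j &&& ln w s j := by
  simp only [ln_eq, ← pow_mul, ← Nat.shiftRight_eq_div_pow, Nat.shiftRight_and_distrib,
    Nat.and_mod_two_pow]

theorem pk1_ln (w r n : ℕ) (h : r < (2 ^ w) ^ n) : pk1 (2 ^ w) n (ln w r) = r := by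
  have key : ∀ n, pk1 (2 ^ w) n (ln w r) = r % (2 ^ w) ^ n := by
    intro n
    induction n with
    | zero => simp [pk1, Nat.mod_one]
    | succ n ih => rw [Nat.mod_pow_succ, ← ih, pk1, sum_range_succ, ln_eq, mul_comm, pk1]
  rw [key, Nat.mod_eq_of_lt h]

theorem ln_pk1 (w n : ℕ) (c : ℕ → ℕ) (hc : ∀ k < n, c k < 2 ^ w) (i : ℕ) (hi : i < n) :
    ln w (pk1 (2 ^ w) n c) i = c i := by
  rw [ln_eq, pk1_digit _ _ _ hc i hi]

theorem pk1_mod (q n J : ℕ) (c : ℕ → ℕ) (hc : ∀ k < n, c k < q) (hJ : J ≤ n) :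
    pk1 q n c % q ^ J = pk1 q J c := by
  obtain ⟨t, rfl⟩ := Nat.exists_eq_add_of_le hJ
  have e : pk1 q (J + t) c = pk1 q J c + q ^ J * ∑ k ∈ range t, c (J + k) * q ^ k := by
    rw [pk1, sum_range_add, mul_sum, pk1]
    congr 1
    exact sum_congr rfl fun k _ => by ring
  rw [e, Nat.add_mul_mod_self_left,
    Nat.mod_eq_of_lt (pk1_lt _ _ _ fun k hk => hc k (by omega))]

theorem pk1_lin (q n c1 c2 c3 : ℕ) (f g h : ℕ → ℕ) :
    c1 * pk1 q n f + c2 * pk1 q n g + c3 * pk1 q n h =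
      pk1 q n fun j => c1 * f j + c2 * g j + c3 * h j := by
  simp only [pk1, mul_sum, add_mul, sum_add_distrib, mul_assoc]

/-- the row with `J` lanes equal to one -/
noncomputable def ones (w J : ℕ) : ℕ :=
  Nat.rec 0 (fun k ih => Nat.add ih (Nat.shiftLeft 1 (Nat.mul w k))) J

theorem ones_eq (w J c : ℕ) : c * ones w J = pk1 (2 ^ w) J fun _ => c := by
  induction J with
  | zero => simp [ones, pk1]
  | succ J ih =>
    have e : ones w (J + 1) = ones w J + 1 <<< (w * J) := rfl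
    rw [e, mul_add, ih, Nat.shiftLeft_eq, one_mul, pow_mul, pk1, pk1, sum_range_succ]

/-- lane by lane comparison `L + m ≤ R` of the first `J` lanes of width `w + 1` -/
noncomputable def leR (w J m L R : ℕ) : Bool :=
  fB (Nat.mul (Nat.shiftLeft 1 w) (ones (Nat.succ w) J)) fun H =>
    fB (Nat.sub (Nat.shiftLeft 1 (Nat.mul (Nat.succ w) J)) 1) fun mk =>
      Nat.beq (Nat.land (Nat.sub (Nat.add (Nat.land R mk) H)
        (Nat.add (Nat.land L mk) (Nat.mul m (ones (Nat.succ w) J)))) H) H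

theorem leR_ok (w J m n : ℕ) (a b : ℕ → ℕ) (hJ : J ≤ n) (ha : ∀ j < n, a j + m < 2 ^ w)
    (hb : ∀ j < n, b j < 2 ^ w)
    (h : leR w J m (pk1 (2 ^ (w + 1)) n a) (pk1 (2 ^ (w + 1)) n b) = true) (j : ℕ) (hj : j < J) :
    a j + m ≤ b j := by
  have e : ∀ L R, leR w J m L R = fB (1 <<< w * ones (w + 1) J) fun H =>
    fB (1 <<< ((w + 1) * J) - 1) fun mk =>
      Nat.beq ((((R &&& mk) + H) - ((L &&& mk) + m * ones (w + 1) J)) &&& H) H := fun _ _ => rfl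
  have hq : 2 ^ (w + 1) = 2 * 2 ^ w := pow_succ' 2 w
  simp only [e, fB_eq, Nat.shiftLeft_eq, one_mul, Nat.and_two_pow_sub_one_eq_mod, Nat.beq_eq,
    ones_eq] at h
  rw [pow_mul, pk1_mod _ _ _ a (fun k hk => by have := ha k hk; omega) hJ,
    pk1_mod _ _ _ b (fun k hk => by have := hb k hk; omega) hJ] at h
  have e2 : pk1 (2 ^ (w + 1)) J b + (pk1 (2 ^ (w + 1)) J fun _ => 2 ^ w) =
      (pk1 (2 ^ (w + 1)) J fun k => b k + 2 ^ w - (a k + m))
        + (pk1 (2 ^ (w + 1)) J a + pk1 (2 ^ (w + 1)) J fun _ => m) := by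
    simp only [pk1, ← sum_add_distrib, ← add_mul]
    refine sum_congr rfl fun k hk => ?_
    have := ha k ((mem_range.1 hk).trans_le hJ)
    congr 1
    omega
  rw [e2, Nat.add_sub_cancel] at h
  have h2 := congrArg (fun r => ln (w + 1) r j) h
  simp only [ln_and] at h2
  rw [ln_pk1 _ _ _ (fun k hk => by have := hb k (by omega); omega) j hj,
    ln_pk1 _ _ (fun _ => 2 ^ w) (fun k _ => by have := Nat.two_pow_pos w; omega) j hj] at h2
  have h3 : (b j + 2 ^ w - (a j + m)) &&& 2 ^ w ≤ b j + 2 ^ w - (a j + m) := Nat.and_le_left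
  have h4 := ha j (by omega)
  omega

/-- entries of a data list -/
noncomputable def nth (l : List ℕ) : ℕ → ℕ :=
  List.rec (motive := fun _ => ℕ → ℕ) (fun _ => 0)
    (fun a _ ih i => Nat.rec a (fun i _ => ih i) i) l

/-- row `i`; every list entry holds `g` rows -/
noncomputable def rows (w I J g : ℕ) (l : List ℕ) (i : ℕ) : ℕ :=
  Nat.land (cond (Nat.ble I i) 0
      (Nat.shiftRight (nth l (Nat.div i g)) (Nat.mul 64 (Nat.mod i g))))
    (Nat.mul 18446744073709551615 (ones w J))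

structure Good (w : ℕ) (ρ : ℕ → ℕ) (I J : ℕ) : Prop where
  zero : ∀ i, I ≤ i → ρ i = 0
  lt : ∀ i, ρ i < (2 ^ w) ^ J
  le : ∀ i j, ln w (ρ i) j ≤ 18446744073709551615

theorem good_rows (w I J g : ℕ) (l : List ℕ) (hw : 64 ≤ w) : Good w (rows w I J g l) I J := by
  have e : ∀ i, rows w I J g l i = (cond (Nat.ble I i) 0 (nth l (i / g) >>> (64 * (i % g)))) &&&
    (18446744073709551615 * ones w J) := fun _ => rfl
  have h1 : 18446744073709551615 < 2 ^ w :=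
    lt_of_lt_of_le (by norm_num) (Nat.pow_le_pow_right two_pos hw)
  have h2 : ∀ i, rows w I J g l i < (2 ^ w) ^ J := fun i => by
    rw [e, ones_eq]
    exact Nat.and_le_right.trans_lt (pk1_lt _ _ _ fun _ _ => h1)
  refine ⟨fun i hi => ?_, h2, fun i j => ?_⟩
  · rw [e, Nat.ble_eq_true_of_le hi]
    simp
  · rcases Nat.lt_or_ge j J with hj | hj
    · rw [e, ln_and, ones_eq, ln_pk1 _ _ (fun _ => 18446744073709551615) (fun _ _ => h1) j hj]
      exact Nat.and_le_right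
    · rw [ln_big w _ J j (h2 i) hj]
      exact Nat.zero_le _

/-- previous row -/
noncomputable def pv (ρ : ℕ → ℕ) (i : ℕ) : ℕ := Nat.rec 0 (fun i _ => ρ i) i

def upL (xa xb e0 e1 e2 : ℕ) : ℕ := xb * xb * e0 + 2 * (xa * xb) * e1 + xa * xa * e2

def lpL (xa xb ep e0 em : ℕ) : ℕ := xb * xb * ep + 2 * (xa * xb) * e0 + 2 * (xa * xa) * em

noncomputable def upN (w xa xb : ℕ) (ρ : ℕ → ℕ) : NA := fun i j =>
  Nat.rec 0 (fun i _ => upL xa xb (ln w (ρ (i + 1)) j) (ln w (ρ i) j) (ln w (pv ρ i) j)) i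

def vpN (w ya yb : ℕ) (ρ : ℕ → ℕ) : NA := fun i j =>
  yb * ln w (ρ i) (j + 1) + if j = 0 then ya * ln w (ρ i) 0 else 0

noncomputable def shL (w r j : ℕ) : ℕ := Nat.rec 0 (fun j _ => ln w r j) j

/-- width of a packed row -/
def rwd (w J : ℕ) : ℕ := Nat.mul w (Nat.mul 2 J)

theorem rwd_eq (w J : ℕ) : 2 ^ rwd w J = (2 ^ w) ^ (2 * J) := pow_mul 2 w (2 * J)

noncomputable def bigU (w d I J xa xb : ℕ) (ρ : ℕ → ℕ) : ℕ :=
  pkT (rwd w J) (Nat.add I 2)
    (fun i => Nat.rec 0 (fun i _ => upL xa xb (ρ (Nat.succ i)) (ρ i) (pv ρ i)) i) d 0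

noncomputable def bigV (w d I J ya yb : ℕ) (ρ : ℕ → ℕ) : ℕ :=
  pkT (rwd w J) I (fun i => Nat.add (Nat.mul yb (Nat.shiftRight (ρ i) w))
    (Nat.mul ya (ln w (ρ i) 0))) d 0

variable {ρ : ℕ → ℕ} {w I J : ℕ}

theorem Good.pv_lt (h : Good w ρ I J) (i : ℕ) : pv ρ i < (2 ^ w) ^ J := by
  cases i with
  | zero => exact Nat.pow_pos (Nat.two_pow_pos w)
  | succ i => exact h.lt i

theorem Good.pv_le (h : Good w ρ I J) (i j : ℕ) : ln w (pv ρ i) j ≤ 18446744073709551615 := by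
  cases i with
  | zero => exact (ln_zero w j).trans_le (Nat.zero_le _)
  | succ i => exact h.le i j

theorem upN_supp (h : Good w ρ I J) (xa xb i j : ℕ) (hij : I + 2 ≤ i ∨ J ≤ j) :
    upN w xa xb ρ i j = 0 := by
  cases i with
  | zero => rfl
  | succ i =>
    change upL xa xb (ln w (ρ (i + 1)) j) (ln w (ρ i) j) (ln w (pv ρ i) j) = 0
    rcases hij with hi | hj
    · obtain ⟨i, rfl⟩ : ∃ k, i = k + 1 := ⟨i - 1, by omega⟩
      change upL xa xb (ln w (ρ (i + 1 + 1)) j) (ln w (ρ (i + 1)) j) (ln w (ρ i) j) = 0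
      rw [h.zero _ (by omega), h.zero (i + 1) (by omega), h.zero i (by omega), ln_zero]
      rfl
    · rw [ln_big w _ J j (h.lt _) hj, ln_big w _ J j (h.lt _) hj, ln_big w _ J j (h.pv_lt _) hj]
      rfl

theorem vpN_supp (h : Good w ρ I J) (ya yb i j : ℕ) (hij : I ≤ i ∨ J ≤ j) :
    vpN w ya yb ρ i j = 0 := by
  have h1 : ∀ k, j ≤ k → ln w (ρ i) k = 0 := fun k hk => by
    rcases hij with hi | hj
    · rw [h.zero i hi, ln_zero]
    · exact ln_big w _ J k (h.lt _) (by omega)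
  cases j with
  | zero => simp [vpN, h1]
  | succ j => simp [vpN, h1 (j + 1 + 1) (by omega)]

theorem upN_le (h : Good w ρ I J) (xa xb i j : ℕ) :
    upN w xa xb ρ i j ≤ (xa + xb) ^ 2 * 18446744073709551615 := by
  cases i with
  | zero => exact Nat.zero_le _
  | succ i =>
    change xb * xb * ln w (ρ (i + 1)) j + 2 * (xa * xb) * ln w (ρ i) j
      + xa * xa * ln w (pv ρ i) j ≤ _
    have h0 := Nat.mul_le_mul_left (xb * xb) (h.le (i + 1) j)
    have h1 := Nat.mul_le_mul_left (2 * (xa * xb)) (h.le i j)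
    have h2 := Nat.mul_le_mul_left (xa * xa) (h.pv_le i j)
    nlinarith

theorem vpN_le (h : Good w ρ I J) (ya yb i j : ℕ) :
    vpN w ya yb ρ i j ≤ (ya + yb) * 18446744073709551615 := by
  have h0 := Nat.mul_le_mul_left yb (h.le i (j + 1))
  have h1 := Nat.mul_le_mul_left ya (h.le i 0)
  simp only [vpN]
  split_ifs <;> nlinarith

theorem bigU_eq (h : Good w ρ I J) (d xa xb : ℕ) :
    bigU w d I J xa xb ρ = pk2 (2 ^ w) (2 * J) (2 ^ d) J (upN w xa xb ρ) := by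
  have key : ∀ i : ℕ, (Nat.rec 0 (fun i _ => upL xa xb (ρ (Nat.succ i)) (ρ i) (pv ρ i)) i : ℕ) =
      pk1 (2 ^ w) J (upN w xa xb ρ i) := by
    intro i
    cases i with
    | zero => simp [pk1, upN]
    | succ i =>
      change upL xa xb (ρ (i + 1)) (ρ i) (pv ρ i) = _
      conv_lhs => rw [← pk1_ln w _ J (h.lt (i + 1)), ← pk1_ln w _ J (h.lt i),
        ← pk1_ln w _ J (h.pv_lt i), upL, pk1_lin]
      rfl
  rw [bigU, pkT_eq, rwd_eq, pk2]
  · simp only [zero_add, key]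
  · intro k hk
    rw [key]
    exact sum_eq_zero fun j _ => by rw [upN_supp h xa xb k j (Or.inl hk), zero_mul]

theorem bigV_eq (h : Good w ρ I J) (hJ : 0 < J) (d ya yb : ℕ) :
    bigV w d I J ya yb ρ = pk2 (2 ^ w) (2 * J) (2 ^ d) J (vpN w ya yb ρ) := by
  have key : ∀ i : ℕ, Nat.add (Nat.mul yb (Nat.shiftRight (ρ i) w)) (Nat.mul ya (ln w (ρ i) 0)) =
      pk1 (2 ^ w) J (vpN w ya yb ρ i) := by
    intro i
    change yb * (ρ i >>> w) + ya * ln w (ρ i) 0 = _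
    have h1 : ∀ j, ln w (ρ i / 2 ^ w) j = ln w (ρ i) (j + 1) := fun j => by
      rw [ln_eq, ln_eq, Nat.div_div_eq_div_mul, ← pow_succ']
    rw [Nat.shiftRight_eq_div_pow,
      ← pk1_ln w (ρ i / 2 ^ w) J ((Nat.div_le_self _ _).trans_lt (h.lt i))]
    simp only [pk1, vpN, h1, add_mul, sum_add_distrib, mul_sum, mul_assoc, ite_mul, zero_mul,
      sum_ite_eq', mem_range, hJ, if_true, pow_zero, mul_one]
  rw [bigV, pkT_eq, rwd_eq, pk2]
  · simp only [zero_add, key]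
  · intro k hk
    rw [key]
    exact sum_eq_zero fun j _ => by rw [vpN_supp h ya yb k j (Or.inl hk), zero_mul]

/-- run the test `k i (row) (shifted row) (linear term) (row of X)` on all rows -/
noncomputable def run (w d I J xa xb : ℕ) (ρ : ℕ → ℕ) (k : ℕ → ℕ → ℕ → ℕ → ℕ → Bool)
    (X : ℕ) : Bool :=
  fB X fun X => spl (rwd w J) I (fun i c => fB (ρ i) fun r0 =>
    k i r0 (Nat.shiftLeft r0 w) (lpL xa xb (ρ (Nat.succ i)) r0 (pv ρ i)) c) d 0 X

theorem run_ok (h : Good w ρ I J) (hJ : 0 < J) (d xa xb : ℕ) (k : ℕ → ℕ → ℕ → ℕ → ℕ → Bool)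
    (c : NA) (hc : ∀ i < 2 * 2 ^ d, ∀ j < 2 * J, c i j < 2 ^ w) (hI : I ≤ 2 ^ d)
    (hr : run w d I J xa xb ρ k (pk2 (2 ^ w) (2 * J) (2 * 2 ^ d) (2 * J) c) = true)
    (i : ℕ) (hi : i < I) :
    k i (pk1 (2 ^ w) (2 * J) (ln w (ρ i))) (pk1 (2 ^ w) (2 * J) (shL w (ρ i)))
      (pk1 (2 ^ w) (2 * J) fun j =>
        lpL xa xb (ln w (ρ (i + 1)) j) (ln w (ρ i) j) (ln w (pv ρ i) j))
      (pk1 (2 ^ w) (2 * J) (c i)) = true := by
  rw [run, fB_eq] at hr
  have h1 := spl_ok _ _ _ _ _ _ hr i (by omega) (by omega)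
  simp only [fB_eq, zero_add] at h1
  have hm : ∀ r n, r < (2 ^ w) ^ J → J ≤ n → pk1 (2 ^ w) n (ln w r) = r := fun r n hr hn =>
    pk1_ln w r n (hr.trans_le (Nat.pow_le_pow_right (Nat.two_pow_pos w) hn))
  have e1 : pk1 (2 ^ w) (2 * J) (shL w (ρ i)) = Nat.shiftLeft (ρ i) w := by
    obtain ⟨n, hn⟩ : ∃ n, 2 * J = n + 1 := ⟨2 * J - 1, by omega⟩
    change _ = ρ i <<< w
    conv_rhs => rw [Nat.shiftLeft_eq, ← hm (ρ i) n (h.lt i) (by omega), pk1, sum_mul]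
    rw [hn, pk1, sum_range_succ']
    simp only [shL, Nat.rec_zero, zero_mul, add_zero, pow_succ, mul_assoc]
  have e2 : (pk1 (2 ^ w) (2 * J) fun j =>
      lpL xa xb (ln w (ρ (i + 1)) j) (ln w (ρ i) j) (ln w (pv ρ i) j)) =
      lpL xa xb (ρ (i + 1)) (ρ i) (pv ρ i) := by
    simp only [lpL]
    rw [← pk1_lin, hm _ _ (h.lt _) (by omega), hm _ _ (h.lt _) (by omega),
      hm _ _ (h.pv_lt _) (by omega)]
  rw [e1, e2, hm _ _ (h.lt _) (by omega)]
  rwa [rwd_eq, pk2, pk1_digit _ _ _ (fun k hk => pk1_lt _ _ _ (hc k hk)) i (by omega)] at h1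

end Pool.Agent.P.MP_8acafb_co.T3
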