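import Pool.Agent.P.MP_8acafb_co.T3Defs

namespace Pool.Agent.P.MP_8acafb_co.T3

open Finset

variable {α β : Type} {P Q : α → Prop} {m n : ℕ}

theorem Cnt.congr (h : Cnt P n) (hPQ : ∀ a, P a ↔ Q a) : Cnt Q n := by
  obtain ⟨F, h1, h2⟩ := h
  exact ⟨F, fun a => (h1 a).trans (hPQ a), h2⟩

theorem Cnt.unique (h : Cnt P m) (h' : Cnt P n) : m = n := by
  obtain ⟨F, h1, rfl⟩ := h
  obtain ⟨G, h3, rfl⟩ := h'
  rw [show F = G from Finset.ext fun a => (h1 a).trans (h3 a).symm]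

theorem Cnt.zero (h : ∀ a, ¬ P a) : Cnt P 0 := ⟨∅, fun a => by simp [h a], rfl⟩

theorem Cnt.one (a0 : α) (h : ∀ a, P a ↔ a = a0) : Cnt P 1 := ⟨{a0}, fun a => by simp [h a], rfl⟩

theorem Cnt.map (h : Cnt P n) (f : α → β) (hinj : ∀ a b, P a → P b → f a = f b → a = b) :
    Cnt (fun b => ∃ a, P a ∧ f a = b) n := by
  classical
  obtain ⟨F, h1, rfl⟩ := h
  refine ⟨F.image f, fun b => by simp [h1], card_image_of_injOn fun a ha b hb hab => ?_⟩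
  exact hinj a b ((h1 a).1 ha) ((h1 b).1 hb) hab

/-- transport along a bijection -/
theorem Cnt.bij {Q : β → Prop} (h : Cnt P n) (f : α → β)
    (hinj : ∀ a b, P a → P b → f a = f b → a = b) (hf : ∀ a, P a → Q (f a))
    (hs : ∀ b, Q b → ∃ a, P a ∧ f a = b) : Cnt Q n :=
  (h.map f hinj).congr fun b => ⟨fun ⟨a, ha, hb⟩ => hb ▸ hf a ha, hs b⟩

theorem Cnt.or (h : Cnt P m) (h' : Cnt Q n) (hd : ∀ a, P a → Q a → False) :
    Cnt (fun a => P a ∨ Q a) (m + n) := by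
  classical
  obtain ⟨F, h1, rfl⟩ := h
  obtain ⟨G, h3, rfl⟩ := h'
  refine ⟨F ∪ G, fun a => by simp [h1, h3], card_union_of_disjoint ?_⟩
  exact disjoint_left.2 fun a ha hb => hd a ((h1 a).1 ha) ((h3 a).1 hb)

theorem Cnt.fiber {ι : Type} (I : Finset ι) (g : α → ι) (n : ι → ℕ) (hI : ∀ a, P a → g a ∈ I)
    (h : ∀ i ∈ I, Cnt (fun a => P a ∧ g a = i) (n i)) : Cnt P (∑ i ∈ I, n i) := by
  classical
  choose! F hF hc using h
  refine ⟨I.biUnion F, fun a => ?_, ?_⟩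
  · rw [mem_biUnion]
    exact ⟨fun ⟨i, hi, ha⟩ => ((hF i hi a).1 ha).1,
      fun ha => ⟨g a, hI a ha, (hF _ (hI a ha) a).2 ⟨ha, rfl⟩⟩⟩
  · rw [card_biUnion, sum_congr rfl hc]
    intro i hi j hj hij
    exact disjoint_left.2 fun a ha hb =>
      hij (((hF i hi a).1 ha).2.symm.trans ((hF j hj a).1 hb).2)

theorem Cnt.prod {Q : α → β → Prop} (h : Cnt P m) (h' : ∀ a, P a → Cnt (Q a) n) :
    Cnt (fun p : α × β => P p.1 ∧ Q p.1 p.2) (m * n) := by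
  obtain ⟨F, h1, rfl⟩ := h
  have := Cnt.fiber (P := fun p : α × β => P p.1 ∧ Q p.1 p.2) F Prod.fst (fun _ => n)
    (fun p hp => (h1 _).2 hp.1) fun a ha => by
      refine (h' a ((h1 a).1 ha)).bij (fun b => (a, b)) (fun b c _ _ hbc => by simpa using hbc)
        (fun b hb => ⟨⟨(h1 a).1 ha, hb⟩, rfl⟩) ?_
      rintro ⟨a', b⟩ ⟨⟨_, hb⟩, rfl⟩
      exact ⟨b, hb, rfl⟩
  simpa using this

end Pool.Agent.P.MP_8acafb_co.T3
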