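import Pool.Agent.P.MP_8acafb_co.Basic

namespace Pool.Agent.P.MP_8acafb_co.T3

open Finset

/-- exactly `n` objects satisfy `P` -/
def Cnt {α : Type} (P : α → Prop) (n : ℕ) : Prop :=
  ∃ F : Finset α, (∀ a, a ∈ F ↔ P a) ∧ F.card = n

/-- labelled binary trees -/
inductive Tr where
  | nil : Tr
  | node : Tr → ℕ → Tr → Tr

/-- shapes of binary trees -/
inductive Sp where
  | nil : Sp
  | node : Sp → Sp → Sp

def Tr.sp : Tr → Sp
  | .nil => .nil
  | .node l _ r => .node l.sp r.sp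

/-- in-order reading -/
def Tr.ino : Tr → List ℕ
  | .nil => []
  | .node l v r => l.ino ++ v :: r.ino

/-- post-order reading -/
def Tr.post : Tr → List ℕ
  | .nil => []
  | .node l v r => l.post ++ r.post ++ [v]

/-- decreasing trees -/
def Tr.dec : Tr → Prop
  | .nil => True
  | .node l v r => l.dec ∧ r.dec ∧ (∀ x ∈ l.post, x < v) ∧ (∀ x ∈ r.post, x < v)

def Sp.size : Sp → ℕ
  | .nil => 0
  | .node l r => l.size + r.size + 1

def Sp.isN : Sp → ℕ
  | .nil => 1
  | .node _ _ => 0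

/-- concatenated post-order readings; the head of the list is the last tree -/
def cat : List Tr → List ℕ
  | [] => []
  | T :: F => cat F ++ T.post

/-- `F` is a list of `k` nonempty decreasing trees with concatenated reading `w` -/
def Fo (w : List ℕ) (k : ℕ) (F : List Tr) : Prop :=
  F.length = k ∧ (∀ T ∈ F, T ≠ .nil ∧ T.dec) ∧ cat F = w

def cv (f g : ℕ → ℕ) (k : ℕ) : ℕ := ∑ p ∈ antidiagonal k, f p.1 * g p.2

def opA (f : ℕ → ℕ) : ℕ → ℕ
  | 0 => 0
  | k + 1 => f k + 2 * f (k + 1) + f (k + 2)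

def A : Sp → ℕ → ℕ
  | .nil => fun k => if k = 0 then 1 else 0
  | .node l r => cv (opA (A l)) (A r)

def vB (f : ℕ → ℕ) (b : ℕ) : ℕ := f (b + 1) + if b = 0 then f 0 else 0

def B : Sp → ℕ → ℕ
  | .nil => fun _ => 0
  | .node l r => fun m => ∑ j ∈ range (m + 1),
      (l.isN * r.isN * (if j = 0 then 1 else 0) + r.isN * B l j + l.isN * B r j
        + cv (B l) (vB (B r)) j)

/-- number of pairs (tree of the shape, initial stack of size `m`) with final stack of size `u` -/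
def N : Sp → ℕ → ℕ → ℕ
  | .nil, u, m => if u = m then 1 else 0
  | .node l r, u, m => if 1 ≤ u ∧ u ≤ m + 1 then B (.node l r) (m + 1 - u) else 0

/-- reading the tree `p.1` from the stack `p.2` outputs `c, ..., c+e-1` and leaves the stack `U` -/
def Yp (S : Sp) (c e : ℕ) (U : List ℕ) (m : ℕ) (p : Tr × List ℕ) : Prop :=
  p.1.sp = S ∧ p.1.dec ∧ p.2.length = m ∧ p.2.Pairwise (· < ·) ∧
    out p.2 p.1.post = List.range' c e ∧ stk p.2 p.1.post = U

open Classical in
/-- shapes of height at most `n` -/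
noncomputable def HT : ℕ → Finset Sp
  | 0 => {.nil}
  | n + 1 => insert .nil ((HT n ×ˢ HT n).image fun p => .node p.1 p.2)

/-- real arrays -/
abbrev Ar := ℕ → ℕ → ℝ

def sh (y : ℝ) (f : Ar) : Ar
  | _, 0 => 0
  | i, j + 1 => y * f i j

def dn (f : Ar) : Ar
  | 0, _ => 0
  | i + 1, j => f i j

def Uo (x : ℝ) (f : Ar) : Ar
  | 0, _ => 0
  | i + 1, j => f (i + 1) j + 2 * x * f i j + x ^ 2 * dn f i j

noncomputable def Vo (y : ℝ) (f : Ar) : Ar :=
  fun i j => f i (j + 1) / y + if j = 0 then f i 0 else 0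

noncomputable def Lin (x : ℝ) (f : Ar) : Ar :=
  fun i j => f (i + 1) j / x + 2 * f i j + 2 * x * dn f i j

def cv2 (f g : Ar) : Ar :=
  fun i j => ∑ p ∈ antidiagonal i, ∑ q ∈ antidiagonal j, f p.1 q.1 * g p.2 q.2

def del : Ar := fun i j => if i = 0 ∧ j = 0 then 1 else 0

noncomputable def R (x y : ℝ) (f : Ar) : Ar :=
  fun i j => del i j + Lin x f i j + cv2 (Uo x f) (Vo y f) i j

noncomputable def Lam (x y : ℝ) (P d : Ar) : Ar :=
  fun i j => Lin x d i j + cv2 (Uo x P) (Vo y d) i j + cv2 (Uo x d) (Vo y P) i j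

/-- weight array of one shape -/
def gs (x y z : ℝ) (S : Sp) : Ar :=
  fun i j => z ^ S.size * ((A S (i + 1) : ℝ) * x ^ i) * ((B S j : ℝ) * y ^ j)

noncomputable def GG (x y z : ℝ) (n : ℕ) : Ar := fun i j => ∑ S ∈ HT n, gs x y z S i j

/-- the iteration `G 0 = 0`, `G (n+1) = sh G (n+1) + z R (G n)` of nonnegative arrays -/
structure Iter (x y z : ℝ) (G : ℕ → Ar) : Prop where
  zero : ∀ i j, G 0 i j = 0
  succ : ∀ n i j, G (n + 1) i j = sh y (G (n + 1)) i j + z * R x y (G n) i j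
  nonneg : ∀ n i j, 0 ≤ G n i j

/-- nonnegative arrays that vanish outside a box -/
structure Box (I J : ℕ) (P : Ar) : Prop where
  nonneg : ∀ i j, 0 ≤ P i j
  supp : ∀ i j, I ≤ i ∨ J ≤ j → P i j = 0

/-- sum over a square -/
def nm (M : ℕ) (f : Ar) : ℝ := ∑ i ∈ range M, ∑ j ∈ range M, f i j

end Pool.Agent.P.MP_8acafb_co.T3
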