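import Pool.Agent.P.MP_8acafb_co.T3Defs

namespace Pool.Agent.P.MP_8acafb_co.T3

open Finset

theorem post_perm (T : Tr) : T.post.Perm T.ino := by
  induction T with
  | nil => exact List.Perm.refl _
  | node l v r ihl ihr =>
    simp only [Tr.post, Tr.ino]
    rw [List.append_assoc]
    exact ihl.append ((List.perm_append_singleton v r.post).trans (ihr.cons v))

theorem length_post (T : Tr) : T.post.length = T.sp.size := by
  induction T with
  | nil => rfl
  | node l v r ihl ihr =>
    simp only [Tr.post, Tr.sp, Sp.size, List.length_append, ihl, ihr, List.length_singleton]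

theorem tree_ino_lt {l r : Tr} {v : ℕ} (h : (Tr.node l v r).dec) :
    (∀ x ∈ l.ino, x < v) ∧ (∀ x ∈ r.ino, x < v) :=
  ⟨fun x hx => h.2.2.1 x ((post_perm l).symm.subset hx),
    fun x hx => h.2.2.2 x ((post_perm r).symm.subset hx)⟩

theorem s_ino (T : Tr) (h : T.dec) : s T.ino = T.post := by
  induction T with
  | nil => rfl
  | node l v r ihl ihr =>
    have h1 := tree_ino_lt h
    simp only [Tr.post, Tr.ino]
    rw [s_rec _ _ _ h1.1 h1.2, ihl h.1, ihr h.2.1]

theorem tree_le_root {l r : Tr} {v : ℕ} (h : (Tr.node l v r).dec) :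
    ∀ x ∈ (Tr.node l v r).ino, x ≤ v := by
  have h1 := tree_ino_lt h
  intro x hx
  simp only [Tr.ino, List.mem_append, List.mem_cons] at hx
  rcases hx with hx | rfl | hx
  · exact (h1.1 x hx).le
  · exact le_rfl
  · exact (h1.2 x hx).le

theorem ino_inj (T T' : Tr) (h : T.dec) (h' : T'.dec) (he : T.ino = T'.ino) : T = T' := by
  induction T generalizing T' with
  | nil =>
    cases T' with
    | nil => rfl
    | node l' v' r' => simp [Tr.ino] at he
  | node l v r ihl ihr =>
    cases T' with
    | nil => simp [Tr.ino] at he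
    | node l' v' r' =>
      have h1 : v ≤ v' := tree_le_root h' v (by rw [← he]; simp [Tr.ino])
      have h2 : v' ≤ v := tree_le_root h v' (by rw [he]; simp [Tr.ino])
      have h3 : v = v' := le_antisymm h1 h2
      subst h3
      have h4 := tree_ino_lt h
      have h5 : v ∉ l.ino := fun hx => lt_irrefl _ (h4.1 v hx)
      have h6 : v ∉ r.ino := fun hx => lt_irrefl _ (h4.2 v hx)
      simp only [Tr.ino] at he
      obtain ⟨e1, -, e2⟩ := (List.append_cons_inj_of_notMem h5 h6).1 he
      rw [ihl l' h.1 h'.1 e1, ihr r' h.2.1 h'.2.1 e2]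

theorem ex_ino (w : List ℕ) (h : w.Nodup) : ∃ T : Tr, T.dec ∧ T.ino = w := by
  induction hn : w.length using Nat.strong_induction_on generalizing w with
  | _ n ih =>
    by_cases hw : w = []
    · exact ⟨.nil, trivial, hw.symm⟩
    · obtain ⟨v, hv, hmax⟩ := w.toFinset.exists_max_image id
        (by simpa [List.toFinset_nonempty_iff] using hw)
      have hv' : v ∈ w := List.mem_toFinset.1 hv
      have hmax' : ∀ x ∈ w, x ≤ v := fun x hx => hmax x (List.mem_toFinset.2 hx)
      obtain ⟨a, b, rfl⟩ := List.append_of_mem hv'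
      rw [List.nodup_append] at h
      obtain ⟨ha, hb, hab⟩ := h
      rw [List.nodup_cons] at hb
      have hlen : a.length + b.length + 1 = n := by
        rw [← hn, List.length_append, List.length_cons]
        omega
      obtain ⟨l, hl, rfl⟩ := ih a.length (by omega) a ha rfl
      obtain ⟨r, hr, rfl⟩ := ih b.length (by omega) b hb.2 rfl
      refine ⟨.node l v r, ⟨hl, hr, fun x hx => ?_, fun x hx => ?_⟩, rfl⟩
      · have hx' := (post_perm l).subset hx
        exact lt_of_le_of_ne (hmax' x (by simp [hx'])) (hab x hx' v (by simp))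
      · have hx' := (post_perm r).subset hx
        exact lt_of_le_of_ne (hmax' x (by simp [hx'])) (fun e => hb.1 (e ▸ hx'))

theorem stk_append (a b : List ℕ) : ∀ st, stk st (a ++ b) = stk (stk st a) b := by
  induction a with
  | nil => intro st; rfl
  | cons x a ih => intro st; simp [stk, ih]

theorem os_perm (w st : List ℕ) : (out st w ++ stk st w).Perm (st ++ w) := by
  rw [← pass_eq]
  exact pass_perm w st

theorem os_big (w : List ℕ) : ∀ a b : List ℕ, (∀ x ∈ w, ∀ y ∈ b, ¬ y < x) →
    out (a ++ b) w = out a w ∧ stk (a ++ b) w = stk a w ++ b := by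
  induction w with
  | nil => intro a b _; exact ⟨rfl, rfl⟩
  | cons x R ih =>
    intro a b h
    have h1 := takeWhile_append_big x a b (h x (by simp))
    have h2 := ih (x :: a.dropWhile (· < x)) b (fun z hz => h z (by simp [hz]))
    simp only [out, stk, h1.1, h1.2]
    rw [← List.cons_append, h2.1, h2.2]
    exact ⟨rfl, rfl⟩

/-- reading a decreasing tree pops the entries below its root and leaves only the root -/
theorem os_node (l r : Tr) (v : ℕ) (h : (Tr.node l v r).dec) (O : List ℕ)
    (hO : O.Pairwise (· < ·)) :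
    out O (Tr.node l v r).post = out (O.takeWhile (· < v)) (Tr.node l v r).post ∧
      stk O (Tr.node l v r).post = v :: O.dropWhile (· < v) := by
  have hO' : O.Pairwise (· ≤ ·) := hO.imp le_of_lt
  have h1 := os_big (Tr.node l v r).post (O.takeWhile (· < v)) (O.dropWhile (· < v)) (by
    intro x hx y hy hlt
    have h2 := tree_le_root h x ((post_perm _).subset hx)
    exact ((mem_takeWhile_sorted v O hO' y).2.1 hy).2 (hlt.trans_le h2))
  rw [List.takeWhile_append_dropWhile] at h1
  refine ⟨h1.1, ?_⟩
  rw [h1.2]
  have h3 : (stk (O.takeWhile (· < v)) (l.post ++ r.post)).dropWhile (· < v) = [] := by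
    rw [List.dropWhile_eq_nil_iff]
    intro x hx
    have h4 := (os_perm (l.post ++ r.post) (O.takeWhile (· < v))).subset
      (List.mem_append_right _ hx)
    rcases List.mem_append.1 h4 with h5 | h5
    · exact decide_eq_true ((mem_takeWhile_sorted v O hO' x).1.1 h5).2
    · rcases List.mem_append.1 h5 with h6 | h6
      · exact decide_eq_true (h.2.2.1 x h6)
      · exact decide_eq_true (h.2.2.2 x h6)
  simp only [Tr.post]
  rw [stk_append]
  simp only [stk, h3, List.cons_append, List.nil_append]

theorem length_stk (T : Tr) (h : T.dec) (O : List ℕ) (hO : O.Pairwise (· < ·)) :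
    (stk O T.post).length ≤ O.length + 1 := by
  cases T with
  | nil => simp [Tr.post, stk]
  | node l v r =>
    rw [(os_node l r v h O hO).2, List.length_cons]
    have := (List.dropWhile_sublist (l := O) (· < v)).length_le
    omega

end Pool.Agent.P.MP_8acafb_co.T3
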