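import Pool.Agent.P.MP_8acafb_co.T3Cnt
import Pool.Agent.P.MP_8acafb_co.T3Tree

namespace Pool.Agent.P.MP_8acafb_co.T3

open Finset

theorem for_post_ne {T : Tr} (h : T ≠ .nil) : T.post ≠ [] := by
  cases T with
  | nil => exact absurd rfl h
  | node l v r => simp [Tr.post]

theorem for_cat_nil {F : List Tr} (h : ∀ T ∈ F, T ≠ .nil ∧ T.dec) (hc : cat F = []) : F = [] := by
  cases F with
  | nil => rfl
  | cons T F =>
    simp only [cat, List.append_eq_nil_iff] at hc
    exact absurd hc.2 (for_post_ne (h T (by simp)).1)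

theorem for_cat_append (F G : List Tr) : cat (F ++ G) = cat G ++ cat F := by
  induction F with
  | nil => simp [cat]
  | cons T F ih => simp [cat, ih]

theorem for_cons {w : List ℕ} {k : ℕ} {T : Tr} {F : List Tr} :
    Fo w (k + 1) (T :: F) ↔ T ≠ .nil ∧ T.dec ∧ Fo (cat F) k F ∧ cat F ++ T.post = w := by
  simp only [Fo, List.length_cons, Nat.add_right_cancel_iff, List.forall_mem_cons, cat, and_true]
  tauto

theorem for_ex {w : List ℕ} {k : ℕ} {F : List Tr} (h : Fo w (k + 1) F) :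
    ∃ T F', F = T :: F' := by
  cases F with
  | nil => simp [Fo] at h
  | cons T F => exact ⟨T, F, rfl⟩

theorem for_self {w : List ℕ} {k : ℕ} {F : List Tr} (h : Fo w k F) : Fo (cat F) k F :=
  ⟨h.1, h.2.1, rfl⟩

theorem Fo_nil (k : ℕ) : Cnt (Fo [] k) (if k = 0 then 1 else 0) := by
  split_ifs with hk
  · subst hk
    refine Cnt.one [] fun F => ⟨fun h => for_cat_nil h.2.1 h.2.2, ?_⟩
    rintro rfl
    simp [Fo, cat]
  · refine Cnt.zero fun F h => hk ?_
    have := for_cat_nil h.2.1 h.2.2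
    rw [← h.1, this]; rfl

theorem for_node {w : List ℕ} {v : ℕ} (hw : ∀ x ∈ w, x < v) {k : ℕ} {l r : Tr} {u : ℕ}
    {F : List Tr} : Fo (w ++ [v]) (k + 1) (.node l u r :: F) ↔
      u = v ∧ l.dec ∧ r.dec ∧ Fo (cat F) k F ∧ cat F ++ l.post ++ r.post = w := by
  rw [for_cons]
  simp only [Tr.post, Tr.dec, ← List.append_assoc]
  constructor
  · rintro ⟨-, ⟨h1, h2, -, -⟩, h3, h4⟩
    obtain ⟨h5, h6⟩ := List.append_inj' h4 rfl
    exact ⟨by simpa using h6, h1, h2, h3, h5⟩
  · rintro ⟨rfl, h1, h2, h3, rfl⟩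
    exact ⟨by simp, ⟨h1, h2, fun x hx => hw x (by simp [hx]), fun x hx => hw x (by simp [hx])⟩,
      h3, rfl⟩

theorem Fo_op (w : List ℕ) (v : ℕ) (hw : ∀ x ∈ w, x < v) (f : ℕ → ℕ)
    (h : ∀ k, Cnt (Fo w k) (f k)) (k : ℕ) : Cnt (Fo (w ++ [v]) k) (opA f k) := by
  cases k with
  | zero =>
    refine Cnt.zero fun F hF => ?_
    have h1 : F = [] := List.length_eq_zero_iff.1 hF.1
    have h2 := hF.2.2
    simp [h1, cat] at h2
  | succ k =>
    have c1 : Cnt (fun b => ∃ F, b = Tr.node .nil v .nil :: F ∧ Fo w k F) (f k) :=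
      (h k).bij (fun a => Tr.node .nil v .nil :: a) (fun a b _ _ hab => by simpa using hab)
        (fun a ha => ⟨a, rfl, ha⟩) (fun b ⟨F, h1, h2⟩ => ⟨F, h2, h1.symm⟩)
    have c2 : Cnt (fun b => ∃ T F, b = Tr.node T v .nil :: F ∧ Fo w (k + 1) (T :: F))
        (f (k + 1)) := by
      refine (h (k + 1)).bij (fun a => Tr.node (a.headD .nil) v .nil :: a.tail) ?_ ?_ ?_
      · intro a b ha hb hab
        obtain ⟨T, F, rfl⟩ := for_ex ha
        obtain ⟨T', F', rfl⟩ := for_ex hb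
        simpa using hab
      · intro a ha
        obtain ⟨T, F, rfl⟩ := for_ex ha
        exact ⟨T, F, rfl, ha⟩
      · rintro b ⟨T, F, rfl, h2⟩
        exact ⟨T :: F, h2, rfl⟩
    have c3 : Cnt (fun b => ∃ T F, b = Tr.node .nil v T :: F ∧ Fo w (k + 1) (T :: F))
        (f (k + 1)) := by
      refine (h (k + 1)).bij (fun a => Tr.node .nil v (a.headD .nil) :: a.tail) ?_ ?_ ?_
      · intro a b ha hb hab
        obtain ⟨T, F, rfl⟩ := for_ex ha
        obtain ⟨T', F', rfl⟩ := for_ex hb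
        simpa using hab
      · intro a ha
        obtain ⟨T, F, rfl⟩ := for_ex ha
        exact ⟨T, F, rfl, ha⟩
      · rintro b ⟨T, F, rfl, h2⟩
        exact ⟨T :: F, h2, rfl⟩
    have c4 : Cnt (fun b => ∃ l r F, b = Tr.node l v r :: F ∧ Fo w (k + 2) (r :: l :: F))
        (f (k + 2)) := by
      refine (h (k + 2)).bij
        (fun a => Tr.node (a.tail.headD .nil) v (a.headD .nil) :: a.tail.tail) ?_ ?_ ?_
      · intro a b ha hb hab
        obtain ⟨T, F, rfl⟩ := for_ex ha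
        obtain ⟨T', F', rfl⟩ := for_ex hb
        obtain ⟨S, G, rfl⟩ := for_ex (for_cons.1 ha).2.2.1
        obtain ⟨S', G', rfl⟩ := for_ex (for_cons.1 hb).2.2.1
        simp only [List.tail_cons, List.headD_cons, List.cons.injEq, Tr.node.injEq] at hab
        simp [hab.1.1, hab.1.2.2, hab.2]
      · intro a ha
        obtain ⟨T, F, rfl⟩ := for_ex ha
        obtain ⟨S, G, rfl⟩ := for_ex (for_cons.1 ha).2.2.1
        exact ⟨S, T, G, rfl, ha⟩
      · rintro b ⟨l, r, F, rfl, h2⟩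
        exact ⟨r :: l :: F, h2, rfl⟩
    have c12 := c1.or c2 (by
      rintro b ⟨F, rfl, -⟩ ⟨T, F', h1, h2⟩
      simp only [List.cons.injEq, Tr.node.injEq] at h1
      exact (for_cons.1 h2).1 h1.1.1.symm)
    have c123 := c12.or c3 (by
      rintro b (⟨F, rfl, -⟩ | ⟨S, F, rfl, -⟩) ⟨T, F', h1, h2⟩ <;>
      · simp only [List.cons.injEq, Tr.node.injEq] at h1
        exact (for_cons.1 h2).1 h1.1.2.2.symm)
    have c1234 := c123.or c4 (by
      rintro b ((⟨F, rfl, -⟩ | ⟨S, F, rfl, -⟩) | ⟨S, F, rfl, -⟩) ⟨l, r, F', h1, h2⟩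
      · simp only [List.cons.injEq, Tr.node.injEq] at h1
        exact (for_cons.1 h2).1 h1.1.2.2.symm
      · simp only [List.cons.injEq, Tr.node.injEq] at h1
        exact (for_cons.1 h2).1 h1.1.2.2.symm
      · simp only [List.cons.injEq, Tr.node.injEq] at h1
        exact (for_cons.1 (for_cons.1 h2).2.2.1).1 h1.1.1.symm)
    have e : opA f (k + 1) = f k + f (k + 1) + f (k + 1) + f (k + 2) := by
      simp only [opA]; ring
    rw [e]
    refine c1234.congr fun b => ⟨?_, fun hb => ?_⟩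
    · rintro (((⟨F, rfl, h2⟩ | ⟨T, F, rfl, h2⟩) | ⟨T, F, rfl, h2⟩) | ⟨l, r, F, rfl, h2⟩)
      · exact (for_node hw).2 ⟨rfl, trivial, trivial, for_self h2, by simpa [Tr.post] using h2.2.2⟩
      · obtain ⟨-, h3, h4, h5⟩ := for_cons.1 h2
        exact (for_node hw).2 ⟨rfl, h3, trivial, h4, by simpa [Tr.post] using h5⟩
      · obtain ⟨-, h3, h4, h5⟩ := for_cons.1 h2
        exact (for_node hw).2 ⟨rfl, trivial, h3, h4, by simpa [Tr.post] using h5⟩
      · obtain ⟨-, h3, h4, h5⟩ := for_cons.1 h2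
        obtain ⟨-, h6, h7, -⟩ := for_cons.1 h4
        exact (for_node hw).2 ⟨rfl, h6, h3, h7, h5⟩
    · obtain ⟨T, F, rfl⟩ := for_ex hb
      cases T with
      | nil => exact absurd rfl (for_cons.1 hb).1
      | node l u r =>
        obtain ⟨rfl, h1, h2, h3, h4⟩ := (for_node hw).1 hb
        by_cases hl : l = .nil <;> by_cases hr : r = .nil
        · subst hl hr
          refine Or.inl (Or.inl (Or.inl ⟨F, rfl, h3.1, h3.2.1, ?_⟩))
          simpa [Tr.post] using h4
        · subst hl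
          exact Or.inl (Or.inr ⟨r, F, rfl,
            for_cons.2 ⟨hr, h2, h3, by simpa [Tr.post] using h4⟩⟩)
        · subst hr
          exact Or.inl (Or.inl (Or.inr ⟨l, F, rfl,
            for_cons.2 ⟨hl, h1, h3, by simpa [Tr.post] using h4⟩⟩))
        · exact Or.inr ⟨l, r, F, rfl,
            for_cons.2 ⟨hr, h2, for_cons.2 ⟨hl, h1, h3, rfl⟩, h4⟩⟩

theorem for_cut (w1 : List ℕ) (v : ℕ) (F : List Tr) (hF : ∀ T ∈ F, T ≠ .nil ∧ T.dec) :
    ∀ w2 : List ℕ, (∀ x ∈ w2, x < v) → cat F = w1 ++ v :: w2 →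
      ∃ F1 F2, F = F2 ++ F1 ∧ cat F1 = w1 ++ [v] ∧ cat F2 = w2 := by
  induction F with
  | nil => intro w2 _ hc; simp [cat] at hc
  | cons T F ih =>
    intro w2 h2 hc
    rcases List.eq_nil_or_concat w2 with rfl | ⟨w3, u, rfl⟩
    · exact ⟨T :: F, [], rfl, hc, rfl⟩
    · obtain ⟨hT, hd⟩ := hF T (by simp)
      cases T with
      | nil => exact absurd rfl hT
      | node a u' b =>
        have hc' : (cat F ++ (a.post ++ b.post)) ++ [u'] = (w1 ++ v :: w3) ++ [u] := by
          simpa [cat, Tr.post] using hc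
        obtain ⟨h5, h6⟩ := List.append_inj' hc' rfl
        obtain rfl : u' = u := by simpa using h6
        have hu : u' < v := h2 u' (by simp)
        have hv : v ∉ a.post ++ b.post := by
          intro hv
          rcases List.mem_append.1 hv with hv | hv
          · exact absurd (hd.2.2.1 v hv) (by omega)
          · exact absurd (hd.2.2.2 v hv) (by omega)
        have h7 : ∃ w4, cat F = w1 ++ v :: w4 ∧ w3 = w4 ++ (a.post ++ b.post) := by
          rcases List.append_eq_append_iff.1 h5 with ⟨x, -, hx⟩ | ⟨x, hx1, hx2⟩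
          · exact absurd (by rw [hx]; simp) hv
          · cases x with
            | nil => exact absurd (by rw [List.nil_append] at hx2; rw [← hx2]; simp) hv
            | cons y x =>
              simp only [List.cons_append, List.cons.injEq] at hx2
              exact ⟨x, by rw [hx1, hx2.1], hx2.2⟩
        obtain ⟨w4, h8, rfl⟩ := h7
        obtain ⟨F1, F2, rfl, h9, h10⟩ := ih (fun T hT => hF T (by simp [hT])) w4
          (fun x hx => h2 x (by simp [hx])) h8
        exact ⟨F1, .node a u' b :: F2, rfl, h9, by simp [cat, Tr.post, h10]⟩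

theorem Fo_split (w1 : List ℕ) (v : ℕ) (w2 : List ℕ) (h2 : ∀ x ∈ w2, x < v) (g h : ℕ → ℕ)
    (hg : ∀ k, Cnt (Fo (w1 ++ [v]) k) (g k)) (hh : ∀ k, Cnt (Fo w2 k) (h k)) (k : ℕ) :
    Cnt (Fo (w1 ++ v :: w2) k) (cv g h k) := by
  have c : Cnt (fun p : List Tr × List Tr => Fo (w1 ++ [v]) p.1.length p.1 ∧
      Fo w2 p.2.length p.2 ∧ p.1.length + p.2.length = k) (cv g h k) := by
    refine Cnt.fiber (antidiagonal k) (fun p => (p.1.length, p.2.length)) _
      (fun p hp => mem_antidiagonal.2 hp.2.2) fun i hi => ?_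
    refine ((hg i.1).prod (Q := fun _ => Fo w2 i.2) fun _ _ => hh i.2).congr fun p => ?_
    constructor
    · rintro ⟨h3, h4⟩
      have e1 := h3.1
      have e2 := h4.1
      refine ⟨⟨e1 ▸ h3, e2 ▸ h4, ?_⟩, Prod.ext e1 e2⟩
      rw [e1, e2]
      exact mem_antidiagonal.1 hi
    · rintro ⟨⟨h3, h4, -⟩, rfl⟩
      exact ⟨h3, h4⟩
  refine c.bij (fun p => p.2 ++ p.1) ?_ ?_ ?_
  · rintro ⟨F1, F2⟩ ⟨G1, G2⟩ ⟨a1, a2, -⟩ ⟨b1, b2, -⟩ hab
    have key : ∀ {X Y E : List Tr}, Fo w2 X.length X → Fo w2 Y.length Y → Y = X ++ E → E = [] := by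
      intro X Y E hX hY hE
      have h3 := hY.2.2
      rw [hE, for_cat_append, hX.2.2] at h3
      exact for_cat_nil (fun T hT => hY.2.1 T (by simp [hE, hT])) (by simpa using h3)
    rcases List.append_eq_append_iff.1 hab with ⟨E, h3, h4⟩ | ⟨E, h3, h4⟩
    · obtain rfl := key a2 b2 h3
      simp only [List.append_nil, List.nil_append] at h3 h4
      exact Prod.ext h4 h3.symm
    · obtain rfl := key b2 a2 h3
      simp only [List.append_nil, List.nil_append] at h3 h4
      exact Prod.ext h4.symm h3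
  · rintro ⟨F1, F2⟩ ⟨a1, a2, a3⟩
    refine ⟨by rw [List.length_append, add_comm]; exact a3, fun T hT => ?_, ?_⟩
    · rcases List.mem_append.1 hT with hT | hT
      · exact a2.2.1 T hT
      · exact a1.2.1 T hT
    · rw [for_cat_append, a1.2.2, a2.2.2]
      simp
  · intro F hF
    obtain ⟨F1, F2, rfl, h3, h4⟩ := for_cut w1 v F hF.2.1 w2 h2 hF.2.2
    refine ⟨(F1, F2), ⟨⟨rfl, fun T hT => hF.2.1 T (by simp [hT]), h3⟩,
      ⟨rfl, fun T hT => hF.2.1 T (by simp [hT]), h4⟩, ?_⟩, rfl⟩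
    have := hF.1
    rw [List.length_append, add_comm] at this
    exact this

theorem Fo_cnt (T : Tr) (hT : T.dec) (k : ℕ) : Cnt (Fo T.ino k) (A T.sp k) := by
  induction T generalizing k with
  | nil => exact Fo_nil k
  | node l v r ihl ihr =>
    obtain ⟨h1, h2, h3, h4⟩ := hT
    exact Fo_split l.ino v r.ino (fun x hx => h4 x ((post_perm r).mem_iff.2 hx)) _ _
      (Fo_op l.ino v (fun x hx => h3 x ((post_perm l).mem_iff.2 hx)) _ (ihl h1)) (ihr h2) k

end Pool.Agent.P.MP_8acafb_co.T3
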