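import Pool.Agent.P.MP_8acafb_co.T3Mono

namespace Pool.Agent.P.MP_8acafb_co.T3

open Finset

theorem gs_nil (x y z : ℝ) (i j : ℕ) : gs x y z .nil i j = 0 := by
  simp [gs, B]

theorem g_nil_fun (x y z : ℝ) : gs x y z .nil = fun _ _ => 0 := by
  funext i j; exact gs_nil x y z i j

/-- the difference term of `B` -/
def gD (l r : Sp) (j : ℕ) : ℕ :=
  l.isN * r.isN * (if j = 0 then 1 else 0) + r.isN * B l j + l.isN * B r j
    + cv (B l) (vB (B r)) j

theorem g_step (x y z : ℝ) (l r : Sp) (i j : ℕ) :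
    gs x y z (.node l r) i j = sh y (gs x y z (.node l r)) i j +
      z * (z ^ l.size * z ^ r.size * ((A (.node l r) (i + 1) : ℝ) * x ^ i) *
        ((gD l r j : ℝ) * y ^ j)) := by
  cases j with
  | zero =>
    have h : B (.node l r) 0 = gD l r 0 := by simp [B, gD]
    simp only [gs, sh, h, Sp.size]; ring
  | succ j =>
    have h : B (.node l r) (j + 1) = B (.node l r) j + gD l r (j + 1) := by
      simp only [B, gD]; rw [sum_range_succ _ (j + 1)]
    simp only [gs, sh, h, Sp.size]; push_cast; ring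

theorem g_A0 (l r : Sp) : A (.node l r) 0 = 0 := by simp [A, cv, opA]

theorem g_Asucc (l r : Sp) (i : ℕ) : A (.node l r) (i + 1) =
    ∑ p ∈ antidiagonal i, opA (A l) p.1 * A r (p.2 + 1) + opA (A l) (i + 1) * A r 0 := by
  simp only [A, cv]
  rw [Finset.Nat.sum_antidiagonal_succ', add_comm]

theorem g_Arnil (l : Sp) (i : ℕ) : A (.node l .nil) (i + 1) = opA (A l) (i + 1) := by
  rw [g_Asucc]; simp [A]

theorem g_Alnil (r : Sp) (i : ℕ) : A (.node .nil r) (i + 1) = A r i := by
  have h : A (.node .nil r) (i + 1) = ∑ p ∈ antidiagonal (i + 1), opA (A .nil) p.1 * A r p.2 := rfl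
  rw [h, Finset.Nat.sum_antidiagonal_succ]
  cases i with
  | zero => simp [opA, A]
  | succ i => rw [Finset.Nat.sum_antidiagonal_succ]; simp [opA, A]

theorem g_Uo (x y z : ℝ) (a b : Sp) (p j : ℕ) : Uo x (gs x y z (.node a b)) p j =
    z ^ (Sp.node a b).size * ((opA (A (.node a b)) p : ℝ) * x ^ p) *
      ((B (.node a b) j : ℝ) * y ^ j) := by
  rcases p with _ | _ | p
  · simp [Uo, opA]
  · simp only [Uo, dn, gs, opA, g_A0]; push_cast; ring
  · simp only [Uo, dn, gs, opA]; push_cast; ring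

theorem g_Vo (x y z : ℝ) (hy : y ≠ 0) (r : Sp) (q b : ℕ) : Vo y (gs x y z r) q b =
    z ^ r.size * ((A r (q + 1) : ℝ) * x ^ q) * ((vB (B r) b : ℝ) * y ^ b) := by
  simp only [Vo, gs, vB]
  split_ifs with h
  · subst h; push_cast; field_simp
  · push_cast; field_simp; ring

theorem g_U0 (x : ℝ) (i j : ℕ) : Uo x (fun _ _ => (0 : ℝ)) i j = 0 := by
  rcases i with _ | _ | i <;> simp [Uo, dn]

theorem g_d0 (i j : ℕ) : dn (fun _ _ => (0 : ℝ)) i j = 0 := by cases i <;> simp [dn]

theorem gs_node (x y z : ℝ) (hx : x ≠ 0) (hy : y ≠ 0) (l r : Sp) (i j : ℕ) :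
    gs x y z (.node l r) i j = sh y (gs x y z (.node l r)) i j + z *
      ((l.isN : ℝ) * r.isN * del i j
        + r.isN * (gs x y z l (i + 1) j / x + 2 * gs x y z l i j + x * dn (gs x y z l) i j)
        + l.isN * (x * dn (gs x y z r) i j)
        + cv2 (Uo x (gs x y z l)) (Vo y (gs x y z r)) i j) := by
  rw [g_step]
  congr 2
  cases l with
  | nil =>
    rw [g_Alnil]
    cases r with
    | nil =>
      simp only [g_nil_fun, cv2, g_U0, g_d0, gD, Sp.isN, Sp.size, A, B, cv, del]
      by_cases hi : i = 0 <;> by_cases hj : j = 0 <;> simp [hi, hj]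
    | node a b =>
      have h : gD .nil (.node a b) j = B (.node a b) j := by
        simp only [gD, Sp.isN, cv]; simp [B]
      rw [h]
      simp only [g_nil_fun, cv2, g_U0, g_d0, Sp.isN]
      cases i with
      | zero => simp [dn, g_A0]
      | succ i => simp only [dn, gs, Sp.size]; simp; ring
  | node a b =>
    cases r with
    | nil =>
      have h : gD (.node a b) .nil j = B (.node a b) j := by
        simp only [gD, Sp.isN, cv, vB]; simp [B]
      rw [h, g_Arnil]
      simp only [g_nil_fun, cv2, Vo, Sp.isN]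
      cases i with
      | zero => simp only [dn, gs, opA, g_A0, Sp.size]; simp; field_simp; ring
      | succ i => simp only [dn, gs, opA, Sp.size]; simp; field_simp; ring
    | node c d =>
      have h : gD (.node a b) (.node c d) j = cv (B (.node a b)) (vB (B (.node c d))) j := by
        simp only [gD, Sp.isN]; simp
      rw [h, g_Asucc, g_A0]
      simp only [cv2, g_Uo, g_Vo x y z hy, Sp.isN, cv]
      push_cast
      simp only [mul_zero, add_zero, zero_mul, zero_add, sum_mul, mul_sum]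
      rw [sum_comm]
      refine sum_congr rfl fun p hp => sum_congr rfl fun q hq => ?_
      rw [← mem_antidiagonal.1 hp, ← mem_antidiagonal.1 hq]
      ring

theorem g_sh_sum (y : ℝ) {α : Type} (F : Finset α) (f : α → Ar) (i j : ℕ) :
    sh y (fun i j => ∑ a ∈ F, f a i j) i j = ∑ a ∈ F, sh y (f a) i j := by
  cases j <;> simp [sh, mul_sum]

theorem g_dn_sum {α : Type} (F : Finset α) (f : α → Ar) (i j : ℕ) :
    dn (fun i j => ∑ a ∈ F, f a i j) i j = ∑ a ∈ F, dn (f a) i j := by
  cases i <;> simp [dn]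

theorem g_Uo_sum (x : ℝ) {α : Type} (F : Finset α) (f : α → Ar) (i j : ℕ) :
    Uo x (fun i j => ∑ a ∈ F, f a i j) i j = ∑ a ∈ F, Uo x (f a) i j := by
  cases i with
  | zero => simp [Uo]
  | succ i => simp only [Uo, g_dn_sum, mul_sum, sum_add_distrib]

theorem g_Vo_sum (y : ℝ) {α : Type} (F : Finset α) (f : α → Ar) (i j : ℕ) :
    Vo y (fun i j => ∑ a ∈ F, f a i j) i j = ∑ a ∈ F, Vo y (f a) i j := by
  simp only [Vo, sum_add_distrib, sum_div]
  split_ifs <;> simp

theorem g_HT_sum (n : ℕ) (f : Sp → ℝ) :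
    ∑ S ∈ HT (n + 1), f S = f .nil + ∑ l ∈ HT n, ∑ r ∈ HT n, f (.node l r) := by
  classical
  rw [HT, sum_insert (by simp), sum_image (by
    rintro ⟨a, b⟩ _ ⟨c, d⟩ _ h
    simp only [Sp.node.injEq] at h
    exact Prod.ext h.1 h.2), sum_product]

theorem g_isN (n : ℕ) : ∑ S ∈ HT n, (S.isN : ℝ) = 1 := by
  cases n with
  | zero => simp [HT, Sp.isN]
  | succ n => rw [g_HT_sum]; simp [Sp.isN]

theorem g_cv2_sum (x y : ℝ) (F : Finset Sp) (f : Sp → Ar) (i j : ℕ) :
    cv2 (Uo x fun i j => ∑ a ∈ F, f a i j) (Vo y fun i j => ∑ a ∈ F, f a i j) i j =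
      ∑ l ∈ F, ∑ r ∈ F, cv2 (Uo x (f l)) (Vo y (f r)) i j := by
  simp only [cv2, g_Uo_sum, g_Vo_sum, sum_mul_sum]
  calc _ = ∑ p ∈ antidiagonal i, ∑ l ∈ F, ∑ r ∈ F, ∑ q ∈ antidiagonal j,
        Uo x (f l) p.1 q.1 * Vo y (f r) p.2 q.2 := by
        refine sum_congr rfl fun p _ => ?_
        rw [sum_comm]
        exact sum_congr rfl fun l _ => sum_comm
    _ = _ := by
        rw [sum_comm]
        exact sum_congr rfl fun l _ => sum_comm

theorem GG_iter (x y z : ℝ) (hx : 0 < x) (hy : 0 < y) (hz : 0 ≤ z) :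
    Iter x y z (GG x y z) := by
  refine ⟨fun i j => by simp [GG, HT, gs_nil], fun n i j => ?_, fun n i j => ?_⟩
  · have h1 : sh y (GG x y z (n + 1)) i j =
        ∑ l ∈ HT n, ∑ r ∈ HT n, sh y (gs x y z (.node l r)) i j := by
      have := g_sh_sum y (HT (n + 1)) (gs x y z) i j
      rw [g_HT_sum n (fun S => sh y (gs x y z S) i j)] at this
      refine this.trans ?_
      rw [g_nil_fun]
      cases j <;> simp [sh]
    have h2 : GG x y z (n + 1) i j = ∑ l ∈ HT n, ∑ r ∈ HT n, gs x y z (.node l r) i j := by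
      have := g_HT_sum n (fun S => gs x y z S i j)
      rw [gs_nil, zero_add] at this
      exact this
    have h3 := g_cv2_sum x y (HT n) (gs x y z) i j
    have h4 := g_dn_sum (HT n) (gs x y z) i j
    have h5 : R x y (GG x y z n) i j = del i j +
        ((∑ S ∈ HT n, gs x y z S (i + 1) j) / x + 2 * ∑ S ∈ HT n, gs x y z S i j +
          2 * x * ∑ a ∈ HT n, dn (gs x y z a) i j) +
        ∑ l ∈ HT n, ∑ r ∈ HT n, cv2 (Uo x (gs x y z l)) (Vo y (gs x y z r)) i j := by
      rw [← h3, ← h4]; rfl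
    rw [h1, h2, h5]
    simp only [gs_node x y z hx.ne' hy.ne' _ _ i j, sum_add_distrib, ← mul_sum, ← sum_mul,
      ← sum_div, g_isN, one_mul]
    ring
  · exact sum_nonneg fun S _ => by simp only [gs]; positivity

end Pool.Agent.P.MP_8acafb_co.T3
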