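import Pool.Agent.P.MP_8acafb_co.T3Defs

namespace Pool.Agent.P.MP_8acafb_co.T3

open Finset

/-- arrays of natural numbers -/
abbrev NA := ℕ → ℕ → ℕ

def cvN (f g : NA) : NA :=
  fun i j => ∑ p ∈ antidiagonal i, ∑ q ∈ antidiagonal j, f p.1 q.1 * g p.2 q.2

def pk1 (q n : ℕ) (c : ℕ → ℕ) : ℕ := ∑ k ∈ range n, c k * q ^ k

theorem pk1_lt (q n : ℕ) (c : ℕ → ℕ) (hc : ∀ k < n, c k < q) : pk1 q n c < q ^ n := by
  induction n with
  | zero => simp [pk1]
  | succ n ih =>
    have h1 := ih fun k hk => hc k (by omega)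
    have h2 : (c n + 1) * q ^ n ≤ q * q ^ n := Nat.mul_le_mul_right _ (hc n (by omega))
    simp only [pk1, sum_range_succ] at h1 ⊢
    rw [pow_succ']
    nlinarith

theorem pk1_digit (q n : ℕ) (c : ℕ → ℕ) (hc : ∀ k < n, c k < q) (i : ℕ) (hi : i < n) :
    pk1 q n c / q ^ i % q = c i := by
  have hq : 0 < q := by have := hc i hi; omega
  induction n with
  | zero => omega
  | succ n ih =>
    have e1 : pk1 q (n + 1) c = pk1 q n c + c n * q ^ n := sum_range_succ _ _
    rcases Nat.lt_or_ge i n with h | h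
    · obtain ⟨t, rfl⟩ : ∃ t, n = i + (t + 1) := ⟨n - i - 1, by omega⟩
      have e2 : c (i + (t + 1)) * q ^ (i + (t + 1)) = q ^ i * (q * (c (i + (t + 1)) * q ^ t)) := by
        ring
      rw [e1, e2, Nat.add_mul_div_left _ _ (pow_pos hq i), Nat.add_mul_mod_self_left]
      exact ih (fun k hk => hc k (by omega)) h
    · obtain rfl : i = n := by omega
      rw [e1, Nat.add_mul_div_right _ _ (pow_pos hq i),
        Nat.div_eq_of_lt (pk1_lt q i c fun k hk => hc k (by omega)), zero_add,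
        Nat.mod_eq_of_lt (hc i hi)]

theorem pk1_mul (q n : ℕ) (a b : ℕ → ℕ) (ha : ∀ k, n ≤ k → a k = 0) (hb : ∀ k, n ≤ k → b k = 0) :
    pk1 q n a * pk1 q n b = pk1 q (2 * n) (cv a b) := by
  have h1 : pk1 q (2 * n) (cv a b) = ∑ k ∈ range (2 * n), ∑ p ∈ antidiagonal k,
      a p.1 * q ^ p.1 * (b p.2 * q ^ p.2) := by
    refine sum_congr rfl fun k _ => ?_
    rw [cv, sum_mul]
    refine sum_congr rfl fun p hp => ?_
    rw [← mem_antidiagonal.1 hp]; ring
  rw [h1, pk1, pk1, sum_mul_sum, ← sum_product', ← sum_biUnion]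
  · refine sum_subset (fun p hp => ?_) fun p _ hp => ?_
    · simp only [mem_product, mem_range, mem_biUnion, HasAntidiagonal.mem_antidiagonal] at hp ⊢
      exact ⟨p.1 + p.2, by omega, rfl⟩
    · simp only [mem_product, mem_range, not_and_or, not_lt] at hp
      rcases hp with hp | hp
      · simp [ha _ hp]
      · simp [hb _ hp]
  · intro i _ j _ hij
    exact disjoint_left.2 fun p h1 h2 =>
      hij ((mem_antidiagonal.1 h1).symm.trans (mem_antidiagonal.1 h2))

def pk2 (b S I J : ℕ) (f : NA) : ℕ := pk1 (b ^ S) I fun i => pk1 b J (f i)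

theorem pk2_mul (b S I J : ℕ) (f g : NA) (hf : ∀ i j, I ≤ i ∨ J ≤ j → f i j = 0)
    (hg : ∀ i j, I ≤ i ∨ J ≤ j → g i j = 0) :
    pk2 b S I J f * pk2 b S I J g = pk2 b S (2 * I) (2 * J) (cvN f g) := by
  rw [pk2, pk2, pk1_mul _ _ (fun i => pk1 b J (f i)) (fun i => pk1 b J (g i))
    (fun k hk => sum_eq_zero fun j _ => by simp [hf k j (Or.inl hk)])
    (fun k hk => sum_eq_zero fun j _ => by simp [hg k j (Or.inl hk)]), pk2]
  congr 1
  funext i
  rw [cv, sum_congr rfl fun p _ => pk1_mul b J (f p.1) (g p.2) (fun k hk => hf _ _ (Or.inr hk))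
    (fun k hk => hg _ _ (Or.inr hk))]
  simp only [pk1, cv, cvN, sum_mul]
  rw [sum_comm]

theorem pk2_add (b S I J : ℕ) (f g : NA) :
    pk2 b S I J f + pk2 b S I J g = pk2 b S I J fun i j => f i j + g i j := by
  simp only [pk2, pk1, add_mul, sum_add_distrib]

theorem pk2_digit (b I S : ℕ) (c : NA) (hc : ∀ i < I, ∀ j < S, c i j < b) (i : ℕ) (hi : i < I)
    (j : ℕ) (hj : j < S) : pk2 b S I S c / (b ^ S) ^ i % b ^ S / b ^ j % b = c i j := by
  rw [pk2, pk1_digit _ _ _ (fun k hk => pk1_lt _ _ _ (hc k hk)) i hi, pk1_digit _ _ _ (hc i hi) j hj]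

theorem cvN_le (f g : NA) (M M' : ℕ) (hf : ∀ i j, f i j ≤ M) (hg : ∀ i j, g i j ≤ M')
    (i j : ℕ) : cvN f g i j ≤ (i + 1) * ((j + 1) * (M * M')) := by
  have h1 : cvN f g i j ≤ ∑ _p ∈ antidiagonal i, ∑ _q ∈ antidiagonal j, M * M' :=
    sum_le_sum fun _ _ => sum_le_sum fun _ _ => Nat.mul_le_mul (hf _ _) (hg _ _)
  simpa using h1

/-! evaluation helpers -/

noncomputable def fB (n : ℕ) (k : ℕ → Bool) : Bool :=
  Nat.rec (k 0) (fun m _ => k (Nat.succ m)) n

noncomputable def fN (n : ℕ) (k : ℕ → ℕ) : ℕ :=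
  Nat.rec (k 0) (fun m _ => k (Nat.succ m)) n

theorem fB_eq (n : ℕ) (k : ℕ → Bool) : fB n k = k n := by cases n <;> rfl

theorem fN_eq (n : ℕ) (k : ℕ → ℕ) : fN n k = k n := by cases n <;> rfl

/-- pack `2^d` lanes of width `w`, skipping those from `n` on -/
noncomputable def pkT (w n : ℕ) (f : ℕ → ℕ) (d : ℕ) : ℕ → ℕ :=
  Nat.rec (motive := fun _ => ℕ → ℕ) (fun lo => f lo)
    (fun d ih lo => Nat.add (ih lo) (fN (Nat.add lo (Nat.shiftLeft 1 d)) fun hi =>
      cond (Nat.ble n hi) 0 (Nat.shiftLeft (ih hi) (Nat.shiftLeft w d)))) d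

theorem pkT_eq (w n : ℕ) (f : ℕ → ℕ) (hf : ∀ k, n ≤ k → f k = 0) (d : ℕ) :
    ∀ lo, pkT w n f d lo = pk1 (2 ^ w) (2 ^ d) fun k => f (lo + k) := by
  induction d with
  | zero => intro lo; simp [pkT, pk1]
  | succ d ih =>
    intro lo
    have e : pkT w n f (d + 1) lo = pkT w n f d lo + (fN (lo + 1 <<< d) fun hi =>
      cond (Nat.ble n hi) 0 ((pkT w n f d hi) <<< (w <<< d))) := rfl
    rw [e, fN_eq, ih, ih, pk1, pk1, pk1, pow_succ, mul_two, sum_range_add]
    congr 1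
    simp only [Nat.shiftLeft_eq, one_mul]
    cases h : Nat.ble n (lo + 2 ^ d) with
    | true =>
      have h1 := Nat.le_of_ble_eq_true h
      exact (sum_eq_zero fun k _ => by rw [hf _ (by omega), zero_mul]).symm
    | false =>
      simp only [cond_false, sum_mul]
      refine sum_congr rfl fun k _ => ?_
      rw [add_assoc, pow_add, pow_mul]; ring

/-- run `k` on the first `2^d` lanes of width `w`, skipping those from `n` on -/
noncomputable def spl (w n : ℕ) (k : ℕ → ℕ → Bool) (d : ℕ) : ℕ → ℕ → Bool :=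
  Nat.rec (motive := fun _ => ℕ → ℕ → Bool)
    (fun lo X => fB (Nat.land X (Nat.sub (Nat.shiftLeft 1 w) 1)) fun Y => k lo Y)
    (fun d ih lo X =>
      and (fB (Nat.land X (Nat.sub (Nat.shiftLeft 1 (Nat.shiftLeft w d)) 1)) fun Y => ih lo Y)
        (fB (Nat.add lo (Nat.shiftLeft 1 d)) fun hi => cond (Nat.ble n hi) true
          (fB (Nat.shiftRight X (Nat.shiftLeft w d)) fun Y => ih hi Y))) d

theorem spl_ok (w n : ℕ) (k : ℕ → ℕ → Bool) (d : ℕ) : ∀ lo X, spl w n k d lo X = true →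
    ∀ t < 2 ^ d, lo + t < n → k (lo + t) (X / (2 ^ w) ^ t % 2 ^ w) = true := by
  induction d with
  | zero =>
    intro lo X h t ht _
    obtain rfl : t = 0 := by simpa using ht
    have e : spl w n k 0 lo X = fB (X &&& (1 <<< w - 1)) fun Y => k lo Y := rfl
    rw [e, fB_eq, Nat.shiftLeft_eq, one_mul, Nat.and_two_pow_sub_one_eq_mod] at h
    simpa using h
  | succ d ih =>
    intro lo X h t ht hn
    have e : spl w n k (d + 1) lo X =
      and (fB (X &&& (1 <<< (w <<< d) - 1)) fun Y => spl w n k d lo Y)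
        (fB (lo + 1 <<< d) fun hi => cond (Nat.ble n hi) true
          (fB (X >>> (w <<< d)) fun Y => spl w n k d hi Y)) := rfl
    simp only [e, fB_eq, Nat.shiftLeft_eq, one_mul, Nat.and_two_pow_sub_one_eq_mod,
      Nat.shiftRight_eq_div_pow, Bool.and_eq_true] at h
    rcases Nat.lt_or_ge t (2 ^ d) with h1 | h1
    · have h2 := ih _ _ h.1 t h1 hn
      obtain ⟨u, hu⟩ : ∃ u, 2 ^ d = t + (u + 1) := ⟨2 ^ d - t - 1, by omega⟩
      have e2 : 2 ^ (w * 2 ^ d) = (2 ^ w) ^ t * (2 ^ w * (2 ^ w) ^ u) := by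
        rw [pow_mul, hu]; ring
      rwa [e2, Nat.mod_mul_right_div_self, Nat.mod_mul_right_mod] at h2
    · obtain ⟨u, rfl⟩ : ∃ u, t = 2 ^ d + u := ⟨t - 2 ^ d, by omega⟩
      have h3 : Nat.ble n (lo + 2 ^ d) = false := by
        cases h4 : Nat.ble n (lo + 2 ^ d) with
        | false => rfl
        | true => have := Nat.le_of_ble_eq_true h4; omega
      have h5 := h.2
      rw [h3, cond_false] at h5
      have h2 := ih _ _ h5 u (by rw [pow_succ] at ht; omega) (by omega)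
      rwa [Nat.div_div_eq_div_mul, pow_mul, ← pow_add, add_assoc] at h2

end Pool.Agent.P.MP_8acafb_co.T3
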