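import Pool.Agent.P.MP_8acafb_co.T3Mono

namespace Pool.Agent.P.MP_8acafb_co.T3

open Finset

theorem lo_box {I J : ℕ} {k : ℕ × ℕ} (hk : k ∈ range I ×ˢ range J) : k.1 < I ∧ k.2 < J := by
  simpa [mem_product] using hk

theorem lo_step1 (x y z0 z1 : ℝ) (hx : 0 ≤ x) (hy : 0 ≤ y) (hz0 : 0 ≤ z0) (hz : z0 ≤ z1)
    (G : Ar) (hG0 : ∀ i j, 0 ≤ G i j) (hG : ∀ i j, sh y G i j + z1 * R x y G i j ≤ G i j)
    (I J : ℕ) (hI : 0 < I) (hJ : 0 < J) (P v : Ar) (hP : Box I J P) (hv : Box I J v)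
    (hvp : ∀ i < I, ∀ j < J, 0 < v i j)
    (h1 : ∀ i < I, ∀ j < J, P i j < sh y P i j + z0 * R x y P i j)
    (h2 : ∀ i < I, ∀ j < J, sh y v i j + z0 * Lam x y P v i j < v i j) :
    ∀ i j, P i j ≤ G i j := by
  set d : Ar := fun i j => P i j - min (P i j) (G i j) with hd
  have hd0 : ∀ i j, 0 ≤ d i j := fun i j => sub_nonneg.2 (min_le_left _ _)
  have hne : (range I ×ˢ range J).Nonempty := ⟨(0, 0), by simp [mem_product, hI, hJ]⟩
  obtain ⟨k, hk, hmax⟩ := exists_max_image (range I ×ˢ range J)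
    (fun k : ℕ × ℕ => d k.1 k.2 / v k.1 k.2) hne
  obtain ⟨hk1, hk2⟩ := lo_box hk
  set c := d k.1 k.2 / v k.1 k.2 with hc
  have hvk := hvp _ hk1 _ hk2
  have hdv : ∀ i j, d i j ≤ c * v i j := by
    intro i j
    by_cases h : i < I ∧ j < J
    · have := hmax (i, j) (by simp [mem_product, h.1, h.2])
      exact (div_le_iff₀ (hvp i h.1 j h.2)).1 this
    · have h' : I ≤ i ∨ J ≤ j := by omega
      have e1 := hP.supp i j h'
      have e2 := hv.supp i j h'
      simp only [hd, e1, e2, min_eq_left (hG0 i j)]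
      simp
  have hc0 : 0 ≤ c := div_nonneg (hd0 _ _) hvk.le
  rcases hc0.eq_or_lt with h0 | hpos
  · intro i j
    have := hdv i j
    rw [← h0, zero_mul] at this
    have h3 : P i j ≤ min (P i j) (G i j) := by simp only [hd] at this; linarith
    exact h3.trans (min_le_right _ _)
  · exfalso
    have hdk : d k.1 k.2 = c * v k.1 k.2 := by rw [hc]; field_simp
    have hdkp : 0 < d k.1 k.2 := by rw [hdk]; positivity
    have hmk : d k.1 k.2 = P k.1 k.2 - G k.1 k.2 := by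
      have : min (P k.1 k.2) (G k.1 k.2) = G k.1 k.2 := by
        apply min_eq_right
        by_contra hcon
        have := min_eq_left (not_le.1 hcon).le
        simp only [hd, this] at hdkp
        linarith
      simp only [hd, this]
    have hm0 : ∀ i j, 0 ≤ lc P (-1) d i j := fun i j => by
      have := le_min (hP.nonneg i j) (hG0 i j)
      simp only [lc, hd]; linarith
    have hmG : ∀ i j, lc P (-1) d i j ≤ G i j := fun i j => by
      have := min_le_right (P i j) (G i j)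
      simp only [lc, hd]; linarith
    have a1 := R_lc (x := x) (y := y) (P := P) (d := d) (-1) k.1 k.2
    have a2 := sh_lc (y := y) (f := P) (g := d) (-1) k.1 k.2
    have a3 := R_mono hx hy hm0 hmG k.1 k.2
    have a4 := sh_mono hy hmG k.1 k.2
    have a5 := cv2_nonneg (Uo_nonneg hx hd0) (Vo_nonneg hy hd0) k.1 k.2
    have a6 := Lam_mono hx hy hP.nonneg hd0 hdv k.1 k.2
    rw [Lam_smul] at a6
    have a7 := sh_mono hy hdv k.1 k.2
    rw [sh_smul] at a7
    have a8 := R_nonneg hx hy hG0 k.1 k.2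
    have b1 := hG k.1 k.2
    have b2 := h1 _ hk1 _ hk2
    have b3 := h2 _ hk1 _ hk2
    have b4 : z0 * R x y G k.1 k.2 ≤ z1 * R x y G k.1 k.2 := mul_le_mul_of_nonneg_right hz a8
    have b5 : R x y P k.1 k.2 ≤ R x y G k.1 k.2 + c * Lam x y P v k.1 k.2 := by nlinarith
    have b6 := mul_le_mul_of_nonneg_left b5 hz0
    have b7 := mul_lt_mul_of_pos_left b3 hpos
    nlinarith

theorem lower (x y z0 z1 : ℝ) (hx : 0 ≤ x) (hy : 0 ≤ y) (hz0 : 0 ≤ z0) (hz : z0 ≤ z1)
    (G : Ar) (hG0 : ∀ i j, 0 ≤ G i j) (hG : ∀ i j, sh y G i j + z1 * R x y G i j ≤ G i j)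
    (I J : ℕ) (hI : 0 < I) (hJ : 0 < J) (P v : Ar) (hP : Box I J P) (hv : Box I J v)
    (h1 : ∀ i < I, ∀ j < J, P i j < sh y P i j + z0 * R x y P i j)
    (h2 : ∀ i < I, ∀ j < J, sh y v i j + z0 * Lam x y P v i j < v i j)
    (h3 : ∀ i < I, ∀ j < J, v i j ≤ sh y v i j + z1 * Lam x y P v i j) : False := by
  have hvp : ∀ i < I, ∀ j < J, 0 < v i j := fun i hi j hj => by
    have a1 := sh_nonneg hy hv.nonneg i j
    have a2 := mul_nonneg hz0 (Lam_nonneg hx hy hP.nonneg hv.nonneg i j)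
    have := h2 i hi j hj
    linarith
  have hPG := lo_step1 x y z0 z1 hx hy hz0 hz G hG0 hG I J hI hJ P v hP hv hvp h1 h2
  have hne : (range I ×ˢ range J).Nonempty := ⟨(0, 0), by simp [mem_product, hI, hJ]⟩
  obtain ⟨k, hk, hmin⟩ := exists_min_image (range I ×ˢ range J)
    (fun k : ℕ × ℕ => (G k.1 k.2 - P k.1 k.2) / v k.1 k.2) hne
  obtain ⟨hk1, hk2⟩ := lo_box hk
  set c := (G k.1 k.2 - P k.1 k.2) / v k.1 k.2 with hc
  have hvk := hvp _ hk1 _ hk2
  have hc0 : 0 ≤ c := div_nonneg (sub_nonneg.2 (hPG _ _)) hvk.le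
  have hle : ∀ i j, lc P c v i j ≤ G i j := by
    intro i j
    by_cases h : i < I ∧ j < J
    · have := hmin (i, j) (by simp [mem_product, h.1, h.2])
      have := (le_div_iff₀ (hvp i h.1 j h.2)).1 this
      simp only [lc]; linarith
    · have h' : I ≤ i ∨ J ≤ j := by omega
      have e1 := hP.supp i j h'
      have e2 := hv.supp i j h'
      simp only [lc, e1, e2]
      simpa using hG0 i j
  have hn : ∀ i j, 0 ≤ lc P c v i j := fun i j =>
    add_nonneg (hP.nonneg i j) (mul_nonneg hc0 (hv.nonneg i j))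
  have hk0 : G k.1 k.2 = P k.1 k.2 + c * v k.1 k.2 := by rw [hc]; field_simp; ring
  have hz1 : 0 ≤ z1 := hz0.trans hz
  have a1 := R_lc (x := x) (y := y) (P := P) (d := v) c k.1 k.2
  have a2 := sh_lc (y := y) (f := P) (g := v) c k.1 k.2
  have a3 := R_mono hx hy hn hle k.1 k.2
  have a4 := sh_mono hy hle k.1 k.2
  have a5 := mul_nonneg (sq_nonneg c)
    (cv2_nonneg (Uo_nonneg hx hv.nonneg) (Vo_nonneg hy hv.nonneg) k.1 k.2)
  have a8 := R_nonneg hx hy hP.nonneg k.1 k.2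
  have b1 := hG k.1 k.2
  have b2 := h1 _ hk1 _ hk2
  have b3 := mul_le_mul_of_nonneg_left (h3 _ hk1 _ hk2) hc0
  have b4 : z0 * R x y P k.1 k.2 ≤ z1 * R x y P k.1 k.2 := mul_le_mul_of_nonneg_right hz a8
  have b5 : R x y P k.1 k.2 + c * Lam x y P v k.1 k.2 ≤ R x y G k.1 k.2 := by linarith
  have b6 := mul_le_mul_of_nonneg_left b5 hz1
  nlinarith

theorem lo_mono (x y z : ℝ) (hx : 0 < x) (hy : 0 < y) (hz : 0 < z) (G : ℕ → Ar)
    (hG : Iter x y z G) : ∀ n i j, G n i j ≤ G (n + 1) i j := by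
  intro n
  induction n with
  | zero => intro i j; rw [hG.zero]; exact hG.nonneg _ _ _
  | succ n ih =>
    intro i j
    have hR : ∀ j, z * R x y (G n) i j ≤ z * R x y (G (n + 1)) i j := fun j =>
      mul_le_mul_of_nonneg_left (R_mono hx.le hy.le (hG.nonneg n) ih i j) hz.le
    induction j with
    | zero =>
      rw [hG.succ n, hG.succ (n + 1)]
      have := hR 0
      simp only [sh]; linarith
    | succ j ihj =>
      rw [hG.succ n, hG.succ (n + 1)]
      have := hR (j + 1)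
      have h2 := mul_le_mul_of_nonneg_left ihj hy.le
      simp only [sh]; linarith

theorem lo_zR (x y z : ℝ) (hy : 0 < y) (G : ℕ → Ar)
    (hG : Iter x y z G) (n i j : ℕ) : z * R x y (G n) i j ≤ G (n + 1) i j := by
  rw [hG.succ n]
  have := sh_nonneg hy.le (hG.nonneg (n + 1)) i j
  linarith

theorem lo_row (x y z : ℝ) (hx : 0 < x) (hy : 0 < y) (hz : 0 < z) (G : ℕ → Ar)
    (hG : Iter x y z G) (n i j : ℕ) : G n (i + 1) j ≤ x / z * G (n + 1) i j := by
  have a1 := lo_zR x y z hy G hG n i j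
  have a2 := del_nonneg i j
  have a3 := cv2_nonneg (Uo_nonneg hx.le (hG.nonneg n)) (Vo_nonneg hy.le (hG.nonneg n)) i j
  have a4 := mul_nonneg (mul_nonneg zero_le_two hx.le) (dn_nonneg (hG.nonneg n) i j)
  have a5 := hG.nonneg n i j
  have a6 : G n (i + 1) j / x ≤ R x y (G n) i j := by
    simp only [R, Lin]; linarith
  have a7 := mul_le_mul_of_nonneg_left a6 hz.le
  have a8 : z * (G n (i + 1) j / x) ≤ G (n + 1) i j := a7.trans a1
  have : G n (i + 1) j = x / z * (z * (G n (i + 1) j / x)) := by field_simp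
  rw [this]
  exact mul_le_mul_of_nonneg_left a8 (by positivity)

theorem lo_col (x y z : ℝ) (hx : 0 < x) (hy : 0 < y) (hz : 0 < z) (G : ℕ → Ar)
    (hG : Iter x y z G) (n j : ℕ) :
    G (n + 1) 0 (j + 1) ≤ y / (2 * x * z ^ 2) * G (n + 2) 1 j := by
  have hU := Uo_nonneg hx.le (hG.nonneg (n + 1))
  have hV := Vo_nonneg hy.le (hG.nonneg (n + 1))
  have a0 : z ≤ G (n + 1) 0 0 := by
    have a1 := lo_zR x y z hy G hG n 0 0
    have a3 := cv2_nonneg (Uo_nonneg hx.le (hG.nonneg n)) (Vo_nonneg hy.le (hG.nonneg n)) 0 0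
    have a4 := Lin_nonneg hx.le (hG.nonneg n) 0 0
    have a5 : 1 ≤ R x y (G n) 0 0 := by
      have : del 0 0 = 1 := by simp [del]
      simp only [R]; linarith
    nlinarith
  have a1 := lo_zR x y z hy G hG (n + 1) 1 j
  have a2 := del_nonneg 1 j
  have a3 := Lin_nonneg hx.le (hG.nonneg (n + 1)) 1 j
  have a4 : Uo x (G (n + 1)) 1 0 * Vo y (G (n + 1)) 0 j
      ≤ cv2 (Uo x (G (n + 1))) (Vo y (G (n + 1))) 1 j := by
    have s1 : Uo x (G (n + 1)) 1 0 * Vo y (G (n + 1)) 0 j ≤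
        ∑ q ∈ antidiagonal j, Uo x (G (n + 1)) 1 q.1 * Vo y (G (n + 1)) 0 q.2 :=
      single_le_sum (f := fun q : ℕ × ℕ => Uo x (G (n + 1)) 1 q.1 * Vo y (G (n + 1)) 0 q.2)
        (fun q _ => mul_nonneg (hU _ _) (hV _ _)) (a := (0, j)) (by simp)
    refine s1.trans ?_
    exact single_le_sum (f := fun p : ℕ × ℕ => ∑ q ∈ antidiagonal j,
        Uo x (G (n + 1)) p.1 q.1 * Vo y (G (n + 1)) p.2 q.2)
      (fun p _ => sum_nonneg fun q _ => mul_nonneg (hU _ _) (hV _ _)) (a := (1, 0)) (by simp)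
  have a5 : 2 * x * z ≤ Uo x (G (n + 1)) 1 0 := by
    have := hG.nonneg (n + 1) 1 0
    have h2 := mul_le_mul_of_nonneg_left a0 (by positivity : 0 ≤ 2 * x)
    simp only [Uo, dn, zero_add]; linarith
  have a6 : G (n + 1) 0 (j + 1) / y ≤ Vo y (G (n + 1)) 0 j := by
    have := hG.nonneg (n + 1) 0 0
    simp only [Vo]; split_ifs <;> linarith
  have a7 : 2 * x * z * (G (n + 1) 0 (j + 1) / y) ≤
      Uo x (G (n + 1)) 1 0 * Vo y (G (n + 1)) 0 j :=
    mul_le_mul a5 a6 (div_nonneg (hG.nonneg _ _ _) hy.le) (hU _ _)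
  have a8 : 2 * x * z * (G (n + 1) 0 (j + 1) / y) ≤ R x y (G (n + 1)) 1 j := by
    simp only [R]; linarith
  have a9 := (mul_le_mul_of_nonneg_left a8 hz.le).trans a1
  have : G (n + 1) 0 (j + 1) =
      y / (2 * x * z ^ 2) * (z * (2 * x * z * (G (n + 1) 0 (j + 1) / y))) := by field_simp
  rw [this]
  exact mul_le_mul_of_nonneg_left a9 (by positivity)

theorem lo_bdd (x y z : ℝ) (hx : 0 < x) (hy : 0 < y) (hz : 0 < z) (G : ℕ → Ar)
    (hG : Iter x y z G) (C : ℝ) (hC : ∀ n, G n 0 0 ≤ C) :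
    ∀ j i, ∃ D, ∀ n, G n i j ≤ D := by
  have hrow : ∀ j, (∃ D, ∀ n, G n 0 j ≤ D) → ∀ i, ∃ D, ∀ n, G n i j ≤ D := by
    intro j h0 i
    induction i with
    | zero => exact h0
    | succ i ih =>
      obtain ⟨D, hD⟩ := ih
      exact ⟨x / z * D, fun n => (lo_row x y z hx hy hz G hG n i j).trans
        (mul_le_mul_of_nonneg_left (hD _) (by positivity))⟩
  intro j
  induction j with
  | zero => exact hrow 0 ⟨C, hC⟩
  | succ j ih =>
    obtain ⟨D, hD⟩ := ih 1
    refine hrow _ ⟨y / (2 * x * z ^ 2) * D, fun n => ?_⟩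
    exact (lo_mono x y z hx hy hz G hG n _ _).trans ((lo_col x y z hx hy hz G hG n j).trans
      (mul_le_mul_of_nonneg_left (hD _) (by positivity)))

open Filter Topology in
theorem lo_tend (x y : ℝ) (G : ℕ → Ar) (H : Ar)
    (h : ∀ i j, Tendsto (fun n => G n i j) atTop (𝓝 (H i j))) (i j : ℕ) :
    Tendsto (fun n => R x y (G n) i j) atTop (𝓝 (R x y H i j)) := by
  have hd : ∀ i j, Tendsto (fun n => dn (G n) i j) atTop (𝓝 (dn H i j)) := fun i j => by
    cases i with
    | zero => exact tendsto_const_nhds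
    | succ i => exact h i j
  have hU : ∀ i j, Tendsto (fun n => Uo x (G n) i j) atTop (𝓝 (Uo x H i j)) := fun i j => by
    cases i with
    | zero => exact tendsto_const_nhds
    | succ i =>
      exact ((h _ _).add ((h _ _).const_mul _)).add ((hd _ _).const_mul _)
  have hV : ∀ i j, Tendsto (fun n => Vo y (G n) i j) atTop (𝓝 (Vo y H i j)) := fun i j => by
    simp only [Vo]
    split_ifs
    · exact ((h _ _).div_const _).add (h _ _)
    · exact ((h _ _).div_const _).add tendsto_const_nhds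
  have hL : Tendsto (fun n => Lin x (G n) i j) atTop (𝓝 (Lin x H i j)) :=
    (((h _ _).div_const _).add ((h _ _).const_mul _)).add ((hd _ _).const_mul _)
  exact (tendsto_const_nhds.add hL).add (tendsto_finsetSum _ fun p _ =>
    tendsto_finsetSum _ fun q _ => (hU _ _).mul (hV _ _))

theorem ex_super (x y z : ℝ) (hx : 0 < x) (hy : 0 < y) (hz : 0 < z) (G : ℕ → Ar)
    (hG : Iter x y z G) (C : ℝ) (hC : ∀ n, G n 0 0 ≤ C) :
    ∃ H : Ar, (∀ i j, 0 ≤ H i j) ∧ ∀ i j, sh y H i j + z * R x y H i j ≤ H i j := by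
  have hb : ∀ i j, BddAbove (Set.range fun n => G n i j) := fun i j => by
    obtain ⟨D, hD⟩ := lo_bdd x y z hx hy hz G hG C hC j i
    exact ⟨D, by rintro _ ⟨n, rfl⟩; exact hD n⟩
  have hm : ∀ i j, Monotone fun n => G n i j := fun i j =>
    monotone_nat_of_le_succ fun n => lo_mono x y z hx hy hz G hG n i j
  set H : Ar := fun i j => ⨆ n, G n i j with hH
  have ht : ∀ i j, Filter.Tendsto (fun n => G n i j) Filter.atTop (nhds (H i j)) :=
    fun i j => tendsto_atTop_ciSup (hm i j) (hb i j)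
  have hle : ∀ n i j, G n i j ≤ H i j := fun n i j => le_ciSup (hb i j) n
  refine ⟨H, fun i j => (hG.nonneg 0 i j).trans (hle 0 i j), fun i j => ?_⟩
  have hs : Filter.Tendsto (fun n => sh y (G (n + 1)) i j) Filter.atTop (nhds (sh y H i j)) := by
    cases j with
    | zero => exact tendsto_const_nhds
    | succ j => exact ((ht i j).comp (Filter.tendsto_add_atTop_nat 1)).const_mul _
  refine le_of_tendsto' (hs.add ((lo_tend x y G H ht i j).const_mul z)) fun n => ?_
  rw [← hG.succ n]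
  exact hle _ _ _

end Pool.Agent.P.MP_8acafb_co.T3
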