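import Pool.Agent.P.MP_8acafb_co.T3Real
import Pool.Agent.P.MP_8acafb_co.T3DatP
import Pool.Agent.P.MP_8acafb_co.T3DatV
import Pool.Agent.P.MP_8acafb_co.T3DatU

namespace Pool.Agent.P.MP_8acafb_co.T3

theorem runP : chkP 191 9 320 160 18446744073709551616 1 4 1 12 100000000 969918903 1
    (rows 192 320 160 3 dP) = true := by decide +kernel

theorem runV : chkV 191 9 320 160 18446744073709551616 1 4 1 12 100000000 969918903
    100000 969911 (rows 192 320 160 3 dP) (rows 192 320 160 3 dV) = true := by decide +kernel

theorem runU : chkP 255 9 256 160 18446744073709551616 501 2000 329 4000 100000 969979 0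
    (rows 256 256 160 4 dU) = true := by decide +kernel

theorem runS : sums 256 8 8 256 160 3403993747779656696 2878917136379636972 2866215098398685529
    (rows 256 256 160 4 dU) = true := by decide +kernel

end Pool.Agent.P.MP_8acafb_co.T3
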