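import Pool.Agent.P.MP_8acafb_co.T3Up

namespace Pool.Agent.P.MP_8acafb_co.T3

open Finset

theorem up2_nm_nonneg (f : Ar) (hf : ∀ i j, 0 ≤ f i j) (M : ℕ) : 0 ≤ nm M f :=
  sum_nonneg fun _ _ => sum_nonneg fun _ _ => hf _ _

theorem up2_nm_le {f g : Ar} (h : ∀ i j, f i j ≤ g i j) (M : ℕ) : nm M f ≤ nm M g :=
  sum_le_sum fun _ _ => sum_le_sum fun _ _ => h _ _

theorem up2_row {I J : ℕ} {P : Ar} (hP : Box I J P) {M : ℕ} (hM : J ≤ M) (i : ℕ) :
    ∑ j ∈ range M, P i j = ∑ j ∈ range J, P i j := by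
  refine (sum_subset (range_subset_range.2 hM) fun j _ hj => hP.supp i j (Or.inr ?_)).symm
  simpa using hj

theorem up2_col {I J : ℕ} {P : Ar} (hP : Box I J P) {M : ℕ} (hM : I ≤ M) (j : ℕ) :
    ∑ i ∈ range M, P i j = ∑ i ∈ range I, P i j := by
  refine (sum_subset (range_subset_range.2 hM) fun i _ hi => hP.supp i j (Or.inl ?_)).symm
  simpa using hi

theorem up2_box {I J : ℕ} {P : Ar} (hP : Box I J P) {M : ℕ} (hI : I ≤ M) (hJ : J ≤ M) :
    nm M P = ∑ i ∈ range I, ∑ j ∈ range J, P i j := by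
  unfold nm
  rw [sum_congr rfl fun i _ => up2_row hP hJ i, sum_comm,
    sum_congr rfl fun j _ => up2_col hP hI j, sum_comm]

theorem upper (x y z e : ℝ) (hx : 0 < x) (hy : 0 < y) (hy1 : y < 1) (hz : 0 ≤ z) (he : 0 ≤ e)
    (G : ℕ → Ar) (hG : Iter x y z G) (I J : ℕ) (P : Ar) (hP : Box I J P)
    (hsub : ∀ i < I, ∀ j < J, P i j ≤ sh y P i j + z * R x y P i j)
    (p a b u w : ℝ) (hp : p = ∑ i ∈ range I, ∑ j ∈ range J, P i j)
    (ha : a = ∑ j ∈ range J, P 0 j) (hb : b = ∑ i ∈ range I, P i 0)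
    (hu : u = (1 + x) ^ 2 * p - a) (hw : w = (p - b) / y + b)
    (hc : (y * p + z * (1 + ((p - a) / x + (2 + 2 * x) * p) + u * w) - p)
      + z * ((1 / x + 2 + 2 * x + u / y + (1 + x) ^ 2 * w) * e + (1 + x) ^ 2 / y * e ^ 2)
        ≤ (1 - y) * e) (n : ℕ) : G n 0 0 ≤ P 0 0 + e := by
  have hP0 := hP.nonneg
  -- the defect arrays
  obtain ⟨d, hd⟩ : ∃ d : ℕ → Ar, ∀ n i j, d n i j = max (G n i j - P i j) 0 :=
    ⟨fun n i j => max (G n i j - P i j) 0, fun _ _ _ => rfl⟩
  have hd0 : ∀ n i j, 0 ≤ d n i j := fun n i j => by rw [hd]; exact le_max_right _ _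
  have hGd : ∀ n i j, G n i j ≤ lc P 1 (d n) i j := fun n i j => by
    have := le_max_left (G n i j - P i j) 0
    simp only [lc, hd]
    linarith
  obtain ⟨r, hr⟩ : ∃ r : Ar, ∀ i j, r i j = sh y P i j + z * R x y P i j - P i j :=
    ⟨fun i j => sh y P i j + z * R x y P i j - P i j, fun _ _ => rfl⟩
  have hr0 : ∀ i j, 0 ≤ r i j := fun i j => by
    rw [hr]
    by_cases h : i < I ∧ j < J
    · linarith [hsub i h.1 j h.2]
    · have h0 : P i j = 0 := hP.supp i j (by omega)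
      have h1 := sh_nonneg hy.le hP0 i j
      have h2 := mul_nonneg hz (R_nonneg hx.le hy.le hP0 i j)
      linarith
  -- bounds for P
  have hbig : ∀ M : ℕ, ∃ K, M ≤ K ∧ I ≤ K ∧ J ≤ K := fun M => ⟨M + I + J, by omega, by omega, by omega⟩
  have hUP : ∀ M, nm M (Uo x P) ≤ u := fun M => by
    obtain ⟨K, h1, h2, h3⟩ := hbig M
    have h4 := nm_mono_M _ (Uo_nonneg hx.le hP0) h1
    have h5 := nm_Uo x hx.le P hP0 K
    rw [up2_box hP (by omega) (by omega), up2_row hP (by omega), ← hp, ← ha, ← hu] at h5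
    exact h4.trans h5
  have hVP : ∀ M, nm M (Vo y P) ≤ w := fun M => by
    obtain ⟨K, h1, h2, h3⟩ := hbig M
    have h4 := nm_mono_M _ (Vo_nonneg hy.le hP0) h1
    have h5 := nm_Vo y hy P hP0 K
    rw [up2_box hP (by omega) (by omega), up2_col hP (by omega), ← hp, ← hb, ← hw] at h5
    exact h4.trans h5
  have hu0 : 0 ≤ u := (up2_nm_nonneg _ (Uo_nonneg hx.le hP0) 0).trans (hUP 0)
  have hw0 : 0 ≤ w := (up2_nm_nonneg _ (Vo_nonneg hy.le hP0) 0).trans (hVP 0)
  have hrM : ∀ M, nm M r ≤ y * p + z * (1 + ((p - a) / x + (2 + 2 * x) * p) + u * w) - p :=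
    fun M => by
    obtain ⟨K, h1, h2, h3⟩ := hbig M
    refine (nm_mono_M _ hr0 h1).trans ?_
    have e1 : nm K r = nm K (sh y P)
        + z * (nm K del + nm K (Lin x P) + nm K (cv2 (Uo x P) (Vo y P))) - nm K P := by
      simp only [nm, hr, R, sum_sub_distrib, sum_add_distrib, mul_add, mul_sum]
    have h4 := nm_sh y hy.le P hP0 K
    have h5 := nm_Lin x hx P hP0 K
    rw [up2_box hP (by omega) (by omega), up2_row hP (by omega), ← hp, ← ha] at h5
    rw [up2_box hP h2 h3, ← hp] at h4 e1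
    have h6 := nm_del K
    have h7 : nm K (cv2 (Uo x P) (Vo y P)) ≤ u * w :=
      (nm_cv2 _ _ (Uo_nonneg hx.le hP0) (Vo_nonneg hy.le hP0) K).trans
        (mul_le_mul (hUP K) (hVP K) (up2_nm_nonneg _ (Vo_nonneg hy.le hP0) K) hu0)
    have h8 : z * (nm K del + nm K (Lin x P) + nm K (cv2 (Uo x P) (Vo y P)))
        ≤ z * (1 + ((p - a) / x + (2 + 2 * x) * p) + u * w) :=
      mul_le_mul_of_nonneg_left (by linarith) hz
    linarith
  have key : ∀ n M, nm M (d n) ≤ e := by
    intro n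
    induction n with
    | zero =>
      intro M
      have h0 : ∀ i j, d 0 i j = 0 := fun i j => by
        rw [hd, hG.zero]
        exact max_eq_right (by linarith [hP0 i j])
      simpa [nm, h0] using he
    | succ n ih =>
      intro M
      have hD := hd0 n
      have hpt : ∀ i j, d (n + 1) i j ≤ sh y (d (n + 1)) i j + r i j
          + z * (Lam x y P (d n) i j + cv2 (Uo x (d n)) (Vo y (d n)) i j) := fun i j => by
        have h1 := sh_mono hy.le (hGd (n + 1)) i j
        have h2 := mul_le_mul_of_nonneg_left (R_mono hx.le hy.le (hG.nonneg n) (hGd n) i j) hz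
        rw [sh_lc] at h1
        rw [R_lc] at h2
        have h3 := hG.succ n i j
        have h4 := sh_nonneg hy.le (hd0 (n + 1)) i j
        have h5 := mul_nonneg hz (add_nonneg (Lam_nonneg hx.le hy.le hP0 hD i j)
          (cv2_nonneg (Uo_nonneg hx.le hD) (Vo_nonneg hy.le hD) i j))
        have h6 := hr0 i j
        rw [hd (n + 1) i j]
        refine max_le ?_ (by linarith)
        rw [hr]
        linarith
      have hs := up2_nm_le hpt M
      have e1 : nm M (fun i j => sh y (d (n + 1)) i j + r i j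
          + z * (Lam x y P (d n) i j + cv2 (Uo x (d n)) (Vo y (d n)) i j))
          = nm M (sh y (d (n + 1))) + nm M r + z * (nm M (Lin x (d n))
            + nm M (cv2 (Uo x P) (Vo y (d n))) + nm M (cv2 (Uo x (d n)) (Vo y P))
            + nm M (cv2 (Uo x (d n)) (Vo y (d n)))) := by
        simp only [nm, Lam, sum_add_distrib, mul_add, mul_sum]
      rw [e1] at hs
      have hN := ih (M + 1)
      have hrow : 0 ≤ ∑ j ∈ range (M + 1), d n 0 j := sum_nonneg fun _ _ => hD _ _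
      have hcol : 0 ≤ ∑ i ∈ range (M + 1), d n i 0 := sum_nonneg fun _ _ => hD _ _
      have hUd : nm M (Uo x (d n)) ≤ (1 + x) ^ 2 * e := by
        have h1 := nm_Uo x hx.le _ hD M
        have h2 := mul_le_mul_of_nonneg_left hN (sq_nonneg (1 + x))
        linarith
      have hVd : nm M (Vo y (d n)) ≤ e / y := by
        refine (nm_Vo y hy _ hD M).trans ?_
        rw [div_add' _ _ _ hy.ne', div_le_div_iff_of_pos_right hy]
        nlinarith
      have hLd : nm M (Lin x (d n)) ≤ e / x + (2 + 2 * x) * e := by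
        refine (nm_Lin x hx _ hD M).trans (add_le_add ?_ ?_)
        · exact div_le_div_of_nonneg_right (by linarith) hx.le
        · exact mul_le_mul_of_nonneg_left hN (by linarith)
      have hU0 : 0 ≤ (1 + x) ^ 2 * e := mul_nonneg (sq_nonneg _) he
      have c1 : nm M (cv2 (Uo x P) (Vo y (d n))) ≤ u * (e / y) :=
        (nm_cv2 _ _ (Uo_nonneg hx.le hP0) (Vo_nonneg hy.le hD) M).trans
          (mul_le_mul (hUP M) hVd (up2_nm_nonneg _ (Vo_nonneg hy.le hD) M) hu0)
      have c2 : nm M (cv2 (Uo x (d n)) (Vo y P)) ≤ (1 + x) ^ 2 * e * w :=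
        (nm_cv2 _ _ (Uo_nonneg hx.le hD) (Vo_nonneg hy.le hP0) M).trans
          (mul_le_mul hUd (hVP M) (up2_nm_nonneg _ (Vo_nonneg hy.le hP0) M) hU0)
      have c3 : nm M (cv2 (Uo x (d n)) (Vo y (d n))) ≤ (1 + x) ^ 2 * e * (e / y) :=
        (nm_cv2 _ _ (Uo_nonneg hx.le hD) (Vo_nonneg hy.le hD) M).trans
          (mul_le_mul hUd hVd (up2_nm_nonneg _ (Vo_nonneg hy.le hD) M) hU0)
      have c4 := nm_sh y hy.le _ (hd0 (n + 1)) M
      have c5 := hrM M
      have c6 : z * (nm M (Lin x (d n))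
            + nm M (cv2 (Uo x P) (Vo y (d n))) + nm M (cv2 (Uo x (d n)) (Vo y P))
            + nm M (cv2 (Uo x (d n)) (Vo y (d n))))
          ≤ z * ((1 / x + 2 + 2 * x + u / y + (1 + x) ^ 2 * w) * e + (1 + x) ^ 2 / y * e ^ 2) := by
        refine mul_le_mul_of_nonneg_left ?_ hz
        have e2 : (1 / x + 2 + 2 * x + u / y + (1 + x) ^ 2 * w) * e + (1 + x) ^ 2 / y * e ^ 2
            = e / x + (2 + 2 * x) * e + u * (e / y) + (1 + x) ^ 2 * e * w
              + (1 + x) ^ 2 * e * (e / y) := by ring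
        rw [e2]
        linarith
      have h1y : 0 < 1 - y := by linarith
      refine le_of_mul_le_mul_left ?_ h1y
      linarith
  have h1 := key n 1
  have h2 := hGd n 0 0
  simp only [nm, sum_range_one] at h1
  simp only [lc] at h2
  linarith

end Pool.Agent.P.MP_8acafb_co.T3
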