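import Pool.Agent.P.MP_8acafb_co.T3Red

namespace Pool.Agent.P.MP_8acafb_co.T3

open Finset

/-- the counting statement for one shape -/
def Yok (S : Sp) : Prop := ∀ (c e : ℕ) (U : List ℕ) (m : ℕ), U.Pairwise (· < ·) →
  (∀ x ∈ U, c + e ≤ x) → e + U.length = S.size + m → Cnt (Yp S c e U m) (N S U.length m)

/-- size of the stack after the left subtree -/
def y_g1 : Tr × List ℕ → ℕ
  | (.nil, _) => 0
  | (.node l _ _, O) => (stk O l.post).length

/-- size of the stack after the right subtree -/
def y_g2 : Tr × List ℕ → ℕ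
  | (.nil, _) => 0
  | (.node l _ r, O) => (stk (stk O l.post) r.post).length

theorem y_out (l r : Tr) (v : ℕ) (O : List ℕ) :
    out O (Tr.node l v r).post = out O l.post ++ out (stk O l.post) r.post ++
      (stk (stk O l.post) r.post).takeWhile (· < v) := by
  simp only [Tr.post, out_append, stk_append, out, List.append_nil]

theorem y_stk (l r : Tr) (v : ℕ) (O : List ℕ) :
    stk O (Tr.node l v r).post = v :: (stk (stk O l.post) r.post).dropWhile (· < v) := by
  simp only [Tr.post, stk_append, stk]

theorem y_len (T : Tr) (O : List ℕ) :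
    (out O T.post).length + (stk O T.post).length = O.length + T.sp.size := by
  have := (os_perm T.post O).length_eq
  rwa [List.length_append, List.length_append, length_post] at this

theorem y_N (S : Sp) (u m : ℕ) (h : S.size + m < u) : N S u m = 0 := by
  cases S with
  | nil =>
    simp only [Sp.size] at h
    simp only [N]
    rw [if_neg (by omega)]
  | node l r =>
    simp only [Sp.size] at h
    simp only [N]
    rw [if_neg (by omega)]

theorem y_dec {l r : Sp} {c E v m : ℕ} (hv : c + E ≤ v) {a : Tr × List ℕ}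
    (h : Yp (.node l r) c E [v] m a) :
    ∃ l' r' O, a = (Tr.node l' v r', O) ∧ l'.sp = l ∧ r'.sp = r ∧ l'.dec ∧ r'.dec ∧
      O.length = m ∧ O.Pairwise (· < ·) ∧ (stk O l'.post).Pairwise (· < ·) ∧
      out O l'.post ++ out (stk O l'.post) r'.post ++ stk (stk O l'.post) r'.post =
        List.range' c E := by
  obtain ⟨T, O⟩ := a
  obtain ⟨h1, h2, h3, h4, h5, h6⟩ := h
  cases T with
  | nil => simp [Tr.sp] at h1
  | node l' v' r' =>
    simp only [Tr.sp, Sp.node.injEq] at h1
    have h7 := os_perm (Tr.node l' v' r').post O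
    simp only at h2 h3 h4 h5 h6
    rw [h5, h6] at h7
    have h8 : (O ++ (Tr.node l' v' r').post).Nodup := by
      rw [← h7.nodup_iff, List.nodup_append]
      refine ⟨List.nodup_range', List.nodup_singleton _, ?_⟩
      intro x hx y hy
      rw [List.mem_singleton.1 hy]
      have := List.mem_range'_1.1 hx
      omega
    have h9 : (O ++ l'.post).Nodup := by
      refine h8.sublist ?_
      simp only [Tr.post, List.append_assoc]
      exact (List.sublist_append_left _ _).append_left _
    have h10 : (stk O l'.post).Nodup :=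
      (List.nodup_append.1 ((os_perm l'.post O).nodup_iff.2 h9)).2.1
    have h11 := stk_sorted l'.post O (h4.imp le_of_lt)
    rw [y_stk] at h6
    rw [y_out] at h5
    obtain ⟨rfl, h12⟩ := List.cons.inj h6
    have h13 := List.takeWhile_append_dropWhile (p := fun x => decide (x < v'))
      (l := stk (stk O l'.post) r'.post)
    rw [h12, List.append_nil] at h13
    rw [h13] at h5
    exact ⟨l', r', O, rfl, h1.1, h1.2, h2.1, h2.2.1, h3, h4,
      (h11.and h10).imp fun h => lt_of_le_of_ne h.1 h.2, h5⟩

theorem y_comp {c E v : ℕ} (hv : c + E ≤ v) {l' r' : Tr} {O : List ℕ} (h1 : l'.dec) (h2 : r'.dec)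
    (h3 : O.Pairwise (· < ·))
    (h4 : out O l'.post ++ out (stk O l'.post) r'.post ++ stk (stk O l'.post) r'.post =
      List.range' c E) :
    Yp (.node l'.sp r'.sp) c E [v] O.length (Tr.node l' v r', O) := by
  have k0 : ∀ x ∈ out O l'.post ++ out (stk O l'.post) r'.post ++ stk (stk O l'.post) r'.post,
      x < v := by
    intro x hx
    rw [h4] at hx
    have := List.mem_range'_1.1 hx
    omega
  have k1 : ∀ x ∈ stk O l'.post ++ r'.post, x < v := by
    intro x hx
    refine k0 x ?_
    rw [List.append_assoc]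
    exact List.mem_append_right _ ((os_perm r'.post _).symm.subset hx)
  have k2 : ∀ x ∈ l'.post, x < v := by
    intro x hx
    rcases List.mem_append.1 ((os_perm l'.post O).symm.subset (List.mem_append_right _ hx))
      with h | h
    · exact k0 x (List.mem_append_left _ (List.mem_append_left _ h))
    · exact k1 x (List.mem_append_left _ h)
  have k3 : ∀ x ∈ stk (stk O l'.post) r'.post, x < v := fun x hx =>
    k0 x (List.mem_append_right _ hx)
  refine ⟨rfl, ⟨h1, h2, k2, fun x hx => k1 x (List.mem_append_right _ hx)⟩, rfl, h3, ?_, ?_⟩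
  · show out O (Tr.node l' v r').post = _
    rw [y_out, List.takeWhile_eq_self_iff.2 (by simpa using k3), h4]
  · show stk O (Tr.node l' v r').post = _
    rw [y_stk, List.dropWhile_eq_nil_iff.2 (by simpa using k3)]

theorem y_fix (l r : Sp) (hl : Yok l) (hr : Yok r) (c v m : ℕ)
    (hv : c + (l.size + r.size + m) ≤ v) (u p : ℕ) :
    Cnt (fun a => (Yp (.node l r) c (l.size + r.size + m) [v] m a ∧ y_g1 a = u) ∧ y_g2 a = p)
      (N r p u * N l u m) := by
  by_cases hc : u ≤ l.size + m ∧ p ≤ r.size + u
  · obtain ⟨e1, he1⟩ : ∃ e1, e1 + u = l.size + m := ⟨l.size + m - u, by omega⟩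
    obtain ⟨e2, he2⟩ : ∃ e2, e2 + p = r.size + u := ⟨r.size + u - p, by omega⟩
    have hE : List.range' c e1 ++ List.range' (c + e1) e2 ++ List.range' (c + e1 + e2) p =
        List.range' c (l.size + r.size + m) := by
      rw [List.range'_append_1, add_assoc c, List.range'_append_1]
      congr 1
      omega
    have h1 := hr (c + e1) e2 (List.range' (c + e1 + e2) p) u List.pairwise_lt_range'
      (fun x hx => (List.mem_range'_1.1 hx).1) (by rw [List.length_range']; exact he2)
    rw [List.length_range'] at h1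
    have h2 := h1.prod (Q := fun a b => Yp l c e1 a.2 m b) (n := N l u m) (by
      rintro ⟨r', U1⟩ ⟨-, -, a3, a4, a5, a6⟩
      simp only at a3 a4 a5 a6 ⊢
      have h3 := hl c e1 U1 m a4 (by
        intro x hx
        have h4 := (os_perm r'.post U1).symm.subset (List.mem_append_left _ hx)
        rw [a5, a6] at h4
        rcases List.mem_append.1 h4 with h | h
        · exact (List.mem_range'_1.1 h).1
        · have := (List.mem_range'_1.1 h).1
          omega) (by omega)
      rwa [a3] at h3)
    refine h2.bij (fun q => (Tr.node q.2.1 v q.1.1, q.2.2)) ?_ ?_ ?_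
    · rintro ⟨⟨r1, U1⟩, l1, O1⟩ ⟨⟨r2, U2⟩, l2, O2⟩ ⟨-, a⟩ ⟨-, b⟩ h
      simp only [Prod.mk.injEq, Tr.node.injEq, true_and] at h
      obtain ⟨⟨rfl, rfl⟩, rfl⟩ := h
      have a1 : stk O1 l1.post = U1 := a.2.2.2.2.2
      have b1 : stk O1 l1.post = U2 := b.2.2.2.2.2
      rw [← a1, ← b1]
    · rintro ⟨⟨r', U1⟩, l', O⟩ ⟨⟨a1, a2, a3, -, a5, a6⟩, b1, b2, b3, b4, b5, b6⟩
      simp only at a1 a2 a3 a5 a6 b1 b2 b3 b4 b5 b6
      have h3 := y_comp hv b2 a2 b4 (by rw [b6, b5, a5, a6, hE])
      rw [a1, b1, b3] at h3
      refine ⟨⟨h3, ?_⟩, ?_⟩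
      · simp only [y_g1]
        rw [b6, a3]
      · simp only [y_g2]
        rw [b6, a6, List.length_range']
    · rintro a ⟨⟨h3, h4⟩, h5⟩
      obtain ⟨l', r', O, rfl, a1, a2, a3, a4, a5, a6, a7, a8⟩ := y_dec hv h3
      simp only [y_g1] at h4
      simp only [y_g2] at h5
      have k1 := y_len l' O
      rw [← hE] at a8
      obtain ⟨k3, k4⟩ := List.append_inj' a8 (by rw [List.length_range', h5])
      obtain ⟨k5, k6⟩ := List.append_inj k3 (by rw [List.length_range']; rw [a1] at k1; omega)
      exact ⟨((r', stk O l'.post), l', O), ⟨⟨a2, a4, h4, a7, k6, k4⟩, a1, a3, a5, a6, k5, rfl⟩, rfl⟩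
  · have h0 : N r p u * N l u m = 0 := by
      by_cases h : u ≤ l.size + m
      · rw [y_N r p u (by omega), zero_mul]
      · rw [y_N l u m (by omega), mul_zero]
    rw [h0]
    refine Cnt.zero ?_
    rintro a ⟨⟨h3, h4⟩, h5⟩
    obtain ⟨l', r', O, rfl, a1, a2, -, -, a5, -, -, -⟩ := y_dec hv h3
    simp only [y_g1] at h4
    simp only [y_g2] at h5
    have k1 := y_len l' O
    have k2 := y_len r' (stk O l'.post)
    rw [a1] at k1
    rw [a2] at k2
    omega

theorem Y_top (l r : Sp) (hl : Yok l) (hr : Yok r) (c v m : ℕ)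
    (hv : c + (l.size + r.size + m) ≤ v) :
    Cnt (Yp (.node l r) c (l.size + r.size + m) [v] m)
      (∑ u ∈ range (m + 2), ∑ p ∈ range (u + 2), N r p u * N l u m) := by
  refine Cnt.fiber _ y_g1 _ ?_ fun u _ => Cnt.fiber _ y_g2 _ ?_ fun p _ => y_fix l r hl hr c v m hv u p
  · intro a ha
    obtain ⟨l', r', O, rfl, -, -, a3, -, a5, a6, -, -⟩ := y_dec hv ha
    have := length_stk l' a3 O a6
    simp only [y_g1, mem_range]
    omega
  · rintro a ⟨ha, hu⟩
    obtain ⟨l', r', O, rfl, -, -, -, a4, -, -, a7, -⟩ := y_dec hv ha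
    have := length_stk r' a4 _ a7
    simp only [y_g1] at hu
    simp only [y_g2, mem_range]
    omega

theorem Y_cnt (S : Sp) : Yok S := by
  induction S with
  | nil =>
    intro c e U m hU _ he
    simp only [Sp.size] at he
    have key : ∀ a, Yp .nil c e U m a → a = (Tr.nil, U) ∧ U.length = m := by
      rintro ⟨T, O⟩ ⟨h1, -, h3, -, -, h6⟩
      cases T with
      | nil =>
        simp only [Tr.post, stk] at h6 h3
        rw [← h6]
        exact ⟨rfl, h3⟩
      | node l v r => simp [Tr.sp] at h1
    simp only [N]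
    split_ifs with h
    · refine Cnt.one (Tr.nil, U) fun a => ⟨fun ha => (key a ha).1, ?_⟩
      rintro rfl
      have h0 : e = 0 := by omega
      exact ⟨rfl, trivial, h, hU, by rw [h0]; rfl, rfl⟩
    · exact Cnt.zero fun a ha => h (key a ha).2
  | node l r hl hr =>
    intro c e U m hU hc he
    cases U with
    | nil =>
      simp only [N, List.length_nil]
      rw [if_neg (by omega)]
      refine Cnt.zero ?_
      rintro ⟨T, O⟩ ⟨h1, -, -, -, -, h6⟩
      cases T with
      | nil => simp [Tr.sp] at h1
      | node l' v r' =>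
        simp only at h6
        rw [y_stk] at h6
        exact List.cons_ne_nil _ _ h6
    | cons v U =>
      simp only [Sp.size, List.length_cons] at he
      have hv : c + e ≤ v := hc v (by simp)
      have h1 := Y_reduce l r c e v U m (B (.node l r) (m - U.length)) hU hv fun h => by
        have h2 : e = l.size + r.size + (m - U.length) := by omega
        rw [B_eq, h2]
        exact Y_top l r hl hr c v _ (by omega)
      have h3 : N (.node l r) (v :: U).length m =
          if U.length ≤ m then B (.node l r) (m - U.length) else 0 := by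
        simp only [N, List.length_cons, Nat.add_sub_add_right]
        exact if_congr (by omega) rfl rfl
      rw [h3]
      exact h1

end Pool.Agent.P.MP_8acafb_co.T3
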