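import Pool.Agent.P.MP_8acafb_co.T3For
import Pool.Agent.P.MP_8acafb_co.T3Y

namespace Pool.Agent.P.MP_8acafb_co.T3

open Finset

theorem W_cnt (t n : ℕ) :
    Cnt (fun l : List ℕ => l.Perm (List.range n) ∧ s^[t] l = List.range n) (W t n) := by
  refine ⟨_, fun l => ?_, rfl⟩
  simp [List.mem_permutations]

theorem w_range (n : ℕ) : List.range (n + 1) = List.range' 0 n ++ [n] := by
  rw [List.range_succ, List.range_eq_range']

theorem w_cat (T : Tr) : cat [T] = T.post := by simp [cat]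

theorem w_fo {w : List ℕ} {Fl : List Tr} (h : Fo w 1 Fl) :
    ∃ T : Tr, Fl = [T] ∧ T.dec ∧ T.post = w := by
  obtain ⟨h1, h2, h3⟩ := h
  obtain ⟨T, rfl⟩ := List.length_eq_one_iff.1 h1
  exact ⟨T, rfl, (h2 T (by simp)).2, by rw [← h3, w_cat]⟩

theorem w_fib (n : ℕ) (S : Sp) (hS : S.size = n + 1) :
    Cnt (fun p : (Tr × List ℕ) × List Tr => Yp S 0 n [n] 0 p.1 ∧ Fo p.1.1.ino 1 p.2)
      (B S 0 * A S 1) := by
  have h1 := Y_cnt S 0 n [n] 0 (by simp) (by simp) (by simp [hS])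
  have h2 : N S [n].length 0 = B S 0 := by
    cases S with
    | nil => simp [Sp.size] at hS
    | node l r => simp [N]
  rw [h2] at h1
  refine Cnt.prod (Q := fun (a : Tr × List ℕ) (Fl : List Tr) => Fo a.1.ino 1 Fl) h1 ?_
  intro a ha
  have h3 := Fo_cnt a.1 ha.2.1 1
  rwa [ha.1] at h3

theorem W_three (n : ℕ) (hn : 0 < n) (F : Finset Sp) (hF : ∀ S, S ∈ F ↔ S.size = n) :
    W 3 n = ∑ S ∈ F, B S 0 * A S 1 := by
  obtain ⟨n, rfl⟩ : ∃ m, n = m + 1 := ⟨n - 1, by omega⟩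
  have h1 : Cnt (fun p : (Tr × List ℕ) × List Tr =>
      p.1.1.sp.size = n + 1 ∧ Yp p.1.1.sp 0 n [n] 0 p.1 ∧ Fo p.1.1.ino 1 p.2)
      (∑ S ∈ F, B S 0 * A S 1) := by
    refine Cnt.fiber F (fun p => p.1.1.sp) _ (fun p hp => (hF _).2 hp.1) fun S hS => ?_
    refine (w_fib n S ((hF S).1 hS)).congr fun p => ⟨fun hp => ?_, fun hp => ?_⟩
    · have e : p.1.1.sp = S := hp.1.1
      exact ⟨⟨by rw [e]; exact (hF S).1 hS, by rw [e]; exact hp.1, hp.2⟩, e⟩
    · obtain ⟨⟨_, h2, h3⟩, e⟩ := hp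
      have e' : p.1.1.sp = S := e
      exact ⟨by rw [← e']; exact h2, h3⟩
  refine (W_cnt 3 (n + 1)).unique
    (h1.bij (fun p => (p.2.headD .nil).ino) ?_ ?_ ?_)
  · rintro ⟨⟨T, O⟩, Fl⟩ ⟨⟨T', O'⟩, Fl'⟩ ⟨_, hY, hF1⟩ ⟨_, hY', hF1'⟩ he
    obtain ⟨T1, rfl, hd, hp⟩ := w_fo hF1
    obtain ⟨T1', rfl, hd', hp'⟩ := w_fo hF1'
    have e1 : T1 = T1' := ino_inj _ _ hd hd' he
    subst e1
    have e2 : T = T' := ino_inj _ _ hY.2.1 hY'.2.1 (hp.symm.trans hp')
    have e3 : O = [] := List.length_eq_zero_iff.1 hY.2.2.1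
    have e4 : O' = [] := List.length_eq_zero_iff.1 hY'.2.2.1
    rw [e2, e3, e4]
  · rintro ⟨⟨T, O⟩, Fl⟩ ⟨_, hY, hF1⟩
    obtain ⟨T1, rfl, hd, hp⟩ := w_fo hF1
    have e3 : O = [] := List.length_eq_zero_iff.1 hY.2.2.1
    subst e3
    have h3 : s^[3] T1.ino = List.range (n + 1) := by
      show s (s (s T1.ino)) = _
      have ho : out [] T.post = List.range' 0 n := hY.2.2.2.2.1
      have hs : stk [] T.post = [n] := hY.2.2.2.2.2
      have hp' : T1.post = T.ino := hp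
      rw [s_ino T1 hd, hp', s_ino T hY.2.1, w_range, s, pass_eq, ho, hs]
    exact ⟨by rw [← h3]; exact (iter_s_perm 3 _).symm, h3⟩
  · rintro l ⟨hl, h3⟩
    have hnd : l.Nodup := hl.nodup_iff.2 List.nodup_range
    obtain ⟨T1, hd1, e1⟩ := ex_ino l hnd
    obtain ⟨T, hd, e⟩ := ex_ino (s l) ((s_perm l).nodup_iff.2 hnd)
    have hlen : l.length = n + 1 := by rw [hl.length_eq, List.length_range]
    have hp1 : T1.post = T.ino := by rw [e, ← e1, s_ino T1 hd1]
    have hsz : T.sp.size = n + 1 := by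
      rw [← length_post, (post_perm T).length_eq, e, (s_perm l).length_eq, hlen]
    have h4 : out [] T.post ++ stk [] T.post = List.range' 0 n ++ [n] := by
      have h5 : s (s (s l)) = List.range (n + 1) := h3
      rw [← e, s_ino T hd, s, pass_eq] at h5
      rw [h5, w_range]
    have h6 : (stk [] T.post).length = 1 := by
      cases T with
      | nil => simp [Tr.sp, Sp.size] at hsz
      | node a v b => rw [(os_node a b v hd [] (by simp)).2]; simp
    have h7 := List.append_inj' h4 (by simpa using h6)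
    refine ⟨((T, []), [T1]), ⟨hsz, ⟨rfl, hd, rfl, by simp, h7.1, h7.2⟩, rfl, ?_, ?_⟩, e1⟩
    · intro X hX
      rw [List.mem_singleton.1 hX]
      refine ⟨fun h0 => ?_, hd1⟩
      rw [h0] at e1
      rw [← e1] at hlen
      simp [Tr.ino] at hlen
    · rw [w_cat]; exact hp1

theorem mem_HT (S : Sp) : ∀ n, S.size ≤ n → S ∈ HT n := by
  induction S with
  | nil => intro n _; cases n <;> simp [HT]
  | node l r ihl ihr =>
    intro n hn
    cases n with
    | zero => simp [Sp.size] at hn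
    | succ n =>
      simp only [Sp.size] at hn
      simp only [HT, mem_insert, mem_image, mem_product]
      exact Or.inr ⟨(l, r), ⟨ihl n (by omega), ihr n (by omega)⟩, rfl⟩

theorem w_gs (x y z : ℝ) (S : Sp) :
    gs x y z S 0 0 = ((B S 0 * A S 1 : ℕ) : ℝ) * z ^ S.size := by
  simp only [gs, pow_zero, mul_one, zero_add, Nat.cast_mul]
  ring

theorem w_sum (x y z : ℝ) (n : ℕ) (hn : 0 < n) :
    ∑ S ∈ (HT n).filter (fun S => S.size = n), gs x y z S 0 0 = (W 3 n : ℝ) * z ^ n := by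
  rw [W_three n hn ((HT n).filter (fun S => S.size = n))
    (fun S => by
      rw [mem_filter]
      exact ⟨fun h => h.2, fun h => ⟨mem_HT S n h.le, h⟩⟩), Nat.cast_sum, sum_mul]
  refine sum_congr rfl fun S hS => ?_
  rw [w_gs, (mem_filter.1 hS).2]

theorem w_nn (x y z : ℝ) (hz : 0 ≤ z) (S : Sp) : 0 ≤ gs x y z S 0 0 := by
  rw [w_gs]; positivity

theorem W_le_GG (x y z : ℝ) (hz : 0 ≤ z) (n : ℕ) (hn : 0 < n) :
    (W 3 n : ℝ) * z ^ n ≤ GG x y z n 0 0 := by
  rw [← w_sum x y z n hn]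
  exact sum_le_sum_of_subset_of_nonneg (filter_subset _ _) fun S _ _ => w_nn x y z hz S

theorem GG_le (x y z μ : ℝ) (hz : 0 ≤ z) (hμ : 0 ≤ μ) (h : μ * z < 1)
    (hW : ∀ n, (W 3 n : ℝ) ≤ μ ^ n) (n : ℕ) : GG x y z n 0 0 ≤ 1 / (1 - μ * z) := by
  have hq : 0 ≤ μ * z := mul_nonneg hμ hz
  have h1 : GG x y z n 0 0 = ∑ k ∈ range ((HT n).sup Sp.size + 1),
      ∑ S ∈ (HT n).filter (fun S => S.size = k), gs x y z S 0 0 :=
    (sum_fiberwise_of_maps_to (fun S hS => mem_range.2 (Nat.lt_succ_of_le (le_sup hS))) _).symm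
  have h2 : ∀ k, ∑ S ∈ (HT n).filter (fun S => S.size = k), gs x y z S 0 0 ≤ (μ * z) ^ k := by
    intro k
    rcases Nat.eq_zero_or_pos k with rfl | hk
    · refine (sum_eq_zero fun S hS => ?_).le.trans (by positivity)
      have h3 := (mem_filter.1 hS).2
      cases S with
      | nil => simp [w_gs, B]
      | node l r => simp [Sp.size] at h3
    · calc _ ≤ ∑ S ∈ (HT k).filter (fun S => S.size = k), gs x y z S 0 0 := by
            refine sum_le_sum_of_subset_of_nonneg (fun S hS => ?_) fun S _ _ => w_nn x y z hz S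
            have h3 := (mem_filter.1 hS).2
            exact mem_filter.2 ⟨mem_HT S k h3.le, h3⟩
        _ = (W 3 k : ℝ) * z ^ k := w_sum x y z k hk
        _ ≤ (μ * z) ^ k := by
            rw [mul_pow]; exact mul_le_mul_of_nonneg_right (hW k) (pow_nonneg hz k)
  rw [h1, one_div]
  exact (sum_le_sum fun k _ => h2 k).trans
    (sum_le_hasSum _ (fun k _ => pow_nonneg hq k) (hasSum_geometric_of_lt_one hq h))

end Pool.Agent.P.MP_8acafb_co.T3
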