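import Pool.Agent.P.MP_8acafb_co.Fekete
import Pool.Agent.P.MP_8acafb_co.T3Run
import Pool.Agent.P.MP_8acafb_co.T3W
import Pool.Agent.P.MP_8acafb_co.T3G
import Pool.Agent.P.MP_8acafb_co.T3Up2
import Pool.Agent.P.MP_8acafb_co.T3Lo

namespace Pool.Agent.P.MP_8acafb_co.T3

open Finset Filter Topology

theorem no_super (G : Ar) (hG0 : ∀ i j, 0 ≤ G i j)
    (hG : ∀ i j, sh (((1 : ℕ) : ℝ) / (12 : ℕ)) G i j + ((100000 : ℕ) : ℝ) / (969911 : ℕ) *
      R (((1 : ℕ) : ℝ) / (4 : ℕ)) (((1 : ℕ) : ℝ) / (12 : ℕ)) G i j ≤ G i j) : False := by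
  have gP := good_rows 192 320 160 3 dP (by norm_num)
  have gV := good_rows 192 320 160 3 dV (by norm_num)
  have f0 : Fit 191 9 160 18446744073709551616 1 4 1 12 100000000 969918903 := by
    unfold Fit cb lhs rhs lpL; norm_num
  have f1 : Fit 191 9 160 18446744073709551616 1 4 1 12 100000 969911 := by
    unfold Fit cb lhs rhs lpL; norm_num
  have hV := chkV_ok (w := 191) (by norm_num) (by norm_num) (by norm_num) (by norm_num)
    (by norm_num) (by norm_num) (by norm_num) gP gV (by norm_num) (by norm_num) f0 f1 runV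
  refine lower _ _ (((100000000 : ℕ) : ℝ) / (969918903 : ℕ)) _ (by positivity) (by positivity)
    (by positivity) (by norm_num) G hG0 hG 320 160 (by norm_num) (by norm_num) _ _
    (ca_box gP 18446744073709551616) (ca_box gV 18446744073709551616) (fun i hi j hj => ?_)
    (fun i hi j hj => (hV i hi j hj).1) (fun i hi j hj => (hV i hi j hj).2)
  obtain ⟨K, hK, h⟩ := chkP_ok (w := 191) (by norm_num) (by norm_num) (by norm_num) (by norm_num)
    (by norm_num) (by norm_num) (by norm_num) gP (by norm_num) le_rfl f0 runP i hi j hj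
  refine (mul_lt_mul_iff_right₀ hK).1 (lt_of_lt_of_le ?_ h)
  simp

theorem bounded : ∃ C : ℝ, ∀ n, GG (((501 : ℕ) : ℝ) / (2000 : ℕ)) (((329 : ℕ) : ℝ) / (4000 : ℕ))
    (((100000 : ℕ) : ℝ) / (969979 : ℕ)) n 0 0 ≤ C := by
  have gU := good_rows 256 256 160 4 dU (by norm_num)
  have f0 : Fit 255 9 160 18446744073709551616 501 2000 329 4000 100000 969979 := by
    unfold Fit cb lhs rhs lpL; norm_num
  obtain ⟨h1, h2, h3⟩ := sums_ok (D := 18446744073709551616) gU (by norm_num) (by norm_num)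
    (by norm_num) (by norm_num) runS
  refine ⟨_, upper _ _ _ (2275 / 100000000) (by positivity) (by positivity) (by norm_num)
    (by positivity) (by positivity) _ (GG_iter _ _ _ (by positivity) (by positivity)
    (by positivity)) 256 160 _ (ca_box gU 18446744073709551616) (fun i hi j hj => ?_)
    _ _ _ _ _ h1 h2 h3 rfl rfl (by norm_num)⟩
  obtain ⟨K, hK, h⟩ := chkP_ok (w := 255) (by norm_num) (by norm_num) (by norm_num) (by norm_num)
    (by norm_num) (by norm_num) (by norm_num) gU (by norm_num) (Nat.zero_le 1) f0 runU i hi j hj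
  refine (mul_le_mul_iff_right₀ hK).1 (le_trans ?_ h)
  simp

theorem mu_le_of_bound (μ K C : ℝ) (hK : 0 < K)
    (h : Tendsto (fun n : ℕ => (W 3 n : ℝ) ^ (1 / n : ℝ)) atTop (𝓝 μ))
    (hW : ∀ n, 0 < n → (W 3 n : ℝ) ≤ C * K ^ n) : W 3 0 ≤ 1 → μ ≤ K := by
  intro h0
  have key : ∀ m n : ℕ, W 3 n ^ m ≤ W 3 (m * n) := by
    intro m n
    induction m with
    | zero => simpa using Nat.succ_le_of_lt (W_pos 3 0)
    | succ m ih =>
      rw [pow_succ, Nat.succ_mul]
      exact (Nat.mul_le_mul_right _ ih).trans (W_supermul 3 _ _)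
  refine mu_le 3 μ h 1 one_pos K hK.le fun n => ?_
  rw [mul_one, pow_one]
  rcases Nat.eq_zero_or_pos n with rfl | hn
  · simpa using h0
  by_contra hc
  have h1 : 1 < (W 3 n : ℝ) / K ^ n := (one_lt_div (by positivity)).2 (not_le.1 hc)
  obtain ⟨m, hm, hm0⟩ := (((tendsto_pow_atTop_atTop_of_one_lt h1).eventually_gt_atTop C).and
    (eventually_gt_atTop 0)).exists
  have h2 : ((W 3 n : ℝ)) ^ m ≤ W 3 (m * n) := by exact_mod_cast key m n
  have h3 := hW (m * n) (Nat.mul_pos hm0 hn)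
  rw [div_pow, lt_div_iff₀ (by positivity), ← pow_mul, mul_comm n m] at hm
  linarith

theorem main : ∃ μ : ℝ, Tendsto (fun n : ℕ => (W 3 n : ℝ) ^ (1 / n : ℝ)) atTop (𝓝 μ) ∧
    9.6991 < μ ∧ μ < 9.6998 := by
  obtain ⟨μ, h0, h1, h2⟩ := exists_mu 3
  refine ⟨μ, h1, ?_, ?_⟩
  · by_contra hc
    have hz : μ * (((100000 : ℕ) : ℝ) / (969911 : ℕ)) < 1 := by
      have := not_lt.1 hc
      push_cast
      linarith
    obtain ⟨H, hH0, hH⟩ := ex_super (((1 : ℕ) : ℝ) / (4 : ℕ)) (((1 : ℕ) : ℝ) / (12 : ℕ)) _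
      (by positivity) (by positivity) (by positivity) _
      (GG_iter _ _ _ (by positivity) (by positivity) (by positivity)) _
      (GG_le _ _ _ μ (by positivity) h0.le hz h2)
    exact no_super H hH0 hH
  · obtain ⟨C, hC⟩ := bounded
    have := mu_le_of_bound μ (969979 / 100000) C (by norm_num) h1 (fun n hn => by
      have h3 := (W_le_GG _ _ _ (by positivity) n hn).trans (hC n)
      have h4 : (((100000 : ℕ) : ℝ) / (969979 : ℕ)) ^ n * (969979 / 100000) ^ n = 1 := by
        rw [← mul_pow]; norm_num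
      have h5 := mul_le_mul_of_nonneg_right h3 (show (0 : ℝ) ≤ (969979 / 100000) ^ n by positivity)
      rwa [mul_assoc, h4, mul_one] at h5) (by simpa using h2 0)
    linarith

end Pool.Agent.P.MP_8acafb_co.T3
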