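import Pool.Agent.P.MP_8acafb_co.T3Chk

namespace Pool.Agent.P.MP_8acafb_co.T3

open Finset

/-- the real array given by the lanes of the rows, divided by `D` -/
noncomputable def ca (w D : ℕ) (ρ : ℕ → ℕ) : Ar := fun i j => (ln w (ρ i) j : ℝ) / D

variable {ρ σ : ℕ → ℕ} {w I J D xa xb ya yb : ℕ}

theorem ca_box (h : Good w ρ I J) (D : ℕ) : Box I J (ca w D ρ) := by
  refine ⟨fun i j => by simp only [ca]; positivity, fun i j hij => ?_⟩
  rcases hij with hi | hj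
  · simp [ca, h.zero i hi, ln_zero]
  · simp [ca, ln_big w _ J j (h.lt i) hj]

theorem dn_ca (i j : ℕ) : dn (ca w D ρ) i j = (ln w (pv ρ i) j : ℝ) / D := by
  cases i with
  | zero => simp [dn, pv, ln_zero]
  | succ i => rfl

theorem sh_ca (y : ℝ) (i j : ℕ) : sh y (ca w D ρ) i j = y * ((shL w (ρ i) j : ℝ) / D) := by
  cases j with
  | zero => simp [sh, shL]
  | succ j => rfl

theorem Uo_ca (hD : 0 < D) (hb : 0 < xb) (i j : ℕ) :
    Uo ((xa : ℝ) / xb) (ca w D ρ) i j = (upN w xa xb ρ i j : ℝ) / (D * xb ^ 2) := by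
  cases i with
  | zero => simp [Uo, upN]
  | succ i =>
    have e : upN w xa xb ρ (i + 1) j = xb * xb * ln w (ρ (i + 1)) j
      + 2 * (xa * xb) * ln w (ρ i) j + xa * xa * ln w (pv ρ i) j := rfl
    simp only [Uo, dn_ca, e, ca]
    push_cast
    field_simp

theorem Vo_ca (hD : 0 < D) (ha : 0 < ya) (hb : 0 < yb) (i j : ℕ) :
    Vo ((ya : ℝ) / yb) (ca w D ρ) i j = (vpN w ya yb ρ i j : ℝ) / (D * ya) := by
  simp only [Vo, vpN, ca]
  split_ifs
  · push_cast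
    field_simp
  · push_cast
    field_simp
    ring

theorem Lin_ca (hD : 0 < D) (ha : 0 < xa) (hb : 0 < xb) (i j : ℕ) :
    Lin ((xa : ℝ) / xb) (ca w D ρ) i j =
      (lpL xa xb (ln w (ρ (i + 1)) j) (ln w (ρ i) j) (ln w (pv ρ i) j) : ℝ) / (D * xa * xb) := by
  simp only [Lin, dn_ca, lpL, ca]
  push_cast
  field_simp

theorem cv2_ca (hD : 0 < D) (hb : 0 < xb) (hya : 0 < ya) (hyb : 0 < yb) (i j : ℕ) :
    cv2 (Uo ((xa : ℝ) / xb) (ca w D ρ)) (Vo ((ya : ℝ) / yb) (ca w D σ)) i j =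
      (cvN (upN w xa xb ρ) (vpN w ya yb σ) i j : ℝ) / (D * xb ^ 2 * (D * ya)) := by
  simp only [cv2, cvN, Uo_ca hD hb, Vo_ca hD hya hyb, div_mul_div_comm, ← sum_div]
  push_cast
  rfl

/-- cleared form of the right side -/
def rhs (D xa xb ya yb za zb s l c : ℕ) : ℕ :=
  D * xa * xb * xb * ya * ya * zb * s + za * D * xb * ya * yb * l + za * xa * yb * c

/-- cleared form of the left side -/
def lhs (D xa xb ya yb zb e : ℕ) : ℕ := D * xa * xb * xb * ya * yb * zb * e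

noncomputable def dl (D xa xb ya yb za t : ℕ) : ℕ :=
  Nat.rec (za * D * D * xa * xb * xb * ya * yb) (fun _ _ => 0) t

theorem dl_eq (za i j : ℕ) : (dl D xa xb ya yb za (i + j) : ℝ) =
    za * D * D * xa * xb * xb * ya * yb * del i j := by
  rcases h : i + j with _ | t
  · have h1 : i = 0 ∧ j = 0 := by omega
    simp [dl, del, h1]
  · have h1 : ¬ (i = 0 ∧ j = 0) := by omega
    simp [dl, del, h1]

theorem dl_le (za t : ℕ) : dl D xa xb ya yb za t ≤ za * D * D * xa * xb * xb * ya * yb := by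
  cases t with
  | zero => exact le_rfl
  | succ t => exact Nat.zero_le _

theorem dl_pk (za i q n : ℕ) (hn : 0 < n) :
    dl D xa xb ya yb za i = pk1 q n fun j => dl D xa xb ya yb za (i + j) := by
  obtain ⟨n, rfl⟩ : ∃ k, n = k + 1 := ⟨n - 1, by omega⟩
  have h : ∀ k, dl D xa xb ya yb za (i + (k + 1)) = 0 := fun k => rfl
  simp [pk1, sum_range_succ', h]

theorem lhs_pk (zb q n : ℕ) (e : ℕ → ℕ) :
    lhs D xa xb ya yb zb (pk1 q n e) = pk1 q n fun j => lhs D xa xb ya yb zb (e j) := by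
  simp only [lhs, pk1, mul_sum, mul_assoc]

theorem rhs_pk (za zb q n : ℕ) (s l c : ℕ → ℕ) :
    rhs D xa xb ya yb za zb (pk1 q n s) (pk1 q n l) (pk1 q n c) =
      pk1 q n fun j => rhs D xa xb ya yb za zb (s j) (l j) (c j) := pk1_lin _ _ _ _ _ _ _ _

theorem pk1_add (q n : ℕ) (f g : ℕ → ℕ) : pk1 q n f + pk1 q n g = pk1 q n fun j => f j + g j := by
  simp only [pk1, add_mul, sum_add_distrib]

theorem clear (hD : 0 < D) (ha : 0 < xa) (hb : 0 < xb) (hya : 0 < ya) (hyb : 0 < yb)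
    (za zb : ℕ) (hzb : 0 < zb) (e s l c : ℕ) (δ : ℝ) : ∃ K : ℝ, 0 < K ∧
    (lhs D xa xb ya yb zb e : ℝ) = K * ((e : ℝ) / D) ∧
    (rhs D xa xb ya yb za zb s l c : ℝ) + za * D * D * xa * xb * xb * ya * yb * δ =
      K * ((ya : ℝ) / yb * ((s : ℝ) / D) + (za : ℝ) / zb *
        (δ + (l : ℝ) / (D * xa * xb) + (c : ℝ) / (D * xb ^ 2 * (D * ya)))) := by
  refine ⟨(D : ℝ) * D * xa * xb * xb * ya * yb * zb, by positivity, ?_, ?_⟩
  · rw [lhs]; push_cast; field_simp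
  · rw [rhs]; push_cast; field_simp; ring

/-- bound for the lanes of one product -/
def cb (d J xa xb ya yb : ℕ) : ℕ := 2 * 2 ^ d * (2 * J * ((xa + xb) ^ 2 * 18446744073709551615
    * ((ya + yb) * 18446744073709551615)))

/-- size condition for the lanes -/
def Fit (w d J D xa xb ya yb za zb : ℕ) : Prop :=
  2 * cb d J xa xb ya yb < 2 ^ w ∧ lhs D xa xb ya yb zb 18446744073709551615 + 1 < 2 ^ w ∧
    rhs D xa xb ya yb za zb 18446744073709551615
      (lpL xa xb 18446744073709551615 18446744073709551615 18446744073709551615)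
      (2 * cb d J xa xb ya yb) + za * D * D * xa * xb * xb * ya * yb + 1 < 2 ^ w

theorem cv_fit (h : Good w ρ I J) (h' : Good w σ I J) (d : ℕ) (i : ℕ) (hi : i < 2 * 2 ^ d) (j : ℕ)
    (hj : j < 2 * J) : cvN (upN w xa xb ρ) (vpN w ya yb σ) i j ≤ cb d J xa xb ya yb :=
  (cvN_le _ _ _ _ (upN_le h xa xb) (vpN_le h' ya yb) i j).trans
    (Nat.mul_le_mul hi (Nat.mul_le_mul_right _ hj))

theorem lhs_fit (h : Good w ρ I J) (zb i j : ℕ) :
    lhs D xa xb ya yb zb (ln w (ρ i) j) ≤ lhs D xa xb ya yb zb 18446744073709551615 :=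
  Nat.mul_le_mul_left _ (h.le i j)

theorem rhs_fit (h : Good w ρ I J) (za zb i j c C : ℕ) (hc : c ≤ C) :
    rhs D xa xb ya yb za zb (shL w (ρ i) j)
      (lpL xa xb (ln w (ρ (i + 1)) j) (ln w (ρ i) j) (ln w (pv ρ i) j)) c ≤
    rhs D xa xb ya yb za zb 18446744073709551615
      (lpL xa xb 18446744073709551615 18446744073709551615 18446744073709551615) C := by
  have h1 : shL w (ρ i) j ≤ 18446744073709551615 := by
    cases j with
    | zero => exact Nat.zero_le _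
    | succ j => exact h.le i j
  have h2 := h.le (i + 1) j
  have h3 := h.le i j
  have h4 := h.pv_le i j
  unfold rhs lpL
  gcongr

theorem big_mul (h : Good w ρ I J) (h' : Good w σ I J) (hJ : 0 < J) (d : ℕ)
    (hI : I + 2 ≤ 2 ^ d) : bigU w d I J xa xb ρ * bigV w d I J ya yb σ =
      pk2 (2 ^ w) (2 * J) (2 * 2 ^ d) (2 * J) (cvN (upN w xa xb ρ) (vpN w ya yb σ)) := by
  rw [bigU_eq h, bigV_eq h' hJ, pk2_mul]
  · exact fun i j hij => upN_supp h xa xb i j (by omega)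
  · exact fun i j hij => vpN_supp h' ya yb i j (by omega)

/-- check of `P + m / K ≤ sh P + z R P` -/
noncomputable def chkP (w d I J D xa xb ya yb za zb m : ℕ) (ρ : ℕ → ℕ) : Bool :=
  run (Nat.succ w) d I J xa xb ρ (fun t e s l c => leR w J m (lhs D xa xb ya yb zb e)
      (Nat.add (rhs D xa xb ya yb za zb s l c) (dl D xa xb ya yb za t)))
    (Nat.mul (bigU (Nat.succ w) d I J xa xb ρ) (bigV (Nat.succ w) d I J ya yb ρ))

/-- check of `sh v + z Lam v < v ≤ sh v + z' Lam v` -/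
noncomputable def chkV (w d I J D xa xb ya yb za zb za' zb' : ℕ) (ρ σ : ℕ → ℕ) : Bool :=
  run (Nat.succ w) d I J xa xb σ (fun _ e s l c =>
      and (leR w J 1 (rhs D xa xb ya yb za zb s l c) (lhs D xa xb ya yb zb e))
        (leR w J 0 (lhs D xa xb ya yb zb' e) (rhs D xa xb ya yb za' zb' s l c)))
    (Nat.add (Nat.mul (bigU (Nat.succ w) d I J xa xb ρ) (bigV (Nat.succ w) d I J ya yb σ))
      (Nat.mul (bigU (Nat.succ w) d I J xa xb σ) (bigV (Nat.succ w) d I J ya yb ρ)))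

section ok
variable (hD : 0 < D) (ha : 0 < xa) (hb : 0 < xb) (hya : 0 < ya) (hyb : 0 < yb)
  {d : ℕ} (hI : I + 2 ≤ 2 ^ d) (hJ : 0 < J)
include hD ha hb hya hyb hI hJ

theorem chkP_ok (h : Good (w + 1) ρ I J) {za zb m : ℕ} (hzb : 0 < zb) (hm : m ≤ 1)
    (hF : Fit w d J D xa xb ya yb za zb)
    (hc : chkP w d I J D xa xb ya yb za zb m ρ = true) (i : ℕ) (hi : i < I) (j : ℕ)
    (hj : j < J) : ∃ K : ℝ, 0 < K ∧ K * ca (w + 1) D ρ i j + m ≤
      K * (sh ((ya : ℝ) / yb) (ca (w + 1) D ρ) i j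
        + (za : ℝ) / zb * R ((xa : ℝ) / xb) ((ya : ℝ) / yb) (ca (w + 1) D ρ) i j) := by
  have e : chkP w d I J D xa xb ya yb za zb m ρ = run (w + 1) d I J xa xb ρ
    (fun t e s l c => leR w J m (lhs D xa xb ya yb zb e)
      (rhs D xa xb ya yb za zb s l c + dl D xa xb ya yb za t))
    (bigU (w + 1) d I J xa xb ρ * bigV (w + 1) d I J ya yb ρ) := rfl
  obtain ⟨f1, f2, f3⟩ := hF
  have hq : 2 ^ (w + 1) = 2 * 2 ^ w := pow_succ' 2 w
  have hcv := cv_fit (xa := xa) (xb := xb) (ya := ya) (yb := yb) h h d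
  rw [e, big_mul h h hJ d hI] at hc
  have h1 := run_ok h hJ _ _ _ _ _ (fun i hi j hj => by have := hcv i hi j hj; omega) (by omega)
    hc i hi
  rw [lhs_pk, rhs_pk, dl_pk za i (2 ^ (w + 1)) (2 * J) (by omega), pk1_add] at h1
  have h2 := leR_ok w J m _ _ _ (by omega)
    (fun k _ => by have := lhs_fit (D := D) (xa := xa) (xb := xb) (ya := ya) (yb := yb) h zb i k
                   omega)
    (fun k hk => by
      have h3 := rhs_fit (D := D) (xa := xa) (xb := xb) (ya := ya) (yb := yb) h za zb i k _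
        (2 * cb d J xa xb ya yb) ((hcv i (by omega) k hk).trans (by omega))
      have h4 := dl_le (D := D) (xa := xa) (xb := xb) (ya := ya) (yb := yb) za (i + k)
      omega) h1 j hj
  obtain ⟨K, hK, e1, e2⟩ := clear hD ha hb hya hyb za zb hzb (ln (w + 1) (ρ i) j)
    (shL (w + 1) (ρ i) j)
    (lpL xa xb (ln (w + 1) (ρ (i + 1)) j) (ln (w + 1) (ρ i) j) (ln (w + 1) (pv ρ i) j))
    (cvN (upN (w + 1) xa xb ρ) (vpN (w + 1) ya yb ρ) i j) (del i j)
  refine ⟨K, hK, ?_⟩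
  rw [R, sh_ca, Lin_ca hD ha hb, cv2_ca hD hb hya hyb, ← e2, ca, ← e1, ← dl_eq]
  exact_mod_cast h2

theorem chkV_ok (h : Good (w + 1) ρ I J) (h' : Good (w + 1) σ I J) {za zb za' zb' : ℕ}
    (hzb : 0 < zb) (hzb' : 0 < zb') (hF : Fit w d J D xa xb ya yb za zb)
    (hF' : Fit w d J D xa xb ya yb za' zb')
    (hc : chkV w d I J D xa xb ya yb za zb za' zb' ρ σ = true) (i : ℕ)
    (hi : i < I) (j : ℕ) (hj : j < J) :
    sh ((ya : ℝ) / yb) (ca (w + 1) D σ) i j + (za : ℝ) / zb * Lam ((xa : ℝ) / xb) ((ya : ℝ) / yb)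
      (ca (w + 1) D ρ) (ca (w + 1) D σ) i j < ca (w + 1) D σ i j ∧
    ca (w + 1) D σ i j ≤ sh ((ya : ℝ) / yb) (ca (w + 1) D σ) i j + (za' : ℝ) / zb' *
      Lam ((xa : ℝ) / xb) ((ya : ℝ) / yb) (ca (w + 1) D ρ) (ca (w + 1) D σ) i j := by
  have e : chkV w d I J D xa xb ya yb za zb za' zb' ρ σ = run (w + 1) d I J xa xb σ
    (fun _ e s l c => and (leR w J 1 (rhs D xa xb ya yb za zb s l c) (lhs D xa xb ya yb zb e))
      (leR w J 0 (lhs D xa xb ya yb zb' e) (rhs D xa xb ya yb za' zb' s l c)))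
    (bigU (w + 1) d I J xa xb ρ * bigV (w + 1) d I J ya yb σ
      + bigU (w + 1) d I J xa xb σ * bigV (w + 1) d I J ya yb ρ) := rfl
  obtain ⟨f1, f2, f3⟩ := hF
  obtain ⟨-, f4, f5⟩ := hF'
  have hq : 2 ^ (w + 1) = 2 * 2 ^ w := pow_succ' 2 w
  have hcv : ∀ i < 2 * 2 ^ d, ∀ j < 2 * J, cvN (upN (w + 1) xa xb ρ) (vpN (w + 1) ya yb σ) i j
      + cvN (upN (w + 1) xa xb σ) (vpN (w + 1) ya yb ρ) i j ≤ 2 * cb d J xa xb ya yb := by
    intro i hi j hj
    have h3 := cv_fit (xa := xa) (xb := xb) (ya := ya) (yb := yb) h h' d i hi j hj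
    have h4 := cv_fit (xa := xa) (xb := xb) (ya := ya) (yb := yb) h' h d i hi j hj
    omega
  rw [e, big_mul h h' hJ d hI, big_mul h' h hJ d hI, pk2_add] at hc
  have h1 := run_ok h' hJ _ _ _ _ _ (fun i hi j hj => by have := hcv i hi j hj; omega) (by omega)
    hc i hi
  rw [lhs_pk, lhs_pk, rhs_pk, rhs_pk, Bool.and_eq_true] at h1
  have hl := lhs_fit (D := D) (xa := xa) (xb := xb) (ya := ya) (yb := yb) h'
  have hr := fun za zb k hk => rhs_fit (D := D) (xa := xa) (xb := xb) (ya := ya) (yb := yb) h'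
    za zb i k _ _ (hcv i (by omega) k hk)
  have h2 := leR_ok w J 1 _ _ _ (by omega) (fun k hk => by have := hr za zb k hk; omega)
    (fun k _ => by have := hl zb i k; omega) h1.1 j hj
  have h3 := leR_ok w J 0 _ _ _ (by omega) (fun k _ => by have := hl zb' i k; omega)
    (fun k hk => by have := hr za' zb' k hk; omega) h1.2 j hj
  have hL : Lam ((xa : ℝ) / xb) ((ya : ℝ) / yb) (ca (w + 1) D ρ) (ca (w + 1) D σ) i j = 0 +
      (lpL xa xb (ln (w + 1) (σ (i + 1)) j) (ln (w + 1) (σ i) j) (ln (w + 1) (pv σ i) j) : ℝ)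
        / (D * xa * xb) +
      ((cvN (upN (w + 1) xa xb ρ) (vpN (w + 1) ya yb σ) i j
        + cvN (upN (w + 1) xa xb σ) (vpN (w + 1) ya yb ρ) i j : ℕ) : ℝ)
        / (D * xb ^ 2 * (D * ya)) := by
    rw [Lam, Lin_ca hD ha hb, cv2_ca hD hb hya hyb, cv2_ca hD hb hya hyb]
    push_cast
    ring
  rw [hL, sh_ca, ca]
  constructor
  · obtain ⟨K, hK, e1, e2⟩ := clear hD ha hb hya hyb za zb hzb (ln (w + 1) (σ i) j)
      (shL (w + 1) (σ i) j)
      (lpL xa xb (ln (w + 1) (σ (i + 1)) j) (ln (w + 1) (σ i) j) (ln (w + 1) (pv σ i) j)) _ 0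
    rw [← mul_lt_mul_iff_right₀ hK, ← e1, ← e2, mul_zero, add_zero]
    exact_mod_cast h2
  · obtain ⟨K, hK, e1, e2⟩ := clear hD ha hb hya hyb za' zb' hzb' (ln (w + 1) (σ i) j)
      (shL (w + 1) (σ i) j)
      (lpL xa xb (ln (w + 1) (σ (i + 1)) j) (ln (w + 1) (σ i) j) (ln (w + 1) (pv σ i) j)) _ 0
    rw [← mul_le_mul_iff_right₀ hK, ← e1, ← e2, mul_zero, add_zero]
    exact_mod_cast h3

end ok

/-- total, first row and first column -/
noncomputable def sums (w d a I J p r c : ℕ) (ρ : ℕ → ℕ) : Bool :=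
  fB (pkT 0 I ρ d 0) fun T => fB (ρ 0) fun r0 => and (Nat.beq (pkT 0 J (ln w T) a 0) p)
    (and (Nat.beq (pkT 0 J (ln w r0) a 0) r) (Nat.beq (ln w T 0) c))

theorem pkT_sum (n d : ℕ) (f : ℕ → ℕ) (hf : ∀ k, n ≤ k → f k = 0) (hn : n ≤ 2 ^ d) :
    pkT 0 n f d 0 = ∑ k ∈ range n, f k := by
  rw [pkT_eq 0 n f hf, pk1]
  simp only [pow_zero, one_pow, mul_one, zero_add]
  exact (sum_subset (range_subset_range.2 hn) fun k _ hk => hf k (by simpa using hk)).symm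

theorem sums_ok (h : Good w ρ I J) {d a p r c : ℕ} (hI : I ≤ 2 ^ d) (hJ : J ≤ 2 ^ a)
    (hJ0 : 0 < J) (hw : I * 18446744073709551615 < 2 ^ w)
    (hs : sums w d a I J p r c ρ = true) :
    (p : ℝ) / D = ∑ i ∈ range I, ∑ j ∈ range J, ca w D ρ i j ∧
      (r : ℝ) / D = ∑ j ∈ range J, ca w D ρ 0 j ∧ (c : ℝ) / D = ∑ i ∈ range I, ca w D ρ i 0 := by
  have hT : ∑ i ∈ range I, ρ i = pk1 (2 ^ w) J fun j => ∑ i ∈ range I, ln w (ρ i) j := by
    rw [sum_congr rfl fun i _ => (pk1_ln w _ J (h.lt i)).symm]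
    simp only [pk1, sum_mul]
    rw [sum_comm]
  have hb : ∀ k < J, ∑ i ∈ range I, ln w (ρ i) k < 2 ^ w := fun k _ => by
    have := sum_le_card_nsmul (range I) _ _ fun i _ => h.le i k
    simp only [card_range, smul_eq_mul] at this
    omega
  simp only [sums, Bool.and_eq_true, Nat.beq_eq, fB_eq] at hs
  rw [pkT_sum I d _ h.zero hI, hT,
    pkT_sum J a _ (fun k hk => ln_big w _ J k (pk1_lt _ _ _ hb) hk) hJ,
    pkT_sum J a _ (fun k hk => ln_big w _ J k (h.lt 0) hk) hJ, ln_pk1 _ _ _ hb 0 hJ0,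
    sum_congr rfl fun k hk => ln_pk1 _ _ _ hb k (mem_range.1 hk), sum_comm] at hs
  obtain ⟨rfl, rfl, rfl⟩ := hs
  simp only [ca, ← sum_div]
  push_cast
  exact ⟨rfl, rfl, rfl⟩

end Pool.Agent.P.MP_8acafb_co.T3
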