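import Pool.Agent.P.MP_8acafb_co.T3Cnt
import Pool.Agent.P.MP_8acafb_co.T3Tree

namespace Pool.Agent.P.MP_8acafb_co.T3

open Finset

theorem red_cv (f g : ℕ → ℕ) (m : ℕ) :
    ∑ j ∈ range (m + 1), cv f (vB g) j
      = ∑ a ∈ range (m + 1), f a * ∑ b ∈ range (m + 1 - a + 1), g b := by
  induction m with
  | zero => simp [cv, vB, sum_range_succ, add_comm]
  | succ m ih =>
    rw [sum_range_succ, ih, cv, Finset.Nat.sum_antidiagonal_eq_sum_range_succ_mk,
      sum_range_succ _ (m + 1), sum_range_succ _ (m + 1), ← add_assoc, ← sum_add_distrib]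
    congr 1
    · refine sum_congr rfl fun a ha => ?_
      have ha' : a < m + 1 := mem_range.1 ha
      have e1 : m + 1 + 1 - a = m + 1 - a + 1 := by omega
      have e2 : ¬ (m + 1 - a = 0) := by omega
      rw [e1, sum_range_succ g (m + 1 - a + 1), mul_add]
      simp [vB, e2]
    · simp [vB, sum_range_succ, add_comm]

theorem red_M_nil (u : ℕ) : ∑ p ∈ range (u + 2), N .nil p u = 1 := by
  simp [N]

theorem red_N_node (a b : Sp) (F : ℕ → ℕ) (m : ℕ) :
    ∑ u ∈ range (m + 2), F u * N (.node a b) u m
      = ∑ i ∈ range (m + 1), B (.node a b) i * F (m + 1 - i) := by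
  rw [sum_range_succ', ← sum_range_reflect (fun i => B (.node a b) i * F (m + 1 - i))]
  have h0 : N (.node a b) 0 m = 0 := by simp [N]
  rw [h0, mul_zero, add_zero]
  refine sum_congr rfl fun i hi => ?_
  have hi' : i < m + 1 := mem_range.1 hi
  have e1 : m + 1 - (m + 1 - 1 - i) = i + 1 := by omega
  have e2 : m + 1 - (i + 1) = m + 1 - 1 - i := by omega
  have e3 : 1 ≤ i + 1 ∧ i + 1 ≤ m + 1 := by omega
  rw [e1, N, if_pos e3, e2, mul_comm]

theorem red_M_node (a b : Sp) (u : ℕ) :
    ∑ p ∈ range (u + 2), N (.node a b) p u = ∑ i ∈ range (u + 1), B (.node a b) i := by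
  simpa using red_N_node a b (fun _ => 1) u

theorem red_B_node (l r : Sp) (m : ℕ) : B (.node l r) m = ∑ j ∈ range (m + 1),
      (l.isN * r.isN * (if j = 0 then 1 else 0) + r.isN * B l j + l.isN * B r j
        + cv (B l) (vB (B r)) j) := rfl

theorem red_B_nil (j : ℕ) : B .nil j = 0 := rfl

theorem B_eq (l r : Sp) (m : ℕ) :
    B (.node l r) m = ∑ u ∈ range (m + 2), ∑ p ∈ range (u + 2), N r p u * N l u m := by
  simp only [← sum_mul]
  rw [red_B_node]
  cases l with
  | nil =>
    have h1 : ∑ u ∈ range (m + 2), (∑ p ∈ range (u + 2), N r p u) * N .nil u m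
        = ∑ p ∈ range (m + 2), N r p m := by
      simp [N]
    rw [h1]
    cases r with
    | nil => rw [red_M_nil]; simp [Sp.isN, red_B_nil, cv]
    | node a b => rw [red_M_node]; simp [Sp.isN, red_B_nil, cv]
  | node a b =>
    rw [red_N_node]
    cases r with
    | nil => simp only [red_M_nil]; simp [Sp.isN, red_B_nil, cv, vB]
    | node a' b' =>
      simp only [red_M_node]
      rw [← red_cv]
      simp [Sp.isN]

theorem Y_reduce (l r : Sp) (c e v : ℕ) (U : List ℕ) (m n : ℕ)
    (hU : (v :: U).Pairwise (· < ·)) (hv : c + e ≤ v)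
    (h : U.length ≤ m → Cnt (Yp (.node l r) c e [v] (m - U.length)) n) :
    Cnt (Yp (.node l r) c e (v :: U) m) (if U.length ≤ m then n else 0) := by
  have key : ∀ (T : Tr) (O : List ℕ), Yp (.node l r) c e (v :: U) m (T, O) →
      U.length ≤ m ∧ O.takeWhile (· < v) ++ U = O ∧
        Yp (.node l r) c e [v] (m - U.length) (T, O.takeWhile (· < v)) := by
    intro T O hp
    obtain ⟨h1, h2, h3, h4, h5, h6⟩ := hp
    cases T with
    | nil => simp [Tr.sp] at h1
    | node l' v' r' =>
      dsimp only at h1 h2 h3 h4 h5 h6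
      have h7 := os_node l' r' v' h2 O h4
      rw [h7.2] at h6
      obtain ⟨rfl, h8⟩ := List.cons.inj h6
      have h9 : O.takeWhile (· < v') ++ U = O := by
        rw [← h8]; exact List.takeWhile_append_dropWhile
      have h10 : (O.takeWhile (· < v')).length + U.length = m := by
        rw [← List.length_append, h9, h3]
      have h11 : (O.takeWhile (· < v')).Pairwise (· < ·) := h4.sublist (List.takeWhile_sublist _)
      refine ⟨by omega, h9, h1, h2, by dsimp only; omega, h11, ?_, ?_⟩
      · dsimp only; rw [← h7.1, h5]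
      · dsimp only
        rw [(os_node l' r' v' h2 _ h11).2]
        congr 1
        rw [List.dropWhile_eq_nil_iff]
        intro x hx
        exact List.mem_takeWhile_imp (p := fun x => decide (x < v')) hx
  split_ifs with hm
  · refine (h hm).bij (fun p => (p.1, p.2 ++ U)) ?_ ?_ ?_
    · rintro ⟨T, O⟩ ⟨T', O'⟩ _ _ hab
      simp only [Prod.mk.injEq, List.append_cancel_right_eq] at hab
      exact Prod.ext hab.1 hab.2
    · rintro ⟨T, O⟩ ⟨h1, h2, h3, h4, h5, h6⟩
      dsimp only at h1 h2 h3 h4 h5 h6
      have hp := os_perm T.post O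
      rw [h5, h6] at hp
      have hle : ∀ x ∈ O ++ T.post, x ≤ v := by
        intro x hx
        rcases List.mem_append.1 (hp.symm.subset hx) with hx | hx
        · have := List.mem_range'_1.1 hx; omega
        · exact (List.mem_singleton.1 hx).le
      have hUv : ∀ y ∈ U, v < y := (List.pairwise_cons.1 hU).1
      have hb := os_big T.post O U fun x hx y hy => by
        have := hle x (List.mem_append_right _ hx)
        have := hUv y hy
        omega
      refine ⟨h1, h2, ?_, ?_, ?_, ?_⟩
      · dsimp only; rw [List.length_append]; omega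
      · dsimp only
        refine List.pairwise_append.2 ⟨h4, (List.pairwise_cons.1 hU).2, fun x hx y hy => ?_⟩
        exact (hle x (List.mem_append_left _ hx)).trans_lt (hUv y hy)
      · dsimp only; rw [hb.1, h5]
      · dsimp only; rw [hb.2, h6]; rfl
    · rintro ⟨T, O⟩ hp
      obtain ⟨_, h2, h3⟩ := key T O hp
      exact ⟨_, h3, by simp [h2]⟩
  · exact Cnt.zero fun p hp => hm (key p.1 p.2 hp).1

end Pool.Agent.P.MP_8acafb_co.T3
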