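import Pool.Agent.P.MP_8acafb_co.T3Mono

namespace Pool.Agent.P.MP_8acafb_co.T3

open Finset

theorem up_one (F : ℕ → ℝ) (hF : ∀ i, 0 ≤ F i) {a b : ℕ} (h : a ≤ b) :
    ∑ i ∈ range a, F i ≤ ∑ i ∈ range b, F i :=
  sum_le_sum_of_subset_of_nonneg (range_mono h) fun i _ _ => hF i

theorem up_rect (f : Ar) (hf : ∀ i j, 0 ≤ f i j) {a a' b b' : ℕ} (h : a ≤ a') (h' : b ≤ b') :
    ∑ i ∈ range a, ∑ j ∈ range b, f i j ≤ ∑ i ∈ range a', ∑ j ∈ range b', f i j :=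
  (sum_le_sum fun i _ => up_one (f i) (hf i) h').trans
    (up_one (fun i => ∑ j ∈ range b', f i j) (fun i => sum_nonneg fun j _ => hf i j) h)

theorem up_anti (F : ℕ × ℕ → ℝ) (hF : ∀ p, 0 ≤ F p) (M : ℕ) :
    ∑ k ∈ range M, ∑ p ∈ antidiagonal k, F p ≤ ∑ a ∈ range M, ∑ b ∈ range M, F (a, b) := by
  rw [← sum_product (range M) (range M) F, ← sum_biUnion]
  · refine sum_le_sum_of_subset_of_nonneg ?_ fun p _ _ => hF p
    intro p hp
    obtain ⟨k, hk, hp⟩ := mem_biUnion.1 hp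
    have h1 := mem_range.1 hk
    have h2 := mem_antidiagonal.1 hp
    exact mem_product.2 ⟨mem_range.2 (by omega), mem_range.2 (by omega)⟩
  · intro a _ b _ hab
    refine disjoint_left.2 fun p h1 h2 => hab ?_
    rw [← mem_antidiagonal.1 h1, ← mem_antidiagonal.1 h2]

theorem up_row (f : Ar) (hf : ∀ i j, 0 ≤ f i j) (M : ℕ) :
    ∑ i ∈ range M, ∑ j ∈ range M, f (i + 1) j ≤ nm (M + 1) f - ∑ j ∈ range (M + 1), f 0 j := by
  rw [nm, sum_range_succ' _ M, add_sub_cancel_right]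
  exact up_rect (fun i j => f (i + 1) j) (fun i j => hf _ _) le_rfl (Nat.le_succ M)

theorem up_col (f : Ar) (hf : ∀ i j, 0 ≤ f i j) (M : ℕ) :
    ∑ i ∈ range M, ∑ j ∈ range M, f i (j + 1) ≤ nm (M + 1) f - ∑ i ∈ range (M + 1), f i 0 := by
  have h : nm (M + 1) f = ∑ i ∈ range (M + 1), ∑ j ∈ range M, f i (j + 1)
      + ∑ i ∈ range (M + 1), f i 0 := by
    rw [nm, ← sum_add_distrib]
    exact sum_congr rfl fun i _ => sum_range_succ' _ M
  rw [h, add_sub_cancel_right]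
  exact up_rect (fun i j => f i (j + 1)) (fun i j => hf _ _) (Nat.le_succ M) le_rfl

theorem up_dn (f : Ar) (hf : ∀ i j, 0 ≤ f i j) (a b : ℕ) :
    ∑ i ∈ range a, ∑ j ∈ range b, dn f i j ≤ ∑ i ∈ range a, ∑ j ∈ range b, f i j := by
  cases a with
  | zero => simp
  | succ a =>
    rw [sum_range_succ' _ a]
    simp only [dn, sum_const_zero, add_zero]
    exact up_rect f hf (Nat.le_succ a) le_rfl

theorem nm_cv2 (f g : Ar) (hf : ∀ i j, 0 ≤ f i j) (hg : ∀ i j, 0 ≤ g i j) (M : ℕ) :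
    nm M (cv2 f g) ≤ nm M f * nm M g := by
  have h1 : nm M (cv2 f g) = ∑ i ∈ range M, ∑ p ∈ antidiagonal i,
      ∑ j ∈ range M, ∑ q ∈ antidiagonal j, f p.1 q.1 * g p.2 q.2 := by
    simp only [nm, cv2]
    exact sum_congr rfl fun i _ => sum_comm
  have h2 : nm M f * nm M g = ∑ a ∈ range M, ∑ b ∈ range M,
      ∑ c ∈ range M, ∑ d ∈ range M, f a c * g b d := by
    simp only [nm]
    rw [sum_mul_sum]
    exact sum_congr rfl fun a _ => sum_congr rfl fun b _ => sum_mul_sum _ _ _ _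
  rw [h1, h2]
  refine (up_anti (fun p => ∑ j ∈ range M, ∑ q ∈ antidiagonal j, f p.1 q.1 * g p.2 q.2)
    (fun p => sum_nonneg fun _ _ => sum_nonneg fun _ _ => mul_nonneg (hf _ _) (hg _ _)) M).trans ?_
  exact sum_le_sum fun a _ => sum_le_sum fun b _ =>
    up_anti (fun q => f a q.1 * g b q.2) (fun q => mul_nonneg (hf _ _) (hg _ _)) M

theorem nm_sh (y : ℝ) (hy : 0 ≤ y) (f : Ar) (hf : ∀ i j, 0 ≤ f i j) (M : ℕ) :
    nm M (sh y f) ≤ y * nm M f := by
  simp only [nm]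
  rw [mul_sum]
  refine sum_le_sum fun i _ => ?_
  cases M with
  | zero => simp
  | succ M =>
    rw [sum_range_succ' _ M]
    simp only [sh, add_zero]
    rw [← mul_sum]
    exact mul_le_mul_of_nonneg_left (up_one (f i) (hf i) (Nat.le_succ M)) hy

theorem nm_Uo (x : ℝ) (hx : 0 ≤ x) (f : Ar) (hf : ∀ i j, 0 ≤ f i j) (M : ℕ) :
    nm M (Uo x f) ≤ (1 + x) ^ 2 * nm (M + 1) f - ∑ j ∈ range (M + 1), f 0 j := by
  have h0 : nm M (Uo x f) ≤ ∑ i ∈ range M, ∑ j ∈ range M, Uo x f (i + 1) j := by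
    refine (up_rect _ (Uo_nonneg hx hf) (Nat.le_succ M) le_rfl).trans ?_
    rw [sum_range_succ' _ M]
    simp only [Uo, sum_const_zero, add_zero, le_refl]
  have h1 := up_row f hf M
  have h2 : ∑ i ∈ range M, ∑ j ∈ range M, f i j ≤ nm (M + 1) f :=
    up_rect f hf (Nat.le_succ M) (Nat.le_succ M)
  have h3 := (up_dn f hf M M).trans h2
  simp only [Uo, sum_add_distrib, ← mul_sum] at h0
  have h4 := mul_le_mul_of_nonneg_left h2 (show 0 ≤ 2 * x by positivity)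
  have h5 := mul_le_mul_of_nonneg_left h3 (show 0 ≤ x ^ 2 by positivity)
  nlinarith

theorem nm_Vo (y : ℝ) (hy : 0 < y) (f : Ar) (hf : ∀ i j, 0 ≤ f i j) (M : ℕ) :
    nm M (Vo y f) ≤ (nm (M + 1) f - ∑ i ∈ range (M + 1), f i 0) / y
      + ∑ i ∈ range (M + 1), f i 0 := by
  have h1 := div_le_div_of_nonneg_right (up_col f hf M) hy.le
  have h2 : ∑ i ∈ range M, ∑ j ∈ range M, (if j = 0 then f i 0 else 0) ≤
      ∑ i ∈ range (M + 1), f i 0 := by
    refine le_trans (sum_le_sum fun i _ => ?_) (up_one (fun i => f i 0) (fun i => hf i 0)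
      (Nat.le_succ M))
    rw [sum_ite_eq']
    split_ifs
    · exact le_rfl
    · exact hf i 0
  have h3 : nm M (Vo y f) = (∑ i ∈ range M, ∑ j ∈ range M, f i (j + 1)) / y
      + ∑ i ∈ range M, ∑ j ∈ range M, (if j = 0 then f i 0 else 0) := by
    simp only [nm, Vo, sum_add_distrib, sum_div]
  rw [h3]
  exact add_le_add h1 h2

theorem nm_Lin (x : ℝ) (hx : 0 < x) (f : Ar) (hf : ∀ i j, 0 ≤ f i j) (M : ℕ) :
    nm M (Lin x f) ≤ (nm (M + 1) f - ∑ j ∈ range (M + 1), f 0 j) / x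
      + (2 + 2 * x) * nm (M + 1) f := by
  have h1 := div_le_div_of_nonneg_right (up_row f hf M) hx.le
  have h2 : ∑ i ∈ range M, ∑ j ∈ range M, f i j ≤ nm (M + 1) f :=
    up_rect f hf (Nat.le_succ M) (Nat.le_succ M)
  have h3 := (up_dn f hf M M).trans h2
  have h4 : nm M (Lin x f) = (∑ i ∈ range M, ∑ j ∈ range M, f (i + 1) j) / x
      + 2 * ∑ i ∈ range M, ∑ j ∈ range M, f i j
      + 2 * x * ∑ i ∈ range M, ∑ j ∈ range M, dn f i j := by
    simp only [nm, Lin, sum_add_distrib, sum_div, mul_sum]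
  have h5 := mul_le_mul_of_nonneg_left h3 (show 0 ≤ 2 * x by positivity)
  rw [h4]
  linarith

theorem nm_del (M : ℕ) : nm M del ≤ 1 := by
  cases M with
  | zero => simp [nm]
  | succ M =>
    rw [nm, sum_range_succ' _ M, sum_range_succ' _ M]
    simp [del]

theorem nm_mono_M (f : Ar) (hf : ∀ i j, 0 ≤ f i j) {M M' : ℕ} (h : M ≤ M') :
    nm M f ≤ nm M' f :=
  up_rect f hf h h

end Pool.Agent.P.MP_8acafb_co.T3
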