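import Pool.Agent.P.MP_8acafb_co.Encode

namespace Pool.Agent.P.MP_8acafb_co

open Finset

/-- the sortable permutations -/
def X (t n : ℕ) : Finset (List ℕ) :=
  (List.range n).permutations.toFinset.filter (fun l => s^[t] l = List.range n)

theorem mem_X {t n : ℕ} {π : List ℕ} : π ∈ X t n ↔ Srt t n π := by
  simp [X, Srt, List.mem_permutations]

theorem W_eq (t n : ℕ) : W t n = (X t n).card := rfl

/-- code of the `i`-th window -/
noncomputable def cd (t n R i : ℕ) (π : List ℕ) : ℕ × List (ℕ ⊕ ℕ) × List ℕ × List ℕ :=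
  code t n (π.take (i * R)) ((π.drop (i * R)).take R) (π.drop ((i + 1) * R))

theorem win1 (R i : ℕ) (π : List ℕ) :
    π.take (i * R) ++ (π.drop (i * R)).take R = π.take ((i + 1) * R) := by
  rw [Nat.succ_mul, List.take_add]

theorem win2 (R i : ℕ) (π : List ℕ) :
    (π.drop (i * R)).take R ++ π.drop ((i + 1) * R) = π.drop (i * R) := by
  rw [Nat.succ_mul, ← List.drop_drop, List.take_append_drop]

theorem win3 (R i : ℕ) (π : List ℕ) :
    π.take (i * R) ++ (π.drop (i * R)).take R ++ π.drop ((i + 1) * R) = π := by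
  rw [win1, List.take_append_drop]

theorem cd_inj {t R m : ℕ} {π π' : List ℕ} (h : Srt t (m * R) π) (h' : Srt t (m * R) π')
    (hc : ∀ i < m, cd t (m * R) R i π = cd t (m * R) R i π') : π = π' := by
  have hend : ∀ {π : List ℕ}, Srt t (m * R) π →
      info (m * R) (π.take (m * R)) (π.drop (m * R)) = ([], fun _ => 0) := by
    intro π h
    have hl : π.length = m * R := by simpa using h.1.length_eq
    rw [List.take_of_length_le hl.le, List.drop_of_length_le hl.le]
    simp only [info, fl, List.foldr_nil, Prod.mk.injEq, true_and]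
    funext v
    split_ifs with hv
    · exact rk_eq_zero _ _ (fun h1 => by have := List.mem_range.1 (h.1.subset h1); omega)
    · rfl
  have key : ∀ j i, i + j = m → info (m * R) (π.take (i * R)) (π.drop (i * R)) =
      info (m * R) (π'.take (i * R)) (π'.drop (i * R)) := by
    intro j
    induction j with
    | zero => intro i hi; obtain rfl : i = m := by omega
              rw [hend h, hend h']
    | succ j ih =>
      intro i hi
      have h1 := ih (i + 1) (by omega)
      rw [← win1, ← win1] at h1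
      have := info_determined (by rw [win3]; exact h) (by rw [win3]; exact h') h1
        (hc i (by omega))
      rwa [win2, win2] at this
  simpa [info] using congrArg Prod.fst (key m 0 (by omega))

theorem cd_mem {t R m : ℕ} {π : List ℕ} (h : Srt t (m * R) π) (i : ℕ) (hi : i < m) :
    cd t (m * R) R i π ∈ Codes t (m * R) R := by
  have hl : π.length = m * R := by simpa using h.1.length_eq
  have h1 := code_mem (t := t) (n := m * R) (p := π.take (i * R)) (u := (π.drop (i * R)).take R)
    (q := π.drop ((i + 1) * R)) (by rw [win3]; exact h)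
  have h2 : ((π.drop (i * R)).take R).length = R := by
    rw [List.length_take, List.length_drop, hl]
    have := Nat.mul_le_mul_right R (Nat.succ_le_of_lt hi)
    rw [Nat.succ_mul] at this
    omega
  rwa [h2] at h1

theorem cd_sum {t R m : ℕ} {π : List ℕ} (h : Srt t (m * R) π) :
    ∑ i ∈ range m, (cd t (m * R) R i π).1 = m * R := by
  have hl : π.length = m * R := by simpa using h.1.length_eq
  have h1 : ∀ i, (cd t (m * R) R i π).1 =
      fl (m * R) (π.drop ((i + 1) * R)) - fl (m * R) (π.drop (i * R)) := by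
    intro i; simp only [cd, code, win2]
  have h2 : Monotone (fun i => fl (m * R) (π.drop (i * R))) := by
    refine monotone_nat_of_le_succ fun i => ?_
    have := fl_append_le (m * R) ((π.drop (i * R)).take R) (π.drop ((i + 1) * R))
    rwa [win2] at this
  simp only [h1]
  rw [sum_range_tsub h2, List.drop_of_length_le hl.le]
  have h3 : fl (m * R) π = 0 := by
    rcases Nat.eq_zero_or_pos (m * R) with h0 | h0
    · have := (fl_le (m * R) π).1; omega
    · have := (fl_le (m * R) π).2 0 (h.1.symm.subset (List.mem_range.2 h0)); omega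
  simp [fl] at h3 ⊢
  omega

theorem chain (t R m : ℕ) (θ : ℝ) (hθ : 0 ≤ θ) :
    (W t (m * R) : ℝ) * θ ^ (m * R) ≤ (∑ c ∈ Codes t (m * R) R, θ ^ c.1) ^ m := by
  classical
  have h1 : (∑ c ∈ Codes t (m * R) R, θ ^ c.1) ^ m =
      ∑ f ∈ Fintype.piFinset (fun _ : Fin m => Codes t (m * R) R), ∏ i, θ ^ (f i).1 := by
    rw [← prod_univ_sum (fun _ : Fin m => Codes t (m * R) R) (fun _ c => θ ^ c.1), prod_const,
      card_univ, Fintype.card_fin]
  have h2 : ∑ π ∈ X t (m * R), ∏ i : Fin m, θ ^ (cd t (m * R) R i π).1 =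
      (W t (m * R) : ℝ) * θ ^ (m * R) := by
    rw [W_eq, ← nsmul_eq_mul, ← sum_const]
    refine sum_congr rfl fun π hπ => ?_
    rw [prod_pow_eq_pow_sum, Fin.sum_univ_eq_sum_range (fun i => (cd t (m * R) R i π).1),
      cd_sum (mem_X.1 hπ)]
  rw [h1, ← h2, ← sum_image (s := X t (m * R)) (g := fun π (i : Fin m) => cd t (m * R) R i π)
    (f := fun f => ∏ i, θ ^ (f i).1)]
  · refine sum_le_sum_of_subset_of_nonneg ?_ fun f _ _ => prod_nonneg fun i _ => pow_nonneg hθ _
    intro f hf
    obtain ⟨π, hπ, rfl⟩ := mem_image.1 hf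
    exact Fintype.mem_piFinset.2 fun i => cd_mem (mem_X.1 hπ) i i.2
  · intro π hπ π' hπ' h
    exact cd_inj (mem_X.1 hπ) (mem_X.1 hπ') fun i hi => congrFun h ⟨i, hi⟩

theorem sum_Codes_le (t n R : ℕ) (θ : ℝ) (hθ : 0 ≤ θ) :
    ∑ c ∈ Codes t n R, θ ^ c.1 ≤ ∑ g ∈ range (n + 1), (θ * (t + 1)) ^ g * (t + 1) ^ (t + 1) *
      ∑ w ∈ AllWords g t R, (1 / (t + 1 : ℝ)) ^ nl w := by
  have hf : ∀ c : ℕ × List (ℕ ⊕ ℕ) × List ℕ × List ℕ, 0 ≤ θ ^ c.1 := fun c => pow_nonneg hθ _
  refine (sum_biUnion_le' _ _ _ hf).trans (sum_le_sum fun g _ => ?_)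
  refine (sum_biUnion_le' _ _ _ hf).trans ?_
  rw [mul_sum]
  refine le_trans (sum_le_sum fun w hw => ?_) (sum_le_sum_of_subset_of_nonneg
    (filter_subset (fun w => nl w ≤ g) _) fun w _ _ => by positivity)
  have hw' := (mem_filter.1 hw).2
  rw [sum_image (fun a _ b _ h => by simpa using h)]
  simp only [sum_const, card_product, nsmul_eq_mul, Nat.cast_mul]
  have h1 : ((Lst t (g - nl w)).card : ℝ) ≤ (t + 1) ^ (g - nl w) := by
    exact_mod_cast card_Lst t _
  have h2 : ((Lst t (t + 1)).card : ℝ) ≤ (t + 1) ^ (t + 1) := by exact_mod_cast card_Lst t _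
  have h3 : ((t : ℝ) + 1) ^ (g - nl w) = (t + 1) ^ g * (1 / (t + 1 : ℝ)) ^ nl w := by
    rw [pow_sub₀ _ (by positivity) hw', one_div, inv_pow]
  calc _ ≤ ((t : ℝ) + 1) ^ (g - nl w) * (t + 1) ^ (t + 1) * θ ^ g := by gcongr
    _ = _ := by rw [h3, mul_pow]; ring

theorem geom_bound (η : ℝ) (hη : 0 < η) (N : ℕ) :
    ∑ g ∈ range N, Real.exp (-η) ^ g ≤ 1 + 1 / η := by
  have h1 : Real.exp (-η) ≤ 1 / (1 + η) := by
    rw [Real.exp_neg, one_div]
    exact inv_anti₀ (by linarith) (by linarith [Real.add_one_le_exp η])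
  have h2 : 1 / (1 + η) < 1 := by rw [div_lt_one (by linarith)]; linarith
  calc ∑ g ∈ range N, Real.exp (-η) ^ g ≤ ∑ g ∈ range N, (1 / (1 + η)) ^ g := by gcongr
    _ ≤ ∑' g, (1 / (1 + η)) ^ g :=
      (summable_geometric_of_lt_one (by positivity) h2).sum_le_tsum _ fun _ _ => by positivity
    _ = 1 + 1 / η := by
      rw [tsum_geometric_of_lt_one (by positivity) h2]
      have h3 : 1 - 1 / (1 + η) = η / (1 + η) := by field_simp; ring
      rw [h3, inv_div]
      field_simp
      ring

/-- the upper bound along multiples of `R` -/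
theorem W_upper (t R m : ℕ) (hR : 0 < R) (e : ℝ) (he : 0 < e) (he1 : e ≤ 1) (B : ℝ)
    (hB : t / Real.exp 1 + 1 / e + 1 + t * e ≤ B) (η : ℝ) (hη : η = R / (B * (t + 1))) :
    (W t (m * R) : ℝ) ≤ (((t + 1) * B * Real.exp (2 * η)) ^ R *
      ((1 + 1 / η) * (t + 1) ^ (t + 1) * 2 ^ t * Real.exp (B + 2) * (R + 1))) ^ m := by
  have hB0 : 0 < B := lt_of_lt_of_le (by positivity) hB
  have hη0 : 0 < η := by rw [hη]; positivity
  set θ : ℝ := Real.exp (-(2 * η)) / (t + 1) with hθ
  have hθ0 : 0 < θ := by positivity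
  set C : ℝ := (t + 1) ^ (t + 1) * 2 ^ t * Real.exp (B + 2) * (R + 1) with hC
  have h1 : ∑ c ∈ Codes t (m * R) R, θ ^ c.1 ≤ B ^ R * ((1 + 1 / η) * C) := by
    refine (sum_Codes_le t _ R θ hθ0.le).trans ?_
    refine le_trans (sum_le_sum (g := fun g => B ^ R * (Real.exp (-η) ^ g * C)) fun g _ => ?_) ?_
    · have h2 := sum_AllWords_le g t R (1 / (t + 1 : ℝ)) (by positivity) e he he1 B hB
      have h3 : θ * (t + 1) = Real.exp (-(2 * η)) := by rw [hθ]; field_simp
      have h4 : (B + g * (1 / (t + 1 : ℝ))) ^ R ≤ B ^ R * Real.exp η ^ g := by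
        have h5 : B + g * (1 / (t + 1 : ℝ)) ≤ B * Real.exp (g / (B * (t + 1))) := by
          have h6 := Real.add_one_le_exp (g / (B * (t + 1)))
          have h7 : B + g * (1 / (t + 1 : ℝ)) = B * (g / (B * (t + 1)) + 1) := by
            field_simp; ring
          rw [h7]; gcongr
        refine (pow_le_pow_left₀ (by positivity) h5 R).trans (le_of_eq ?_)
        rw [mul_pow, ← Real.exp_nat_mul, ← Real.exp_nat_mul, hη]
        congr 2; ring
      have h8 : Real.exp (-(2 * η)) ^ g * Real.exp η ^ g = Real.exp (-η) ^ g := by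
        rw [← mul_pow, ← Real.exp_add]; congr 2; ring
      rw [h3]
      calc _ ≤ Real.exp (-(2 * η)) ^ g * (t + 1) ^ (t + 1) *
            (2 ^ t * Real.exp (B + 2) * (R + 1) * (B ^ R * Real.exp η ^ g)) := by
            gcongr
            exact h2.trans (by gcongr)
        _ = _ := by rw [← h8, hC]; ring
    · rw [← mul_sum, ← sum_mul]
      have := geom_bound η hη0 (m * R + 1)
      gcongr
  have h2 := (chain t R m θ hθ0.le).trans (pow_le_pow_left₀
    (sum_nonneg fun c _ => pow_nonneg hθ0.le _) h1 m)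
  have h3 : ((t + 1) * B * Real.exp (2 * η)) ^ R *
      ((1 + 1 / η) * (t + 1) ^ (t + 1) * 2 ^ t * Real.exp (B + 2) * (R + 1)) * θ ^ R =
      B ^ R * ((1 + 1 / η) * C) := by
    have h4 : ((t + 1) * B * Real.exp (2 * η)) * θ = B := by
      rw [hθ, Real.exp_neg]; field_simp
    rw [mul_right_comm, ← mul_pow, h4, hC]; ring
  rw [← h3, mul_pow, ← pow_mul, mul_comm R m] at h2
  exact le_of_mul_le_mul_right h2 (by positivity)

end Pool.Agent.P.MP_8acafb_co
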